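import Mathlib
import Pool.Agent.H410R2.ENIface2

/-!
GENERAL ENGINE: repelling Selberg weights with several residue classes per prime
(generalisation of helper410's ENGINE, Pool/Agent/H410R2/ENIface.lean).

For a prime p and a position a the number at the position a is divisible by p when
`m % p ∈ Hs p a`, a set of `p / q p` residue classes (at most κ0 of them).
All statements are the statements of ACIface / ENIface / ENIface2 with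
  * `m % p = ρ p a`   replaced by `m % p ∈ Hs p a`,
  * `(p : ℝ)`         replaced by `q p` in psi, wt, GG, Pi1, V1,
  * a collision       `ρ p a = ρ p b` replaced by `¬ Disjoint (Hs p a) (Hs p b)`,
  * constants depending also on κ0.
-/

set_option autoImplicit false

open Finset

namespace Pool.Agent.H474R2.GE

open Pool.Agent.H410R2.AC Pool.Agent.H410R2.EN

/-- the hit sets are good for the primes of P and the positions of B -/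
def Hit (κ0 : ℕ) (Hs : ℕ → ℕ → Finset ℕ) (q : ℕ → ℝ) (P B : Finset ℕ) : Prop :=
  ∀ p ∈ P, ∀ a ∈ B, Hs p a ⊆ range p ∧ 1 ≤ (Hs p a).card ∧ (Hs p a).card ≤ κ0 ∧
    ((Hs p a).card : ℝ) * q p = p

/-- local factor of a (possibly absent) position -/
noncomputable def psi (Hs : ℕ → ℕ → Finset ℕ) (q : ℕ → ℝ) (p : ℕ) (o : Option ℕ) (m : ℕ) : ℝ :=
  match o with
  | none => 1
  | some a => if m % p ∈ Hs p a then 1 - q p else 1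

/-- weight of a squarefree number -/
noncomputable def wt (q : ℕ → ℝ) (R : Finset ℕ) : ℝ := ∏ p ∈ R, (1 / (q p - 1))

/-- mass of a family -/
noncomputable def GG (q : ℕ → ℝ) (S : Finset (Finset ℕ)) : ℝ := ∑ R ∈ S, wt q R

/-- Selberg type function of a family at a position -/
noncomputable def FF (Hs : ℕ → ℕ → Finset ℕ) (q : ℕ → ℝ) (S : Finset (Finset ℕ)) (o : Option ℕ)
    (m : ℕ) : ℝ := ∑ R ∈ S, wt q R * ∏ p ∈ R, psi Hs q p o m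

/-- product of `1 + 1/(q-1)` over P -/
noncomputable def Pi1 (q : ℕ → ℝ) (P : Finset ℕ) : ℝ := ∏ p ∈ P, (1 + 1 / (q p - 1))

/-- product of `1 - 1/q` -/
noncomputable def V1 (q : ℕ → ℝ) (P : Finset ℕ) : ℝ := ∏ p ∈ P, (1 - 1 / q p)

/-- size of the non-diagonal contributions for the positions in U -/
noncomputable def del (Hs : ℕ → ℕ → Finset ℕ) (P U : Finset ℕ) : ℝ :=
  ∑ p ∈ P, 1 / ((p : ℝ) - 1) ^ 2 +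
    ∑ p ∈ P.filter (fun p => ∃ a ∈ U, ∃ b ∈ U, a ≠ b ∧ ¬ Disjoint (Hs p a) (Hs p b)),
      1 / ((p : ℝ) - 1)

/-- the same with the exceptional class `e p` -/
noncomputable def dl (e : ℕ → ℕ) (Hs : ℕ → ℕ → Finset ℕ) (P U : Finset ℕ) : ℝ :=
  ∑ p ∈ P, 1 / ((p : ℝ) - 1) ^ 2 +
    ∑ p ∈ P.filter (fun p => (∃ a ∈ U, ∃ b ∈ U, a ≠ b ∧ ¬ Disjoint (Hs p a) (Hs p b)) ∨
      ∃ a ∈ U, e p ∈ Hs p a), 1 / ((p : ℝ) - 1)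

/-- product of the functions of a configuration -/
noncomputable def ZZ {T : Type} [Fintype T] (Hs : ℕ → ℕ → Finset ℕ) (q : ℕ → ℝ)
    (S : T → Finset (Finset ℕ)) (σ : T → Option ℕ) (m : ℕ) : ℝ := ∏ τ, FF Hs q (S τ) (σ τ) m

/-- the local expectation -/
noncomputable def Ep {T : Type} [Fintype T] (Hs : ℕ → ℕ → Finset ℕ) (q : ℕ → ℝ)
    (σ σ' : T → Option ℕ) (R R' : T → Finset ℕ) (p : ℕ) : ℝ :=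
  (∑ x ∈ range p, (∏ τ ∈ Finset.univ.filter (fun τ => p ∈ R τ), psi Hs q p (σ τ) x) *
    ∏ τ ∈ Finset.univ.filter (fun τ => p ∈ R' τ), psi Hs q p (σ' τ) x) / p

/-- the local model of the correlation of two configurations -/
noncomputable def LS {T : Type} [Fintype T] [DecidableEq T] (Hs : ℕ → ℕ → Finset ℕ) (q : ℕ → ℝ)
    (P : Finset ℕ) (S S' : T → Finset (Finset ℕ)) (σ σ' : T → Option ℕ) : ℝ :=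
  ∑ R ∈ Fintype.piFinset S, ∑ R' ∈ Fintype.piFinset S',
    (∏ τ, wt q (R τ)) * (∏ τ, wt q (R' τ)) * ∏ p ∈ P, Ep Hs q σ σ' R R' p

/-- standing assumptions on a configuration -/
def Std {T : Type} [Fintype T] (κ0 : ℕ) (Hs : ℕ → ℕ → Finset ℕ) (q : ℕ → ℝ) (P : Finset ℕ)
    (S : T → Finset (Finset ℕ)) (σ : T → Option ℕ) : Prop :=
  Inj σ ∧ (∀ τ, σ τ = none → S τ = {∅}) ∧ (∀ τ, ∀ R ∈ S τ, R ⊆ P) ∧ Hit κ0 Hs q P (pos σ)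

/-- GE1 (generalises AC.LocalSum): sum over all divisors in the local model -/
def LocalSum : Prop := ∀ n κ0 : ℕ, ∃ K : ℝ, 0 ≤ K ∧
  ∀ (T : Type) [Fintype T] [DecidableEq T], Fintype.card T ≤ n →
  ∀ (P : Finset ℕ) (Hs : ℕ → ℕ → Finset ℕ) (q : ℕ → ℝ) (S S' : T → Finset (Finset ℕ))
    (σ σ' : T → Option ℕ),
    (∀ p ∈ P, p.Prime ∧ 2 * κ0 ≤ p) → Std κ0 Hs q P S σ → Std κ0 Hs q P S' σ' →
    (Defect S S' σ σ' → |LS Hs q P S S' σ σ'| ≤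
      K * Pi1 q P ^ (pos σ ∩ pos σ').card * (Real.exp (K * del Hs P (pos σ ∪ pos σ')) - 1)) ∧
    (σ = σ' → S = S' → |LS Hs q P S S' σ σ' - ∏ τ, GG q (S τ)| ≤
      K * Pi1 q P ^ (pos σ ∩ pos σ').card * (Real.exp (K * del Hs P (pos σ ∪ pos σ')) - 1))

/-- indicator that no prime of P divides the number at the position a -/
noncomputable def rg (Hs : ℕ → ℕ → Finset ℕ) (P : Finset ℕ) (a m : ℕ) : ℝ :=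
  if ∀ p ∈ P, m % p ∉ Hs p a then 1 else 0

/-- GE2 (generalises EN.ExpandW): one product of local functions, over m for which all positions of
U are P1-rough -/
def ExpandW : Prop := ∀ n κ0 : ℕ, ∃ K : ℕ, 1 ≤ K ∧
  ∀ (b J z0 D0 D2 : ℕ) (P1 P2 : Finset ℕ) (Hs : ℕ → ℕ → Finset ℕ) (q : ℕ → ℝ)
    (κ : ℕ → ℕ → ℝ) (e : ℕ → ℕ)
    (w : ℕ → ℝ) (M : ℕ) (A : ℝ) (err : Finset ℕ → ℝ) (U Q : Finset ℕ) (h : ℕ → ℕ → ℝ)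
    (Cl : ℕ → Finset ℕ) (δ : ℝ),
    U.card ≤ n → K ≤ b → K ≤ z0 → (∀ p ∈ P1, p.Prime ∧ z0 < p ∧ p ≤ 2 ^ 2 ^ J) →
    (∀ p ∈ P2, p.Prime ∧ z0 < p ∧ 2 ^ 2 ^ J < p) → Dens κ e (P1 ∪ P2) → (∀ m, 0 ≤ w m) → 0 ≤ A →
    Equid κ w M A (P1 ∪ P2) D0 err → Q ⊆ P2 → ∏ p ∈ Q, p ≤ D2 → (2 ^ 2 ^ J) ^ (K * b) * D2 ≤ D0 →
    Hit κ0 Hs q P1 U → (∀ p ∈ P1, 1 / (p : ℝ) ≤ 1 / q p ∧ 1 / q p ≤ κ0 / (p : ℝ)) →
    (∀ p ∈ Q, Cl p ⊆ range p ∧ ∀ c < p, c ∉ Cl p → h p c = 1) →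
    dl e Hs P1 U ≤ δ → δ ≤ 1 →
    |∑ m ∈ range M, w m * ((∏ a ∈ U, rg Hs P1 a m) * ∏ p ∈ Q, h p (m % p)) -
        A * V1 q P1 ^ U.card * ∏ p ∈ Q, ((∑ c ∈ range p, h p c) / (p : ℝ))| ≤
      A * V1 q P1 ^ U.card *
        (K * (Real.exp (K * δ) - 1 + (1 / 2 : ℝ) ^ b) * ∏ p ∈ Q, (1 + aL (Cl p) (h p) p) +
          (∏ p ∈ Q, (1 + aL (Cl p) (h p) p + dL (Cl p) (h p) (e p) p) -
            ∏ p ∈ Q, (1 + aL (Cl p) (h p) p))) +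
      ((J : ℝ) + 2) * ∑ T2 ∈ Q.powerset, (∏ p ∈ T2, sL (Cl p) (h p)) *
        ∑ T1 ∈ P1.powerset.filter (fun T : Finset ℕ => ∏ p ∈ T, p ≤ (2 ^ 2 ^ J) ^ (K * b)),
          (K : ℝ) ^ T1.card * err (T1 ∪ T2)

/-- the local function of a pair of configurations and a choice of divisors -/
noncomputable def hh {T : Type} [Fintype T] (Hs : ℕ → ℕ → Finset ℕ) (q : ℕ → ℝ)
    (σ σ' : T → Option ℕ) (R R' : T → Finset ℕ) (p c : ℕ) : ℝ :=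
  (∏ τ ∈ Finset.univ.filter (fun τ => p ∈ R τ), psi Hs q p (σ τ) c) *
    ∏ τ ∈ Finset.univ.filter (fun τ => p ∈ R' τ), psi Hs q p (σ' τ) c

/-- the classes of the positions -/
def CL {T : Type} [Fintype T] (Hs : ℕ → ℕ → Finset ℕ) (σ σ' : T → Option ℕ) (p : ℕ) : Finset ℕ :=
  (pos σ ∪ pos σ').biUnion (Hs p)

/-- GE3 (generalises EN.SumW): the sums over all divisors of the absolute local sizes -/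
def SumW : Prop := ∀ n κ0 : ℕ, ∃ K : ℕ, 1 ≤ K ∧
  ∀ (T : Type) [Fintype T] [DecidableEq T], Fintype.card T ≤ n →
  ∀ (P : Finset ℕ) (Hs : ℕ → ℕ → Finset ℕ) (q : ℕ → ℝ) (e : ℕ → ℕ)
    (S S' : T → Finset (Finset ℕ)) (σ σ' : T → Option ℕ),
    (∀ p ∈ P, p.Prime ∧ 2 * κ0 ≤ p ∧ 2 ≤ q p) → Std κ0 Hs q P S σ → Std κ0 Hs q P S' σ' →
    (∑ R ∈ Fintype.piFinset S, ∑ R' ∈ Fintype.piFinset S', (∏ τ, wt q (R τ)) * (∏ τ, wt q (R' τ)) *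
      ∏ p ∈ QQ R R', (1 + aL (CL Hs σ σ' p) (hh Hs q σ σ' R R' p) p) ≤ Pi1 q P ^ K) ∧
    (∑ R ∈ Fintype.piFinset S, ∑ R' ∈ Fintype.piFinset S', (∏ τ, wt q (R τ)) * (∏ τ, wt q (R' τ)) *
      (∏ p ∈ QQ R R', (1 + aL (CL Hs σ σ' p) (hh Hs q σ σ' R R' p) p +
          dL (CL Hs σ σ' p) (hh Hs q σ σ' R R' p) (e p) p) -
        ∏ p ∈ QQ R R', (1 + aL (CL Hs σ σ' p) (hh Hs q σ σ' R R' p) p)) ≤
      Pi1 q P ^ K * (Real.exp (K * dl e Hs P (pos σ ∪ pos σ')) - 1)) ∧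
    (∀ (F : Finset ℕ → ℝ) (D2 : ℕ), (∀ T2, 0 ≤ F T2) →
      (∀ R ∈ Fintype.piFinset S, ∀ R' ∈ Fintype.piFinset S',
        (∏ τ, ∏ p ∈ R τ, p) * (∏ τ, ∏ p ∈ R' τ, p) ≤ D2) →
      ∑ R ∈ Fintype.piFinset S, ∑ R' ∈ Fintype.piFinset S', (∏ τ, wt q (R τ)) *
        (∏ τ, wt q (R' τ)) *
        ∑ T2 ∈ (QQ R R').powerset, (∏ p ∈ T2, sL (CL Hs σ σ' p) (hh Hs q σ σ' R R' p)) * F T2 ≤
      Pi1 q P ^ K * ∑ T2 ∈ P.powerset.filter (fun T : Finset ℕ => ∏ p ∈ T, p ≤ D2),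
        (K : ℝ) ^ T2.card * F T2)

/-- mass of the product of two configurations, over m for which all positions are P1-rough -/
noncomputable def MM {T : Type} [Fintype T] (Hs : ℕ → ℕ → Finset ℕ) (q : ℕ → ℝ) (P1 : Finset ℕ)
    (w : ℕ → ℝ) (M : ℕ) (S S' : T → Finset (Finset ℕ)) (σ σ' : T → Option ℕ) : ℝ :=
  ∑ m ∈ range M, w m * ((∏ a ∈ pos σ ∪ pos σ', rg Hs P1 a m) * (ZZ Hs q S σ m * ZZ Hs q S' σ' m))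

/-- the error term of the moments -/
noncomputable def EE (q : ℕ → ℝ) (K b J : ℕ) (P2 : Finset ℕ) (A v δ E : ℝ) : ℝ :=
  A * v * (K * Pi1 q P2 ^ K * (Real.exp (K * δ) - 1 + (1 / 2 : ℝ) ^ b)) +
    K * Pi1 q P2 ^ K * (((J : ℝ) + 2) * E)

/-- GE4 (generalises EN.MomW): mixed moments of two configurations -/
def MomW : Prop := ∀ n κ0 : ℕ, ∃ K : ℕ, 1 ≤ K ∧
  ∀ (T : Type) [Fintype T] [DecidableEq T], Fintype.card T ≤ n →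
  ∀ (b J z0 D0 D2 : ℕ) (P1 P2 : Finset ℕ) (Hs : ℕ → ℕ → Finset ℕ) (q : ℕ → ℝ)
    (κ : ℕ → ℕ → ℝ) (e : ℕ → ℕ)
    (w : ℕ → ℝ) (M : ℕ) (A : ℝ) (err : Finset ℕ → ℝ) (S S' : T → Finset (Finset ℕ))
    (σ σ' : T → Option ℕ) (δ : ℝ),
    K ≤ b → K ≤ z0 → (∀ p ∈ P1, p.Prime ∧ z0 < p ∧ p ≤ 2 ^ 2 ^ J) →
    (∀ p ∈ P2, p.Prime ∧ z0 < p ∧ 2 ^ 2 ^ J < p) → Dens κ e (P1 ∪ P2) → (∀ m, 0 ≤ w m) → 0 ≤ A →
    (∀ p ∈ P1 ∪ P2, 1 / (p : ℝ) ≤ 1 / q p ∧ 1 / q p ≤ κ0 / (p : ℝ)) →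
    Equid κ w M A (P1 ∪ P2) D0 err → (2 ^ 2 ^ J) ^ (K * b) * D2 ≤ D0 →
    (∀ R ∈ Fintype.piFinset S, ∀ R' ∈ Fintype.piFinset S',
      (∏ τ, ∏ p ∈ R τ, p) * (∏ τ, ∏ p ∈ R' τ, p) ≤ D2) →
    Std κ0 Hs q P2 S σ → Std κ0 Hs q P2 S' σ' → Hit κ0 Hs q P1 (pos σ ∪ pos σ') →
    dl e Hs (P1 ∪ P2) (pos σ ∪ pos σ') ≤ δ → δ ≤ 1 →
    (Defect S S' σ σ' → |MM Hs q P1 w M S S' σ σ'| ≤
      EE q K b J P2 A (V1 q P1 ^ (pos σ ∪ pos σ').card) δ (ET K (P1 ∪ P2) D0 err)) ∧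
    (σ = σ' → S = S' →
      |MM Hs q P1 w M S S' σ σ' - A * V1 q P1 ^ (pos σ ∪ pos σ').card * ∏ τ, GG q (S τ)| ≤
      EE q K b J P2 A (V1 q P1 ^ (pos σ ∪ pos σ').card) δ (ET K (P1 ∪ P2) D0 err))

/-- the one-particle values -/
noncomputable def xx {n : ℕ} (Hs : ℕ → ℕ → Finset ℕ) (q : ℕ → ℝ) (P1 : Finset ℕ)
    (S : Fin n → Finset (Finset ℕ)) (g : Fin n → ℝ) (m : ℕ) (τ : Fin n) (a : ℕ) : ℝ :=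
  - g τ * (rg Hs P1 a m * FF Hs q (S τ) (some a) m)

/-- standing assumptions of the engine -/
def Setup (κ0 K b J z0 D0 : ℕ) (P1 P2 B : Finset ℕ) (Hs : ℕ → ℕ → Finset ℕ) (q : ℕ → ℝ)
    (κ : ℕ → ℕ → ℝ) (e : ℕ → ℕ)
    (w : ℕ → ℝ) (M : ℕ) (A : ℝ) (err : Finset ℕ → ℝ) : Prop :=
  K ≤ b ∧ K ≤ z0 ∧ (∀ p ∈ P1, p.Prime ∧ z0 < p ∧ p ≤ 2 ^ 2 ^ J) ∧
    (∀ p ∈ P2, p.Prime ∧ z0 < p ∧ 2 ^ 2 ^ J < p) ∧ Dens κ e (P1 ∪ P2) ∧ (∀ m, 0 ≤ w m) ∧ 0 ≤ A ∧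
    (∀ p ∈ P1 ∪ P2, 1 / (p : ℝ) ≤ 1 / q p ∧ 1 / q p ≤ κ0 / (p : ℝ)) ∧
    Equid κ w M A (P1 ∪ P2) D0 err ∧ Hit κ0 Hs q (P1 ∪ P2) B

/-- GE5 (generalises EN.SecondW): second moments, with and without a spectator position -/
def SecondW : Prop := ∀ (n κ0 : ℕ) (C : ℝ), 1 ≤ C → ∃ K : ℕ, 1 ≤ K ∧
  ∀ (b J z0 D0 : ℕ) (P1 P2 B : Finset ℕ) (Hs : ℕ → ℕ → Finset ℕ) (q : ℕ → ℝ)
    (κ : ℕ → ℕ → ℝ) (e : ℕ → ℕ)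
    (w : ℕ → ℝ) (M : ℕ) (A : ℝ) (err : Finset ℕ → ℝ) (S : Fin n → Finset (Finset ℕ))
    (g : Fin n → ℝ) (Y : Fin n → ℕ) (Y1 : ℕ) (V δ : ℝ),
    Setup κ0 K b J z0 D0 P1 P2 B Hs q κ e w M A err →
    (2 ^ 2 ^ J) ^ (K * b) * (Y1 * ∏ τ, Y τ) ^ 2 ≤ D0 → 0 < V → V ≤ 1 → δ ≤ 1 →
    Pi1 q P2 ≤ C / V → (B.card : ℝ) * V1 q P1 ≤ C / V → (∀ τ, 0 ≤ g τ ∧ g τ ≤ C) →
    (∀ τ, ∀ R ∈ S τ, R ⊆ P2) → (∀ τ, ∅ ∉ S τ) → (∀ τ τ', τ ≠ τ' → Disjoint (S τ) (S τ')) →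
    (∀ U ⊆ B, U.card ≤ 2 * n + 2 → dl e Hs (P1 ∪ P2) U ≤ δ) →
    (∀ τ, 1 ≤ Y τ ∧ ∀ R ∈ S τ, ∏ p ∈ R, p ≤ Y τ) → 1 ≤ Y1 →
    (∀ (c : (Fin n → Option ℕ) → ℝ), (∀ σ, |c σ| ≤ 1) →
      |∑ m ∈ range M, w m * WW B c (xx Hs q P1 S g m) ^ 2 -
        A * ∑ σ ∈ cfg n B, c σ ^ 2 * occ (fun τ => g τ ^ 2 * (V1 q P1 * GG q (S τ))) σ| ≤
      EF n K b J B.card A V δ (ET K (P1 ∪ P2) D0 err)) ∧
    (∀ (S1 : Finset (Finset ℕ)), (∀ R ∈ S1, R ⊆ P2) → (∀ R ∈ S1, ∏ p ∈ R, p ≤ Y1) →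
      ∀ a₀ ∈ B, ∀ (c : (Fin n → Option ℕ) → ℝ), (∀ σ, |c σ| ≤ 1) →
      |∑ m ∈ range M, w m * (WW (B.erase a₀) c (xx Hs q P1 S g m) *
          (rg Hs P1 a₀ m * FF Hs q S1 (some a₀) m)) ^ 2 -
        A * (V1 q P1 * GG q S1 * ∑ σ ∈ cfg n (B.erase a₀), c σ ^ 2 *
          occ (fun τ => g τ ^ 2 * (V1 q P1 * GG q (S τ))) σ)| ≤
      EF n K b J B.card (A * V1 q P1) V δ (ET K (P1 ∪ P2) D0 err))

/-- GE6 (generalises EN.FourthW): fourth moment -/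
def FourthW : Prop := ∀ (n κ0 : ℕ) (C : ℝ), 1 ≤ C → ∃ K : ℕ, 1 ≤ K ∧
  ∀ (b J z0 D0 k0 : ℕ) (P1 P2 B : Finset ℕ) (Hs : ℕ → ℕ → Finset ℕ) (q : ℕ → ℝ)
    (κ : ℕ → ℕ → ℝ) (e : ℕ → ℕ)
    (w : ℕ → ℝ) (M : ℕ) (A : ℝ) (err : Finset ℕ → ℝ) (S : Fin n → Finset (Finset ℕ))
    (g : Fin n → ℝ) (V : ℝ),
    Setup κ0 K b J z0 D0 P1 P2 B Hs q κ e w M A err →
    (2 ^ 2 ^ J) ^ (K * b) ≤ D0 → 0 < V → V ≤ 1 →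
    Pi1 q P2 ≤ C / V → (B.card : ℝ) * V1 q P1 ≤ C / V → (∀ τ, 0 ≤ g τ ∧ g τ ≤ C) →
    (∀ τ, ∀ R ∈ S τ, R ⊆ P2) →
    (∀ U ⊆ B, U.card ≤ 4 * n → dl e Hs (P1 ∪ P2) U ≤ 1) →
    (∀ m < M, w m ≠ 0 → ∀ a ∈ B, rg Hs P1 a m ≠ 0 →
      (P2.filter (fun p => m % p ∈ Hs p a)).card ≤ k0) →
    ∀ (c : (Fin n → Option ℕ) → ℝ), (∀ σ, |c σ| ≤ 1) →
    ∑ m ∈ range M, w m * WW B c (xx Hs q P1 S g m) ^ 4 ≤
      (K / V) ^ K * 2 ^ (4 * n * k0) *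
        (A + (B.card + 1 : ℝ) ^ (4 * n) * (((J : ℝ) + 2) * ET K (P1 ∪ P2) D0 err))

/-- two-sided Mertens estimate for the densities `1 / q p` of the primes of P -/
def Mert (q : ℕ → ℝ) (P : Finset ℕ) (z0 z2 : ℕ) (C : ℝ) : Prop :=
  ∀ a b : ℕ, z0 ≤ a → a ≤ b → b ≤ z2 →
    |∑ p ∈ P.filter (fun p => a < p ∧ p ≤ b), 1 / q p -
      (Real.log (Real.log b) - Real.log (Real.log a))| ≤ C

/-- GE7 (generalises EN.CoreW): a positive proportion of the mass has no P-rough position in B -/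
def CoreW : Prop := ∀ (κ0 : ℕ) (C θ : ℝ), 1 ≤ κ0 → 1 ≤ C → 0 < θ → θ ≤ 1 →
  ∃ c : ℝ, 0 < c ∧ ∃ K : ℕ, 1 ≤ K ∧ ∃ X0 : ℝ, ∀ X : ℝ, X0 ≤ X → ∀ (z0 z2 D0 : ℕ),
    K ≤ z0 → (z0 : ℝ) ≤ Real.log X → z2 = ⌊X ^ θ⌋₊ → D0 = ⌊X ^ θ⌋₊ →
    ∀ (P B : Finset ℕ) (Hs : ℕ → ℕ → Finset ℕ) (q : ℕ → ℝ) (κ : ℕ → ℕ → ℝ) (e : ℕ → ℕ)
      (w : ℕ → ℝ) (M : ℕ) (A : ℝ) (err : Finset ℕ → ℝ),
      P ⊆ PP z0 z2 → Mert q P z0 z2 C →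
      (∀ p ∈ P, 1 / (p : ℝ) ≤ 1 / q p ∧ 1 / q p ≤ κ0 / (p : ℝ)) →
      (B.card : ℝ) * Real.log z0 ≤ C * Real.log X →
      Hit κ0 Hs q P B →
      Dens κ e P → (∀ m, 0 ≤ w m) → 0 ≤ A →
      Equid κ w M A P D0 err →
      (∀ U ⊆ B, U.card ≤ K → dl e Hs P U ≤ 1 / K) →
      ET K P D0 err ≤ A / Real.log X ^ K →
      (∀ m < M, w m ≠ 0 → ∀ a ∈ B,
        (∏ p ∈ P.filter (fun p => m % p ∈ Hs p a), (p : ℝ)) ≤ X ^ C ∨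
          ∀ p ∈ P, m % p ∈ Hs p a) →
      c * A ≤ ∑ m ∈ (range M).filter (fun m => ∀ a ∈ B, ∃ p ∈ P, m % p ∈ Hs p a), w m

/-- GE8: number theoretic estimates from the two-sided Mertens estimate (Rankin's trick) -/
def NTq : Prop := ∀ (κ0 : ℕ) (C : ℝ), 1 ≤ κ0 → 1 ≤ C → ∃ C1 : ℝ, 1 ≤ C1 ∧ ∃ K : ℕ, 1 ≤ K ∧
  ∀ (z0 z2 : ℕ) (P : Finset ℕ) (q : ℕ → ℝ), K ≤ z0 → z0 ≤ z2 → P ⊆ PP z0 z2 →
    Mert q P z0 z2 C → (∀ p ∈ P, 1 / (p : ℝ) ≤ 1 / q p ∧ 1 / q p ≤ κ0 / (p : ℝ)) →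
    (∀ a b : ℕ, z0 ≤ a → a ≤ b → b ≤ z2 →
      Pi1 q (P.filter (fun p => a < p ∧ p ≤ b)) ≤ C1 * (Real.log b / Real.log a) ∧
      Real.log b / Real.log a ≤ C1 * Pi1 q (P.filter (fun p => a < p ∧ p ≤ b))) ∧
    (∀ a Y : ℕ, z0 ≤ a → a ≤ Y → Y ≤ z2 →
      Real.log Y / Real.log a ≤ C1 * ∑ R ∈ (P.filter (fun p => a < p)).powerset.filter
        (fun R : Finset ℕ => ∏ p ∈ R, p ≤ Y), wt q R ∧
      ∑ R ∈ (P.filter (fun p => a < p)).powerset.filter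
        (fun R : Finset ℕ => ∏ p ∈ R, p ≤ Y), wt q R ≤ C1 * (Real.log Y / Real.log a))

end Pool.Agent.H474R2.GE
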