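import Mathlib
import Pool.Agent.H474R2.GE.Iface
import Pool.Agent.H410R2.ENCoreA
import Pool.Agent.H410R2.ENCoreB
import Pool.Agent.H410R2.ENCoreC

set_option autoImplicit false

open Finset Filter

namespace Pool.Agent.H474R2.GE

open Pool.Agent.H410R2.AC Pool.Agent.H410R2.EN

/-- good densities: q p ≥ 2 on P -/
def QG (q : ℕ → ℝ) (P : Finset ℕ) : Prop := ∀ p ∈ P, 2 ≤ q p

lemma q_ge_two {κ0 : ℕ} {q : ℕ → ℝ} {p : ℕ} (hκ : 1 ≤ κ0) (hp : 2 * κ0 ≤ p)
    (h : 1 / (p : ℝ) ≤ 1 / q p ∧ 1 / q p ≤ κ0 / (p : ℝ)) : 2 ≤ q p := by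
  have hp0 : 0 < p := by omega
  have hp0' : (0 : ℝ) < p := by exact_mod_cast hp0
  have h1 : (0 : ℝ) < 1 / (p : ℝ) := by positivity
  have h2 : (0 : ℝ) < 1 / q p := lt_of_lt_of_le h1 h.1
  have h3 : 0 < q p := by
    rw [one_div] at h2
    exact inv_pos.1 h2
  have h4 := h.2
  rw [div_le_div_iff₀ h3 hp0'] at h4
  have h5 : (2 : ℝ) * κ0 ≤ p := by exact_mod_cast hp
  have h6 : (1 : ℝ) ≤ κ0 := by exact_mod_cast hκ
  have h7 : (2 : ℝ) * κ0 ≤ κ0 * q p := by linarith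
  nlinarith

lemma QG.mono {q : ℕ → ℝ} {P P' : Finset ℕ} (h : QG q P) (hs : P' ⊆ P) : QG q P' :=
  fun p hp => h p (hs hp)

lemma wt_nonneg {q : ℕ → ℝ} {R : Finset ℕ} (h : QG q R) : 0 ≤ wt q R := by
  unfold wt
  refine Finset.prod_nonneg (fun p hp => ?_)
  have h1 := h p hp
  have : (0 : ℝ) < q p - 1 := by linarith
  positivity

lemma wt_le_one {q : ℕ → ℝ} {R : Finset ℕ} (h : QG q R) : wt q R ≤ 1 := by
  unfold wt
  refine Finset.prod_le_one (fun p hp => ?_) (fun p hp => ?_)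
  · have h1 := h p hp
    have : (0 : ℝ) < q p - 1 := by linarith
    positivity
  · have h1 := h p hp
    rw [div_le_one (by linarith)]
    linarith

lemma V1_mul_Pi1 {q : ℕ → ℝ} {P : Finset ℕ} (h : QG q P) : V1 q P * Pi1 q P = 1 := by
  unfold V1 Pi1
  rw [← Finset.prod_mul_distrib]
  refine Finset.prod_eq_one (fun p hp => ?_)
  have h1 := h p hp
  have h2 : q p ≠ 0 := by linarith
  have h3 : q p - 1 ≠ 0 := by linarith
  field_simp
  ring

lemma Pi1_pos {q : ℕ → ℝ} {P : Finset ℕ} (h : QG q P) : 0 < Pi1 q P := by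
  unfold Pi1
  refine Finset.prod_pos (fun p hp => ?_)
  have h1 := h p hp
  have : (0 : ℝ) < q p - 1 := by linarith
  positivity

lemma FF_rough {Hs : ℕ → ℕ → Finset ℕ} {q : ℕ → ℝ} {P : Finset ℕ} {S : Finset (Finset ℕ)}
    (hS : ∀ R ∈ S, R ⊆ P) {a m : ℕ} (h : ∀ p ∈ P, m % p ∉ Hs p a) :
    FF Hs q S (some a) m = GG q S := by
  unfold FF GG
  refine Finset.sum_congr rfl (fun R hR => ?_)
  have : ∏ p ∈ R, psi Hs q p (some a) m = 1 := by
    refine Finset.prod_eq_one (fun p hp => ?_)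
    unfold psi
    simp only
    rw [if_neg (h p (hS R hR hp))]
  rw [this, mul_one]

/-- the bad m are controlled by the spectator moments -/
lemma up_bound (hCollapse : Collapse) (n : ℕ) (P1 P2 B : Finset ℕ) (Hs : ℕ → ℕ → Finset ℕ)
    (q : ℕ → ℝ) (w : ℕ → ℝ)
    (M : ℕ) (S : Fin n → Finset (Finset ℕ)) (S1 : Finset (Finset ℕ)) (g β : Fin n → ℝ)
    (hw : ∀ m, 0 ≤ w m) (hSP : ∀ τ, ∀ R ∈ S τ, R ⊆ P2) (hS1P : ∀ R ∈ S1, R ⊆ P2)
    (hgG : ∀ τ, g τ * GG q (S τ) = β τ) (hβs : ∑ τ, β τ = 1) (hG1pos : 0 < GG q S1) (Z : ℝ)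
    (G : ℕ → Prop) [DecidablePred G] (hG : ∀ m, G m ↔ ∀ a ∈ B, ∃ p ∈ P1 ∪ P2, m % p ∈ Hs p a)
    (hZ : ∀ a₀ ∈ B, ∑ m ∈ range M, w m * (WW (B.erase a₀) (coef β) (xx Hs q P1 S g m) *
          (rg Hs P1 a₀ m * FF Hs q S1 (some a₀) m)) ^ 2 ≤ Z) :
    ∑ m ∈ range M, w m * WW B (fun _ => 1) (xx Hs q P1 S g m) ^ 2 -
      ∑ m ∈ (range M).filter G, w m * WW B (fun _ => 1) (xx Hs q P1 S g m) ^ 2 ≤
      B.card * ((1 / GG q S1) ^ 2 * Z) := by
  classical
  set x : ℕ → Fin n → ℕ → ℝ := fun m => xx Hs q P1 S g m with hx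
  have hsplit : ∑ m ∈ range M, w m * WW B (fun _ => 1) (x m) ^ 2 =
      ∑ m ∈ (range M).filter G, w m * WW B (fun _ => 1) (x m) ^ 2 +
      ∑ m ∈ (range M).filter (fun m => ¬ G m), w m * WW B (fun _ => 1) (x m) ^ 2 :=
    (Finset.sum_filter_add_sum_filter_not _ _ _).symm
  have hsplit' : ∑ m ∈ range M, w m * WW B (fun _ => 1) (x m) ^ 2 -
      ∑ m ∈ (range M).filter G, w m * WW B (fun _ => 1) (x m) ^ 2 =
      ∑ m ∈ (range M).filter (fun m => ¬ G m), w m * WW B (fun _ => 1) (x m) ^ 2 := by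
    rw [hsplit, add_sub_cancel_left]
  have hgoal : ∑ m ∈ (range M).filter (fun m => ¬ G m), w m * WW B (fun _ => 1) (x m) ^ 2 ≤
      B.card * ((1 / GG q S1) ^ 2 * Z) := by
    have h1 : ∀ m ∈ (range M).filter (fun m => ¬ G m), w m * WW B (fun _ => 1) (x m) ^ 2 ≤
        ∑ a₀ ∈ B, (1 / GG q S1) ^ 2 * (w m * (WW (B.erase a₀) (coef β) (x m) *
          (rg Hs P1 a₀ m * FF Hs q S1 (some a₀) m)) ^ 2) := by
      intro m hm
      have hm' := (Finset.mem_filter.mp hm).2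
      rw [hG] at hm'
      push Not at hm'
      obtain ⟨a₀, ha₀, hr⟩ := hm'
      have hr1 : ∀ p ∈ P1, m % p ∉ Hs p a₀ := fun p hp => hr p (Finset.mem_union_left _ hp)
      have hr2 : ∀ p ∈ P2, m % p ∉ Hs p a₀ := fun p hp => hr p (Finset.mem_union_right _ hp)
      have hrg : rg Hs P1 a₀ m = 1 := by
        unfold rg
        rw [if_pos hr1]
      have hxβ : ∀ τ, x m τ a₀ = - β τ := by
        intro τ
        simp only [hx, xx]
        rw [hrg, FF_rough (hSP τ) hr2, ← hgG τ]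
        ring
      have hc := hCollapse n B a₀ β (x m) ha₀ hβs hxβ
      have hf : FF Hs q S1 (some a₀) m = GG q S1 := FF_rough hS1P hr2
      refine le_trans ?_ (Finset.single_le_sum (f := fun a₀ => (1 / GG q S1) ^ 2 *
        (w m * (WW (B.erase a₀) (coef β) (x m) *
          (rg Hs P1 a₀ m * FF Hs q S1 (some a₀) m)) ^ 2))
        (fun a _ => mul_nonneg (sq_nonneg _) (mul_nonneg (hw m) (sq_nonneg _))) ha₀)
      show w m * WW B (fun _ => 1) (x m) ^ 2 ≤ (1 / GG q S1) ^ 2 *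
        (w m * (WW (B.erase a₀) (coef β) (x m) *
          (rg Hs P1 a₀ m * FF Hs q S1 (some a₀) m)) ^ 2)
      rw [hc, hf, hrg, one_mul, mul_pow]
      have : (1 / GG q S1) ^ 2 * (w m * (WW (B.erase a₀) (coef β) (x m) ^ 2 * GG q S1 ^ 2)) =
          w m * WW (B.erase a₀) (coef β) (x m) ^ 2 := by
        field_simp
      rw [this]
    refine (Finset.sum_le_sum h1).trans ?_
    have h1' : ∑ m ∈ (range M).filter (fun m => ¬ G m), ∑ a₀ ∈ B, (1 / GG q S1) ^ 2 *
        (w m * (WW (B.erase a₀) (coef β) (x m) *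
          (rg Hs P1 a₀ m * FF Hs q S1 (some a₀) m)) ^ 2) ≤
        ∑ m ∈ range M, ∑ a₀ ∈ B, (1 / GG q S1) ^ 2 *
        (w m * (WW (B.erase a₀) (coef β) (x m) *
          (rg Hs P1 a₀ m * FF Hs q S1 (some a₀) m)) ^ 2) := by
      refine Finset.sum_le_sum_of_subset_of_nonneg (Finset.filter_subset _ _) (fun m _ _ => ?_)
      exact Finset.sum_nonneg (fun a _ =>
        mul_nonneg (sq_nonneg _) (mul_nonneg (hw m) (sq_nonneg _)))
    refine h1'.trans ?_
    rw [Finset.sum_comm, ← nsmul_eq_mul]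
    refine Finset.sum_le_card_nsmul _ _ _ (fun a₀ ha₀ => ?_)
    rw [← Finset.mul_sum]
    exact mul_le_mul_of_nonneg_left (hZ a₀ ha₀) (sq_nonneg _)
  show ∑ m ∈ range M, w m * WW B (fun _ => 1) (xx Hs q P1 S g m) ^ 2 -
      ∑ m ∈ (range M).filter G, w m * WW B (fun _ => 1) (xx Hs q P1 S g m) ^ 2 ≤ _
  rw [hsplit']
  exact hgoal

/-- number of hits -/
lemma hit_bound (C v0 L X : ℝ) (z1 k0 m a : ℕ) (P1 P2 : Finset ℕ) (Hs : ℕ → ℕ → Finset ℕ)
    (hv00 : 0 < v0) (hL0 : 0 < L) (hXpos : 0 < X) (hL : L = Real.log X)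
    (hk0 : k0 = ⌈2 * C / v0⌉₊) (hz1r : (4 : ℝ) ≤ z1) (hJlow : v0 * L / 2 ≤ Real.log z1)
    (hPp : ∀ p ∈ P1 ∪ P2, p.Prime) (hP2z : ∀ p ∈ P2, z1 < p) (hne : P1.Nonempty)
    (hrg : rg Hs P1 a m ≠ 0)
    (hs : (∏ p ∈ (P1 ∪ P2).filter (fun p => m % p ∈ Hs p a), (p : ℝ)) ≤ X ^ C ∨
          ∀ p ∈ P1 ∪ P2, m % p ∈ Hs p a) : (P2.filter (fun p => m % p ∈ Hs p a)).card ≤ k0 := by
  have hr1 : ∀ p ∈ P1, m % p ∉ Hs p a := by
    by_contra hcon
    unfold rg at hrg
    rw [if_neg hcon] at hrg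
    exact hrg rfl
  rcases hs with hs | hs
  · have h1 : (z1 : ℝ) ^ (P2.filter (fun p => m % p ∈ Hs p a)).card ≤ X ^ C := by
      calc (z1 : ℝ) ^ (P2.filter (fun p => m % p ∈ Hs p a)).card =
            ∏ p ∈ P2.filter (fun p => m % p ∈ Hs p a), (z1 : ℝ) := by rw [Finset.prod_const]
        _ ≤ ∏ p ∈ P2.filter (fun p => m % p ∈ Hs p a), (p : ℝ) := by
            refine Finset.prod_le_prod (fun _ _ => by positivity) (fun p hp => ?_)
            have := hP2z p (Finset.mem_filter.mp hp).1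
            exact_mod_cast this.le
        _ ≤ ∏ p ∈ (P1 ∪ P2).filter (fun p => m % p ∈ Hs p a), (p : ℝ) := by
            refine prod_sub_le (Finset.filter_subset_filter _ Finset.subset_union_right)
              (fun p hp => ?_)
            have := (hPp p (Finset.mem_filter.mp hp).1).one_lt.le
            exact_mod_cast this
        _ ≤ X ^ C := hs
    have h2 : ((P2.filter (fun p => m % p ∈ Hs p a)).card : ℝ) * (v0 / 2) ≤ C := by
      have h3 : ((P2.filter (fun p => m % p ∈ Hs p a)).card : ℝ) * Real.log z1 ≤ C * L := by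
        rw [← Real.log_pow, hL, ← Real.log_rpow hXpos]
        exact Real.log_le_log (by positivity) h1
      have h4 : ((P2.filter (fun p => m % p ∈ Hs p a)).card : ℝ) * (v0 * L / 2) ≤ C * L := by
        refine le_trans ?_ h3
        gcongr
      have h5 : (((P2.filter (fun p => m % p ∈ Hs p a)).card : ℝ) * (v0 / 2)) * L ≤ C * L := by
        linarith
      exact le_of_mul_le_mul_right h5 hL0
    have h6 : ((P2.filter (fun p => m % p ∈ Hs p a)).card : ℝ) ≤ 2 * C / v0 := by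
      rw [le_div_iff₀ hv00]
      linarith
    have h7 := h6.trans (Nat.le_ceil (2 * C / v0))
    rw [hk0]
    exact_mod_cast h7
  · obtain ⟨p, hp⟩ := hne
    exact absurd (hs p (Finset.mem_union_left _ hp)) (hr1 p hp)

/-- data at a fixed X -/
lemma sizes (C C1 CB θ v0 X L V : ℝ) (z0 z1 z2 J k : ℕ) (P : Finset ℕ) (q : ℕ → ℝ)
    (hC : 1 ≤ C) (hC1 : 1 ≤ C1) (hCB : CB = 2 * C * C1) (hθ1 : θ ≤ 1)
    (hX1 : 1 < X) (hL : L = Real.log X) (hL4 : 4 ≤ L) (hz1 : z1 = 2 ^ 2 ^ J)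
    (hz1r : (4 : ℝ) ≤ z1) (hV : V = Real.log z1 / L)
    (hz2 : z2 = ⌊X ^ θ⌋₊) (hz01 : z0 ≤ z1) (hz12 : z1 ≤ z2) (hz08 : 8 ≤ z0) (hv04 : v0 ≤ 1 / 4)
    (hJup : Real.log z1 ≤ v0 * L)
    (hBc : (k : ℝ) * Real.log z0 ≤ C * L) (hQ : QG q P)
    (hN1 : ∀ a b : ℕ, z0 ≤ a → a ≤ b → b ≤ z2 →
      Pi1 q (P.filter (fun p => a < p ∧ p ≤ b)) ≤ C1 * (Real.log b / Real.log a) ∧
      Real.log b / Real.log a ≤ C1 * Pi1 q (P.filter (fun p => a < p ∧ p ≤ b))) :
    0 < V1 q (P.filter (fun p => z0 < p ∧ p ≤ z1)) ∧ Real.log z1 / (2 * C1 * Real.log z0) ≤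
      Pi1 q (P.filter (fun p => z0 < p ∧ p ≤ z1)) ∧
      (k : ℝ) * V1 q (P.filter (fun p => z0 < p ∧ p ≤ z1)) ≤ CB / V ∧
      Pi1 q (P.filter (fun p => z1 < p ∧ p ≤ z2)) ≤ C1 / V ∧ (k : ℝ) + 1 ≤ 2 * C * L ∧
      (J : ℝ) + 2 ≤ L := by
  have hL0 : 0 < L := by linarith
  have hL1 : 1 ≤ L := by linarith
  have hXpos : 0 < X := by linarith
  have hlz1 : 0 < Real.log (z1 : ℝ) := Real.log_pos (by linarith)
  have hz08r : (8 : ℝ) ≤ z0 := by exact_mod_cast hz08
  have hlz0 : 1 ≤ Real.log (z0 : ℝ) := by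
    have h2 : Real.exp 1 ≤ z0 := by
      have := Real.exp_one_lt_d9
      linarith
    calc (1 : ℝ) = Real.log (Real.exp 1) := (Real.log_exp 1).symm
      _ ≤ Real.log z0 := Real.log_le_log (Real.exp_pos 1) h2
  set P1 := P.filter (fun p => z0 < p ∧ p ≤ z1) with hP1
  have hQ1 : QG q P1 := hQ.mono (Finset.filter_subset _ _)
  have hPpos := Pi1_pos hQ1
  have hPi1low : Real.log z1 / (2 * C1 * Real.log z0) ≤ Pi1 q P1 := by
    have h1 := (hN1 z0 z1 le_rfl hz01 hz12).2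
    rw [div_le_iff₀ (by positivity)] at h1 ⊢
    nlinarith [mul_pos hPpos (show (0 : ℝ) < Real.log z0 by linarith)]
  have hV1P : V1 q P1 = 1 / Pi1 q P1 := by
    rw [eq_div_iff hPpos.ne', V1_mul_Pi1 hQ1]
  have hV10 : 0 < V1 q P1 := by
    rw [hV1P]
    positivity
  have hV1up : V1 q P1 ≤ 2 * C1 * Real.log z0 / Real.log z1 := by
    rw [hV1P, div_le_div_iff₀ hPpos hlz1]
    rw [div_le_iff₀ (by positivity)] at hPi1low
    linarith
  have hBV : (k : ℝ) * V1 q P1 ≤ CB / V := by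
    have h1 : (k : ℝ) * V1 q P1 ≤
        k * (2 * C1 * Real.log z0 / Real.log z1) :=
      mul_le_mul_of_nonneg_left hV1up (by positivity)
    have h2 : (k : ℝ) * (2 * C1 * Real.log z0 / Real.log z1) =
        (k * Real.log z0) * (2 * C1 / Real.log z1) := by ring
    have h3 : (k * Real.log z0) * (2 * C1 / Real.log z1) ≤ (C * L) * (2 * C1 / Real.log z1) :=
      mul_le_mul_of_nonneg_right hBc (by positivity)
    have h4 : (C * L) * (2 * C1 / Real.log z1) = CB / V := by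
      rw [hCB, hV]
      field_simp
    rw [h2] at h1
    rw [h4] at h3
    exact h1.trans h3
  have hPi2 : Pi1 q (P.filter (fun p => z1 < p ∧ p ≤ z2)) ≤ C1 / V := by
    refine ((hN1 z1 z2 hz01 hz12 le_rfl).1).trans ?_
    rw [hV, div_div_eq_mul_div, mul_div_assoc]
    have hzX : (z2 : ℝ) ≤ X := by
      rw [hz2]
      refine (Nat.floor_le (by positivity)).trans ?_
      calc X ^ θ ≤ X ^ (1 : ℝ) := Real.rpow_le_rpow_of_exponent_le hX1.le hθ1
        _ = X := Real.rpow_one _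
    have hz20 : (0 : ℝ) < z2 := by
      have : (z1 : ℝ) ≤ z2 := by exact_mod_cast hz12
      linarith
    have := Real.log_le_log hz20 hzX
    rw [hL]
    gcongr
  have hBL : (k : ℝ) ≤ C * L := by
    have h3 : (k : ℝ) * 1 ≤ k * Real.log z0 := mul_le_mul_of_nonneg_left hlz0 (by positivity)
    linarith
  have hBL1 : (k : ℝ) + 1 ≤ 2 * C * L := by
    have h2 : 1 ≤ C * L := one_le_mul_of_one_le_of_one_le hC hL1
    linarith
  have hJL : (J : ℝ) + 2 ≤ L := by
    have h1 : ((J : ℕ) : ℝ) < (2 : ℝ) ^ J := by exact_mod_cast Nat.lt_two_pow_self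
    have h2 : (2 : ℝ) ^ J * Real.log 2 ≤ v0 * L := by
      have h3 := hJup
      rw [hz1] at h3
      push_cast at h3
      rw [Real.log_pow] at h3
      push_cast at h3
      exact h3
    have h4 : (0.5 : ℝ) ≤ Real.log 2 := by
      have := Real.log_two_gt_d9
      linarith
    have h5 : (2 : ℝ) ^ J * 0.5 ≤ (2 : ℝ) ^ J * Real.log 2 :=
      mul_le_mul_of_nonneg_left h4 (by positivity)
    have h6 : v0 * L ≤ (1 / 4) * L := mul_le_mul_of_nonneg_right hv04 hL0.le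
    linarith
  exact ⟨hV10, hPi1low, hBV, hPi2, hBL1, hJL⟩

/-- nonemptiness of the first block of primes -/
lemma P1_nonempty (C1 v0 L : ℝ) (z0 z1 : ℕ) (P1 : Finset ℕ) (q : ℕ → ℝ) (hC1 : 1 ≤ C1)
    (hz08 : 8 ≤ z0) (hz0L : (z0 : ℝ) ≤ L) (hJlow : v0 * L / 2 ≤ Real.log z1)
    (hX : 2 * C1 * Real.log L < v0 * L / 2)
    (hlow : Real.log z1 / (2 * C1 * Real.log z0) ≤ Pi1 q P1) :
    P1.Nonempty := by
  by_contra hne
  rw [Finset.not_nonempty_iff_eq_empty] at hne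
  rw [hne] at hlow
  have h1 : Pi1 q (∅ : Finset ℕ) = 1 := by unfold Pi1; simp
  rw [h1] at hlow
  have hz0r : (8 : ℝ) ≤ z0 := by exact_mod_cast hz08
  have hlz0 : 0 < Real.log (z0 : ℝ) := Real.log_pos (by linarith)
  rw [div_le_one (by positivity)] at hlow
  have h2 : Real.log (z0 : ℝ) ≤ Real.log L := Real.log_le_log (by linarith) hz0L
  have h3 : 2 * C1 * Real.log z0 ≤ 2 * C1 * Real.log L := by gcongr
  linarith

/-- the masses of the families of small products -/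
lemma mass_bounds {C1 : ℝ} (hC1 : 1 ≤ C1) (P : Finset ℕ) (q : ℕ → ℝ) (z2 : ℕ) (X θ : ℝ)
    (hX : 1 < X) (H : ℕ) (hH : 4 ≤ H) (hz2 : z2 = ⌊X ^ θ⌋₊) (hP : ∀ p ∈ P, p.Prime)
    (hN : ∀ Y : ℕ, H ≤ Y → Y ≤ z2 →
      Real.log Y / Real.log H ≤ C1 * ∑ R ∈ P.powerset.filter
        (fun R : Finset ℕ => ∏ p ∈ R, p ≤ Y), wt q R ∧
      ∑ R ∈ P.powerset.filter
        (fun R : Finset ℕ => ∏ p ∈ R, p ≤ Y), wt q R ≤ C1 * (Real.log Y / Real.log H))
    (t : ℝ) (ht : Real.log H / Real.log X ≤ t) (ht' : t ≤ θ) :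
    t / (4 * C1 * (Real.log H / Real.log X)) ≤
      ∑ R ∈ P.powerset.filter
        (fun R : Finset ℕ => Real.log (∏ p ∈ R, (p : ℝ)) / Real.log X ≤ t), wt q R ∧
      ∑ R ∈ P.powerset.filter
        (fun R : Finset ℕ => Real.log (∏ p ∈ R, (p : ℝ)) / Real.log X ≤ t), wt q R ≤
        4 * C1 * t / (Real.log H / Real.log X) := by
  have hX0 : (0 : ℝ) < X := by linarith
  have hlX : 0 < Real.log X := Real.log_pos hX
  have hH4 : (4 : ℝ) ≤ (H : ℝ) := by exact_mod_cast hH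
  have hlH : 0 < Real.log (H : ℝ) := Real.log_pos (by linarith)
  set V : ℝ := Real.log H / Real.log X with hVdef
  have hV : 0 < V := div_pos hlH hlX
  have ht0 : 0 < t := lt_of_lt_of_le hV ht
  have hXt : (H : ℝ) ≤ X ^ t := by
    have h4 : Real.log H ≤ t * Real.log X := by
      have : V * Real.log X = Real.log H := by
        rw [hVdef]; field_simp
      rw [← this]
      exact mul_le_mul_of_nonneg_right ht hlX.le
    calc (H : ℝ) = Real.exp (Real.log H) := (Real.exp_log (by linarith)).symm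
      _ ≤ Real.exp (t * Real.log X) := Real.exp_le_exp.mpr h4
      _ = X ^ t := by rw [Real.rpow_def_of_pos hX0, mul_comm]
  set Y : ℕ := ⌊X ^ t⌋₊ with hY
  have hYH : H ≤ Y := Nat.le_floor hXt
  have hYle : (Y : ℝ) ≤ X ^ t := Nat.floor_le (by positivity)
  have hYz : Y ≤ z2 := by
    rw [hz2]
    refine Nat.floor_le_floor ?_
    exact Real.rpow_le_rpow_of_exponent_le hX.le ht'
  have hY1 : (1 : ℝ) ≤ Y := by
    have : (H : ℝ) ≤ Y := by exact_mod_cast hYH
    linarith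
  have hfil : P.powerset.filter
        (fun R : Finset ℕ => Real.log (∏ p ∈ R, (p : ℝ)) / Real.log X ≤ t) =
      P.powerset.filter (fun R : Finset ℕ => ∏ p ∈ R, p ≤ Y) := by
    refine Finset.filter_congr (fun R hR => ?_)
    have hRP : ∀ p ∈ R, p.Prime := fun p hp => hP p (Finset.mem_powerset.mp hR hp)
    have h1 := prod_ge_one hRP
    rw [div_le_iff₀ hlX, hY, Nat.le_floor_iff (by positivity)]
    push_cast
    rw [← Real.log_rpow hX0]
    exact Real.log_le_log_iff (by linarith) (by positivity)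
  rw [hfil]
  obtain ⟨hE1, hE2⟩ := hN Y hYH hYz
  constructor
  · have hlogY : t / 2 * Real.log X ≤ Real.log Y := by
      have h5 : X ^ t < Y + 1 := Nat.lt_floor_add_one _
      have h6 : t * Real.log X ≤ Real.log (Y + 1) := by
        rw [← Real.log_rpow hX0]
        exact Real.log_le_log (by positivity) h5.le
      have h7 : Real.log (Y + 1) ≤ Real.log ((Y : ℝ) ^ 2) := by
        refine Real.log_le_log (by positivity) ?_
        have : (4 : ℝ) ≤ Y := by
          have : (H : ℝ) ≤ Y := by exact_mod_cast hYH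
          linarith
        nlinarith
      rw [Real.log_pow] at h7
      push_cast at h7
      linarith
    have h8 : t / (2 * V) ≤ Real.log Y / Real.log H := by
      rw [hVdef, div_le_div_iff₀ (by positivity) hlH]
      field_simp
      nlinarith
    have h9 : t / (4 * C1 * V) = (t / (2 * V)) / (2 * C1) := by
      field_simp
      ring
    have h10 : 0 ≤ ∑ R ∈ P.powerset.filter (fun R : Finset ℕ => ∏ p ∈ R, p ≤ Y), wt q R := by
      have h11 : 0 ≤ t / (2 * V) := by positivity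
      have h12 := h11.trans (h8.trans hE1)
      by_contra hcon
      push Not at hcon
      have := mul_neg_of_pos_of_neg (show (0 : ℝ) < C1 by linarith) hcon
      linarith
    rw [h9, div_le_iff₀ (by linarith)]
    calc t / (2 * V) ≤ Real.log Y / Real.log H := h8
      _ ≤ _ := hE1
      _ ≤ _ := by nlinarith
  · refine hE2.trans ?_
    have hlogY : Real.log Y ≤ t * Real.log X := by
      rw [← Real.log_rpow hX0]
      exact Real.log_le_log (by linarith) hYle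
    have h8 : Real.log Y / Real.log H ≤ t / V := by
      rw [hVdef, div_div_eq_mul_div]
      gcongr
    calc C1 * (Real.log Y / Real.log H) ≤ C1 * (t / V) := by gcongr
      _ ≤ 4 * C1 * t / V := by
        rw [mul_div_assoc]
        have : 0 ≤ t / V := by positivity
        nlinarith

end Pool.Agent.H474R2.GE
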