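import Mathlib
import Pool.Agent.H474R2.GE.CoreA
import Pool.Agent.H410R2.ENCoreF

set_option autoImplicit false

open Finset Filter

namespace Pool.Agent.H474R2.GE

open Pool.Agent.H410R2.AC Pool.Agent.H410R2.EN

/-- the argument at a fixed X -/
lemma core_fixed (hCollapse : Collapse) (hMain : MainIneq) (C C1 CB θ η T0 v0 δ βm : ℝ)
    (n K2 K4 Km b Ko k0 : ℕ) (u β : Fin n → ℝ) (Cst R1 R2 F0 C2 : ℝ)
    (hC : 1 ≤ C) (hC1 : 1 ≤ C1) (hCB : CB = 2 * C * C1) (hθ : 0 < θ) (hθ1 : θ ≤ 1)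
    (hη : η = θ / (160 * C1 * CB ^ 2)) (hT0 : T0 = θ / 10)
    (huβ : ∀ τ, 0 < u τ ∧ 0 < β τ) (hβs : ∑ τ, β τ = 1) (hus : ∑ τ, u τ ≤ T0)
    (hβm0 : 0 < βm) (hβm : ∀ τ, βm ≤ β τ) (hC2 : C2 = CB + C1 + η / βm + 1)
    (hKm : Km = K2 + K4) (hKo1 : Km + 4 * n + 8 ≤ Ko) (hKoδ : 1 / (Ko : ℝ) ≤ δ)
    (hbK : Km ≤ b) (hb4 : v0 ≤ 1 / 4) (hb10 : v0 ≤ θ / 10) (hv00 : 0 < v0)
    (hvb : v0 * (Km * b) = θ / 20) (hδ0 : 0 < δ) (hδ1 : δ ≤ 1)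
    (hCst : Cst = K2 * (1 + CB * (40 * C1 / θ) ^ 2))
    (hbE : Cst * (2 / v0) ^ K2 * (1 / 2 : ℝ) ^ b ≤ 1 / 32)
    (hδE : Cst * (2 / v0) ^ K2 * (Real.exp (K2 * δ) - 1) ≤ 1 / 32)
    (hR1 : R1 = K2 * (2 / v0) ^ K2 * (2 * C) ^ (2 * n + 2))
    (hR2 : R2 = (2 * C) * (40 * C1 / θ) ^ 2 * R1) (hk0 : k0 = ⌈2 * C / v0⌉₊)
    (hF0 : F0 = (2 * K4 / v0) ^ K4 * 2 ^ (4 * n * k0) * 2) (hF00 : 0 < F0)
    (X L V : ℝ) (J κ0 z0 z1 z2 D0 : ℕ) (hX1 : 1 < X) (hL : L = Real.log X) (hL8 : 8 ≤ L)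
    (hz1 : z1 = 2 ^ 2 ^ J) (hz14 : 4 ≤ z1) (hV : V = Real.log z1 / L)
    (hJlow : v0 * L / 2 ≤ Real.log z1) (hJup : Real.log z1 ≤ v0 * L)
    (hXz : L ≤ X ^ (v0 / 2)) (hXR1 : 16 * R1 ≤ L) (hXR2 : 16 * R2 ≤ L)
    (hXC : (2 * C) ^ (4 * n) ≤ L) (hXne : 2 * C1 * Real.log L < v0 * L / 2)
    (hz0K : Ko ≤ z0) (hz0L : (z0 : ℝ) ≤ L) (hz2 : z2 = ⌊X ^ θ⌋₊) (hD0 : D0 = ⌊X ^ θ⌋₊)
    (P P1 P2 : Finset ℕ) (q : ℕ → ℝ) (hPsub : P ⊆ PP z0 z2) (hQ : QG q P)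
    (hκb : ∀ p ∈ P, 1 / (p : ℝ) ≤ 1 / q p ∧ 1 / q p ≤ κ0 / (p : ℝ))
    (hP1 : P1 = P.filter (fun p => z0 < p ∧ p ≤ z1))
    (hP2 : P2 = P.filter (fun p => z1 < p ∧ p ≤ z2))
    (hN1 : ∀ a b : ℕ, z0 ≤ a → a ≤ b → b ≤ z2 →
      Pi1 q (P.filter (fun p => a < p ∧ p ≤ b)) ≤ C1 * (Real.log b / Real.log a) ∧
      Real.log b / Real.log a ≤ C1 * Pi1 q (P.filter (fun p => a < p ∧ p ≤ b)))
    (S : Fin n → Finset (Finset ℕ))
    (hSsub : ∀ τ, S τ ⊆ (P2.powerset).filter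
      (fun R => V < Real.log (∏ p ∈ R, (p : ℝ)) / L ∧ Real.log (∏ p ∈ R, (p : ℝ)) / L ≤ u τ))
    (hSdis : ∀ τ τ', τ ≠ τ' → Disjoint (S τ) (S τ'))
    (hSGG : ∀ τ, β τ ^ 2 / (η * V) ≤ GG q (S τ))
    (hmass0 : T0 / (4 * C1 * V) ≤ ∑ R ∈ (P2.powerset).filter
        (fun R : Finset ℕ => Real.log (∏ p ∈ R, (p : ℝ)) / L ≤ T0), wt q R)
    (B : Finset ℕ) (Hs : ℕ → ℕ → Finset ℕ) (κ : ℕ → ℕ → ℝ) (e : ℕ → ℕ) (w : ℕ → ℝ)
    (M : ℕ) (A : ℝ) (err : Finset ℕ → ℝ)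
    (hSec : ∀ (S : Fin n → Finset (Finset ℕ)) (g : Fin n → ℝ) (Y : Fin n → ℕ) (Y1 : ℕ),
      Setup κ0 K2 b J z0 D0 P1 P2 B Hs q κ e w M A err →
      (2 ^ 2 ^ J) ^ (K2 * b) * (Y1 * ∏ τ, Y τ) ^ 2 ≤ D0 → 0 < V → V ≤ 1 → δ ≤ 1 →
      Pi1 q P2 ≤ C2 / V → (B.card : ℝ) * V1 q P1 ≤ C2 / V →
      (∀ τ, 0 ≤ g τ ∧ g τ ≤ C2) → (∀ τ, ∀ R ∈ S τ, R ⊆ P2) →
      (∀ τ, ∅ ∉ S τ) → (∀ τ τ', τ ≠ τ' → Disjoint (S τ) (S τ')) →
      (∀ U ⊆ B, U.card ≤ 2 * n + 2 →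
        dl e Hs (P1 ∪ P2) U ≤ δ) →
      (∀ τ, 1 ≤ Y τ ∧ ∀ R ∈ S τ, ∏ p ∈ R, p ≤ Y τ) → 1 ≤ Y1 →
      (∀ (c : (Fin n → Option ℕ) → ℝ), (∀ σ, |c σ| ≤ 1) →
        |∑ m ∈ range M, w m * WW B c (xx Hs q P1 S g m) ^ 2 -
          A * ∑ σ ∈ cfg n B, c σ ^ 2 *
            occ (fun τ => g τ ^ 2 * (V1 q P1 * GG q (S τ))) σ| ≤
        EF n K2 b J B.card A V δ
          (ET K2 (P1 ∪ P2) D0 err)) ∧
      (∀ (S1 : Finset (Finset ℕ)), (∀ R ∈ S1, R ⊆ P2) →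
        (∀ R ∈ S1, ∏ p ∈ R, p ≤ Y1) →
        ∀ a₀ ∈ B, ∀ (c : (Fin n → Option ℕ) → ℝ), (∀ σ, |c σ| ≤ 1) →
        |∑ m ∈ range M, w m * (WW (B.erase a₀) c (xx Hs q P1 S g m) *
            (rg Hs P1 a₀ m * FF Hs q S1 (some a₀) m)) ^ 2 -
          A * (V1 q P1 * GG q S1 * ∑ σ ∈ cfg n (B.erase a₀), c σ ^ 2 *
            occ (fun τ => g τ ^ 2 * (V1 q P1 * GG q (S τ))) σ)| ≤
        EF n K2 b J B.card (A * V1 q P1) V δ
          (ET K2 (P1 ∪ P2) D0 err)))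
    (hFou : ∀ (S : Fin n → Finset (Finset ℕ)) (g : Fin n → ℝ),
      Setup κ0 K4 b J z0 D0 P1 P2 B Hs q κ e w M A err →
      (2 ^ 2 ^ J) ^ (K4 * b) ≤ D0 → 0 < V → V ≤ 1 →
      Pi1 q P2 ≤ C2 / V → (B.card : ℝ) * V1 q P1 ≤ C2 / V →
      (∀ τ, 0 ≤ g τ ∧ g τ ≤ C2) → (∀ τ, ∀ R ∈ S τ, R ⊆ P2) →
      (∀ U ⊆ B, U.card ≤ 4 * n →
        dl e Hs (P1 ∪ P2) U ≤ 1) →
      (∀ m < M, w m ≠ 0 → ∀ a ∈ B, rg Hs P1 a m ≠ 0 →
        (P2.filter (fun p => m % p ∈ Hs p a)).card ≤ k0) →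
      ∑ m ∈ range M, w m * WW B (fun _ => 1) (xx Hs q P1 S g m) ^ 4 ≤
        (K4 / V) ^ K4 * 2 ^ (4 * n * k0) *
          (A + (B.card + 1 : ℝ) ^ (4 * n) * (((J : ℝ) + 2) *
            ET K4 (P1 ∪ P2) D0 err)))
    (hBc : (B.card : ℝ) * Real.log z0 ≤ C * L)
    (hρ : Hit κ0 Hs q P B)
    (hDens : Dens κ e P) (hw : ∀ m, 0 ≤ w m) (hA : 0 < A)
    (hEq : Equid κ w M A P D0 err)
    (hdl : ∀ U ⊆ B, U.card ≤ Ko → dl e Hs P U ≤ 1 / Ko)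
    (hET : ET Ko P D0 err ≤ A / L ^ Ko)
    (hsize : ∀ m < M, w m ≠ 0 → ∀ a ∈ B,
        (∏ p ∈ P.filter (fun p => m % p ∈ Hs p a), (p : ℝ)) ≤ X ^ C ∨
          ∀ p ∈ P, m % p ∈ Hs p a) :
    1 / (4 * F0) * A ≤ ∑ m ∈ (range M).filter
        (fun m => ∀ a ∈ B, ∃ p ∈ P, m % p ∈ Hs p a), w m := by
  classical
  have hL1 : 1 ≤ L := by linarith
  have hL0 : 0 < L := by linarith
  have hXpos : 0 < X := by linarith
  have hCB1 : 1 ≤ CB := by rw [hCB]; nlinarith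
  have hη0 : 0 < η := by rw [hη]; positivity
  have hz1r : (4 : ℝ) ≤ z1 := by exact_mod_cast hz14
  have hlz1 : 0 < Real.log (z1 : ℝ) := Real.log_pos (by linarith)
  have hVpos : 0 < V := by rw [hV]; positivity
  have hVlow : v0 / 2 ≤ V := by
    rw [hV, le_div_iff₀ hL0]
    linarith
  have hVup : V ≤ v0 := by
    rw [hV, div_le_iff₀ hL0]
    linarith
  have hV1 : V ≤ 1 := by linarith
  have hz1X : (z1 : ℝ) ≤ X ^ v0 := by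
    rw [← Real.log_le_log_iff (by linarith) (by positivity), Real.log_rpow hXpos, ← hL]
    exact hJup
  have hz1X2 : X ^ (v0 / 2) ≤ (z1 : ℝ) := by
    rw [← Real.log_le_log_iff (by positivity) (by linarith), Real.log_rpow hXpos, ← hL]
    linarith
  have hz01 : z0 ≤ z1 := by
    have : (z0 : ℝ) ≤ z1 := hz0L.trans (hXz.trans hz1X2)
    exact_mod_cast this
  have hz12 : z1 ≤ z2 := by
    rw [hz2]
    refine Nat.le_floor (hz1X.trans (Real.rpow_le_rpow_of_exponent_le hX1.le ?_))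
    linarith
  have hz08 : 8 ≤ z0 := by omega
  have hsz := sizes C C1 CB θ v0 X L V z0 z1 z2 J B.card P q hC hC1 hCB hθ1 hX1 hL
    (by linarith) hz1 hz1r hV hz2 hz01 hz12 hz08 hb4 hJup hBc hQ hN1
  rw [← hP1, ← hP2] at hsz
  obtain ⟨hV10, hPi1low, hBV, hPi2, hBL1, hJL⟩ := hsz
  have hne : P1.Nonempty :=
    P1_nonempty C1 v0 L z0 z1 P1 q hC1 hz08 hz0L hJlow hXne hPi1low
  have hP12 : P1 ∪ P2 = P := by
    rw [hP1, hP2]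
    ext p
    simp only [Finset.mem_union, Finset.mem_filter]
    constructor
    · rintro (⟨h, -, -⟩ | ⟨h, -, -⟩) <;> exact h
    · intro h
      have h1 := hPsub h
      have h2 := PP_gt h1
      have h3 := PP_le h1
      by_cases h4 : p ≤ z1
      · exact Or.inl ⟨h, h2, h4⟩
      · exact Or.inr ⟨h, by omega, h3⟩
  have hP1P : P1 ⊆ P := by rw [hP1]; exact Finset.filter_subset _ _
  have hP2P : P2 ⊆ P := by rw [hP2]; exact Finset.filter_subset _ _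
  have hP1p : ∀ p ∈ P1, p.Prime := fun p hp => PP_prime (hPsub (hP1P hp))
  have hP2p : ∀ p ∈ P2, p.Prime := fun p hp => PP_prime (hPsub (hP2P hp))
  have hP2z : ∀ p ∈ P2, z1 < p := by
    intro p hp
    rw [hP2, Finset.mem_filter] at hp
    exact hp.2.1
  have hPp : ∀ p ∈ P1 ∪ P2, p.Prime := by
    intro p hp
    rcases Finset.mem_union.mp hp with h | h
    · exact hP1p p h
    · exact hP2p p h
  rw [← hP12] at hρ hDens hEq hdl hET hsize hκb ⊢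
  have herr := err_nonneg hPp hEq
  have hSP : ∀ τ, ∀ R ∈ S τ, R ⊆ P2 := by
    intro τ R hR
    exact Finset.mem_powerset.mp (Finset.mem_filter.mp (hSsub τ hR)).1
  have hSpr : ∀ τ, ∀ R ∈ S τ, ∀ p ∈ R, p.Prime := fun τ R hR p hp => hP2p p (hSP τ R hR hp)
  have hSe : ∀ τ, ∅ ∉ S τ := by
    intro τ h
    have h1 := (Finset.mem_filter.mp (hSsub τ h)).2.1
    simp at h1
    linarith
  have hGpos : ∀ τ, 0 < GG q (S τ) := fun τ =>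
    lt_of_lt_of_le (by have := (huβ τ).2; positivity) (hSGG τ)
  set g : Fin n → ℝ := fun τ => β τ / GG q (S τ) with hg
  have hgG : ∀ τ, g τ * GG q (S τ) = β τ := fun τ => div_mul_cancel₀ _ (hGpos τ).ne'
  have hg0 : ∀ τ, 0 ≤ g τ := fun τ => div_nonneg (huβ τ).2.le (hGpos τ).le
  have hηβ : 0 < η / βm := by positivity
  have hgC : ∀ τ, g τ ≤ C2 := by
    intro τ
    have hb := (huβ τ).2
    have h1 : g τ ≤ β τ / (β τ ^ 2 / (η * V)) :=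
      div_le_div_of_nonneg_left hb.le (by positivity) (hSGG τ)
    have h2 : β τ / (β τ ^ 2 / (η * V)) = η / β τ * V := by field_simp
    have h3 : η / β τ ≤ η / βm := div_le_div_of_nonneg_left hη0.le hβm0 (hβm τ)
    have h4 : η / β τ * V ≤ η / βm * 1 := mul_le_mul h3 hV1 hVpos.le hηβ.le
    rw [hC2]
    linarith
  have hC2B : CB ≤ C2 := by rw [hC2]; linarith
  have hC2C : C1 ≤ C2 := by rw [hC2]; linarith
  have hPi2' : Pi1 q P2 ≤ C2 / V := hPi2.trans (div_le_div_of_nonneg_right hC2C hVpos.le)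
  have hBV' : (B.card : ℝ) * V1 q P1 ≤ C2 / V :=
    hBV.trans (div_le_div_of_nonneg_right hC2B hVpos.le)
  -- sizes of the divisors
  have hY1 : ∀ τ, 1 ≤ ⌊X ^ (u τ)⌋₊ := fun τ =>
    Nat.le_floor (by exact_mod_cast Real.one_le_rpow hX1.le (huβ τ).1.le)
  have hszS : ∀ τ, ∀ R ∈ S τ, ∏ p ∈ R, p ≤ ⌊X ^ (u τ)⌋₊ := by
    intro τ R hR
    have h1 := (Finset.mem_filter.mp (hSsub τ hR)).2.2
    have h2 := prod_ge_one (hSpr τ R hR)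
    rw [div_le_iff₀ hL0, hL, ← Real.log_rpow hXpos] at h1
    have h3 := (Real.log_le_log_iff (by linarith) (by positivity)).mp h1
    refine Nat.le_floor ?_
    push_cast
    exact h3
  have hT00 : 0 < T0 := by rw [hT0]; positivity
  have hY11 : 1 ≤ ⌊X ^ T0⌋₊ := Nat.le_floor (by exact_mod_cast Real.one_le_rpow hX1.le hT00.le)
  have hz1X' : (((2 ^ 2 ^ J : ℕ)) : ℝ) ≤ X ^ v0 := by rw [← hz1]; exact hz1X
  have hlev2 := (level X θ v0 T0 n J b K2 Km ⌊X ^ T0⌋₊ u hX1 hθ hv00 (by omega) hz1X' hvb hT0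
    hus rfl).2
  have hlev4 := (level X θ v0 T0 n J b K4 Km ⌊X ^ T0⌋₊ u hX1 hθ hv00 (by omega) hz1X' hvb hT0
    hus rfl).1
  rw [← hD0] at hlev2 hlev4
  have hSetup : ∀ K : ℕ, K ≤ Km → Setup κ0 K b J z0 D0 P1 P2 B Hs q κ e w M A err := by
    intro K hK
    refine ⟨hK.trans hbK, by omega, ?_, ?_, hDens, hw, hA.le, hκb, hEq, hρ⟩
    · intro p hp
      have h2 := PP_gt (hPsub (hP1P hp))
      rw [hP1, Finset.mem_filter] at hp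
      exact ⟨PP_prime (hPsub hp.1), h2, by rw [← hz1]; exact hp.2.2⟩
    · intro p hp
      exact ⟨hP2p p hp, lt_of_le_of_lt hz01 (hP2z p hp), by rw [← hz1]; exact hP2z p hp⟩
  have hdlU : ∀ U ⊆ B, U.card ≤ Ko → dl e Hs (P1 ∪ P2) U ≤ δ := fun U hU hUc =>
    (hdl U hU hUc).trans hKoδ
  obtain ⟨hAA, hBB⟩ := hSec S g (fun τ => ⌊X ^ (u τ)⌋₊) ⌊X ^ T0⌋₊ (hSetup K2 (by omega)) hlev2
    hVpos hV1 hδ1 hPi2' hBV' (fun τ => ⟨hg0 τ, hgC τ⟩) hSP hSe hSdis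
    (fun U hU hUc => hdlU U hU (by omega)) (fun τ => ⟨hY1 τ, hszS τ⟩) hY11
  have hA1 := hAA (fun _ => 1) (fun σ => by simp)
  simp only [one_pow, one_mul] at hA1
  -- main inequality
  have hβ0 : ∀ τ, 0 ≤ β τ := fun τ => (huβ τ).2.le
  have hq : ∀ τ, 0 ≤ g τ ^ 2 * (V1 q P1 * GG q (S τ)) := fun τ =>
    mul_nonneg (sq_nonneg _) (mul_nonneg hV10.le (hGpos τ).le)
  have hqη : ∀ τ, (B.card : ℝ) * (g τ ^ 2 * (V1 q P1 * GG q (S τ))) ≤ CB * η := by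
    intro τ
    have h1 : g τ ^ 2 * (V1 q P1 * GG q (S τ)) = V1 q P1 * (β τ ^ 2 / GG q (S τ)) := by
      simp only [hg]
      have := (hGpos τ).ne'
      field_simp
    have h2 : β τ ^ 2 / GG q (S τ) ≤ η * V := by
      rw [div_le_iff₀ (hGpos τ)]
      have h3 := hSGG τ
      rw [div_le_iff₀ (by positivity)] at h3
      linarith
    have h4 : 0 ≤ β τ ^ 2 / GG q (S τ) := div_nonneg (sq_nonneg _) (hGpos τ).le
    have h5 : (B.card : ℝ) * (g τ ^ 2 * (V1 q P1 * GG q (S τ))) =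
        (B.card * V1 q P1) * (β τ ^ 2 / GG q (S τ)) := by rw [h1]; ring
    have h6 : (B.card * V1 q P1) * (β τ ^ 2 / GG q (S τ)) ≤ (CB / V) * (η * V) :=
      mul_le_mul hBV h2 h4 (by positivity)
    have h7 : (CB / V) * (η * V) = CB * η := by field_simp
    rw [h5, ← h7]
    exact h6
  obtain ⟨-, hM1⟩ := hMain n B 0 β _ (CB * η) hβ0 hβs hq hqη
  -- the star family
  set S1 : Finset (Finset ℕ) := (P2.powerset).filter
        (fun R : Finset ℕ => Real.log (∏ p ∈ R, (p : ℝ)) / L ≤ T0) with hS1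
  have hS1P : ∀ R ∈ S1, R ⊆ P2 := fun R hR =>
    Finset.mem_powerset.mp (Finset.mem_filter.mp hR).1
  have hS1pr : ∀ R ∈ S1, ∀ p ∈ R, p.Prime := fun R hR p hp => hP2p p (hS1P R hR hp)
  have hG1 : θ / (40 * C1 * V) ≤ GG q S1 := by
    have h2 : T0 / (4 * C1 * V) = θ / (40 * C1 * V) := by
      rw [hT0]
      field_simp
      norm_num
    rw [h2] at hmass0
    exact hmass0
  have hG1pos : 0 < GG q S1 := lt_of_lt_of_le (by positivity) hG1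
  have hG1inv : 1 / GG q S1 ≤ 40 * C1 / θ * V := by
    rw [div_le_iff₀ hG1pos]
    calc (1 : ℝ) = 40 * C1 / θ * V * (θ / (40 * C1 * V)) := by field_simp
      _ ≤ 40 * C1 / θ * V * GG q S1 := mul_le_mul_of_nonneg_left hG1 (by positivity)
  have hinv0 : 0 ≤ 1 / GG q S1 := by positivity
  have hsz1 : ∀ R ∈ S1, ∏ p ∈ R, p ≤ ⌊X ^ T0⌋₊ := by
    intro R hR
    have h1 := (Finset.mem_filter.mp hR).2
    have h2 := prod_ge_one (hS1pr R hR)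
    rw [div_le_iff₀ hL0, hL, ← Real.log_rpow hXpos] at h1
    have h3 := (Real.log_le_log_iff (by linarith) (by positivity)).mp h1
    refine Nat.le_floor ?_
    push_cast
    exact h3
  -- errors
  have hE0 : 0 ≤ ET K2 (P1 ∪ P2) D0 err := ET_nonneg herr
  have hEL : ET K2 (P1 ∪ P2) D0 err ≤ A / L ^ Ko := (ET_mono (by omega) herr).trans hET
  obtain ⟨hEF1A, hEF2A⟩ := errs n K2 Ko J b B.card A L C CB C1 θ v0 V δ
    (ET K2 (P1 ∪ P2) D0 err) (V1 q P1) (GG q S1) Cst R1 R2 hC hCB1 hC1 hθ hA.le (by omega) hL1 hv00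
    hVpos hV1 hVlow hδ0 hE0 hEL hCst hR1 hR2 hXR1 hXR2 hbE hδE hBL1 hJL hV10 hBV hG1pos hG1inv
  -- good m
  set G : ℕ → Prop := fun m => ∀ a ∈ B, ∃ p ∈ P1 ∪ P2, m % p ∈ Hs p a with hG
  have hlow : A * ∑ σ ∈ cfg n B, occ (fun τ => g τ ^ 2 * (V1 q P1 * GG q (S τ))) σ -
      EF n K2 b J B.card A V δ (ET K2 (P1 ∪ P2) D0 err) ≤
      ∑ m ∈ range M, w m * WW B (fun _ => 1) (xx Hs q P1 S g m) ^ 2 := by
    have := (abs_le.mp hA1).1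
    linarith
  have hup := up_bound hCollapse n P1 P2 B Hs q w M S S1 g β hw hSP hS1P hgG hβs hG1pos
    (A * (V1 q P1 * GG q S1 * ((CB * η) *
      ∑ σ ∈ cfg n B, occ (fun τ => g τ ^ 2 * (V1 q P1 * GG q (S τ))) σ)) +
      EF n K2 b J B.card (A * V1 q P1) V δ (ET K2 (P1 ∪ P2) D0 err)) G (fun m => Iff.rfl) (by
      intro a₀ ha₀
      have h2 := hBB S1 hS1P hsz1 a₀ ha₀ (coef β) (fun σ => coef_abs hβ0 hβs σ)
      have h3 := (abs_le.mp h2).2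
      have h4 := (hMain n B a₀ β _ (CB * η) hβ0 hβs hq hqη).1
      have h5 : A * (V1 q P1 * GG q S1 * ∑ σ ∈ cfg n (B.erase a₀),
          coef β σ ^ 2 * occ (fun τ => g τ ^ 2 * (V1 q P1 * GG q (S τ))) σ) ≤
          A * (V1 q P1 * GG q S1 * ((CB * η) *
            ∑ σ ∈ cfg n B, occ (fun τ => g τ ^ 2 * (V1 q P1 * GG q (S τ))) σ)) :=
        mul_le_mul_of_nonneg_left (mul_le_mul_of_nonneg_left h4
          (mul_nonneg hV10.le hG1pos.le)) hA.le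
      linarith)
  have hmain1 : (B.card : ℝ) * V1 q P1 * (1 / GG q S1) * (CB * η) ≤ 1 / 4 := by
    have h1 : (B.card : ℝ) * V1 q P1 * (1 / GG q S1) ≤ (CB / V) * (40 * C1 / θ * V) :=
      mul_le_mul hBV hG1inv hinv0 (by positivity)
    have h2 : (CB / V) * (40 * C1 / θ * V) * (CB * η) = 1 / 4 := by
      rw [hη]
      field_simp
      norm_num
    rw [← h2]
    exact mul_le_mul_of_nonneg_right h1 (by positivity)
  have hsG : A / 2 ≤ ∑ m ∈ (range M).filter G, w m * WW B (fun _ => 1) (xx Hs q P1 S g m) ^ 2 :=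
    numericW A _ B.card (V1 q P1) (GG q S1) (CB * η) _ _ _ _ hA.le hM1 hG1pos hlow hup hmain1
      hEF1A hEF2A
  -- the fourth moment
  have hhit : ∀ m < M, w m ≠ 0 → ∀ a ∈ B, rg Hs P1 a m ≠ 0 →
      (P2.filter (fun p => m % p ∈ Hs p a)).card ≤ k0 := by
    intro m hm hwm a ha hrg
    exact hit_bound C v0 L X z1 k0 m a P1 P2 Hs hv00 hL0 hXpos hL hk0 hz1r hJlow hPp
      hP2z hne hrg (hsize m hm hwm a ha)
  have hfour := hFou S g (hSetup K4 (by omega)) hlev4 hVpos hV1 hPi2' hBV'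
    (fun τ => ⟨hg0 τ, hgC τ⟩) hSP (fun U hU hUc => (hdlU U hU (by omega)).trans hδ1) hhit
  have hE40 : 0 ≤ ET K4 (P1 ∪ P2) D0 err := ET_nonneg herr
  have hE4L : ET K4 (P1 ∪ P2) D0 err ≤ A / L ^ Ko := (ET_mono (by omega) herr).trans hET
  have hfourA := hfour.trans (err4 n K4 Ko J B.card k0 A L C v0 V (ET K4 (P1 ∪ P2) D0 err) F0 hC
    hA.le (by omega) hL1 hv00 hVpos hVlow hE40 hE4L hXC hF0 hBL1 hJL)
  have hfin := cs_final M w (fun m => WW B (fun _ => 1) (xx Hs q P1 S g m)) hw G (A / 2) (F0 * A)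
    (by positivity) (by positivity) hsG hfourA
  have hlast : 1 / (4 * F0) * A = (A / 2) ^ 2 / (F0 * A) := by
    field_simp
    norm_num
  rw [hlast]
  exact hfin

end Pool.Agent.H474R2.GE
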