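import Mathlib
import Pool.Agent.H474R2.GE.CoreB

set_option autoImplicit false

open Finset Filter

namespace Pool.Agent.H474R2.GE

open Pool.Agent.H410R2.AC Pool.Agent.H410R2.EN

theorem coreW_of (hSecond : SecondW) (hFourth : FourthW) (hCollapse : Collapse)
    (hMain : MainIneq) (hNT : NTq) (hTypes : Types) : CoreW := by
  classical
  intro κ0 C θ hκ0 hC hθ hθ1
  obtain ⟨C1, hC1, KN, hKN, hNT'⟩ := hNT κ0 C hκ0 hC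
  obtain ⟨CB, hCB⟩ : ∃ CB : ℝ, CB = 2 * C * C1 := ⟨_, rfl⟩
  have hCB1 : 1 ≤ CB := by rw [hCB]; nlinarith
  obtain ⟨η, hη⟩ : ∃ η : ℝ, η = θ / (160 * C1 * CB ^ 2) := ⟨_, rfl⟩
  have hη0 : 0 < η := by rw [hη]; positivity
  obtain ⟨T0, hT0⟩ : ∃ T0 : ℝ, T0 = θ / 10 := ⟨_, rfl⟩
  have hT00 : 0 < T0 := by rw [hT0]; positivity
  obtain ⟨n, u, β, V₀, hV₀, huβ, hβs, hus, hS⟩ := hTypes (4 * C1) η T0 (by linarith) hη0 hT00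
  have hn0 : 0 < n := by
    rcases Nat.eq_zero_or_pos n with h | h
    · subst h
      simp at hβs
    · exact h
  have hne : Nonempty (Fin n) := ⟨⟨0, hn0⟩⟩
  obtain ⟨βm, hβm0, hβm⟩ : ∃ βm : ℝ, 0 < βm ∧ ∀ τ, βm ≤ β τ := by
    obtain ⟨τ0, -, h⟩ := Finset.exists_min_image (Finset.univ : Finset (Fin n)) β
      Finset.univ_nonempty
    exact ⟨β τ0, (huβ τ0).2, fun τ => h τ (Finset.mem_univ τ)⟩
  obtain ⟨C2, hC2⟩ : ∃ C2 : ℝ, C2 = CB + C1 + η / βm + 1 := ⟨_, rfl⟩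
  have hηβ : 0 < η / βm := by positivity
  have hC2' : 1 ≤ C2 := by linarith
  obtain ⟨K2, hK2, hSec⟩ := hSecond n κ0 C2 hC2'
  obtain ⟨K4, hK4, hFou⟩ := hFourth n κ0 C2 hC2'
  obtain ⟨Km, hKm⟩ : ∃ Km : ℕ, Km = K2 + K4 := ⟨_, rfl⟩
  obtain ⟨Cst, hCst⟩ : ∃ Cst : ℝ, Cst = K2 * (1 + CB * (40 * C1 / θ) ^ 2) := ⟨_, rfl⟩
  obtain ⟨b, hb1, hbK, hbV, hb4, hb10, hbE⟩ := exists_b Km K2 (by omega) θ V₀ Cst hθ hV₀
  obtain ⟨v0, hv0⟩ : ∃ v0 : ℝ, v0 = θ / (20 * Km * b) := ⟨_, rfl⟩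
  rw [← hv0] at hbV hb4 hb10 hbE
  have hKm0 : (0 : ℝ) < Km := by exact_mod_cast (by omega : 0 < Km)
  have hb0 : (0 : ℝ) < b := by exact_mod_cast (by omega : 0 < b)
  have hv00 : 0 < v0 := by rw [hv0]; positivity
  have hvb : v0 * (Km * b) = θ / 20 := by
    rw [hv0]
    field_simp
  obtain ⟨δ, hδ0, hδ1, hδE⟩ := exists_delta K2 (Cst * (2 / v0) ^ K2)
  obtain ⟨k0, hk0⟩ : ∃ k0 : ℕ, k0 = ⌈2 * C / v0⌉₊ := ⟨_, rfl⟩
  obtain ⟨F0, hF0⟩ : ∃ F0 : ℝ, F0 = (2 * K4 / v0) ^ K4 * 2 ^ (4 * n * k0) * 2 := ⟨_, rfl⟩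
  have hK40 : (0 : ℝ) < K4 := by exact_mod_cast (by omega : 0 < K4)
  have hF00 : 0 < F0 := by rw [hF0]; positivity
  obtain ⟨Ko, hKo⟩ : ∃ Ko : ℕ, Ko = Km + 4 * n + 8 + ⌈1 / δ⌉₊ + KN + 2 * κ0 := ⟨_, rfl⟩
  have hKoδ : 1 / (Ko : ℝ) ≤ δ := by
    have h1 : 1 / δ ≤ Ko := by
      refine (Nat.le_ceil _).trans ?_
      exact_mod_cast (by omega : ⌈1 / δ⌉₊ ≤ Ko)
    have h2 : (0 : ℝ) < Ko := lt_of_lt_of_le (by positivity) h1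
    rw [div_le_iff₀ h2]
    rw [div_le_iff₀ hδ0] at h1
    linarith
  obtain ⟨R1, hR1⟩ : ∃ R1 : ℝ, R1 = K2 * (2 / v0) ^ K2 * (2 * C) ^ (2 * n + 2) := ⟨_, rfl⟩
  obtain ⟨R2, hR2⟩ : ∃ R2 : ℝ, R2 = (2 * C) * (40 * C1 / θ) ^ 2 * R1 := ⟨_, rfl⟩
  obtain ⟨X0, hX0⟩ := eventually_atTop.mp (ev_X v0 R1 R2 ((2 * C) ^ (4 * n)) C1 hv00)
  refine ⟨1 / (4 * F0), by positivity, Ko, by omega, X0, ?_⟩
  intro X hX z0 z2 D0 hz0K hz0L hz2 hD0 P B Hs q κ e w M A err hPsub hMert hκb hBc hρ hDens hw hA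
    hEq hdl hET hsize
  obtain ⟨hX1, hL8, hXJ, hXz, hXR1, hXR2, hXC, hXne⟩ := hX0 X hX
  obtain ⟨J, hJ1, hJlow, hJup⟩ := exists_J (Real.log X) v0 hXJ
  have hz14 : 4 ≤ 2 ^ 2 ^ J := by
    have : 2 ≤ 2 ^ J := by
      calc 2 = 2 ^ 1 := rfl
        _ ≤ 2 ^ J := Nat.pow_le_pow_right (by norm_num) hJ1
    calc 4 = 2 ^ 2 := rfl
      _ ≤ 2 ^ 2 ^ J := Nat.pow_le_pow_right (by norm_num) this
  have hL0 : 0 < Real.log X := by linarith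
  have hz1r : (4 : ℝ) ≤ ((2 ^ 2 ^ J : ℕ) : ℝ) := by exact_mod_cast hz14
  have hlz1 : 0 < Real.log ((2 ^ 2 ^ J : ℕ) : ℝ) := Real.log_pos (by linarith)
  have hV : 0 < Real.log ((2 ^ 2 ^ J : ℕ) : ℝ) / Real.log X := div_pos hlz1 hL0
  have hVup : Real.log ((2 ^ 2 ^ J : ℕ) : ℝ) / Real.log X ≤ v0 := by
    rw [div_le_iff₀ hL0]
    linarith
  have hQ : QG q P := by
    intro p hp
    have h1 := PP_gt (hPsub hp)
    exact q_ge_two hκ0 (by omega) (hκb p hp)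
  have hXpos : 0 < X := by linarith
  have hz1X : (((2 ^ 2 ^ J : ℕ)) : ℝ) ≤ X ^ v0 := by
    rw [← Real.log_le_log_iff (by linarith) (by positivity), Real.log_rpow hXpos]
    exact hJup
  have hz1X2 : X ^ (v0 / 2) ≤ (((2 ^ 2 ^ J : ℕ)) : ℝ) := by
    rw [← Real.log_le_log_iff (by positivity) (by linarith), Real.log_rpow hXpos]
    linarith
  have hz01 : z0 ≤ 2 ^ 2 ^ J := by
    have : (z0 : ℝ) ≤ (((2 ^ 2 ^ J : ℕ)) : ℝ) := hz0L.trans (hXz.trans hz1X2)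
    exact_mod_cast this
  have hz12 : 2 ^ 2 ^ J ≤ z2 := by
    rw [hz2]
    refine Nat.le_floor (hz1X.trans (Real.rpow_le_rpow_of_exponent_le hX1.le ?_))
    linarith
  obtain ⟨hN1, hN2⟩ := hNT' z0 z2 P q (by omega) (hz01.trans hz12) hPsub hMert hκb
  set P1 := P.filter (fun p => z0 < p ∧ p ≤ 2 ^ 2 ^ J) with hP1
  set P2 := P.filter (fun p => 2 ^ 2 ^ J < p ∧ p ≤ z2) with hP2
  have hP2' : P.filter (fun p => 2 ^ 2 ^ J < p) = P2 := by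
    rw [hP2]
    refine Finset.filter_congr (fun p hp => ?_)
    have := PP_le (hPsub hp)
    exact ⟨fun h => ⟨h, this⟩, fun h => h.1⟩
  have hQ2 : QG q P2 := hQ.mono (Finset.filter_subset _ _)
  have hP2p : ∀ p ∈ P2, p.Prime := fun p hp =>
    PP_prime (hPsub (Finset.filter_subset _ _ hp))
  have hmass : ∀ t : ℝ, Real.log ((2 ^ 2 ^ J : ℕ) : ℝ) / Real.log X ≤ t → t ≤ T0 →
      t / (4 * C1 * (Real.log ((2 ^ 2 ^ J : ℕ) : ℝ) / Real.log X)) ≤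
      ∑ R ∈ (P2.powerset).filter
        (fun R : Finset ℕ => Real.log (∏ p ∈ R, (p : ℝ)) / Real.log X ≤ t), wt q R ∧
      ∑ R ∈ (P2.powerset).filter
        (fun R : Finset ℕ => Real.log (∏ p ∈ R, (p : ℝ)) / Real.log X ≤ t), wt q R ≤
        4 * C1 * t / (Real.log ((2 ^ 2 ^ J : ℕ) : ℝ) / Real.log X) := by
    intro t ht ht'
    refine mass_bounds hC1 P2 q z2 X θ hX1 (2 ^ 2 ^ J) hz14 hz2 hP2p ?_ t ht
      (ht'.trans (by rw [hT0]; linarith))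
    intro Y hY1 hY2
    have h := hN2 (2 ^ 2 ^ J) Y hz01 hY1 hY2
    rw [hP2'] at h
    exact h
  have hpow : ∀ R ∈ P2.powerset, QG q R := fun R hR =>
    hQ2.mono (Finset.mem_powerset.mp hR)
  obtain ⟨S, hSsub, hSdis, hSmass⟩ := hS (Real.log ((2 ^ 2 ^ J : ℕ) : ℝ) / Real.log X)
    P2.powerset (wt q)
    (fun R => Real.log (∏ p ∈ R, (p : ℝ)) / Real.log X) hV (hVup.trans hbV)
    (fun R hR => ⟨wt_nonneg (hpow R hR), wt_le_one (hpow R hR)⟩) hmass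
  rcases hA.eq_or_lt with hA0 | hApos
  · rw [← hA0, mul_zero]
    exact Finset.sum_nonneg (fun m _ => hw m)
  · exact core_fixed hCollapse hMain C C1 CB θ η T0 v0 δ βm n K2 K4 Km b Ko k0 u β Cst R1 R2 F0
      C2 hC hC1 hCB hθ hθ1 hη hT0 huβ hβs hus hβm0 hβm hC2 hKm (by omega) hKoδ hbK hb4
      hb10 hv00 hvb hδ0 hδ1 hCst hbE hδE hR1 hR2 hk0 hF0 hF00 X (Real.log X)
      (Real.log ((2 ^ 2 ^ J : ℕ) : ℝ) / Real.log X) J κ0 z0 (2 ^ 2 ^ J) z2 D0 hX1 rfl hL8 rfl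
      hz14 rfl hJlow hJup hXz hXR1 hXR2 hXC hXne hz0K hz0L hz2 hD0 P P1 P2 q hPsub hQ hκb hP1 hP2
      hN1 S hSsub hSdis hSmass
      (hmass T0 (hVup.trans (by rw [hT0]; exact hb10)) le_rfl).1 B Hs κ e w M A err
      (fun S g Y Y1 => hSec b J z0 D0 _ _ B Hs q κ e w M A err S g Y Y1 _ δ)
      (fun S g h1 h2 h3 h4 h5 h6 h7 h8 h9 h10 => hFou b J z0 D0 k0 _ _ B Hs q κ e w M A err S g _
        h1 h2 h3 h4 h5 h6 h7 h8 h9 h10 (fun _ => 1) (fun σ => by simp))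
      hBc hρ hDens hw hApos hEq hdl hET hsize

end Pool.Agent.H474R2.GE
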