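import Pool.Agent.H474R2.GE.Iface
import Pool.Agent.H488R2.EN.D

/-! GE2: `ExpandW` from `FLem`, several residue classes per prime
(generalisation of helper488's proof, `Pool/Agent/H488R2/EN/{A,B,C,D}.lean`). -/

set_option autoImplicit false

open Finset

namespace Pool.Agent.H474R2.GE

open Pool.Agent.H410R2.AC Pool.Agent.H410R2.EN

namespace ExpW

open Pool.Agent.H488R2.EN2a (extf extf_mem prod_sum' sum_powerset_pi class_decomp mass_hit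
  prod_diff prod_near_one Et Et_bounds ES)

/-- density of the hit classes -/
noncomputable def GU (κ : ℕ → ℕ → ℝ) (Hs : ℕ → ℕ → Finset ℕ) (U : Finset ℕ) (p : ℕ) : ℝ :=
  ∑ c ∈ U.biUnion (Hs p), κ p c

lemma card_biUnion_le_mul {κ0 n : ℕ} {U : Finset ℕ} (hU : U.card ≤ n) {H : ℕ → Finset ℕ}
    (hH : ∀ a ∈ U, (H a).card ≤ κ0) : (U.biUnion H).card ≤ n * κ0 :=
  (Finset.card_biUnion_le_card_mul U H κ0 hH).trans (Nat.mul_le_mul_right κ0 hU)

lemma GU_bound {κ : ℕ → ℕ → ℝ} {e : ℕ → ℕ} {P : Finset ℕ} (hD : Dens κ e P)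
    {Hs : ℕ → ℕ → Finset ℕ} {U : Finset ℕ} {n κ0 : ℕ} (hU : U.card ≤ n) {p : ℕ} (hp : p ∈ P)
    (hpp : p.Prime) (hρ : ∀ a ∈ U, Hs p a ⊆ range p) (hc : ∀ a ∈ U, (Hs p a).card ≤ κ0) :
    0 ≤ GU κ Hs U p ∧ GU κ Hs U p ≤ (n * κ0 : ℕ) / ((p : ℝ) - 1) := by
  have h1 : (1 : ℝ) < p := by exact_mod_cast hpp.one_lt
  have h2 : (0 : ℝ) < (p : ℝ) - 1 := by linarith
  have hlt : ∀ c ∈ U.biUnion (Hs p), c < p := by
    intro c hc'
    obtain ⟨a, ha, hca⟩ := Finset.mem_biUnion.1 hc'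
    exact Finset.mem_range.1 (hρ a ha hca)
  constructor
  · exact Finset.sum_nonneg fun c hc' => (hD p hp c (hlt c hc')).1
  · calc GU κ Hs U p ≤ ∑ c ∈ U.biUnion (Hs p), 1 / ((p : ℝ) - 1) :=
          Finset.sum_le_sum fun c hc' => (hD p hp c (hlt c hc')).2.1
      _ = (U.biUnion (Hs p)).card * (1 / ((p : ℝ) - 1)) := by
          rw [Finset.sum_const, nsmul_eq_mul]
      _ ≤ (n * κ0 : ℕ) * (1 / ((p : ℝ) - 1)) := by
          apply mul_le_mul_of_nonneg_right _ (by positivity)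
          exact_mod_cast card_biUnion_le_mul hU hc
      _ = (n * κ0 : ℕ) / ((p : ℝ) - 1) := by ring

/-- `(1 - x)^u` is `1 - u x` up to `u^2 x^2` -/
lemma pow_approx (x : ℝ) (hx0 : 0 ≤ x) (hx1 : x ≤ 1) (u : ℕ) :
    1 - (u : ℝ) * x ≤ (1 - x) ^ u ∧ (1 - x) ^ u ≤ 1 - (u : ℝ) * x + (u : ℝ) ^ 2 * x ^ 2 := by
  constructor
  · have := one_add_mul_le_pow (a := -x) (by linarith) u
    calc 1 - (u : ℝ) * x = 1 + (u : ℝ) * -x := by ring
      _ ≤ (1 + -x) ^ u := this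
      _ = _ := by ring
  · induction u with
    | zero => simp
    | succ u ih =>
      have hu : (0 : ℝ) ≤ u := Nat.cast_nonneg u
      have h3 : 0 ≤ 1 - x := by linarith
      rw [pow_succ]
      calc (1 - x) ^ u * (1 - x) ≤ (1 - (u : ℝ) * x + (u : ℝ) ^ 2 * x ^ 2) * (1 - x) :=
            mul_le_mul_of_nonneg_right ih h3
        _ = 1 - (u + 1) * x + (u ^ 2 + u) * x ^ 2 - u ^ 2 * x ^ 3 := by ring
        _ ≤ 1 - ((u + 1 : ℕ) : ℝ) * x + ((u + 1 : ℕ) : ℝ) ^ 2 * x ^ 2 := by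
            push_cast
            have h5 : 0 ≤ (u : ℝ) ^ 2 * x ^ 3 := by positivity
            have h6 : 0 ≤ (u + 1 : ℝ) * x ^ 2 := by positivity
            nlinarith

/-- the ratio of the local factors -/
lemma ratio {κ : ℕ → ℕ → ℝ} {e : ℕ → ℕ} {P : Finset ℕ} (hD : Dens κ e P)
    {Hs : ℕ → ℕ → Finset ℕ} {q : ℕ → ℝ}
    {U : Finset ℕ} {n κ0 : ℕ} (hU : U.card ≤ n) {p : ℕ} (hp : p ∈ P) (hpp : p.Prime)
    (hpn : 2 * (n * κ0) + 2 ≤ p) (hpκ : κ0 ≤ p)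
    (hH : ∀ a ∈ U, Hs p a ⊆ range p ∧ 1 ≤ (Hs p a).card ∧ (Hs p a).card ≤ κ0 ∧
      ((Hs p a).card : ℝ) * q p = p)
    (hq : 1 / (p : ℝ) ≤ 1 / q p ∧ 1 / q p ≤ κ0 / (p : ℝ)) :
    0 < (1 - 1 / q p) ^ U.card ∧
    |(1 - GU κ Hs U p) / (1 - 1 / q p) ^ U.card - 1| ≤ (4 * (((n * κ0 : ℕ) : ℝ) + 1) ^ 2) *
      (1 / ((p : ℝ) - 1) ^ 2 + if (∃ a ∈ U, ∃ b ∈ U, a ≠ b ∧ ¬ Disjoint (Hs p a) (Hs p b)) ∨
        ∃ a ∈ U, e p ∈ Hs p a then 1 / ((p : ℝ) - 1) else 0) := by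
  have h1 : (1 : ℝ) < p := by exact_mod_cast hpp.one_lt
  have h0 : (0 : ℝ) < p := by linarith
  have h2 : (0 : ℝ) < (p : ℝ) - 1 := by linarith
  obtain ⟨N, hN⟩ : ∃ N : ℕ, N = n * κ0 := ⟨_, rfl⟩
  rw [← hN] at hpn ⊢
  have hn0 : (0 : ℝ) ≤ N := Nat.cast_nonneg N
  have hpn' : 2 * (N : ℝ) + 2 ≤ p := by exact_mod_cast hpn
  obtain ⟨g0, g1⟩ := GU_bound hD hU hp hpp (fun a ha => (hH a ha).1) (fun a ha => (hH a ha).2.2.1)
  rw [← hN] at g1
  obtain ⟨x, hx⟩ : ∃ x : ℝ, x = 1 / q p := ⟨_, rfl⟩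
  rw [← hx] at hq ⊢
  have hx0 : 0 ≤ x := le_trans (by positivity) hq.1
  have hx1 : x ≤ 1 := by
    refine hq.2.trans ?_
    rw [div_le_one h0]
    exact_mod_cast hpκ
  obtain ⟨a1, a2⟩ := pow_approx x hx0 hx1 U.card
  have hu : (U.card : ℝ) ≤ n := by exact_mod_cast hU
  have hu0 : (0 : ℝ) ≤ U.card := Nat.cast_nonneg _
  have hux : (U.card : ℝ) * x ≤ N / p := by
    calc (U.card : ℝ) * x ≤ n * (κ0 / p) := mul_le_mul hu hq.2 hx0 (Nat.cast_nonneg n)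
      _ = N / p := by rw [hN]; push_cast; ring
  have hux0 : 0 ≤ (U.card : ℝ) * x := mul_nonneg hu0 hx0
  have hNp : (N : ℝ) / p ≤ N / ((p : ℝ) - 1) :=
    div_le_div_of_nonneg_left hn0 h2 (by linarith)
  set v := (1 - x) ^ U.card with hv
  have hxh : (U.card : ℝ) * x ≤ 1 / 2 := by
    refine hux.trans ?_
    rw [div_le_iff₀ h0]
    linarith
  have hv2 : 1 / 2 ≤ v := by linarith
  have hv0 : 0 < v := by linarith
  have hv1 : v ≤ 1 := pow_le_one₀ (by linarith) (by linarith)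
  refine ⟨hv0, ?_⟩
  have e1 : (1 - GU κ Hs U p) / v - 1 = (1 - GU κ Hs U p - v) / v := by
    field_simp
  rw [e1, abs_div, abs_of_pos hv0, div_le_iff₀ hv0]
  -- it suffices to bound the numerator by half
  suffices h : |1 - GU κ Hs U p - v| ≤ (2 * ((N : ℝ) + 1) ^ 2) *
      (1 / ((p : ℝ) - 1) ^ 2 + if (∃ a ∈ U, ∃ b ∈ U, a ≠ b ∧ ¬ Disjoint (Hs p a) (Hs p b)) ∨
        ∃ a ∈ U, e p ∈ Hs p a then 1 / ((p : ℝ) - 1) else 0) by
    refine h.trans ?_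
    have hnn : 0 ≤ (1 / ((p : ℝ) - 1) ^ 2 +
        if (∃ a ∈ U, ∃ b ∈ U, a ≠ b ∧ ¬ Disjoint (Hs p a) (Hs p b)) ∨
        ∃ a ∈ U, e p ∈ Hs p a then 1 / ((p : ℝ) - 1) else 0) := by
      split_ifs <;> positivity
    set Z := (1 / ((p : ℝ) - 1) ^ 2 +
        if (∃ a ∈ U, ∃ b ∈ U, a ≠ b ∧ ¬ Disjoint (Hs p a) (Hs p b)) ∨
        ∃ a ∈ U, e p ∈ Hs p a then 1 / ((p : ℝ) - 1) else 0) with hZ
    have : 4 * ((N : ℝ) + 1) ^ 2 * Z * (1 / 2) ≤ 4 * ((N : ℝ) + 1) ^ 2 * Z * v :=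
      mul_le_mul_of_nonneg_left hv2 (by positivity)
    linarith
  by_cases hex : (∃ a ∈ U, ∃ b ∈ U, a ≠ b ∧ ¬ Disjoint (Hs p a) (Hs p b)) ∨
      ∃ a ∈ U, e p ∈ Hs p a
  · rw [if_pos hex]
    have h3 : |1 - GU κ Hs U p - v| ≤ 2 * N / ((p : ℝ) - 1) := by
      have h5 : 2 * N / ((p : ℝ) - 1) = N / ((p : ℝ) - 1) + N / ((p : ℝ) - 1) := by ring
      have h6 : 0 ≤ N / ((p : ℝ) - 1) := by positivity
      rw [h5, abs_le]
      constructor <;> linarith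
    refine h3.trans ?_
    have h4 : 2 * N / ((p : ℝ) - 1) ≤ 2 * ((N : ℝ) + 1) ^ 2 * (1 / ((p : ℝ) - 1)) := by
      rw [div_eq_mul_one_div]
      apply mul_le_mul_of_nonneg_right _ (by positivity)
      nlinarith
    have h5 : 0 ≤ 2 * ((N : ℝ) + 1) ^ 2 * (1 / ((p : ℝ) - 1) ^ 2) := by positivity
    linarith
  · rw [if_neg hex, add_zero]
    push Not at hex
    obtain ⟨hinj, hne⟩ := hex
    have hG : GU κ Hs U p = ∑ a ∈ U, ∑ c ∈ Hs p a, κ p c := by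
      unfold GU
      rw [Finset.sum_biUnion]
      intro a ha b hb hab
      exact hinj a ha b hb hab
    have hone : ∀ a ∈ U, ∑ _c ∈ Hs p a, (1 / (p : ℝ)) = x := by
      intro a ha
      obtain ⟨-, hc1, -, hc3⟩ := hH a ha
      have hc0 : (0 : ℝ) < ((Hs p a).card : ℝ) := by exact_mod_cast hc1
      have hq0 : q p = p / ((Hs p a).card : ℝ) := by
        rw [eq_div_iff hc0.ne', mul_comm]
        exact hc3
      rw [Finset.sum_const, nsmul_eq_mul, hx, hq0]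
      field_simp
    have h3 : |GU κ Hs U p - U.card * x| ≤ N / ((p : ℝ) - 1) ^ 2 := by
      have e2 : GU κ Hs U p - U.card * x =
          ∑ a ∈ U, ∑ c ∈ Hs p a, (κ p c - 1 / (p : ℝ)) := by
        have e3 : ∑ a ∈ U, ∑ c ∈ Hs p a, (κ p c - 1 / (p : ℝ)) =
            ∑ a ∈ U, ((∑ c ∈ Hs p a, κ p c) - x) := by
          apply Finset.sum_congr rfl
          intro a ha
          rw [Finset.sum_sub_distrib, hone a ha]
        rw [e3, hG, Finset.sum_sub_distrib, Finset.sum_const, nsmul_eq_mul]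
      rw [e2]
      calc |∑ a ∈ U, ∑ c ∈ Hs p a, (κ p c - 1 / (p : ℝ))|
          ≤ ∑ a ∈ U, |∑ c ∈ Hs p a, (κ p c - 1 / (p : ℝ))| := Finset.abs_sum_le_sum_abs _ _
        _ ≤ ∑ a ∈ U, ∑ c ∈ Hs p a, |κ p c - 1 / (p : ℝ)| :=
            Finset.sum_le_sum fun a _ => Finset.abs_sum_le_sum_abs _ _
        _ ≤ ∑ a ∈ U, ∑ _c ∈ Hs p a, 1 / ((p : ℝ) - 1) ^ 2 :=
            Finset.sum_le_sum fun a ha => Finset.sum_le_sum fun c hc =>
              (hD p hp _ (Finset.mem_range.1 ((hH a ha).1 hc))).2.2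
                (fun h => hne a ha (by rw [← h]; exact hc))
        _ ≤ ∑ _a ∈ U, (κ0 : ℝ) * (1 / ((p : ℝ) - 1) ^ 2) := by
            apply Finset.sum_le_sum
            intro a ha
            rw [Finset.sum_const, nsmul_eq_mul]
            apply mul_le_mul_of_nonneg_right _ (by positivity)
            exact_mod_cast (hH a ha).2.2.1
        _ = (U.card : ℝ) * κ0 * (1 / ((p : ℝ) - 1) ^ 2) := by
            rw [Finset.sum_const, nsmul_eq_mul]; ring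
        _ ≤ N * (1 / ((p : ℝ) - 1) ^ 2) := by
            apply mul_le_mul_of_nonneg_right _ (by positivity)
            rw [hN]
            push_cast
            exact mul_le_mul_of_nonneg_right hu (Nat.cast_nonneg _)
        _ = _ := by ring
    have hsq : (U.card : ℝ) ^ 2 * x ^ 2 ≤ (N : ℝ) ^ 2 / ((p : ℝ) - 1) ^ 2 := by
      rw [← mul_pow, ← div_pow]
      exact pow_le_pow_left₀ hux0 (hux.trans hNp) 2
    have h4 : |1 - GU κ Hs U p - v| ≤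
        (N : ℝ) / ((p : ℝ) - 1) ^ 2 + (N : ℝ) ^ 2 / ((p : ℝ) - 1) ^ 2 := by
      rw [abs_le] at h3 ⊢
      have h5 : 0 ≤ (N : ℝ) ^ 2 / ((p : ℝ) - 1) ^ 2 := by positivity
      constructor <;> linarith
    refine h4.trans ?_
    have h5 : (N : ℝ) + (N : ℝ) ^ 2 ≤ 2 * ((N : ℝ) + 1) ^ 2 := by nlinarith
    calc (N : ℝ) / ((p : ℝ) - 1) ^ 2 + (N : ℝ) ^ 2 / ((p : ℝ) - 1) ^ 2
        = ((N : ℝ) + (N : ℝ) ^ 2) * (1 / ((p : ℝ) - 1) ^ 2) := by ring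
      _ ≤ _ := mul_le_mul_of_nonneg_right h5 (by positivity)

/-- comparison of the sieve product with `V1 ^ |U|` -/
lemma VU {κ : ℕ → ℕ → ℝ} {e : ℕ → ℕ} {P : Finset ℕ} (hD : Dens κ e P)
    {Hs : ℕ → ℕ → Finset ℕ} {q : ℕ → ℝ}
    {U : Finset ℕ} {n κ0 : ℕ} (hU : U.card ≤ n) (P1 : Finset ℕ) (hP1 : P1 ⊆ P)
    (hpp : ∀ p ∈ P1, p.Prime) (hpn : ∀ p ∈ P1, 2 * (n * κ0) + 2 ≤ p) (hpκ : ∀ p ∈ P1, κ0 ≤ p)
    (hH : Hit κ0 Hs q P1 U)
    (hq : ∀ p ∈ P1, 1 / (p : ℝ) ≤ 1 / q p ∧ 1 / q p ≤ κ0 / (p : ℝ))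
    (δ : ℝ) (hδ : dl e Hs P1 U ≤ δ) :
    |∏ p ∈ P1, (1 - GU κ Hs U p) - V1 q P1 ^ U.card| ≤
      V1 q P1 ^ U.card * (Real.exp (4 * (((n * κ0 : ℕ) : ℝ) + 1) ^ 2 * δ) - 1) ∧
    0 ≤ ∏ p ∈ P1, (1 - GU κ Hs U p) ∧ 0 ≤ V1 q P1 ^ U.card := by
  have h1 : ∀ p ∈ P1, 0 < (1 - 1 / q p) ^ U.card := fun p hp =>
    (ratio hD hU (hP1 hp) (hpp p hp) (hpn p hp) (hpκ p hp) (hH p hp) (hq p hp)).1
  have hV : V1 q P1 ^ U.card = ∏ p ∈ P1, (1 - 1 / q p) ^ U.card := by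
    unfold V1
    rw [Finset.prod_pow]
  have hV0 : 0 < V1 q P1 ^ U.card := by
    rw [hV]
    exact Finset.prod_pos h1
  have h2 : ∏ p ∈ P1, (1 - GU κ Hs U p) =
      V1 q P1 ^ U.card * ∏ p ∈ P1, ((1 - GU κ Hs U p) / (1 - 1 / q p) ^ U.card) := by
    rw [hV, ← Finset.prod_mul_distrib]
    apply Finset.prod_congr rfl
    intro p hp
    have := (h1 p hp).ne'
    exact (mul_div_cancel₀ _ this).symm
  have h3 := prod_near_one P1 (fun p => (1 - GU κ Hs U p) / (1 - 1 / q p) ^ U.card) _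
    (fun p hp => (ratio hD hU (hP1 hp) (hpp p hp) (hpn p hp) (hpκ p hp) (hH p hp) (hq p hp)).2)
  have h4 : ∑ p ∈ P1, (4 * (((n * κ0 : ℕ) : ℝ) + 1) ^ 2) *
      (1 / ((p : ℝ) - 1) ^ 2 + if (∃ a ∈ U, ∃ b ∈ U, a ≠ b ∧ ¬ Disjoint (Hs p a) (Hs p b)) ∨
        ∃ a ∈ U, e p ∈ Hs p a then 1 / ((p : ℝ) - 1) else 0) =
      4 * (((n * κ0 : ℕ) : ℝ) + 1) ^ 2 * dl e Hs P1 U := by
    unfold dl
    rw [← Finset.mul_sum, Finset.sum_add_distrib, Finset.sum_filter]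
  rw [h4] at h3
  refine ⟨?_, ?_, hV0.le⟩
  · have e1 : ∏ p ∈ P1, (1 - GU κ Hs U p) - V1 q P1 ^ U.card =
        V1 q P1 ^ U.card * (∏ p ∈ P1, ((1 - GU κ Hs U p) / (1 - 1 / q p) ^ U.card) - 1) := by
      rw [h2]
      ring
    rw [e1, abs_mul, abs_of_pos hV0]
    apply mul_le_mul_of_nonneg_left _ hV0.le
    refine h3.trans ?_
    have : Real.exp (4 * (((n * κ0 : ℕ) : ℝ) + 1) ^ 2 * dl e Hs P1 U) ≤
        Real.exp (4 * (((n * κ0 : ℕ) : ℝ) + 1) ^ 2 * δ) := by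
      apply Real.exp_le_exp.2
      exact mul_le_mul_of_nonneg_left hδ (by positivity)
    linarith
  · apply Finset.prod_nonneg
    intro p hp
    obtain ⟨g0, g1⟩ := GU_bound hD hU (hP1 hp) (hpp p hp) (fun a ha => (hH p hp a ha).1)
      (fun a ha => (hH p hp a ha).2.2.1)
    have h5 : (1 : ℝ) < p := by exact_mod_cast (hpp p hp).one_lt
    have h6 : (0 : ℝ) < (p : ℝ) - 1 := by linarith
    have hpn' : 2 * ((n * κ0 : ℕ) : ℝ) + 2 ≤ p := by exact_mod_cast hpn p hp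
    have : ((n * κ0 : ℕ) : ℝ) / ((p : ℝ) - 1) ≤ 1 := by
      rw [div_le_one h6]
      have : (0 : ℝ) ≤ ((n * κ0 : ℕ) : ℝ) := Nat.cast_nonneg _
      linarith
    linarith

/-- the statement of `FLem` for fixed `n`, `C0` -/
def FLemAt (κ C0 : ℕ) : Prop :=
  ∀ (b J z0 : ℕ) (P : Finset ℕ) (g : ℕ → ℝ),
  C0 ≤ b → C0 ≤ z0 → (∀ p ∈ P, p.Prime ∧ z0 < p ∧ p ≤ 2 ^ 2 ^ J) →
  (∀ p ∈ P, 0 ≤ g p ∧ g p ≤ κ / ((p : ℝ) - 1)) →
  ∀ (M : ℕ) (w : ℕ → ℝ) (Cs : ℕ → Finset ℕ) (T2 : Finset ℕ) (c : ℕ → ℕ) (A : ℝ)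
    (err : Finset ℕ → ℝ),
    (∀ m, 0 ≤ w m) → 0 ≤ A →
    (∀ T ⊆ P, ∏ p ∈ T, p ≤ (2 ^ 2 ^ J) ^ (C0 * b) →
      |∑ m ∈ (range M).filter (fun m => ∀ p ∈ T2, m % p = c p),
        (if ∀ p ∈ T, m % p ∈ Cs p then w m else 0) - A * ∏ p ∈ T, g p| ≤ err T) →
    |∑ m ∈ (range M).filter (fun m => ∀ p ∈ T2, m % p = c p),
        (if ∀ p ∈ P, m % p ∉ Cs p then w m else 0) - A * ∏ p ∈ P, (1 - g p)| ≤
      (1 / 2 : ℝ) ^ b * (A * ∏ p ∈ P, (1 - g p)) +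
        ((J : ℝ) + 2) *
          ∑ T ∈ P.powerset.filter (fun T : Finset ℕ => ∏ p ∈ T, p ≤ (2 ^ 2 ^ J) ^ (C0 * b)), err T

lemma flemAt_of (h : FLem) (κ : ℕ) : ∃ C0 : ℕ, 1 ≤ C0 ∧ FLemAt κ C0 := by
  obtain ⟨C0, hC0, h1⟩ := h κ
  refine ⟨C0, hC0, ?_⟩
  intro b J z0 P g hb hz hP hg M w Cs T2 c A err hw hA hT
  have h2 := h1 b J z0 P g hb hz hP hg ((range M).filter (fun m => ∀ p ∈ T2, m % p = c p)) w
    (fun p m => m % p ∈ Cs p) A err (fun m _ => hw m) hA (by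
      intro T hTP hTb
      have h3 := hT T hTP hTb
      rw [Finset.sum_filter]
      convert h3 using 6)
  rw [Finset.sum_filter] at h2
  convert h2 using 6

variable {n κ0 C0 : ℕ}

lemma fl_apply (hF : FLemAt (n * κ0) C0) {b J z0 D0 D2 : ℕ} {P1 P2 : Finset ℕ} {Hs : ℕ → ℕ → Finset ℕ}
    {κ : ℕ → ℕ → ℝ} {e : ℕ → ℕ} {w : ℕ → ℝ} {M : ℕ} {A : ℝ} {err : Finset ℕ → ℝ} {U : Finset ℕ}
    (hU : U.card ≤ n) (hb : C0 ≤ b) (hz : C0 ≤ z0)
    (hP1 : ∀ p ∈ P1, p.Prime ∧ z0 < p ∧ p ≤ 2 ^ 2 ^ J)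
    (hP2 : ∀ p ∈ P2, p.Prime ∧ z0 < p ∧ 2 ^ 2 ^ J < p) (hD : Dens κ e (P1 ∪ P2))
    (hw : ∀ m, 0 ≤ w m) (hA : 0 ≤ A) (hE : Equid κ w M A (P1 ∪ P2) D0 err)
    (hD0 : (2 ^ 2 ^ J) ^ (C0 * b) * D2 ≤ D0) (hρ : ∀ p ∈ P1, ∀ a ∈ U, Hs p a ⊆ range p)
    (hcd : ∀ p ∈ P1, ∀ a ∈ U, (Hs p a).card ≤ κ0)
    (T2 : Finset ℕ) (hT2 : T2 ⊆ P2) (hT2D : ∏ p ∈ T2, p ≤ D2) (c : ℕ → ℕ) (hc : ∀ p ∈ T2, c p < p) :
    |∑ m ∈ (range M).filter (fun m => ∀ p ∈ T2, m % p = c p),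
        (if ∀ p ∈ P1, m % p ∉ U.biUnion (Hs p) then w m else 0) -
        A * (∏ p ∈ T2, κ p (c p)) * ∏ p ∈ P1, (1 - GU κ Hs U p)| ≤
      (1 / 2 : ℝ) ^ b * (A * (∏ p ∈ T2, κ p (c p)) * ∏ p ∈ P1, (1 - GU κ Hs U p)) +
        ((J : ℝ) + 2) * ES (n * κ0) C0 J b P1 err T2 := by
  have hκ0 : 0 ≤ ∏ p ∈ T2, κ p (c p) := Finset.prod_nonneg fun p hp =>
    (hD p (Finset.mem_union_right _ (hT2 hp)) (c p) (hc p hp)).1
  refine hF b J z0 P1 (GU κ Hs U) hb hz hP1 (fun p hp => GU_bound hD hU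
    (Finset.mem_union_left _ hp) (hP1 p hp).1 (hρ p hp) (hcd p hp)) M w (fun p => U.biUnion (Hs p)) T2 c
    (A * ∏ p ∈ T2, κ p (c p)) (fun T1 => ((n * κ0 : ℕ) : ℝ) ^ T1.card * err (T1 ∪ T2)) hw
    (mul_nonneg hA hκ0) ?_
  intro T1 hT1 hT1b
  have hdisj : Disjoint T1 T2 := by
    rw [Finset.disjoint_left]
    intro p hp hq
    have h1 := (hP1 p (hT1 hp)).2.2
    have h2 := (hP2 p (hT2 hq)).2.2
    omega
  rw [mass_hit w M T1 T2 hdisj c (fun p => U.biUnion (Hs p))]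
  have hG : A * (∏ p ∈ T2, κ p (c p)) * ∏ p ∈ T1, GU κ Hs U p =
      ∑ c1 ∈ T1.pi (fun p => U.biUnion (Hs p)),
        A * ∏ p ∈ T1 ∪ T2, κ p (if p ∈ T1 then extf T1 c1 p else c p) := by
    unfold GU
    rw [prod_sum' T1 (fun p => U.biUnion (Hs p)) κ, Finset.mul_sum]
    apply Finset.sum_congr rfl
    intro c1 _
    rw [Finset.prod_union hdisj]
    have e1 : ∏ p ∈ T1, κ p (if p ∈ T1 then extf T1 c1 p else c p) =
        ∏ p ∈ T1, κ p (extf T1 c1 p) := by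
      apply Finset.prod_congr rfl
      intro p hp
      rw [if_pos hp]
    have e2 : ∏ p ∈ T2, κ p (if p ∈ T1 then extf T1 c1 p else c p) = ∏ p ∈ T2, κ p (c p) := by
      apply Finset.prod_congr rfl
      intro p hp
      rw [if_neg (fun h => Finset.disjoint_left.1 hdisj h hp)]
    rw [e1, e2]
    ring
  rw [hG, ← Finset.sum_sub_distrib]
  have hprod : ∏ p ∈ T1 ∪ T2, p ≤ D0 := by
    rw [Finset.prod_union hdisj]
    exact (Nat.mul_le_mul hT1b hT2D).trans hD0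
  have hsub : T1 ∪ T2 ⊆ P1 ∪ P2 := Finset.union_subset_union hT1 hT2
  have hterm : ∀ c1 ∈ T1.pi (fun p => U.biUnion (Hs p)),
      |∑ m ∈ (range M).filter (fun m => ∀ p ∈ T1 ∪ T2,
        m % p = if p ∈ T1 then extf T1 c1 p else c p), w m -
        A * ∏ p ∈ T1 ∪ T2, κ p (if p ∈ T1 then extf T1 c1 p else c p)| ≤ err (T1 ∪ T2) := by
    intro c1 hc1
    refine hE (T1 ∪ T2) hsub hprod (fun p => if p ∈ T1 then extf T1 c1 p else c p) ?_
    intro p hp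
    by_cases hp1 : p ∈ T1
    · simp only [if_pos hp1]
      obtain ⟨a, ha, hae⟩ := Finset.mem_biUnion.1 (extf_mem hc1 hp1)
      exact Finset.mem_range.1 (hρ p (hT1 hp1) a ha hae)
    · simp only [if_neg hp1]
      exact hc p ((Finset.mem_union.1 hp).resolve_left hp1)
  have hcard : ((T1.pi (fun p => U.biUnion (Hs p))).card : ℝ) ≤ ((n * κ0 : ℕ) : ℝ) ^ T1.card := by
    rw [Finset.card_pi]
    push_cast
    calc ∏ p ∈ T1, ((U.biUnion (Hs p)).card : ℝ) ≤ ∏ _p ∈ T1, ((n : ℝ) * κ0) := by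
          apply Finset.prod_le_prod (fun _ _ => Nat.cast_nonneg _)
          intro p hp
          exact_mod_cast card_biUnion_le_mul hU (hcd p (hT1 hp))
      _ = _ := by rw [Finset.prod_const]
  by_cases hne : (T1.pi (fun p => U.biUnion (Hs p))).Nonempty
  · obtain ⟨c1, hc1⟩ := hne
    have herr0 : 0 ≤ err (T1 ∪ T2) := (abs_nonneg _).trans (hterm c1 hc1)
    calc |∑ c1 ∈ T1.pi (fun p => U.biUnion (Hs p)), (∑ m ∈ (range M).filter (fun m => ∀ p ∈ T1 ∪ T2,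
          m % p = if p ∈ T1 then extf T1 c1 p else c p), w m -
          A * ∏ p ∈ T1 ∪ T2, κ p (if p ∈ T1 then extf T1 c1 p else c p))|
        ≤ ∑ c1 ∈ T1.pi (fun p => U.biUnion (Hs p)), |∑ m ∈ (range M).filter (fun m => ∀ p ∈ T1 ∪ T2,
          m % p = if p ∈ T1 then extf T1 c1 p else c p), w m -
          A * ∏ p ∈ T1 ∪ T2, κ p (if p ∈ T1 then extf T1 c1 p else c p)| :=
          Finset.abs_sum_le_sum_abs _ _
      _ ≤ ∑ _c1 ∈ T1.pi (fun p => U.biUnion (Hs p)), err (T1 ∪ T2) := Finset.sum_le_sum hterm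
      _ = (T1.pi (fun p => U.biUnion (Hs p))).card * err (T1 ∪ T2) := by
          rw [Finset.sum_const, nsmul_eq_mul]
      _ ≤ ((n * κ0 : ℕ) : ℝ) ^ T1.card * err (T1 ∪ T2) := mul_le_mul_of_nonneg_right hcard herr0
  · rw [Finset.not_nonempty_iff_eq_empty] at hne
    rw [hne, Finset.sum_empty, abs_zero]
    apply mul_nonneg (by positivity)
    refine (abs_nonneg _).trans (hE (T1 ∪ T2) hsub hprod (fun _ => 0) ?_)
    intro p hp
    rcases Finset.mem_union.1 hp with h | h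
    · exact (hP1 p (hT1 h)).1.pos
    · exact (hP2 p (hT2 h)).1.pos

/-- expansion of the weighted sum -/
lemma expand (w : ℕ → ℝ) (M : ℕ) (P1 U Q : Finset ℕ) (Hs : ℕ → ℕ → Finset ℕ) (h : ℕ → ℕ → ℝ)
    (Cl : ℕ → Finset ℕ) (hQ : ∀ p ∈ Q, 0 < p)
    (hCl : ∀ p ∈ Q, Cl p ⊆ range p ∧ ∀ c < p, c ∉ Cl p → h p c = 1) :
    ∑ m ∈ range M, w m * ((∏ a ∈ U, rg Hs P1 a m) * ∏ p ∈ Q, h p (m % p)) =
      ∑ T ∈ Q.powerset, ∑ c ∈ T.pi Cl, (∏ p ∈ T, (h p (extf T c p) - 1)) *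
        ∑ m ∈ (range M).filter (fun m => ∀ p ∈ T, m % p = extf T c p),
          (if ∀ p ∈ P1, m % p ∉ U.biUnion (Hs p) then w m else 0) := by
  have h1 : ∀ m, ∏ a ∈ U, rg Hs P1 a m = if ∀ p ∈ P1, m % p ∉ U.biUnion (Hs p) then 1 else 0 := by
    intro m
    unfold rg
    rw [Finset.prod_boole]
    congr 1
    rw [eq_iff_iff]
    constructor
    · intro h2 p hp hcon
      obtain ⟨a, ha, hae⟩ := Finset.mem_biUnion.1 hcon
      exact h2 a ha p hp hae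
    · intro h2 a ha p hp hcon
      exact h2 p hp (Finset.mem_biUnion.2 ⟨a, ha, hcon⟩)
  have h2 : ∀ m, ∏ p ∈ Q, h p (m % p) = ∑ T ∈ Q.powerset, ∑ c ∈ T.pi Cl,
      (∏ p ∈ T, (h p (extf T c p) - 1)) * (if ∀ p ∈ T, m % p = extf T c p then 1 else 0) := by
    intro m
    have e1 : ∏ p ∈ Q, h p (m % p) = ∏ p ∈ Q, (1 + (if m % p ∈ Cl p then h p (m % p) - 1 else 0)) := by
      apply Finset.prod_congr rfl
      intro p hp
      by_cases hc : m % p ∈ Cl p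
      · rw [if_pos hc]; ring
      · rw [if_neg hc, (hCl p hp).2 _ (Nat.mod_lt _ (hQ p hp)) hc]; ring
    rw [e1, Finset.prod_one_add]
    apply Finset.sum_congr rfl
    intro T _
    exact (class_decomp T Cl (fun p c => h p c - 1) m).symm
  simp_rw [h1, h2]
  calc ∑ m ∈ range M, w m * ((if ∀ p ∈ P1, m % p ∉ U.biUnion (Hs p) then (1 : ℝ) else 0) *
        ∑ T ∈ Q.powerset, ∑ c ∈ T.pi Cl, (∏ p ∈ T, (h p (extf T c p) - 1)) *
          (if ∀ p ∈ T, m % p = extf T c p then 1 else 0))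
      = ∑ m ∈ range M, ∑ T ∈ Q.powerset, ∑ c ∈ T.pi Cl, (∏ p ∈ T, (h p (extf T c p) - 1)) *
          (if ∀ p ∈ T, m % p = extf T c p then
            (if ∀ p ∈ P1, m % p ∉ U.biUnion (Hs p) then w m else 0) else 0) := by
        apply Finset.sum_congr rfl
        intro m _
        rw [Finset.mul_sum, Finset.mul_sum]
        apply Finset.sum_congr rfl
        intro T _
        rw [Finset.mul_sum, Finset.mul_sum]
        apply Finset.sum_congr rfl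
        intro c _
        split_ifs <;> ring
    _ = ∑ T ∈ Q.powerset, ∑ c ∈ T.pi Cl, ∑ m ∈ range M, (∏ p ∈ T, (h p (extf T c p) - 1)) *
          (if ∀ p ∈ T, m % p = extf T c p then
            (if ∀ p ∈ P1, m % p ∉ U.biUnion (Hs p) then w m else 0) else 0) := by
        rw [Finset.sum_comm]
        apply Finset.sum_congr rfl
        intro T _
        rw [Finset.sum_comm]
    _ = _ := by
        apply Finset.sum_congr rfl
        intro T _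
        apply Finset.sum_congr rfl
        intro c _
        rw [← Finset.mul_sum, Finset.sum_filter]

end ExpW

open ExpW in
open Pool.Agent.H488R2.EN2a (extf extf_mem prod_sum' sum_powerset_pi class_decomp mass_hit
  prod_diff prod_near_one Et Et_bounds ES) in
/-- GE2 -/
theorem expandW_of (hFL : FLem) : Pool.Agent.H474R2.GE.ExpandW := by
  intro n κ0
  obtain ⟨C0, hC0, hF⟩ := flemAt_of hFL (n * κ0)
  set K' : ℕ := 4 * (n * κ0 + 1) ^ 2 with hK'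
  set K : ℕ := C0 + n * κ0 + K' + ⌈Real.exp K'⌉₊ + (2 * (n * κ0) + 2) + κ0 with hK
  refine ⟨K, by omega, ?_⟩
  intro b J z0 D0 D2 P1 P2 Hs q κ e w M A err U Q h Cl δ hU hKb hKz hP1 hP2 hD hw hA hE hQ hQD
    hD0 hH hqq hCl hδ hδ1
  have hCK : C0 ≤ K := by omega
  have hnK : n * κ0 ≤ K := by omega
  have hρ : ∀ p ∈ P1, ∀ a ∈ U, Hs p a ⊆ range p := fun p hp a ha => (hH p hp a ha).1
  have hcd : ∀ p ∈ P1, ∀ a ∈ U, (Hs p a).card ≤ κ0 := fun p hp a ha => (hH p hp a ha).2.2.1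
  have hpow : (2 ^ 2 ^ J) ^ (C0 * b) ≤ (2 ^ 2 ^ J) ^ (K * b) :=
    Nat.pow_le_pow_right (by positivity) (Nat.mul_le_mul_right b hCK)
  have hD0' : (2 ^ 2 ^ J) ^ (C0 * b) * D2 ≤ D0 := (Nat.mul_le_mul_right D2 hpow).trans hD0
  have hQp : ∀ p ∈ Q, p.Prime := fun p hp => (hP2 p (hQ hp)).1
  set VUx := ∏ p ∈ P1, (1 - GU κ Hs U p) with hVU
  obtain ⟨v1, v2, v3⟩ := VU hD hU P1 Finset.subset_union_left (fun p hp => (hP1 p hp).1)
    (fun p hp => by have := (hP1 p hp).2.1; omega) (fun p hp => by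
      have := (hP1 p hp).2.1; omega) hH hqq δ hδ
  rw [← hVU] at v1 v2
  set v := V1 q P1 ^ U.card with hv
  have hδ0 : 0 ≤ δ := by
    refine le_trans ?_ hδ
    unfold dl
    apply add_nonneg
    · exact Finset.sum_nonneg fun p _ => by positivity
    · apply Finset.sum_nonneg
      intro p hp
      have : (1 : ℝ) < p := by exact_mod_cast (hP1 p (Finset.mem_filter.1 hp).1).1.one_lt
      have : (0 : ℝ) < (p : ℝ) - 1 := by linarith
      positivity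
  -- nonnegativity of the errors
  have herr : ∀ T1 ⊆ P1, ∏ p ∈ T1, p ≤ (2 ^ 2 ^ J) ^ (K * b) → ∀ T2 ⊆ Q, 0 ≤ err (T1 ∪ T2) := by
    intro T1 hT1 hT1b T2 hT2
    have hdisj : Disjoint T1 T2 := by
      rw [Finset.disjoint_left]
      intro p hp hq
      have h1 := (hP1 p (hT1 hp)).2.2
      have h2 := (hP2 p (hQ (hT2 hq))).2.2
      omega
    have hT2D : ∏ p ∈ T2, p ≤ D2 := by
      refine le_trans ?_ hQD
      exact Finset.prod_le_prod_of_subset_of_one_le' hT2 fun p hp _ => (hQp p hp).pos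
    refine (abs_nonneg _).trans (hE (T1 ∪ T2)
      (Finset.union_subset_union hT1 (hT2.trans hQ)) ?_ (fun _ => 0) ?_)
    · rw [Finset.prod_union hdisj]
      exact (Nat.mul_le_mul hT1b hT2D).trans hD0
    · intro p hp
      rcases Finset.mem_union.1 hp with h1 | h1
      · exact (hP1 p (hT1 h1)).1.pos
      · exact (hQp p (hT2 h1)).pos
  have hES : ∀ T2 ⊆ Q, ES (n * κ0) C0 J b P1 err T2 ≤ ES K K J b P1 err T2 := by
    intro T2 hT2
    unfold ES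
    calc ∑ T1 ∈ P1.powerset.filter (fun T : Finset ℕ => ∏ p ∈ T, p ≤ (2 ^ 2 ^ J) ^ (C0 * b)),
          ((n * κ0 : ℕ) : ℝ) ^ T1.card * err (T1 ∪ T2)
        ≤ ∑ T1 ∈ P1.powerset.filter (fun T : Finset ℕ => ∏ p ∈ T, p ≤ (2 ^ 2 ^ J) ^ (C0 * b)),
          (K : ℝ) ^ T1.card * err (T1 ∪ T2) := by
          apply Finset.sum_le_sum
          intro T1 hT1
          rw [Finset.mem_filter, Finset.mem_powerset] at hT1
          apply mul_le_mul_of_nonneg_right _ (herr T1 hT1.1 (hT1.2.trans hpow) T2 hT2)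
          apply pow_le_pow_left₀ (Nat.cast_nonneg _)
          exact_mod_cast hnK
      _ ≤ _ := by
          apply Finset.sum_le_sum_of_subset_of_nonneg
          · intro T1 hT1
            rw [Finset.mem_filter] at hT1 ⊢
            exact ⟨hT1.1, hT1.2.trans hpow⟩
          · intro T1 hT1 _
            rw [Finset.mem_filter, Finset.mem_powerset] at hT1
            exact mul_nonneg (by positivity) (herr T1 hT1.1 hT1.2 T2 hT2)
  -- the expansion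
  rw [expand w M P1 U Q Hs h Cl (fun p hp => (hQp p hp).pos) hCl]
  set WT : (T : Finset ℕ) → ((p : ℕ) → p ∈ T → ℕ) → ℝ := fun T c =>
    ∑ m ∈ (range M).filter (fun m => ∀ p ∈ T, m % p = extf T c p),
      (if ∀ p ∈ P1, m % p ∉ U.biUnion (Hs p) then w m else 0) with hWT
  have hW : ∀ T ∈ Q.powerset, ∀ c ∈ T.pi Cl,
      |WT T c - A * (∏ p ∈ T, κ p (extf T c p)) * VUx| ≤
      (1 / 2 : ℝ) ^ b * (A * (∏ p ∈ T, κ p (extf T c p)) * VUx) +
        ((J : ℝ) + 2) * ES K K J b P1 err T := by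
    intro T hT c hc
    rw [Finset.mem_powerset] at hT
    have hTD : ∏ p ∈ T, p ≤ D2 := by
      refine le_trans ?_ hQD
      exact Finset.prod_le_prod_of_subset_of_one_le' hT fun p hp _ => (hQp p hp).pos
    have h1 := fl_apply hF hU (hCK.trans hKb) (hCK.trans hKz) hP1 hP2 hD hw hA hE hD0' hρ hcd T
      (hT.trans hQ) hTD (extf T c) (fun p hp => by
        have := (hCl p (hT hp)).1 (extf_mem hc hp)
        exact Finset.mem_range.1 this)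
    refine h1.trans ?_
    have h2 := mul_le_mul_of_nonneg_left (hES T hT) (by positivity : (0 : ℝ) ≤ (J : ℝ) + 2)
    linarith
  -- main term
  have hmain : ∑ T ∈ Q.powerset, ∑ c ∈ T.pi Cl, (∏ p ∈ T, (h p (extf T c p) - 1)) *
      (A * (∏ p ∈ T, κ p (extf T c p)) * VUx) = A * VUx * ∏ p ∈ Q, Et κ h Cl p := by
    unfold Et
    rw [← sum_powerset_pi Q Cl (fun p c => (h p c - 1) * κ p c), Finset.mul_sum]
    apply Finset.sum_congr rfl
    intro T _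
    rw [Finset.mul_sum]
    apply Finset.sum_congr rfl
    intro c _
    rw [Finset.prod_mul_distrib]
    ring
  have habs : ∑ T ∈ Q.powerset, ∑ c ∈ T.pi Cl, (∏ p ∈ T, |h p (extf T c p) - 1|) *
      (A * (∏ p ∈ T, κ p (extf T c p)) * VUx) =
      A * VUx * ∏ p ∈ Q, (1 + ∑ c ∈ Cl p, |h p c - 1| * κ p c) := by
    rw [← sum_powerset_pi Q Cl (fun p c => |h p c - 1| * κ p c), Finset.mul_sum]
    apply Finset.sum_congr rfl
    intro T _
    rw [Finset.mul_sum]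
    apply Finset.sum_congr rfl
    intro c _
    rw [Finset.prod_mul_distrib]
    ring
  have hsL : ∀ T : Finset ℕ, ∑ c ∈ T.pi Cl, (∏ p ∈ T, |h p (extf T c p) - 1|) =
      ∏ p ∈ T, sL (Cl p) (h p) := by
    intro T
    unfold sL
    rw [prod_sum' T Cl (fun p c => |h p c - 1|)]
  -- first step
  have step1 : |∑ T ∈ Q.powerset, ∑ c ∈ T.pi Cl, (∏ p ∈ T, (h p (extf T c p) - 1)) * WT T c -
      A * VUx * ∏ p ∈ Q, Et κ h Cl p| ≤
      (1 / 2 : ℝ) ^ b * (A * VUx * ∏ p ∈ Q, (1 + ∑ c ∈ Cl p, |h p c - 1| * κ p c)) +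
      ((J : ℝ) + 2) * ∑ T2 ∈ Q.powerset, (∏ p ∈ T2, sL (Cl p) (h p)) * ES K K J b P1 err T2 := by
    rw [← hmain, ← Finset.sum_sub_distrib]
    calc |∑ T ∈ Q.powerset, (∑ c ∈ T.pi Cl, (∏ p ∈ T, (h p (extf T c p) - 1)) * WT T c -
          ∑ c ∈ T.pi Cl, (∏ p ∈ T, (h p (extf T c p) - 1)) *
            (A * (∏ p ∈ T, κ p (extf T c p)) * VUx))|
        ≤ ∑ T ∈ Q.powerset, |∑ c ∈ T.pi Cl, (∏ p ∈ T, (h p (extf T c p) - 1)) * WT T c -
          ∑ c ∈ T.pi Cl, (∏ p ∈ T, (h p (extf T c p) - 1)) *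
            (A * (∏ p ∈ T, κ p (extf T c p)) * VUx)| := Finset.abs_sum_le_sum_abs _ _
      _ ≤ ∑ T ∈ Q.powerset, ∑ c ∈ T.pi Cl, (∏ p ∈ T, |h p (extf T c p) - 1|) *
          ((1 / 2 : ℝ) ^ b * (A * (∏ p ∈ T, κ p (extf T c p)) * VUx) +
            ((J : ℝ) + 2) * ES K K J b P1 err T) := by
          apply Finset.sum_le_sum
          intro T hT
          rw [← Finset.sum_sub_distrib]
          refine (Finset.abs_sum_le_sum_abs _ _).trans ?_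
          apply Finset.sum_le_sum
          intro c hc
          rw [← mul_sub, abs_mul, Finset.abs_prod]
          exact mul_le_mul_of_nonneg_left (hW T hT c hc)
            (Finset.prod_nonneg fun _ _ => abs_nonneg _)
      _ = (1 / 2 : ℝ) ^ b * ∑ T ∈ Q.powerset, ∑ c ∈ T.pi Cl, (∏ p ∈ T, |h p (extf T c p) - 1|) *
          (A * (∏ p ∈ T, κ p (extf T c p)) * VUx) +
          ((J : ℝ) + 2) * ∑ T ∈ Q.powerset, (∑ c ∈ T.pi Cl, (∏ p ∈ T, |h p (extf T c p) - 1|)) *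
            ES K K J b P1 err T := by
          rw [Finset.mul_sum, Finset.mul_sum, ← Finset.sum_add_distrib]
          apply Finset.sum_congr rfl
          intro T _
          rw [Finset.mul_sum, Finset.sum_mul, Finset.mul_sum, ← Finset.sum_add_distrib]
          apply Finset.sum_congr rfl
          intro c _
          ring
      _ = _ := by
          rw [habs]
          simp_rw [hsL]
  -- products
  have hb := fun p (hp : p ∈ Q) => Et_bounds hD (h := h) (Cl := Cl)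
    (Finset.mem_union_right P1 (hQ hp)) (hQp p hp) (hCl p hp)
  obtain ⟨d1, d2, d3⟩ := prod_diff Q (Et κ h Cl) (fun p => (∑ c ∈ range p, h p c) / (p : ℝ))
    (fun p => 1 + aL (Cl p) (h p) p) (fun p => dL (Cl p) (h p) (e p) p)
    (fun p hp => (hb p hp).1) (fun p hp => (hb p hp).2.1) (fun p hp => (hb p hp).2.2.1)
  set PB := ∏ p ∈ Q, (1 + aL (Cl p) (h p) p) with hPB
  set PD := ∏ p ∈ Q, (1 + aL (Cl p) (h p) p + dL (Cl p) (h p) (e p) p) with hPD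
  have hPB0 : 0 ≤ PB := (abs_nonneg _).trans d2
  have hPκ : ∏ p ∈ Q, (1 + ∑ c ∈ Cl p, |h p c - 1| * κ p c) ≤ PB := by
    apply Finset.prod_le_prod
    · intro p hp
      have : 0 ≤ ∑ c ∈ Cl p, |h p c - 1| * κ p c := Finset.sum_nonneg fun c hc =>
        mul_nonneg (abs_nonneg _) (hD p (Finset.mem_union_right _ (hQ hp)) c
          (Finset.mem_range.1 ((hCl p hp).1 hc))).1
      linarith
    · intro p hp
      exact (hb p hp).2.2.2
  have step2 : |A * VUx * ∏ p ∈ Q, Et κ h Cl p -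
      A * v * ∏ p ∈ Q, ((∑ c ∈ range p, h p c) / (p : ℝ))| ≤
      A * (v * (Real.exp (4 * (((n * κ0 : ℕ) : ℝ) + 1) ^ 2 * δ) - 1)) * PB + A * v * (PD - PB) := by
    have e1 : A * VUx * ∏ p ∈ Q, Et κ h Cl p -
        A * v * ∏ p ∈ Q, ((∑ c ∈ range p, h p c) / (p : ℝ)) =
        A * (VUx - v) * ∏ p ∈ Q, Et κ h Cl p +
        A * v * (∏ p ∈ Q, Et κ h Cl p - ∏ p ∈ Q, ((∑ c ∈ range p, h p c) / (p : ℝ))) := by ring
    rw [e1]
    refine (abs_add_le _ _).trans ?_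
    rw [abs_mul, abs_mul, abs_mul, abs_mul, abs_of_nonneg hA, abs_of_nonneg v3]
    exact add_le_add (mul_le_mul (mul_le_mul_of_nonneg_left v1 hA) d2 (abs_nonneg _)
      (mul_nonneg hA ((abs_nonneg _).trans v1))) (mul_le_mul_of_nonneg_left d1 (mul_nonneg hA v3))
  -- constants
  have hK'r : (4 * (((n * κ0 : ℕ) : ℝ) + 1) ^ 2) = (K' : ℝ) := by rw [hK']; push_cast; ring
  rw [hK'r] at v1 step2
  have hVUv : VUx ≤ v * Real.exp K' := by
    have h1 := (abs_le.1 v1).2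
    have h2 : Real.exp (K' * δ) ≤ Real.exp K' := by
      apply Real.exp_le_exp.2
      have : (0 : ℝ) ≤ K' := Nat.cast_nonneg _
      nlinarith
    have h3 := mul_le_mul_of_nonneg_left h2 v3
    linarith
  have hexpK : Real.exp K' ≤ K := by
    have h1 := Nat.le_ceil (Real.exp K')
    have h2 : (⌈Real.exp K'⌉₊ : ℝ) ≤ (K : ℝ) := by
      have : ⌈Real.exp K'⌉₊ ≤ K := by omega
      exact_mod_cast this
    exact h1.trans h2
  have hK1 : (1 : ℝ) ≤ K := by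
    have : 1 ≤ K := by omega
    exact_mod_cast this
  have hexpδ : Real.exp (K' * δ) ≤ Real.exp (K * δ) := by
    apply Real.exp_le_exp.2
    apply mul_le_mul_of_nonneg_right _ hδ0
    have : K' ≤ K := by omega
    exact_mod_cast this
  have hexp1 : 1 ≤ Real.exp (K * δ) := Real.one_le_exp (by positivity)
  have hhalf : (0 : ℝ) ≤ (1 / 2 : ℝ) ^ b := by positivity
  have hfin1 : (1 / 2 : ℝ) ^ b * (A * VUx * ∏ p ∈ Q, (1 + ∑ c ∈ Cl p, |h p c - 1| * κ p c)) ≤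
      A * v * ((1 / 2 : ℝ) ^ b * K * PB) := by
    have h1 : A * VUx * ∏ p ∈ Q, (1 + ∑ c ∈ Cl p, |h p c - 1| * κ p c) ≤ A * (v * K) * PB := by
      apply mul_le_mul _ hPκ _ (by positivity)
      · apply mul_le_mul_of_nonneg_left _ hA
        exact hVUv.trans (mul_le_mul_of_nonneg_left hexpK v3)
      · apply Finset.prod_nonneg
        intro p hp
        have : 0 ≤ ∑ c ∈ Cl p, |h p c - 1| * κ p c := Finset.sum_nonneg fun c hc =>
          mul_nonneg (abs_nonneg _) (hD p (Finset.mem_union_right _ (hQ hp)) c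
            (Finset.mem_range.1 ((hCl p hp).1 hc))).1
        linarith
    calc (1 / 2 : ℝ) ^ b * (A * VUx * ∏ p ∈ Q, (1 + ∑ c ∈ Cl p, |h p c - 1| * κ p c))
        ≤ (1 / 2 : ℝ) ^ b * (A * (v * K) * PB) := mul_le_mul_of_nonneg_left h1 hhalf
      _ = _ := by ring
  have hfin2 : A * (v * (Real.exp (K' * δ) - 1)) * PB ≤ A * v * (K * (Real.exp (K * δ) - 1) * PB) := by
    have h1 : Real.exp (K' * δ) - 1 ≤ K * (Real.exp (K * δ) - 1) := by nlinarith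
    have h2 := mul_le_mul_of_nonneg_left (mul_le_mul_of_nonneg_right h1 hPB0) (mul_nonneg hA v3)
    linarith
  have hES' : ∀ T2, ES K K J b P1 err T2 = ∑ T1 ∈ P1.powerset.filter
      (fun T : Finset ℕ => ∏ p ∈ T, p ≤ (2 ^ 2 ^ J) ^ (K * b)), (K : ℝ) ^ T1.card * err (T1 ∪ T2) :=
    fun T2 => rfl
  simp_rw [← hES']
  have e3 : ∑ T ∈ Q.powerset, ∑ c ∈ T.pi Cl, (∏ p ∈ T, (h p (extf T c p) - 1)) * WT T c -
        A * v * ∏ p ∈ Q, ((∑ c ∈ range p, h p c) / (p : ℝ)) =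
      (∑ T ∈ Q.powerset, ∑ c ∈ T.pi Cl, (∏ p ∈ T, (h p (extf T c p) - 1)) * WT T c -
        A * VUx * ∏ p ∈ Q, Et κ h Cl p) + (A * VUx * ∏ p ∈ Q, Et κ h Cl p -
        A * v * ∏ p ∈ Q, ((∑ c ∈ range p, h p c) / (p : ℝ))) := by ring
  rw [e3]
  refine (abs_add_le _ _).trans ?_
  have hfinal := add_le_add step1 step2
  refine hfinal.trans ?_
  have e4 : A * v * (K * (Real.exp (K * δ) - 1 + (1 / 2 : ℝ) ^ b) * PB + (PD - PB)) =
      A * v * (K * (Real.exp (K * δ) - 1) * PB) + A * v * ((1 / 2 : ℝ) ^ b * K * PB) +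
        A * v * (PD - PB) := by ring
  rw [e4]
  linarith

end Pool.Agent.H474R2.GE
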