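import Pool.Agent.H474R2.PG.Defs
import Pool.Agent.H474R2.PG.HomsRho
import Pool.Agent.H921R2.TatePole.Tensor
import Pool.Agent.H921R2.TatePole.Radical

set_option autoImplicit false

/-! # M1: roots of a polynomial modulo large primes give homomorphisms of the ring of integers -/

namespace Pool.Agent.H474R2.GE

open Polynomial Finset NumberField Pool.Agent.H474R2.PG

theorem M1_core (K : Type) [Field K] [NumberField K] (f : ℤ[X]) (α : K)
    (hker : ∀ A : ℤ[X], eval₂ (Int.castRingHom K) α A = 0 → f ∣ A)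
    (hadj : ∀ x : K, ∃ q : ℚ[X], eval₂ (Rat.castHom K) α q = x) :
    ∃ B : ℕ, ∀ p : ℕ, p.Prime → B < p → rho f p ≤ Nat.card (𝓞 K →+* ZMod p) := by
  classical
  obtain ⟨N0, hN0, b, hb⟩ := Pool.Agent.H921R2.TatePole.exists_int_mul (K := K) α
  have hN0K : (N0 : K) ≠ 0 := by exact_mod_cast hN0
  have htop : Algebra.adjoin ℚ {(b : K)} = ⊤ := by
    rw [eq_top_iff]
    intro x _
    obtain ⟨q, hq⟩ := hadj x
    have hα : α ∈ Algebra.adjoin ℚ {(b : K)} := by
      have h2 : α = ((1 / (N0 : ℚ) : ℚ)) • (b : K) := by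
        have h5 : algebraMap ℚ K (1 / (N0 : ℚ)) = 1 / (N0 : K) := by
          rw [map_div₀, map_one, map_intCast]
        rw [hb, Algebra.smul_def, h5]
        field_simp
      rw [h2]
      exact Subalgebra.smul_mem _ (Algebra.subset_adjoin (Set.mem_singleton _)) _
    have h3 : x = aeval α q := by
      rw [← hq, aeval_def]
      congr 1
    rw [h3]
    have h4 := Polynomial.aeval_mem_adjoin_singleton ℚ (p := q) α
    exact (Algebra.adjoin_le (S := Algebra.adjoin ℚ {(b : K)}) (by
      intro y hy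
      rw [Set.mem_singleton_iff] at hy
      rw [hy]
      exact hα)) h4
  obtain ⟨N1, hN1, hind⟩ := Pool.Agent.H921R2.TatePole.exists_index (K := K) htop
  refine ⟨N0.natAbs + N1.natAbs, fun p hp hpB => ?_⟩
  have : Fact p.Prime := ⟨hp⟩
  have h0p : ((N0 : ℤ) : ZMod p) ≠ 0 := P2_ne_zero hN0 (by omega)
  have h1p : ((N1 : ℤ) : ZMod p) ≠ 0 := P2_ne_zero hN1 (by omega)
  -- a relation of `b` over `ℤ` holds for `N0 a` modulo `p`
  have key : ∀ a : ZMod p, eval₂ (Int.castRingHom (ZMod p)) a f = 0 → ∀ A : ℤ[X],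
      aeval b A = 0 → eval₂ (Int.castRingHom (ZMod p)) ((N0 : ZMod p) * a) A = 0 := by
    intro a ha A hA
    have h1 : eval₂ (Int.castRingHom K) α (A.comp (C N0 * X)) = 0 := by
      rw [eval₂_comp, eval₂_mul, eval₂_C, eval₂_X]
      have h2 : ((aeval b A : 𝓞 K) : K) = aeval (b : K) A :=
        (Polynomial.aeval_algebraMap_apply K b A).symm
      rw [hA, hb, aeval_def] at h2
      have h3 : eval₂ (Int.castRingHom K) ((Int.castRingHom K) N0 * α) A =
          eval₂ (algebraMap ℤ K) ((N0 : K) * α) A := rfl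
      rw [h3, ← h2]
      simp
    obtain ⟨D, hD⟩ := hker _ h1
    have h4 : eval₂ (Int.castRingHom (ZMod p)) a (A.comp (C N0 * X)) = 0 := by
      rw [hD, eval₂_mul, ha, zero_mul]
    rw [eval₂_comp, eval₂_mul, eval₂_C, eval₂_X] at h4
    exact h4
  have key2 : ∀ a : ZMod p, eval₂ (Int.castRingHom (ZMod p)) a f = 0 → ∀ A D : ℤ[X],
      aeval b A = aeval b D → eval₂ (Int.castRingHom (ZMod p)) ((N0 : ZMod p) * a) A =
        eval₂ (Int.castRingHom (ZMod p)) ((N0 : ZMod p) * a) D := by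
    intro a ha A D hAD
    have := key a ha (A - D) (by rw [map_sub, hAD, sub_self])
    rw [eval₂_sub] at this
    exact sub_eq_zero.1 this
  choose P hP using hind
  -- the homomorphism attached to a root
  have hom : ∀ a : ZMod p, eval₂ (Int.castRingHom (ZMod p)) a f = 0 →
      ∃ φ : 𝓞 K →+* ZMod p, φ b = (N0 : ZMod p) * a := by
    intro a ha
    set ev : ℤ[X] →+* ZMod p := eval₂RingHom (Int.castRingHom (ZMod p)) ((N0 : ZMod p) * a) with hev
    have k2 : ∀ A D : ℤ[X], aeval b A = aeval b D → ev A = ev D := key2 a ha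
    have hC : ∀ n : ℤ, ev (C n) = (n : ZMod p) := by
      intro n
      rw [hev, coe_eval₂RingHom, eval₂_C]
      rfl
    have hone : ev (P 1) / (N1 : ZMod p) = 1 := by
      rw [k2 (P 1) (C N1) (by rw [← hP, aeval_C, mul_one]; rfl), hC]
      exact div_self h1p
    have hzero : ev (P 0) / (N1 : ZMod p) = 0 := by
      rw [k2 (P 0) 0 (by rw [← hP, map_zero, mul_zero]), map_zero, zero_div]
    have hadd : ∀ x y, ev (P (x + y)) / (N1 : ZMod p) =
        ev (P x) / (N1 : ZMod p) + ev (P y) / (N1 : ZMod p) := by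
      intro x y
      rw [k2 (P (x + y)) (P x + P y) (by rw [map_add, ← hP, ← hP, ← hP, mul_add]), map_add, add_div]
    have hmul : ∀ x y, ev (P (x * y)) / (N1 : ZMod p) =
        ev (P x) / (N1 : ZMod p) * (ev (P y) / (N1 : ZMod p)) := by
      intro x y
      have h1 : ev (C N1 * P (x * y)) = ev (P x * P y) := by
        apply k2
        rw [map_mul, map_mul, ← hP, ← hP, ← hP, aeval_C]
        have : (algebraMap ℤ (𝓞 K)) N1 = (N1 : 𝓞 K) := rfl
        rw [this]
        ring
      rw [map_mul, map_mul, hC] at h1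
      field_simp
      linear_combination h1
    refine ⟨⟨⟨⟨fun x => ev (P x) / (N1 : ZMod p), hone⟩, hmul⟩, hzero, hadd⟩, ?_⟩
    change ev (P b) / (N1 : ZMod p) = _
    rw [k2 (P b) (C N1 * X) (by rw [← hP, map_mul, aeval_C, aeval_X]; rfl), map_mul, hC]
    have : ev X = (N0 : ZMod p) * a := by
      rw [hev, coe_eval₂RingHom, eval₂_X]
    rw [this]
    field_simp
  -- finiteness
  have hinjb : Function.Injective (fun φ : 𝓞 K →+* ZMod p => φ b) := by
    intro φ ψ h
    have h2 : φ b = ψ b := h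
    refine RingHom.ext fun x => ?_
    have h3 : φ ((N1 : 𝓞 K) * x) = ψ ((N1 : 𝓞 K) * x) := by
      rw [hP]
      have e1 := Polynomial.aeval_algHom_apply φ.toIntAlgHom b (P x)
      have e2 := Polynomial.aeval_algHom_apply ψ.toIntAlgHom b (P x)
      have e3 : φ.toIntAlgHom b = ψ.toIntAlgHom b := h2
      rw [e3] at e1
      have e4 : φ.toIntAlgHom (aeval b (P x)) = ψ.toIntAlgHom (aeval b (P x)) := by rw [← e1, e2]
      exact e4
    rw [map_mul, map_mul, map_intCast, map_intCast] at h3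
    exact mul_left_cancel₀ h1p h3
  have hfin : Finite (𝓞 K →+* ZMod p) := Finite.of_injective _ hinjb
  have hroot : ∀ a : {a : ℕ // a ∈ (Finset.range p).filter (fun a : ℕ => (p : ℤ) ∣ f.eval (a : ℤ))},
      eval₂ (Int.castRingHom (ZMod p)) ((a.1 : ℕ) : ZMod p) f = 0 := by
    rintro ⟨a, ha⟩
    rw [Finset.mem_filter] at ha
    have h5 := Polynomial.eval_intCast_map (Int.castRingHom (ZMod p)) f (a : ℤ)
    rw [eval₂_eq_eval_map]
    have h6 : (((a : ℕ) : ℤ) : ZMod p) = (a : ZMod p) := by push_cast; rfl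
    rw [h6] at h5
    change eval ((a : ℕ) : ZMod p) (f.map (Int.castRingHom (ZMod p))) = 0
    rw [h5]
    exact (ZMod.intCast_zmod_eq_zero_iff_dvd _ _).2 ha.2
  choose Φ hΦ using fun a : {a : ℕ // a ∈ (Finset.range p).filter
    (fun a : ℕ => (p : ℤ) ∣ f.eval (a : ℤ))} => hom _ (hroot a)
  have hinj : Function.Injective Φ := by
    intro a c h
    have h1 : (N0 : ZMod p) * ((a.1 : ℕ) : ZMod p) = (N0 : ZMod p) * ((c.1 : ℕ) : ZMod p) := by
      rw [← hΦ, ← hΦ, h]
    have h2 := mul_left_cancel₀ h0p h1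
    have ha := Finset.mem_range.1 (Finset.mem_filter.1 a.2).1
    have hc := Finset.mem_range.1 (Finset.mem_filter.1 c.2).1
    rw [ZMod.natCast_eq_natCast_iff'] at h2
    rw [Nat.mod_eq_of_lt ha, Nat.mod_eq_of_lt hc] at h2
    exact Subtype.ext h2
  have := Nat.card_le_card_of_injective _ hinj
  rw [Nat.card_eq_fintype_card (α := {a : ℕ // a ∈ (Finset.range p).filter
        (fun a : ℕ => (p : ℤ) ∣ f.eval (a : ℤ))}), Fintype.card_coe] at this
  exact this

/-- M1: roots of a polynomial modulo large primes give homomorphisms of the ring of integers -/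
theorem rho_le_homs (f : ℤ[X]) (hf : Irreducible f) (hd : 0 < f.natDegree) :
    ∃ (K : Type) (_ : Field K) (_ : NumberField K), ∃ B : ℕ, ∀ p : ℕ, p.Prime → B < p →
      rho f p ≤ Nat.card (𝓞 K →+* ZMod p) := by
  have hprim : f.IsPrimitive := hf.isPrimitive hd.ne'
  have hF : Irreducible (f.map (Int.castRingHom ℚ)) :=
    (IsPrimitive.Int.irreducible_iff_irreducible_map_cast hprim).1 hf
  have hfact : Fact (Irreducible (f.map (Int.castRingHom ℚ))) := ⟨hF⟩
  refine ⟨AdjoinRoot (f.map (Int.castRingHom ℚ)), inferInstance, inferInstance, ?_⟩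
  refine M1_core _ f (AdjoinRoot.root (f.map (Int.castRingHom ℚ))) ?_ ?_
  · intro A hA
    have h1 : AdjoinRoot.mk (f.map (Int.castRingHom ℚ)) (A.map (Int.castRingHom ℚ)) = 0 := by
      have h3 := AdjoinRoot.aeval_eq (f := f.map (Int.castRingHom ℚ)) (A.map (Int.castRingHom ℚ))
      rw [← h3, aeval_def, eval₂_map]
      have hg : ∀ g : ℤ →+* AdjoinRoot (f.map (Int.castRingHom ℚ)),
          eval₂ g (AdjoinRoot.root (f.map (Int.castRingHom ℚ))) A = 0 := by
        intro g
        rw [RingHom.ext_int g (Int.castRingHom _)]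
        exact hA
      exact hg _
    rw [AdjoinRoot.mk_eq_zero] at h1
    exact (IsPrimitive.Int.dvd_iff_map_cast_dvd_map_cast f A hprim).2 h1
  · intro x
    obtain ⟨q, rfl⟩ := AdjoinRoot.mk_surjective x
    refine ⟨q, ?_⟩
    have h2 : Rat.castHom (AdjoinRoot (f.map (Int.castRingHom ℚ))) =
        AdjoinRoot.of (f.map (Int.castRingHom ℚ)) := Subsingleton.elim _ _
    rw [h2]
    have h3 := AdjoinRoot.aeval_eq (f := f.map (Int.castRingHom ℚ)) q
    rw [← h3]
    rfl

end Pool.Agent.H474R2.GE
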