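import Mathlib
import Pool.Agent.H474R2.GE.Iface
import Pool.Agent.H474R2.GE.HomsUpper
import Pool.Agent.H474R2.GE.RhoHoms
import Pool.Agent.H474R2.PG.MertensF
import Pool.Agent.H474R2.PG.Class
import Pool.Agent.H474R2.PG.NoColl
import Pool.Agent.H747R2.EN6a

set_option autoImplicit false

/-! # Number theoretic input for polynomial values -/

namespace Pool.Agent.H474R2.GE

open Polynomial Finset NumberField
open Pool.Agent.H410R2.AC Pool.Agent.H410R2.EN Pool.Agent.H474R2.PG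

open Classical in
/-- counting residues with prescribed local conditions -/
lemma card_crt (S : Finset ℕ) (hS : ∀ p ∈ S, p.Prime) (E : ℕ → ℕ → Prop) :
    ((range (∏ p ∈ S, p)).filter (fun b => ∀ p ∈ S, E p (b % p))).card =
      ∏ p ∈ S, ((range p).filter (E p)).card := by
  induction S using Finset.induction_on with
  | empty => simp
  | insert p S hp ih =>
    have ih' := ih (fun q hq => hS q (Finset.mem_insert_of_mem hq))
    have hpp := hS p (Finset.mem_insert_self _ _)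
    rw [Finset.prod_insert hp, Finset.prod_insert hp, ← ih', ← Finset.card_product]
    set W := ∏ q ∈ S, q with hW
    have hW0 : 0 < W := Finset.prod_pos fun q hq => (hS q (Finset.mem_insert_of_mem hq)).pos
    have hcop : Nat.Coprime p W := by
      refine Nat.Coprime.prod_right fun q hq => ?_
      exact (Nat.coprime_primes hpp (hS q (Finset.mem_insert_of_mem hq))).2
        (fun h => hp (h ▸ hq))
    have hdvd : ∀ q ∈ S, q ∣ W := fun q hq => Finset.dvd_prod_of_mem _ hq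
    refine Finset.card_bij (fun b _ => (b % p, b % W)) ?_ ?_ ?_
    · intro b hb
      rw [Finset.mem_filter] at hb
      rw [Finset.mem_product, Finset.mem_filter, Finset.mem_filter, Finset.mem_range,
        Finset.mem_range]
      refine ⟨⟨Nat.mod_lt _ hpp.pos, hb.2 p (Finset.mem_insert_self _ _)⟩, Nat.mod_lt _ hW0, ?_⟩
      intro q hq
      show E q (b % W % q)
      rw [Nat.mod_mod_of_dvd b (hdvd q hq)]
      exact hb.2 q (Finset.mem_insert_of_mem hq)
    · intro b hb b' hb' h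
      rw [Finset.mem_filter, Finset.mem_range] at hb hb'
      have h1 : b ≡ b' [MOD p] := (Prod.mk.inj h).1
      have h2 : b ≡ b' [MOD W] := (Prod.mk.inj h).2
      exact Nat.ModEq.eq_of_lt_of_lt ((Nat.modEq_and_modEq_iff_modEq_mul hcop).1 ⟨h1, h2⟩) hb.1 hb'.1
    · rintro ⟨c, d⟩ hcd
      rw [Finset.mem_product, Finset.mem_filter, Finset.mem_filter, Finset.mem_range,
        Finset.mem_range] at hcd
      obtain ⟨⟨hc, hEc⟩, hd, hEd⟩ := hcd
      simp only at hc hEc hd hEd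
      obtain ⟨k, hk1, hk2⟩ := Nat.chineseRemainder hcop c d
      have hk3 : k % (p * W) % p = c := by
        rw [Nat.mod_mod_of_dvd k (Nat.dvd_mul_right p W)]
        have : k % p = c % p := hk1
        rw [this, Nat.mod_eq_of_lt hc]
      have hk4 : k % (p * W) % W = d := by
        rw [Nat.mod_mod_of_dvd k (Nat.dvd_mul_left W p)]
        have : k % W = d % W := hk2
        rw [this, Nat.mod_eq_of_lt hd]
      refine ⟨k % (p * W), ?_, by rw [hk3, hk4]⟩
      rw [Finset.mem_filter, Finset.mem_range]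
      refine ⟨Nat.mod_lt _ (Nat.mul_pos hpp.pos hW0), ?_⟩
      intro q hq
      rcases Finset.mem_insert.1 hq with h | h
      · rw [h, hk3]; exact hEc
      · rw [← Nat.mod_mod_of_dvd (k % (p * W)) (hdvd q h), hk4]
        exact hEd q h

/-- primes up to H -/
def SS (H : ℕ) : Finset ℕ := (range (H + 1)).filter Nat.Prime

lemma prod_SS (H : ℕ) : ∏ p ∈ SS H, p = primorial H := rfl

lemma dvd_eval_mod (f : ℤ[X]) (p m : ℕ) (a : ℤ) :
    (p : ℤ) ∣ f.eval (((m % p : ℕ) : ℤ) + a) ↔ (p : ℤ) ∣ f.eval ((m : ℤ) + a) := by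
  rw [dvd_iff_zmod, dvd_iff_zmod]
  push_cast
  exact Iff.rfl

lemma card_not_dvd (f : ℤ[X]) (p : ℕ) (hp : p.Prime) (a : ℤ) :
    (((range p).filter (fun c : ℕ => ¬ (p : ℤ) ∣ f.eval ((c : ℤ) + a))).card : ℝ) =
      p * (1 - (rho f p : ℝ) / p) := by
  have h1 := Finset.card_filter_add_card_filter_not (s := range p)
    (fun c : ℕ => (p : ℤ) ∣ f.eval ((c : ℤ) + a))
  rw [rho_shift f p hp a, Finset.card_range] at h1
  have h2 : (rho f p : ℝ) + (((range p).filter
      (fun c : ℕ => ¬ (p : ℤ) ∣ f.eval ((c : ℤ) + a))).card : ℝ) = p := by exact_mod_cast h1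
  have hp0 : (p : ℝ) ≠ 0 := by exact_mod_cast hp.ne_zero
  field_simp
  linarith

open Classical in
/-- the number of residues b modulo the primorial for which f(b+a) is rough -/
lemma count_rough (f : ℤ[X]) (H : ℕ) (a : ℤ) :
    (((range (primorial H)).filter (fun b : ℕ =>
      ∀ p ∈ SS H, ¬ (p : ℤ) ∣ f.eval ((b : ℤ) + a))).card : ℝ) =
      primorial H * ∏ p ∈ SS H, (1 - (rho f p : ℝ) / p) := by
  have hS : ∀ p ∈ SS H, p.Prime := fun p hp => (Finset.mem_filter.1 hp).2
  have h1 := card_crt (SS H) hS (fun p c => ¬ (p : ℤ) ∣ f.eval ((c : ℤ) + a))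
  rw [prod_SS] at h1
  have h2 : (range (primorial H)).filter (fun b : ℕ =>
      ∀ p ∈ SS H, ¬ (p : ℤ) ∣ f.eval ((b : ℤ) + a)) =
      (range (primorial H)).filter (fun b : ℕ =>
      ∀ p ∈ SS H, ¬ (p : ℤ) ∣ f.eval (((b % p : ℕ) : ℤ) + a)) := by
    refine Finset.filter_congr (fun b _ => ?_)
    simp only [dvd_eval_mod]
  have h5 : ((range (primorial H)).filter (fun b : ℕ =>
      ∀ p ∈ SS H, ¬ (p : ℤ) ∣ f.eval (((b % p : ℕ) : ℤ) + a))).card =
      ∏ p ∈ SS H, ((range p).filter (fun c : ℕ => ¬ (p : ℤ) ∣ f.eval ((c : ℤ) + a))).card := by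
    convert h1
  rw [h2, h5]
  push_cast
  have h3 : ((primorial H : ℕ) : ℝ) = ∏ p ∈ SS H, (p : ℝ) := by
    rw [← prod_SS]; push_cast; rfl
  rw [h3, ← Finset.prod_mul_distrib]
  refine Finset.prod_congr rfl (fun p hp => ?_)
  have h4 := card_not_dvd f p (hS p hp) a
  convert h4 using 2

open Classical in
/-- at least half of the classes are good -/
lemma good_classes (f : ℤ[X]) (H : ℕ) (A : Finset ℤ) (C3 Y : ℝ) (hC3 : 0 < C3) (hY : 0 < Y)
    (hV : (∏ p ∈ SS H, (1 - (rho f p : ℝ) / p)) * Real.log H ≤ C3)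
    (hA : (A.card : ℝ) ≤ Y) :
    (primorial H : ℝ) / 2 ≤ (((range (primorial H)).filter (fun b : ℕ =>
      ((A.filter (fun a : ℤ => ∀ p ∈ SS H, ¬ (p : ℤ) ∣ f.eval ((b : ℤ) + a))).card : ℝ) *
        Real.log H ≤ 2 * (C3 * Y))).card : ℝ) := by
  set Q := primorial H with hQ
  have hQ0 : 0 < Q := primorial_pos H
  have hQ0' : (0 : ℝ) < Q := by exact_mod_cast hQ0
  set g : ℕ → ℝ := fun b =>
    ((A.filter (fun a : ℤ => ∀ p ∈ SS H, ¬ (p : ℤ) ∣ f.eval ((b : ℤ) + a))).card : ℝ) *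
      Real.log H with hg
  set Z : ℝ := C3 * Y with hZ
  have hZ0 : 0 < Z := by positivity
  have hlog : 0 ≤ Real.log H := Real.log_natCast_nonneg H
  have h1 : ∑ b ∈ range Q,
      ((A.filter (fun a : ℤ => ∀ p ∈ SS H, ¬ (p : ℤ) ∣ f.eval ((b : ℤ) + a))).card : ℝ) =
      A.card * (Q * ∏ p ∈ SS H, (1 - (rho f p : ℝ) / p)) := by
    have e1 : ∀ b : ℕ, ((A.filter (fun a : ℤ => ∀ p ∈ SS H,
        ¬ (p : ℤ) ∣ f.eval ((b : ℤ) + a))).card : ℝ) =
        ∑ a ∈ A, if (∀ p ∈ SS H, ¬ (p : ℤ) ∣ f.eval ((b : ℤ) + a)) then (1 : ℝ) else 0 := by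
      intro b
      rw [Finset.card_filter]; push_cast; rfl
    rw [Finset.sum_congr rfl (fun b _ => e1 b), Finset.sum_comm]
    have e2 : ∀ a ∈ A, (∑ b ∈ range Q, if (∀ p ∈ SS H, ¬ (p : ℤ) ∣ f.eval ((b : ℤ) + a))
        then (1 : ℝ) else 0) = Q * ∏ p ∈ SS H, (1 - (rho f p : ℝ) / p) := by
      intro a _
      rw [← count_rough f H a, Finset.card_filter]; push_cast; rfl
    rw [Finset.sum_congr rfl e2, Finset.sum_const, nsmul_eq_mul]
  have h2 : ∑ b ∈ range Q, g b ≤ Z * Q := by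
    rw [hg, ← Finset.sum_mul, h1]
    calc (A.card : ℝ) * (Q * ∏ p ∈ SS H, (1 - (rho f p : ℝ) / p)) * Real.log H
        = A.card * (((∏ p ∈ SS H, (1 - (rho f p : ℝ) / p)) * Real.log H) * Q) := by ring
      _ ≤ A.card * (C3 * Q) := by gcongr
      _ ≤ Y * (C3 * Q) := by gcongr
      _ = Z * Q := by rw [hZ]; ring
  have h4 : (((range Q).filter (fun b => ¬ g b ≤ 2 * Z)).card : ℝ) * (2 * Z) ≤ Z * Q := by
    calc (((range Q).filter (fun b => ¬ g b ≤ 2 * Z)).card : ℝ) * (2 * Z)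
        = ∑ _b ∈ (range Q).filter (fun b => ¬ g b ≤ 2 * Z), 2 * Z := by
          rw [Finset.sum_const, nsmul_eq_mul]
      _ ≤ ∑ b ∈ (range Q).filter (fun b => ¬ g b ≤ 2 * Z), g b := by
          refine Finset.sum_le_sum fun b hb => ?_
          exact (not_le.1 (Finset.mem_filter.1 hb).2).le
      _ ≤ ∑ b ∈ range Q, g b := by
          refine Finset.sum_le_sum_of_subset_of_nonneg (Finset.filter_subset _ _) fun b _ _ => ?_
          exact mul_nonneg (Nat.cast_nonneg _) hlog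
      _ ≤ Z * Q := h2
  have h6 : (((range Q).filter (fun b => ¬ g b ≤ 2 * Z)).card : ℝ) ≤ Q / 2 := by
    rw [le_div_iff₀ (by norm_num : (0 : ℝ) < 2)]
    have : Z * ((((range Q).filter (fun b => ¬ g b ≤ 2 * Z)).card : ℝ) * 2) ≤ Z * Q := by linarith
    exact le_of_mul_le_mul_left this hZ0
  have h7 : ((range Q).filter (fun b => g b ≤ 2 * Z)).card +
      ((range Q).filter (fun b => ¬ g b ≤ 2 * Z)).card = Q := by
    rw [Finset.card_filter_add_card_filter_not, Finset.card_range]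
  have h8 : (((range Q).filter (fun b => g b ≤ 2 * Z)).card : ℝ) +
      (((range Q).filter (fun b => ¬ g b ≤ 2 * Z)).card : ℝ) = Q := by
    exact_mod_cast h7
  linarith

/-- two-sided Mertens theorem for the roots of a polynomial -/
theorem mertens_rho (f : ℤ[X]) (hf : Irreducible f) (hd : 0 < f.natDegree) :
    ∃ C : ℝ, 0 ≤ C ∧ ∀ w : ℝ, 3 ≤ w → |Sg (rho f) w - Real.log (Real.log w)| ≤ C := by
  obtain ⟨C1, hC1⟩ := mertens_lower f hf hd
  obtain ⟨K, iF, iN, B, hB⟩ := rho_le_homs f hf hd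
  obtain ⟨C2, hC2⟩ := homs_upper K
  set S0 : ℝ := ∑ p ∈ PR B, (rho f p : ℝ) / (p : ℝ) with hS0
  have hS00 : 0 ≤ S0 := Finset.sum_nonneg fun p _ => by positivity
  refine ⟨max C1 0 + max C2 0 + S0, by positivity, fun w hw => ?_⟩
  have h1 := hC1 w hw
  have h2 := hC2 w hw
  have h3 : Sg (rho f) w ≤ S0 + ∑ p ∈ PR w, (Nat.card (𝓞 K →+* ZMod p) : ℝ) / (p : ℝ) := by
    unfold Sg
    rw [← Finset.sum_filter_add_sum_filter_not (PR w) (fun p => p ≤ B)]
    apply add_le_add
    · rw [hS0]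
      apply Finset.sum_le_sum_of_subset_of_nonneg
      · intro p hp
        rw [Finset.mem_filter, PR, Finset.mem_filter, Finset.mem_Icc] at hp
        rw [PR, Finset.mem_filter, Finset.mem_Icc, Nat.floor_natCast]
        exact ⟨⟨hp.1.1.1, hp.2⟩, hp.1.2⟩
      · intro p _ _
        positivity
    · calc ∑ p ∈ (PR w).filter (fun p => ¬ p ≤ B), (rho f p : ℝ) / (p : ℝ)
          ≤ ∑ p ∈ (PR w).filter (fun p => ¬ p ≤ B),
              (Nat.card (𝓞 K →+* ZMod p) : ℝ) / (p : ℝ) := by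
            apply Finset.sum_le_sum
            intro p hp
            rw [Finset.mem_filter] at hp
            have hpp : p.Prime := (Finset.mem_filter.1 hp.1).2
            have h3 : (rho f p : ℝ) ≤ (Nat.card (𝓞 K →+* ZMod p) : ℝ) := by
              exact_mod_cast hB p hpp (not_le.1 hp.2)
            exact div_le_div_of_nonneg_right h3 (by positivity)
        _ ≤ ∑ p ∈ PR w, (Nat.card (𝓞 K →+* ZMod p) : ℝ) / (p : ℝ) := by
            apply Finset.sum_le_sum_of_subset_of_nonneg (Finset.filter_subset _ _)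
            intro p _ _
            positivity
  have h4 := le_max_left C1 0
  have h5 := le_max_left C2 0
  have h6 := le_max_right C1 0
  have h7 := le_max_right C2 0
  rw [abs_le]
  constructor <;> linarith

lemma PR_nat (H : ℕ) : PR (H : ℝ) = SS H := by
  unfold PR SS
  rw [Nat.floor_natCast]
  ext p
  simp only [Finset.mem_filter, Finset.mem_Icc, Finset.mem_range]
  constructor
  · rintro ⟨⟨h1, h2⟩, h3⟩
    exact ⟨by omega, h3⟩
  · rintro ⟨h1, h2⟩
    exact ⟨⟨h2.one_lt.le, by omega⟩, h2⟩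

/-- upper bound for the sieve product -/
lemma prod_le (f : ℤ[X]) (C : ℝ)
    (hC : ∀ w : ℝ, 3 ≤ w → |Sg (rho f) w - Real.log (Real.log w)| ≤ C) (H : ℕ) (hH : 3 ≤ H) :
    (∏ p ∈ SS H, (1 - (rho f p : ℝ) / p)) * Real.log H ≤ Real.exp C := by
  have hH3 : (3 : ℝ) ≤ H := by exact_mod_cast hH
  have hlog1 : 1 < Real.log H := by
    have h1 : Real.exp 1 < H := by
      have := Real.exp_one_lt_d9
      linarith
    rwa [Real.lt_log_iff_exp_lt (by linarith)]
  have h1 : ∏ p ∈ SS H, (1 - (rho f p : ℝ) / p) ≤ Real.exp (- Sg (rho f) H) := by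
    unfold Sg
    rw [PR_nat, ← Finset.sum_neg_distrib, Real.exp_sum]
    refine Finset.prod_le_prod (fun p hp => ?_) (fun p hp => ?_)
    · have hp0 : (0 : ℝ) < p := by
        exact_mod_cast ((Finset.mem_filter.1 hp).2).pos
      have h2 : (rho f p : ℝ) ≤ p := by exact_mod_cast rho_le_self f p
      have : (rho f p : ℝ) / p ≤ 1 := by rw [div_le_one hp0]; exact h2
      linarith
    · have := Real.add_one_le_exp (-((rho f p : ℝ) / p))
      linarith
  have h2 := (abs_le.1 (hC H hH3)).1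
  calc (∏ p ∈ SS H, (1 - (rho f p : ℝ) / p)) * Real.log H
      ≤ Real.exp (- Sg (rho f) H) * Real.log H :=
        mul_le_mul_of_nonneg_right h1 (by linarith)
    _ ≤ Real.exp (C - Real.log (Real.log H)) * Real.log H := by
        refine mul_le_mul_of_nonneg_right (Real.exp_le_exp.2 (by linarith)) (by linarith)
    _ = Real.exp C := by
        rw [Real.exp_sub, Real.exp_log (by linarith), div_mul_cancel₀]
        linarith

/-- the sieving primes -/
noncomputable def PF (f : ℤ[X]) (z0 z2 : ℕ) : Finset ℕ := (PP z0 z2).filter (fun p => rho f p ≠ 0)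

/-- the densities -/
noncomputable def qf (f : ℤ[X]) (p : ℕ) : ℝ := (p : ℝ) / (rho f p : ℝ)

lemma one_div_qf (f : ℤ[X]) (p : ℕ) : 1 / qf f p = (rho f p : ℝ) / p := by
  unfold qf
  rw [one_div_div]

/-- Mertens estimate for the densities -/
lemma mert (f : ℤ[X]) (C : ℝ)
    (hC : ∀ w : ℝ, 3 ≤ w → |Sg (rho f) w - Real.log (Real.log w)| ≤ C) (z0 z2 : ℕ)
    (hz0 : 3 ≤ z0) : Mert (qf f) (PF f z0 z2) z0 z2 (2 * C) := by
  intro a b ha hab hb
  have h1 : ∑ p ∈ (PF f z0 z2).filter (fun p => a < p ∧ p ≤ b), 1 / qf f p =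
      Sg (rho f) b - Sg (rho f) a := by
    unfold Sg
    rw [PR_nat, PR_nat]
    have e1 : SS b = SS a ∪ (SS b).filter (fun p => a < p) := by
      ext p
      simp only [SS, Finset.mem_union, Finset.mem_filter, Finset.mem_range]
      constructor
      · rintro ⟨h1, h2⟩
        by_cases h3 : p ≤ a
        · exact Or.inl ⟨by omega, h2⟩
        · exact Or.inr ⟨⟨h1, h2⟩, by omega⟩
      · rintro (⟨h1, h2⟩ | ⟨⟨h1, h2⟩, h3⟩)
        · exact ⟨by omega, h2⟩
        · exact ⟨h1, h2⟩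
    have e2 : Disjoint (SS a) ((SS b).filter (fun p => a < p)) := by
      rw [Finset.disjoint_left]
      intro p hp hp'
      have h2 := (Finset.mem_filter.1 hp').2
      have h3 := (Finset.mem_filter.1 hp).1
      rw [Finset.mem_range] at h3
      omega
    rw [e1, Finset.sum_union e2, add_sub_cancel_left]
    rw [Finset.sum_congr rfl (fun p _ => one_div_qf f p)]
    refine Finset.sum_subset_zero_on_sdiff ?_ ?_ (fun p _ => rfl)
    · intro p hp
      rw [PF, Finset.mem_filter, Finset.mem_filter] at hp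
      rw [Finset.mem_filter, SS, Finset.mem_filter, Finset.mem_range]
      exact ⟨⟨by omega, PP_prime hp.1.1⟩, hp.2.1⟩
    · intro p hp
      rw [Finset.mem_sdiff] at hp
      obtain ⟨hp1, hp2⟩ := hp
      rw [Finset.mem_filter, SS, Finset.mem_filter, Finset.mem_range] at hp1
      obtain ⟨⟨h1, h2⟩, h3⟩ := hp1
      by_contra hne
      apply hp2
      rw [PF, Finset.mem_filter, Finset.mem_filter]
      refine ⟨⟨mem_PP.2 ⟨h2, by omega, by omega⟩, ?_⟩, h3, by omega⟩
      intro h0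
      apply hne
      rw [h0]
      simp
  rw [h1]
  have ha3 : (3 : ℝ) ≤ a := by exact_mod_cast (by omega : 3 ≤ a)
  have hb3 : (3 : ℝ) ≤ b := by exact_mod_cast (by omega : 3 ≤ b)
  have h2 := hC a ha3
  have h3 := hC b hb3
  rw [abs_le] at h2 h3 ⊢
  constructor <;> linarith

/-- the hit classes -/
noncomputable def Hf (f : ℤ[X]) (p x : ℕ) : Finset ℕ :=
  (range p).filter (fun c : ℕ => (p : ℤ) ∣ f.eval ((c : ℤ) + Equiv.intEquivNat.symm x))

lemma mem_Hf (f : ℤ[X]) (p x m : ℕ) (hp : 0 < p) : m % p ∈ Hf f p x ↔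
    (p : ℤ) ∣ f.eval ((m : ℤ) + Equiv.intEquivNat.symm x) := by
  unfold Hf
  rw [Finset.mem_filter, Finset.mem_range, dvd_eval_mod]
  exact ⟨fun h => h.2, fun h => ⟨Nat.mod_lt _ hp, h⟩⟩

lemma hit (f : ℤ[X]) (B0 : ℕ) (hB0 : ∀ p : ℕ, p.Prime → B0 < p → rho f p ≤ f.natDegree)
    (z0 z2 : ℕ) (hz0 : B0 ≤ z0) (B : Finset ℕ) :
    Hit f.natDegree (Hf f) (qf f) (PF f z0 z2) B := by
  intro p hp a _
  rw [PF, Finset.mem_filter] at hp
  have hpp := PP_prime hp.1
  have hc : (Hf f p a).card = rho f p := rho_shift f p hpp _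
  rw [hc]
  refine ⟨Finset.filter_subset _ _, by omega, hB0 p hpp (lt_of_le_of_lt hz0 (PP_gt hp.1)), ?_⟩
  unfold qf
  have : (rho f p : ℝ) ≠ 0 := by exact_mod_cast hp.2
  field_simp

lemma qbounds (f : ℤ[X]) (B0 : ℕ) (hB0 : ∀ p : ℕ, p.Prime → B0 < p → rho f p ≤ f.natDegree)
    (z0 z2 : ℕ) (hz0 : B0 ≤ z0) : ∀ p ∈ PF f z0 z2,
    1 / (p : ℝ) ≤ 1 / qf f p ∧ 1 / qf f p ≤ (f.natDegree : ℝ) / (p : ℝ) := by
  intro p hp
  rw [PF, Finset.mem_filter] at hp
  have hpp := PP_prime hp.1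
  have hp0 : (0 : ℝ) < p := by exact_mod_cast hpp.pos
  rw [one_div_qf]
  have h1 : (1 : ℝ) ≤ rho f p := by exact_mod_cast (by omega : 1 ≤ rho f p)
  have h2 : (rho f p : ℝ) ≤ f.natDegree := by
    exact_mod_cast hB0 p hpp (lt_of_le_of_lt hz0 (PP_gt hp.1))
  constructor <;> gcongr

/-- resultant polynomial -/
lemma resultant_poly (f : ℤ[X]) (hf : Irreducible f) (hd : 0 < f.natDegree) :
    ∃ R : ℤ[X], (∀ t : ℤ, t ≠ 0 → R.eval t ≠ 0) ∧
      ∀ x t d : ℤ, d ∣ f.eval x → d ∣ f.eval (x + t) → d ∣ R.eval t := by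
  classical
  set d := f.natDegree with hdd
  set F : ℤ[X][X] := f.map C with hF
  set G : ℤ[X][X] := F.comp (X + C X) with hG
  have hFd : F.natDegree ≤ d := natDegree_map_le
  have hGd : G.natDegree ≤ d := by
    have h1 : (X + C X : ℤ[X][X]).natDegree = 1 := natDegree_X_add_C _
    calc G.natDegree ≤ F.natDegree * (X + C X : ℤ[X][X]).natDegree := natDegree_comp_le
      _ ≤ d := by rw [h1, mul_one]; exact hFd
  obtain ⟨P, Q, -, -, hPQ⟩ := exists_mul_add_mul_eq_C_resultant F G hFd hGd (Or.inl hd.ne')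
  set R : ℤ[X] := F.resultant G d d with hR
  have key1 : ∀ x t : ℤ, ∃ u v : ℤ, f.eval x * u + f.eval (x + t) * v = R.eval t := by
    intro x t
    refine ⟨((P.eval (C x)).eval t), ((Q.eval (C x)).eval t), ?_⟩
    have h := congrArg (fun q : ℤ[X][X] => (q.eval (C x)).eval t) hPQ
    simp only [eval_add, eval_mul, eval_C] at h
    have hFx : (F.eval (C x)).eval t = f.eval x := by
      rw [hF, eval_map, eval₂_at_apply, eval_C]
    have hGx : (G.eval (C x)).eval t = f.eval (x + t) := by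
      rw [hG, eval_comp, hF, eval_map]
      simp only [eval_add, eval_X, eval_C]
      have := Polynomial.hom_eval₂ f C (evalRingHom t) (C x + X)
      simp only [coe_evalRingHom] at this
      rw [this]
      have hid : (evalRingHom t).comp C = RingHom.id ℤ := by
        ext; simp
      rw [hid]
      simp [eval₂_id]
    rw [hFx, hGx] at h
    exact h
  have key2 : ∀ t : ℤ, t ≠ 0 → R.eval t ≠ 0 := by
    intro t ht h0
    apply ncol_res f hf hd t ht
    have h1 := resultant_map_map F G d d (evalRingHom t)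
    have hFm : F.map (evalRingHom t) = f := by
      rw [hF, Polynomial.map_map]
      have hid : (evalRingHom t).comp C = RingHom.id ℤ := by
        ext; simp
      rw [hid, Polynomial.map_id]
    have hGm : G.map (evalRingHom t) = f.comp (X + C t) := by
      rw [hG, Polynomial.map_comp, hFm]
      simp
    rw [hFm, hGm] at h1
    rw [← hdd, h1, ← hR]
    simpa using h0
  refine ⟨R, key2, fun x t e h1 h2 => ?_⟩
  obtain ⟨u, v, huv⟩ := key1 x t
  rw [← huv]
  exact dvd_add (h1.mul_right _) (h2.mul_right _)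

/-- values of polynomials -/
lemma eval_bound (g : ℤ[X]) : ∃ K : ℝ, 1 ≤ K ∧ ∀ (x : ℤ) (y : ℝ), 1 ≤ y → |(x : ℝ)| ≤ y →
    |((g.eval x : ℤ) : ℝ)| ≤ K * y ^ g.natDegree := by
  refine ⟨1 + ∑ i ∈ range (g.natDegree + 1), |((g.coeff i : ℤ) : ℝ)|, ?_, ?_⟩
  · have : 0 ≤ ∑ i ∈ range (g.natDegree + 1), |((g.coeff i : ℤ) : ℝ)| :=
      sum_nonneg fun i _ => abs_nonneg _
    linarith
  · intro x y hy hx
    rw [eval_eq_sum_range]
    push_cast
    refine (abs_sum_le_sum_abs _ _).trans ?_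
    have h1 : ∑ i ∈ range (g.natDegree + 1), |((g.coeff i : ℤ) : ℝ) * (x : ℝ) ^ i| ≤
        (∑ i ∈ range (g.natDegree + 1), |((g.coeff i : ℤ) : ℝ)|) * y ^ g.natDegree := by
      rw [sum_mul]
      refine sum_le_sum fun i hi => ?_
      rw [abs_mul, abs_pow]
      refine mul_le_mul_of_nonneg_left ?_ (abs_nonneg _)
      calc |(x : ℝ)| ^ i ≤ y ^ i := pow_le_pow_left₀ (abs_nonneg _) hx i
        _ ≤ y ^ g.natDegree := pow_le_pow_right₀ hy (by simpa [Nat.lt_succ_iff] using hi)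
    have h2 : 0 ≤ y ^ g.natDegree := by positivity
    linarith

end Pool.Agent.H474R2.GE
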