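import Mathlib
import Pool.Agent.H474R2.GE.FA
import Pool.Agent.H747R2.EN6

set_option autoImplicit false

/-! # Positive proportion for polynomial values: assembly -/

namespace Pool.Agent.H474R2.GE

open Polynomial Finset Filter
open Pool.Agent.H410R2.AC Pool.Agent.H410R2.EN Pool.Agent.H474R2.PG
open Pool.Agent.H747R2.EN6 (crt card_modEq equid et_le asymp)

lemma PF_sub (f : ℤ[X]) (z z' : ℕ) : PF f z z' ⊆ PP z z' := Finset.filter_subset _ _

lemma equidF (f : ℤ[X]) (Q b N z z' D0 : ℕ) (hb : b < Q) (hQ : ∀ p ∈ PP z z', ¬ p ∣ Q) :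
    Equid (fun p _ => 1 / (p : ℝ)) (fun n => if n % Q = b then 1 else 0) N ((N : ℝ) / Q)
      (PF f z z') D0 (fun _ => 1) :=
  fun T hT hT2 c hc => equid Q b N z z' D0 hb hQ T (hT.trans (PF_sub f z z')) hT2 c hc

lemma et_leF (f : ℤ[X]) (K z z' D0 : ℕ) (hK : K ≤ z) :
    ET K (PF f z z') D0 (fun _ => 1) ≤ (D0 : ℝ) ^ 2 := by
  refine le_trans ?_ (et_le K z z' D0 hK)
  unfold ET
  refine Finset.sum_le_sum_of_subset_of_nonneg ?_ (fun T _ _ => by positivity)
  exact Finset.filter_subset_filter _ (Finset.powerset_mono.2 (PF_sub f z z'))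

lemma dl_leF (f R : ℤ[X]) (hR1 : ∀ t : ℤ, t ≠ 0 → R.eval t ≠ 0)
    (hR2 : ∀ x t d : ℤ, d ∣ f.eval x → d ∣ f.eval (x + t) → d ∣ R.eval t)
    {z z' K : ℕ} (L : ℝ) (hL : 0 ≤ L) (U : Finset ℕ)
    (hU : ∀ a ∈ U, ∀ b ∈ U, Real.log
      ((R.eval (Equiv.intEquivNat.symm a - Equiv.intEquivNat.symm b)).natAbs : ℝ) ≤ L)
    (hUK : U.card ≤ K) (hz : 2 ≤ z) :
    dl (fun p => p) (Hf f) (PF f z z') U ≤ 2 / (z : ℝ) + (K : ℝ) ^ 2 * (L / (z * Real.log z)) := by
  classical
  have hpos : ∀ p ∈ PP z z', (0 : ℝ) ≤ 1 / ((p : ℝ) - 1) := by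
    intro p hp
    have h2 := (PP_prime hp).two_le
    have : (2 : ℝ) ≤ p := by exact_mod_cast h2
    have : (0 : ℝ) < (p : ℝ) - 1 := by linarith
    positivity
  unfold dl
  refine add_le_add ?_ ?_
  · refine le_trans ?_ (Pool.Agent.H647R2.ACNT.nt4 z z' (by omega))
    refine Finset.sum_le_sum_of_subset_of_nonneg (PF_sub f z z') (fun p _ _ => by positivity)
  set t : ℝ := L / (z * Real.log z) with ht
  have hz2 : (0 : ℝ) ≤ z * Real.log z := by
    have h2 : 0 ≤ Real.log (z : ℝ) := Real.log_natCast_nonneg z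
    positivity
  have ht0 : 0 ≤ t := by positivity
  set g : ℕ × ℕ → ℕ := fun x =>
    (R.eval (Equiv.intEquivNat.symm x.1 - Equiv.intEquivNat.symm x.2)).natAbs with hg
  calc ∑ p ∈ (PF f z z').filter (fun p => (∃ a ∈ U, ∃ b ∈ U, a ≠ b ∧
          ¬ Disjoint (Hf f p a) (Hf f p b)) ∨ ∃ a ∈ U, p ∈ Hf f p a), 1 / ((p : ℝ) - 1)
      ≤ ∑ p ∈ PP z z', ∑ x ∈ (U ×ˢ U).filter (fun x => x.1 ≠ x.2),
          (if p ∣ g x then 1 / ((p : ℝ) - 1) else 0) := by
        rw [Finset.sum_filter]
        refine (Finset.sum_le_sum_of_subset_of_nonneg (PF_sub f z z') (fun p hp _ => ?_)).trans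
          (Finset.sum_le_sum (fun p hp => ?_))
        · split_ifs
          · exact hpos p hp
          · exact le_rfl
        split_ifs with hc
        · have hp0 : 0 < p := (PP_prime hp).pos
          rcases hc with ⟨a, ha, a', ha', hne, he⟩ | ⟨a, ha, he⟩
          · have hd : p ∣ g (a, a') := by
              rw [Finset.not_disjoint_iff] at he
              obtain ⟨c, hc1, hc2⟩ := he
              unfold Hf at hc1 hc2
              rw [Finset.mem_filter] at hc1 hc2
              have h1 := hR2 ((c : ℤ) + Equiv.intEquivNat.symm a')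
                (Equiv.intEquivNat.symm a - Equiv.intEquivNat.symm a') (p : ℤ) hc2.2 (by
                  have h2 : (c : ℤ) + Equiv.intEquivNat.symm a' +
                    (Equiv.intEquivNat.symm a - Equiv.intEquivNat.symm a') =
                    (c : ℤ) + Equiv.intEquivNat.symm a := by ring
                  rw [h2]
                  exact hc1.2)
              exact Int.natCast_dvd.1 h1
            have hmem : (a, a') ∈ (U ×ˢ U).filter (fun x => x.1 ≠ x.2) := by
              simp [ha, ha', hne]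
            refine le_trans ?_ (Finset.single_le_sum (f := fun x : ℕ × ℕ =>
              (if p ∣ g x then 1 / ((p : ℝ) - 1) else 0)) ?_ hmem)
            · exact (if_pos hd).ge
            · intro x _
              show (0 : ℝ) ≤ (if p ∣ g x then 1 / ((p : ℝ) - 1) else 0)
              split_ifs
              · exact hpos p hp
              · exact le_rfl
          · unfold Hf at he
            rw [Finset.mem_filter, Finset.mem_range] at he
            exact absurd he.1 (lt_irrefl _)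
        · refine Finset.sum_nonneg (fun x _ => ?_)
          split_ifs
          · exact hpos p hp
          · exact le_rfl
    _ = ∑ x ∈ (U ×ˢ U).filter (fun x => x.1 ≠ x.2),
          ∑ p ∈ (PP z z').filter (fun p : ℕ => p ∣ g x), (1 : ℝ) / ((p : ℝ) - 1) := by
        rw [Finset.sum_comm]
        refine Finset.sum_congr rfl (fun x _ => ?_)
        rw [Finset.sum_filter]
    _ ≤ ∑ x ∈ (U ×ˢ U).filter (fun x => x.1 ≠ x.2), t := by
        refine Finset.sum_le_sum (fun x hx => ?_)
        have hx1 := (Finset.mem_filter.mp hx).1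
        have hx2 := (Finset.mem_filter.mp hx).2
        have hx3 := Finset.mem_product.mp hx1
        have hne : Equiv.intEquivNat.symm x.1 - Equiv.intEquivNat.symm x.2 ≠ 0 := by
          rw [sub_ne_zero]
          exact fun h => hx2 (Equiv.intEquivNat.symm.injective h)
        have h1 : g x ≠ 0 := by
          rw [hg]
          simp only [ne_eq, Int.natAbs_eq_zero]
          exact hR1 _ hne
        refine (Pool.Agent.H647R2.ACNT.nt5 z z' (g x) (g x) hz (by omega) le_rfl).trans ?_
        rw [ht]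
        exact div_le_div_of_nonneg_right (hU _ hx3.1 _ hx3.2) hz2
    _ = ((U ×ˢ U).filter (fun x => x.1 ≠ x.2)).card * t := by
        rw [Finset.sum_const, nsmul_eq_mul]
    _ ≤ (K : ℝ) ^ 2 * t := by
        refine mul_le_mul_of_nonneg_right ?_ ht0
        have h1 : ((U ×ˢ U).filter (fun x => x.1 ≠ x.2)).card ≤ K ^ 2 := by
          refine (Finset.card_filter_le _ _).trans ?_
          rw [Finset.card_product, sq]
          exact Nat.mul_le_mul hUK hUK
        exact_mod_cast h1

/-- the size bound -/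
lemma hsizeF (f : ℤ[X]) (z z' : ℕ) (Y : ℝ) (m a : ℕ)
    (h0 : |((f.eval ((m : ℤ) + Equiv.intEquivNat.symm a) : ℤ) : ℝ)| ≤ Y) :
    (∏ p ∈ (PF f z z').filter (fun p => m % p ∈ Hf f p a), (p : ℝ)) ≤ Y ∨
      ∀ p ∈ PF f z z', m % p ∈ Hf f p a := by
  have hP : ∀ p ∈ PF f z z', p.Prime := fun p hp => PP_prime (PF_sub f z z' hp)
  by_cases h : f.eval ((m : ℤ) + Equiv.intEquivNat.symm a) = 0
  · right
    intro p hp
    rw [mem_Hf f p a m (hP p hp).pos, h]
    exact dvd_zero _
  · left
    have h1 : ∏ p ∈ (PF f z z').filter (fun p => m % p ∈ Hf f p a), p ∣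
        (f.eval ((m : ℤ) + Equiv.intEquivNat.symm a)).natAbs := by
      apply Finset.prod_primes_dvd
      · intro p hp
        exact (hP p (Finset.mem_filter.1 hp).1).prime
      · intro p hp
        rw [Finset.mem_filter] at hp
        exact Int.natCast_dvd.1 ((mem_Hf f p a m (hP p hp.1).pos).1 hp.2)
    have h2 := Nat.le_of_dvd (Int.natAbs_pos.2 h) h1
    have h4 : (((∏ p ∈ (PF f z z').filter (fun p => m % p ∈ Hf f p a), p : ℕ)) : ℝ) ≤
        ((f.eval ((m : ℤ) + Equiv.intEquivNat.symm a)).natAbs : ℝ) := by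
      exact_mod_cast h2
    push_cast at h4
    refine h4.trans (le_trans (le_of_eq ?_) h0)
    rw [Nat.cast_natAbs, Int.cast_abs]

/-- few `n` give a small value -/
lemma nearF (f : ℤ[X]) (hd : 0 < f.natDegree) (N z : ℕ) (A : Finset ℤ) :
    ((range N).filter (fun n : ℕ => ∃ a ∈ A, |f.eval ((n : ℤ) + a)| ≤ z)).card ≤
      A.card * ((2 * z + 1) * f.natDegree) := by
  classical
  have h1 : ((range N).filter (fun n : ℕ => ∃ a ∈ A, |f.eval ((n : ℤ) + a)| ≤ z)) ⊆
      A.biUnion (fun a => (range N).filter (fun n : ℕ => |f.eval ((n : ℤ) + a)| ≤ z)) := by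
    intro n hn
    rw [Finset.mem_filter] at hn
    obtain ⟨hn1, a, ha, hna⟩ := hn
    rw [Finset.mem_biUnion]
    exact ⟨a, ha, Finset.mem_filter.2 ⟨hn1, hna⟩⟩
  refine (Finset.card_le_card h1).trans ?_
  refine Finset.card_biUnion_le_card_mul _ _ _ fun a _ => ?_
  have h2 : (range N).filter (fun n : ℕ => |f.eval ((n : ℤ) + a)| ≤ z) ⊆
      (Finset.Icc (-(z : ℤ)) z).biUnion (fun v =>
        (range N).filter (fun n : ℕ => f.eval ((n : ℤ) + a) = v)) := by
    intro n hn
    rw [Finset.mem_filter, abs_le] at hn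
    rw [Finset.mem_biUnion]
    exact ⟨_, Finset.mem_Icc.2 hn.2, Finset.mem_filter.2 ⟨hn.1, rfl⟩⟩
  refine (Finset.card_le_card h2).trans ?_
  have h3 : (Finset.Icc (-(z : ℤ)) z).card = 2 * z + 1 := by
    rw [Int.card_Icc]; omega
  rw [← h3]
  refine Finset.card_biUnion_le_card_mul _ _ _ fun v _ => ?_
  have hdeg : 0 < f.degree := natDegree_pos_iff_degree_pos.1 hd
  have hne : f - C v ≠ 0 := by
    intro h
    have := sub_eq_zero.1 h
    rw [this, natDegree_C] at hd
    exact lt_irrefl _ hd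
  calc ((range N).filter (fun n : ℕ => f.eval ((n : ℤ) + a) = v)).card
      ≤ (f - C v).roots.toFinset.card := by
        refine Finset.card_le_card_of_injOn (fun n : ℕ => (n : ℤ) + a) ?_ ?_
        · intro n hn
          have hn' := (Finset.mem_filter.1 (Finset.mem_coe.1 hn)).2
          rw [Finset.mem_coe, Multiset.mem_toFinset, mem_roots hne, IsRoot.def]
          simp [hn']
        · intro n _ m _ h
          have h' : (n : ℤ) + a = (m : ℤ) + a := h
          have := add_right_cancel h'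
          exact_mod_cast this
    _ ≤ Multiset.card (f - C v).roots := Multiset.toFinset_card_le _
    _ ≤ f.natDegree := card_roots_sub_C' hdeg

/-- further asymptotic requirements -/
lemma asympF (C C5 Kf : ℝ) (hC : 1 ≤ C) (hC5 : 0 ≤ C5) (K B0 d : ℕ) :
    ∀ᶠ N : ℕ in atTop, 3 ≤ HH N ∧ B0 ≤ HH N ∧
      2 / (HH N : ℝ) + (K : ℝ) ^ 2 * (C5 * Real.log N / (HH N * Real.log (HH N))) ≤
        1 / K ∧
      Kf * ((N : ℝ) + (N : ℝ) ^ C) ^ d ≤ (N : ℝ) ^ (C * d + 1) ∨ K = 0 := by
  rcases Nat.eq_zero_or_pos K with hK | hK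
  · exact Filter.Eventually.of_forall fun _ => Or.inr hK
  have hdd := (dd_tendsto K).const_mul (1 + C5)
  rw [mul_zero] at hdd
  have hK1 : (0 : ℝ) < 1 / K := by positivity
  filter_upwards [tendsto_HH.eventually_ge_atTop 3, tendsto_HH.eventually_ge_atTop (B0 : ℝ),
    hdd.eventually (eventually_le_nhds hK1),
    tendsto_natCast_atTop_atTop.eventually_ge_atTop (max 1 (|Kf| * 2 ^ d)),
    tendsto_log_nat.eventually_ge_atTop 1] with N a1 a2 a3 a4 a5
  left
  have a4' : 1 ≤ (N : ℝ) := (le_max_left _ _).trans a4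
  have a4'' : |Kf| * 2 ^ d ≤ (N : ℝ) := (le_max_right _ _).trans a4
  refine ⟨by exact_mod_cast a1, by exact_mod_cast a2, ?_, ?_⟩
  · refine le_trans ?_ a3
    unfold dd
    have hl : 0 < Real.log (HH N : ℝ) := Real.log_pos (by linarith)
    have hH0 : (0 : ℝ) < HH N := by linarith
    have h4 : (K : ℝ) ^ 2 ≤ (2 * K + 1) ^ 2 := by
      have : (0 : ℝ) ≤ K := Nat.cast_nonneg K
      nlinarith
    have h5 : 0 ≤ Real.log N / (HH N * Real.log (HH N)) := by positivity
    have h6 : 0 ≤ 2 / (HH N : ℝ) := by positivity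
    have h7 : C5 * Real.log N / (HH N * Real.log (HH N)) =
        C5 * (Real.log N / (HH N * Real.log (HH N))) := by ring
    rw [h7]
    have h8 : (K : ℝ) ^ 2 * (C5 * (Real.log N / (HH N * Real.log (HH N)))) ≤
        (2 * K + 1) ^ 2 * (C5 * (Real.log N / (HH N * Real.log (HH N)))) := by gcongr
    have h9 : 0 ≤ (2 * (K : ℝ) + 1) ^ 2 * (Real.log N / (HH N * Real.log (HH N))) := by positivity
    nlinarith
  · have hN0 : (0 : ℝ) < N := by linarith
    have h1 : (N : ℝ) ≤ (N : ℝ) ^ C := by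
      calc (N : ℝ) = (N : ℝ) ^ (1 : ℝ) := (Real.rpow_one _).symm
        _ ≤ _ := Real.rpow_le_rpow_of_exponent_le a4' hC
    have h2 : ((N : ℝ) + (N : ℝ) ^ C) ^ d ≤ 2 ^ d * ((N : ℝ) ^ C) ^ d := by
      rw [← mul_pow]
      refine pow_le_pow_left₀ (by positivity) (by linarith) _
    calc Kf * ((N : ℝ) + (N : ℝ) ^ C) ^ d ≤ |Kf| * (2 ^ d * ((N : ℝ) ^ C) ^ d) := by
          refine mul_le_mul (le_abs_self _) h2 (by positivity) (abs_nonneg _)
      _ = (|Kf| * 2 ^ d) * ((N : ℝ) ^ C) ^ d := by ring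
      _ ≤ N * ((N : ℝ) ^ C) ^ d := by gcongr
      _ = (N : ℝ) ^ (C * d + 1) := by
          rw [Real.rpow_add hN0, Real.rpow_one, Real.rpow_mul hN0.le, Real.rpow_natCast]
          ring

end Pool.Agent.H474R2.GE
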