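import Mathlib
import Pool.Agent.H474R2.GE.FB

set_option autoImplicit false

/-! # Positive proportion of composite values for every irreducible polynomial -/

namespace Pool.Agent.H474R2.GE

open Polynomial Finset Filter
open Pool.Agent.H410R2.AC Pool.Agent.H410R2.EN Pool.Agent.H474R2.PG
open Pool.Agent.H747R2.EN6 (asymp)

/-- the sifting limit -/
noncomputable def zd (δ : ℝ) (N : ℕ) : ℕ := ⌊(N : ℝ) ^ δ⌋₊

lemma zd_le {δ : ℝ} (hδ : δ ≤ 1 / 10) {N : ℕ} (hN : (1 : ℝ) ≤ N) : zd δ N ≤ zz N :=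
  Nat.floor_le_floor (Real.rpow_le_rpow_of_exponent_le hN hδ)

lemma HH_le_zd (δ : ℝ) (hδ : 0 < δ) : ∀ᶠ N : ℕ in atTop, HH N ≤ zd δ N := by
  filter_upwards [log_pow_small 1 1 δ hδ, tendsto_log_nat.eventually_ge_atTop 1] with N h1 h2
  refine Nat.floor_le_floor ?_
  rw [pow_one, one_mul] at h1
  linarith

open Classical in
/-- any C log N shifts: for a positive proportion of the n < N all the values f(n+a) have a proper
prime factor at most N^δ -/
theorem polyZ_of (hcore : Pool.Agent.H474R2.GE.CoreW) (f : ℤ[X]) (hf : Irreducible f)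
    (hd : 0 < f.natDegree) (C' δ : ℝ) (hδ : 0 < δ) (hδ1 : δ ≤ 1 / 10) :
    ∃ c : ℝ, 0 < c ∧ ∃ N₀ : ℕ, ∀ N : ℕ, N₀ ≤ N → ∀ A : Finset ℤ,
      (∀ a ∈ A, |(a : ℝ)| ≤ (N : ℝ) ^ C') → (A.card : ℝ) ≤ C' * Real.log N →
      c * N ≤ (((range N).filter (fun n : ℕ => ∀ a ∈ A, ∃ p : ℕ, p.Prime ∧
        (p : ℝ) ≤ (N : ℝ) ^ δ ∧ (p : ℤ) ∣ f.eval ((n : ℤ) + a) ∧
        p < (f.eval ((n : ℤ) + a)).natAbs)).card : ℝ) := by
  set C : ℝ := max C' 1 with hCdef
  have hC1 : 1 ≤ C := le_max_right _ _
  obtain ⟨CM, hCM0, hCM⟩ := mertens_rho f hf hd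
  obtain ⟨B0, hB0⟩ := rho_le f hf.ne_zero
  obtain ⟨R, hR1, hR2⟩ := resultant_poly f hf hd
  obtain ⟨KR, hKR1, hKR⟩ := eval_bound R
  obtain ⟨Kf, hKf1, hKf⟩ := eval_bound f
  set d := f.natDegree with hdd
  set C3 : ℝ := Real.exp CM with hC3
  have hC30 : 0 < C3 := Real.exp_pos _
  set C4 : ℝ := C * d + 1 with hC4
  set C5 : ℝ := Real.log KR + R.natDegree * (1 + C) with hC5
  have hC50 : 0 ≤ C5 := by
    have := Real.log_nonneg hKR1
    positivity
  set C6 : ℝ := 1 + 2 * C3 * C + 2 * CM + C4 with hC6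
  have hC40 : 0 ≤ C4 := by positivity
  have hC6' : 1 ≤ C6 := by
    have : 0 ≤ 2 * C3 * C := by positivity
    linarith
  obtain ⟨c0, hc0, K, hK, X0, hX0⟩ := hcore d C6 δ hd hC6' hδ (by linarith)
  refine ⟨c0 / 4, by positivity, ?_⟩
  have hdr : (1 : ℝ) ≤ d := by exact_mod_cast hd
  have hCd : 1 ≤ C * d := one_le_mul_of_one_le_of_one_le hC1 hdr
  obtain ⟨N₁, hN₁⟩ := eventually_atTop.1 (asymp (C * d) c0 hCd hc0 K X0)
  obtain ⟨N₂, hN₂⟩ := eventually_atTop.1 (asympF C C5 Kf hC1 hC50 K B0 d)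
  obtain ⟨N₃, hN₃⟩ := eventually_atTop.1 (HH_le_zd δ hδ)
  refine ⟨N₁ + N₂ + N₃, fun N hN A hA' hAC' => ?_⟩
  obtain ⟨b1, b2, b3, b4, b5, b6, b7, b8, b9⟩ := hN₁ N (by omega)
  have hN2' := hN₂ N (by omega)
  have hK0 : ¬ K = 0 := by omega
  rcases hN2' with ⟨e1, e2, e3, e4⟩ | hbad
  swap
  · exact absurd hbad hK0
  have hN1 : (1 : ℝ) ≤ N := by exact_mod_cast (by omega : 1 ≤ N)
  have hzz : zd δ N ≤ zz N := zd_le hδ1 hN1
  have hzzr : ((zd δ N : ℕ) : ℝ) ≤ zz N := by exact_mod_cast hzz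
  have b5' : HH N ≤ zd δ N := hN₃ N (by omega)
  have hN0 : (0 : ℝ) < N := by linarith
  have hlog : 0 < Real.log N := by linarith
  have hA : ∀ a ∈ A, |(a : ℝ)| ≤ (N : ℝ) ^ C := fun a ha =>
    (hA' a ha).trans (Real.rpow_le_rpow_of_exponent_le hN1 (le_max_left _ _))
  have hAC : (A.card : ℝ) ≤ C * Real.log N :=
    hAC'.trans (mul_le_mul_of_nonneg_right (le_max_left _ _) hlog.le)
  have hNC1 : 1 ≤ (N : ℝ) ^ C := Real.one_le_rpow hN1 (by linarith)
  set Q := primorial (HH N) with hQ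
  have hQ0 : 0 < Q := primorial_pos _
  have hQ0' : (0 : ℝ) < Q := by exact_mod_cast hQ0
  have hgood := good_classes f (HH N) A C3 (C * Real.log N) hC30 (by positivity)
    (prod_le f CM hCM (HH N) e1) hAC
  rw [← hQ] at hgood
  set Gd := (range Q).filter (fun b : ℕ =>
      ((A.filter (fun a : ℤ => ∀ p ∈ SS (HH N), ¬ (p : ℤ) ∣ f.eval ((b : ℤ) + a))).card : ℝ) *
        Real.log (HH N) ≤ 2 * (C3 * (C * Real.log N))) with hGd
  set G : Finset ℕ := (range N).filter (fun n : ℕ => ∀ a ∈ A, ∃ p : ℕ, p.Prime ∧ p ≤ zd δ N ∧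
    (p : ℤ) ∣ f.eval ((n : ℤ) + a)) with hG
  have hPQ : ∀ p ∈ PP (HH N) (zd δ N), ¬ p ∣ Q := by
    intro p hp hpQ
    have := Pool.Agent.H143R2.ACF.prime_dvd_primorial (PP_prime hp) hpQ
    have := PP_gt hp
    omega
  -- the classes
  have hclass : ∀ b ∈ Gd, c0 * ((N : ℝ) / Q) ≤ ((G.filter (fun n => n % Q = b)).card : ℝ) := by
    intro b hb
    rw [hGd, Finset.mem_filter, Finset.mem_range] at hb
    obtain ⟨hbQ, hbB⟩ := hb
    set B1 := A.filter (fun a : ℤ => ∀ p ∈ SS (HH N), ¬ (p : ℤ) ∣ f.eval ((b : ℤ) + a)) with hB1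
    set B : Finset ℕ := B1.map Equiv.intEquivNat.toEmbedding with hB
    have hBmem : ∀ x ∈ B, Equiv.intEquivNat.symm x ∈ B1 := by
      intro x hx
      rw [hB, Finset.mem_map] at hx
      obtain ⟨a, ha, rfl⟩ := hx
      simpa using ha
    have hBN : ∀ x ∈ B, |((Equiv.intEquivNat.symm x : ℤ) : ℝ)| ≤ (N : ℝ) ^ C := by
      intro x hx
      exact hA _ (Finset.mem_filter.1 (hBmem x hx)).1
    have hlogR : ∀ x ∈ B, ∀ y ∈ B, Real.log
        ((R.eval (Equiv.intEquivNat.symm x - Equiv.intEquivNat.symm y)).natAbs : ℝ) ≤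
        C5 * Real.log N := by
      intro x hx y hy
      set t := Equiv.intEquivNat.symm x - Equiv.intEquivNat.symm y with ht
      have h1 : |(t : ℝ)| ≤ 2 * (N : ℝ) ^ C := by
        rw [ht]; push_cast
        refine (abs_sub _ _).trans ?_
        linarith [hBN x hx, hBN y hy]
      have h2 := hKR t (2 * (N : ℝ) ^ C) (by linarith) h1
      have h3 : ((R.eval t).natAbs : ℝ) = |((R.eval t : ℤ) : ℝ)| := by
        rw [Nat.cast_natAbs, Int.cast_abs]
      rw [h3]
      rcases eq_or_ne (R.eval t) 0 with h0 | h0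
      · rw [h0]
        simp only [Int.cast_zero, abs_zero, Real.log_zero]
        positivity
      · have h4 : 0 < |((R.eval t : ℤ) : ℝ)| := abs_pos.2 (by exact_mod_cast h0)
        refine (Real.log_le_log h4 h2).trans ?_
        have hl2 : Real.log 2 ≤ Real.log N :=
          Real.log_le_log (by norm_num) (by exact_mod_cast b2)
        rw [Real.log_mul (by linarith) (by positivity), Real.log_pow,
          Real.log_mul (by norm_num) (by positivity), Real.log_rpow hN0, hC5]
        have h5 : 0 ≤ Real.log KR := Real.log_nonneg hKR1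
        have h6 : (0 : ℝ) ≤ R.natDegree := by positivity
        have h7 : Real.log KR ≤ Real.log KR * Real.log N := le_mul_of_one_le_right h5 b9
        have h8 : (R.natDegree : ℝ) * (Real.log 2 + C * Real.log N) ≤
            R.natDegree * (Real.log N + C * Real.log N) := by gcongr
        calc Real.log KR + R.natDegree * (Real.log 2 + C * Real.log N) ≤
            Real.log KR * Real.log N + R.natDegree * (Real.log N + C * Real.log N) := by linarith
          _ = _ := by ring
    have hmain := hX0 N b1 (HH N) (zd δ N) (zd δ N) b3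
      (by
        have := HH_le N
        linarith) rfl rfl (PF f (HH N) (zd δ N)) B (Hf f) (qf f) (fun p _ => 1 / (p : ℝ))
      (fun p => p) (fun n => if n % Q = b then 1 else 0) N ((N : ℝ) / Q) (fun _ => 1)
      (PF_sub f _ _)
      (by
        intro a b ha hab hb
        refine (mert f CM hCM (HH N) (zd δ N) e1 a b ha hab hb).trans ?_
        have : 0 ≤ 2 * C3 * C := by positivity
        linarith)
      (qbounds f B0 hB0 _ _ e2)
      (by
        rw [hB, Finset.card_map]
        refine hbB.trans ?_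
        have h1 : 2 * (C3 * (C * Real.log N)) = (2 * C3 * C) * Real.log N := by ring
        rw [h1]
        refine mul_le_mul_of_nonneg_right ?_ hlog.le
        linarith)
      (hit f B0 hB0 _ _ e2 B)
      (by
        intro p hp c hc
        have h2 : (2 : ℝ) ≤ p := by exact_mod_cast (PP_prime (PF_sub f _ _ hp)).two_le
        refine ⟨by positivity, ?_, ?_⟩
        · apply one_div_le_one_div_of_le <;> linarith
        · intro _
          rw [sub_self, abs_zero]
          positivity)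
      (fun m => by split_ifs <;> norm_num)
      (by positivity)
      (equidF f Q b N (HH N) (zd δ N) (zd δ N) hbQ hPQ)
      (by
        intro U hU hUK
        exact (dl_leF f R hR1 hR2 (C5 * Real.log N) (by positivity) U
          (fun x hx y hy => hlogR x (hU hx) y (hU hy)) hUK b4).trans e3)
      ((et_leF f K (HH N) (zd δ N) (zd δ N) b3).trans (le_trans (by gcongr) b6))
      (by
        intro m hm _ a ha
        refine hsizeF f _ _ _ m a ?_
        have h1 : |((((m : ℤ) + Equiv.intEquivNat.symm a : ℤ)) : ℝ)| ≤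
            (N : ℝ) + (N : ℝ) ^ C := by
          push_cast
          refine (abs_add_le _ _).trans ?_
          have h2 : |((m : ℕ) : ℝ)| ≤ N := by
            rw [abs_of_nonneg (by positivity)]
            exact_mod_cast hm.le
          linarith [hBN a ha]
        refine (hKf _ _ (by linarith) h1).trans (e4.trans ?_)
        refine Real.rpow_le_rpow_of_exponent_le hN1 ?_
        have : 0 ≤ 2 * C3 * C := by positivity
        linarith)
    refine hmain.trans ?_
    rw [← Finset.sum_filter, Finset.filter_filter, Finset.sum_const, nsmul_eq_mul, mul_one]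
    have hsub : ((range N).filter (fun m => (∀ a ∈ B, ∃ p ∈ PF f (HH N) (zd δ N),
        m % p ∈ Hf f p a) ∧ m % Q = b)) ⊆ G.filter (fun n => n % Q = b) := by
      intro m hm
      rw [Finset.mem_filter] at hm
      obtain ⟨hm1, hm2, hm3⟩ := hm
      rw [hG, Finset.mem_filter, Finset.mem_filter]
      refine ⟨⟨hm1, fun a ha => ?_⟩, hm3⟩
      by_cases hco : ∀ p ∈ SS (HH N), ¬ (p : ℤ) ∣ f.eval ((b : ℤ) + a)
      · obtain ⟨p, hp, hpm⟩ := hm2 (Equiv.intEquivNat a) (by
          rw [hB, Finset.mem_map]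
          exact ⟨a, Finset.mem_filter.2 ⟨ha, hco⟩, rfl⟩)
        have hp' := PF_sub f _ _ hp
        refine ⟨p, PP_prime hp', PP_le hp', ?_⟩
        rw [mem_Hf f p _ m (PP_prime hp').pos, Equiv.symm_apply_apply] at hpm
        exact hpm
      · push Not at hco
        obtain ⟨p, hp, hpd⟩ := hco
        rw [SS, Finset.mem_filter, Finset.mem_range] at hp
        refine ⟨p, hp.2, by omega, ?_⟩
        have hpQ : p ∣ Q := by
          rw [hQ, ← prod_SS]
          exact Finset.dvd_prod_of_mem (fun p => p)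
            (Finset.mem_filter.2 ⟨Finset.mem_range.2 hp.1, hp.2⟩)
        rw [← dvd_eval_mod f p m a]
        have h5 : m % p = b % p := by
          rw [← hm3, Nat.mod_mod_of_dvd m hpQ]
        rw [h5, dvd_eval_mod f p b a]
        exact hpd
    exact_mod_cast Finset.card_le_card hsub
  -- sum over the good classes
  have hGcard : c0 / 2 * N ≤ (G.card : ℝ) := by
    have h1 : ∑ b ∈ Gd, (G.filter (fun n => n % Q = b)).card ≤ G.card := by
      rw [← Finset.card_biUnion]
      · refine Finset.card_le_card ?_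
        intro n hn
        rw [Finset.mem_biUnion] at hn
        obtain ⟨b, _, hb⟩ := hn
        exact (Finset.mem_filter.1 hb).1
      · intro x _ y _ hxy
        refine Finset.disjoint_left.2 ?_
        intro n hn hn'
        exact hxy ((Finset.mem_filter.1 hn).2.symm.trans (Finset.mem_filter.1 hn').2)
    have h2 : ∑ b ∈ Gd, c0 * ((N : ℝ) / Q) ≤ (G.card : ℝ) := by
      refine (Finset.sum_le_sum hclass).trans ?_
      exact_mod_cast h1
    rw [Finset.sum_const, nsmul_eq_mul] at h2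
    refine le_trans ?_ h2
    calc c0 / 2 * N = (Q : ℝ) / 2 * (c0 * ((N : ℝ) / Q)) := by
          field_simp
      _ ≤ Gd.card * (c0 * ((N : ℝ) / Q)) := by
          refine mul_le_mul_of_nonneg_right hgood (by positivity)
  -- the final count
  set E : Finset ℕ := (range N).filter (fun n : ℕ => ∃ a ∈ A,
    |f.eval ((n : ℤ) + a)| ≤ zd δ N) with hE
  have hEcard := nearF f hd N (zd δ N) A
  rw [← hE, ← hdd] at hEcard
  set T : Finset ℕ := (range N).filter (fun n : ℕ => ∀ a ∈ A, ∃ p : ℕ, p.Prime ∧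
        (p : ℝ) ≤ (N : ℝ) ^ δ ∧ (p : ℤ) ∣ f.eval ((n : ℤ) + a) ∧
        p < (f.eval ((n : ℤ) + a)).natAbs) with hT
  have hsub : G ⊆ T ∪ E := by
    intro n hn
    rw [hG, Finset.mem_filter] at hn
    obtain ⟨hn1, hn2⟩ := hn
    rw [Finset.mem_union]
    by_cases hnE : n ∈ E
    · exact Or.inr hnE
    · left
      rw [hT, Finset.mem_filter]
      refine ⟨hn1, fun a ha => ?_⟩
      obtain ⟨p, hp, hpz, hpd⟩ := hn2 a ha
      refine ⟨p, hp, ?_, hpd, ?_⟩
      · have h1 : ((zd δ N : ℕ) : ℝ) ≤ (N : ℝ) ^ δ := Nat.floor_le (by positivity)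
        have h2 : (p : ℝ) ≤ zd δ N := by exact_mod_cast hpz
        linarith
      · by_contra hcon
        apply hnE
        rw [hE, Finset.mem_filter]
        refine ⟨hn1, a, ha, ?_⟩
        rw [Int.abs_eq_natAbs]
        push Not at hcon
        exact_mod_cast hcon.trans hpz
  have h1 := (Finset.card_le_card hsub).trans (Finset.card_union_le _ _)
  have h2 : (G.card : ℝ) ≤ (T.card : ℝ) + A.card * ((2 * zd δ N + 1) * d) := by
    exact_mod_cast h1.trans (Nat.add_le_add_left hEcard _)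
  have h3 : (A.card : ℝ) * ((2 * zd δ N + 1) * d) ≤ c0 / 4 * N := by
    refine le_trans ?_ b8
    calc (A.card : ℝ) * ((2 * zd δ N + 1) * d) ≤ (C * Real.log N) * ((2 * zz N + 1) * d) := by
          gcongr
      _ = C * d * Real.log N * (2 * zz N + 1) := by ring
  linarith

end Pool.Agent.H474R2.GE
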