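import Mathlib
import Pool.Agent.H474R2.GE.Iface

/-!
GENERAL ENGINE, task GE6: the fourth moment
(generalisation of helper575's Pool/Agent/H575R2/EN4.lean to several residue classes per prime).
-/

set_option autoImplicit false

open Finset

namespace Pool.Agent.H474R2.GE

open Pool.Agent.H410R2.AC Pool.Agent.H410R2.EN

private lemma rg_cases (Hs : ℕ → ℕ → Finset ℕ) (P : Finset ℕ) (a m : ℕ) :
    rg Hs P a m = 0 ∨ rg Hs P a m = 1 := by
  unfold rg
  split_ifs
  · right; rfl
  · left; rfl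

private lemma FF_le (Hs : ℕ → ℕ → Finset ℕ) (q : ℕ → ℝ) (P2 : Finset ℕ) (S : Finset (Finset ℕ))
    (a m k0 : ℕ) (hP2 : ∀ p ∈ P2, 2 ≤ q p) (hS : ∀ R ∈ S, R ⊆ P2)
    (hk : (P2.filter (fun p => m % p ∈ Hs p a)).card ≤ k0) :
    |FF Hs q S (some a) m| ≤ 2 ^ k0 * Pi1 q P2 := by
  have hpos : ∀ p ∈ P2, (0 : ℝ) < q p - 1 := by
    intro p hp
    have := hP2 p hp
    linarith
  set f : ℕ → ℝ := fun p => |psi Hs q p (some a) m| / (q p - 1) with hf
  have hf0 : ∀ p ∈ P2, 0 ≤ f p := fun p hp => div_nonneg (abs_nonneg _) (hpos p hp).le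
  have h1 : |FF Hs q S (some a) m| ≤ ∑ R ∈ S, ∏ p ∈ R, f p := by
    unfold FF
    refine (Finset.abs_sum_le_sum_abs _ _).trans (le_of_eq ?_)
    refine Finset.sum_congr rfl fun R hR => ?_
    rw [wt, ← Finset.prod_mul_distrib, Finset.abs_prod]
    refine Finset.prod_congr rfl fun p hp => ?_
    have := hpos p (hS R hR hp)
    rw [abs_mul, abs_of_pos (by positivity : (0 : ℝ) < 1 / (q p - 1))]
    simp only [hf]
    ring
  have h2 : ∑ R ∈ S, ∏ p ∈ R, f p ≤ ∑ R ∈ P2.powerset, ∏ p ∈ R, f p := by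
    refine Finset.sum_le_sum_of_subset_of_nonneg ?_ ?_
    · intro R hR
      exact Finset.mem_powerset.2 (hS R hR)
    · intro R hR _
      exact Finset.prod_nonneg fun p hp => hf0 p (Finset.mem_powerset.1 hR hp)
  have h3 : ∑ R ∈ P2.powerset, ∏ p ∈ R, f p = ∏ p ∈ P2, (1 + f p) := by
    rw [Finset.prod_one_add]
  have h4 : ∏ p ∈ P2, (1 + f p) ≤
      ∏ p ∈ P2, ((if m % p ∈ Hs p a then (2 : ℝ) else 1) * (1 + 1 / (q p - 1))) := by
    refine Finset.prod_le_prod (fun p hp => by have := hf0 p hp; linarith) fun p hp => ?_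
    have hp' := hpos p hp
    have h5 : (0 : ℝ) < 1 / (q p - 1) := by positivity
    by_cases hh : m % p ∈ Hs p a
    · have : f p = 1 := by
        simp only [hf, psi, hh, if_true]
        rw [abs_of_nonpos (by linarith)]
        field_simp
        ring
      rw [this, if_pos hh]
      linarith
    · have : f p = 1 / (q p - 1) := by
        simp only [hf, psi, hh, if_false, abs_one]
      rw [this, if_neg hh, one_mul]
  have h6 : ∏ p ∈ P2, ((if m % p ∈ Hs p a then (2 : ℝ) else 1) * (1 + 1 / (q p - 1))) =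
      2 ^ (P2.filter (fun p => m % p ∈ Hs p a)).card * Pi1 q P2 := by
    rw [Finset.prod_mul_distrib, Pi1]
    congr 1
    rw [← Finset.prod_filter, Finset.prod_const]
  have hPi : 0 ≤ Pi1 q P2 := by
    unfold Pi1
    refine Finset.prod_nonneg fun p hp => ?_
    have := hpos p hp
    positivity
  calc |FF Hs q S (some a) m| ≤ 2 ^ (P2.filter (fun p => m % p ∈ Hs p a)).card * Pi1 q P2 := by
        rw [← h6]; exact h1.trans (h2.trans (h3.le.trans h4))
    _ ≤ 2 ^ k0 * Pi1 q P2 := by
        refine mul_le_mul_of_nonneg_right ?_ hPi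
        exact pow_le_pow_right₀ (by norm_num) hk

/-- the densities are at least 2 for large primes -/
private lemma two_le_q {κ0 p : ℕ} {x : ℝ} (hp : 2 * κ0 < p)
    (h : 1 / (p : ℝ) ≤ 1 / x ∧ 1 / x ≤ κ0 / (p : ℝ)) : 2 ≤ x := by
  have hp0 : (0 : ℝ) < p := by exact_mod_cast (by omega : 0 < p)
  have hx : 0 < x := by
    have h1 : 0 < 1 / x := lt_of_lt_of_le (by positivity) h.1
    exact one_div_pos.1 h1
  have h2 : (p : ℝ) ≤ κ0 * x := by
    have := h.2
    rw [div_le_div_iff₀ hx hp0] at this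
    linarith
  have h3 : (2 * κ0 : ℝ) < p := by exact_mod_cast hp
  by_contra hlt
  push Not at hlt
  have hk : (0 : ℝ) ≤ κ0 := Nat.cast_nonneg _
  nlinarith

/-- indicator attached to an optional position -/
private noncomputable def ro (Hs : ℕ → ℕ → Finset ℕ) (P : Finset ℕ) (m : ℕ) (o : Option ℕ) : ℝ :=
  match o with
  | none => 1
  | some a => rg Hs P a m

private lemma ro_cases (Hs : ℕ → ℕ → Finset ℕ) (P : Finset ℕ) (m : ℕ) (o : Option ℕ) :
    ro Hs P m o = 0 ∨ ro Hs P m o = 1 := by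
  cases o with
  | none => right; rfl
  | some a => exact rg_cases Hs P a m

private lemma ro_nonneg (Hs : ℕ → ℕ → Finset ℕ) (P : Finset ℕ) (m : ℕ) (o : Option ℕ) :
    0 ≤ ro Hs P m o := by
  rcases ro_cases Hs P m o with h | h <;> (rw [h]; try norm_num)

private lemma prod_ro (Hs : ℕ → ℕ → Finset ℕ) (P : Finset ℕ) (m j : ℕ) (h : Fin j → Option ℕ) :
    ∏ i, ro Hs P m (h i) = ∏ a ∈ pos h, rg Hs P a m := by
  by_cases hz : ∃ i, ro Hs P m (h i) = 0
  · obtain ⟨i, hi⟩ := hz
    rw [Finset.prod_eq_zero (Finset.mem_univ i) hi]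
    symm
    cases hh : h i with
    | none => rw [hh] at hi; simp [ro] at hi
    | some a =>
      rw [hh] at hi
      refine Finset.prod_eq_zero (i := a) ?_ hi
      rw [pos, Finset.mem_eraseNone, Finset.mem_image]
      exact ⟨i, Finset.mem_univ _, hh⟩
  · push Not at hz
    have h1 : ∀ i, ro Hs P m (h i) = 1 := fun i => (ro_cases Hs P m (h i)).resolve_left (hz i)
    rw [Finset.prod_eq_one (fun i _ => h1 i)]
    symm
    refine Finset.prod_eq_one fun a ha => ?_
    rw [pos, Finset.mem_eraseNone, Finset.mem_image] at ha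
    obtain ⟨i, _, hi⟩ := ha
    have := h1 i
    rw [hi] at this
    exact this

private lemma pos_subset {j : ℕ} {B : Finset ℕ} {h : Fin j → Option ℕ}
    (hh : h ∈ Fintype.piFinset (fun _ : Fin j => Finset.insertNone B)) : pos h ⊆ B := by
  intro a ha
  rw [pos, Finset.mem_eraseNone, Finset.mem_image] at ha
  obtain ⟨i, _, hi⟩ := ha
  have := Fintype.mem_piFinset.1 hh i
  rw [hi] at this
  exact Finset.some_mem_insertNone.1 this

private lemma pos_card {j : ℕ} (h : Fin j → Option ℕ) : (pos h).card ≤ j := by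
  have h1 : (pos h).image some ⊆ Finset.univ.image h := by
    intro o ho
    rw [Finset.mem_image] at ho
    obtain ⟨a, ha, rfl⟩ := ho
    rw [pos, Finset.mem_eraseNone] at ha
    exact ha
  calc (pos h).card = ((pos h).image some).card :=
        (Finset.card_image_of_injective _ (Option.some_injective _)).symm
    _ ≤ (Finset.univ.image h).card := Finset.card_le_card h1
    _ ≤ (Finset.univ : Finset (Fin j)).card := Finset.card_image_le
    _ = j := by simp

private lemma ET_mono {K K' : ℕ} (hKK : K ≤ K') (P1 P2 : Finset ℕ) (D D0 : ℕ)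
    (err : Finset ℕ → ℝ) (hD : D ≤ D0)
    (herr : ∀ T ⊆ P1 ∪ P2, ∏ p ∈ T, p ≤ D0 → 0 ≤ err T) :
    ∑ T1 ∈ P1.powerset.filter (fun T : Finset ℕ => ∏ p ∈ T, p ≤ D), (K : ℝ) ^ T1.card * err T1 ≤
      ET K' (P1 ∪ P2) D0 err := by
  unfold ET
  calc ∑ T1 ∈ P1.powerset.filter (fun T : Finset ℕ => ∏ p ∈ T, p ≤ D), (K : ℝ) ^ T1.card * err T1
      ≤ ∑ T1 ∈ P1.powerset.filter (fun T : Finset ℕ => ∏ p ∈ T, p ≤ D),
          (K' : ℝ) ^ T1.card * err T1 := by
        refine Finset.sum_le_sum fun T hT => ?_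
        rw [Finset.mem_filter, Finset.mem_powerset] at hT
        refine mul_le_mul_of_nonneg_right ?_
          (herr T (hT.1.trans Finset.subset_union_left) (hT.2.trans hD))
        exact pow_le_pow_left₀ (by positivity) (by exact_mod_cast hKK) _
    _ ≤ _ := by
        refine Finset.sum_le_sum_of_subset_of_nonneg ?_ ?_
        · intro T hT
          rw [Finset.mem_filter, Finset.mem_powerset] at hT ⊢
          exact ⟨hT.1.trans Finset.subset_union_left, hT.2.trans hD⟩
        · intro T hT _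
          rw [Finset.mem_filter, Finset.mem_powerset] at hT
          exact mul_nonneg (by positivity) (herr T hT.1 hT.2)

/-- pointwise bound of the weight -/
private lemma WW_le {n : ℕ} (B : Finset ℕ) (c : (Fin n → Option ℕ) → ℝ) (hc : ∀ σ, |c σ| ≤ 1)
    (x : Fin n → ℕ → ℝ) (D : ℝ) (hD : 1 ≤ D) (r : Option ℕ → ℝ) (hr : ∀ o, 0 ≤ r o)
    (hr0 : r none = 1) (hx : ∀ τ, ∀ a ∈ B, |x τ a| ≤ D * r (some a)) :
    WW B c x ^ 4 ≤ D ^ (4 * n) *
      ∑ h ∈ Fintype.piFinset (fun _ : Fin (4 * n) => Finset.insertNone B), ∏ i, r (h i) := by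
  have h1 : |WW B c x| ≤ D ^ n *
      ∑ σ ∈ Fintype.piFinset (fun _ : Fin n => Finset.insertNone B), ∏ i, r (σ i) := by
    classical
    unfold WW
    refine (Finset.abs_sum_le_sum_abs _ _).trans ?_
    rw [Finset.mul_sum]
    have hsub : cfg n B ⊆ Fintype.piFinset (fun _ : Fin n => Finset.insertNone B) := by
      unfold cfg
      exact Finset.filter_subset _ _
    refine le_trans ?_ (Finset.sum_le_sum_of_subset_of_nonneg hsub ?_)
    · refine Finset.sum_le_sum fun σ hσ => ?_
      have hσ' := Fintype.mem_piFinset.1 (hsub hσ)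
      rw [abs_mul]
      refine (mul_le_mul_of_nonneg_right (hc σ) (abs_nonneg _)).trans ?_
      rw [one_mul, term, Finset.abs_prod]
      have h5 : D ^ n * ∏ τ, r (σ τ) = ∏ τ, (D * r (σ τ)) := by
        rw [Finset.prod_mul_distrib, Finset.prod_const, Finset.card_univ, Fintype.card_fin]
      rw [h5]
      refine Finset.prod_le_prod (fun τ _ => abs_nonneg _) fun τ _ => ?_
      have h2 := hσ' τ
      cases hh : σ τ with
      | none => simp only [abs_one, hr0]; linarith
      | some a =>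
        rw [hh] at h2
        exact hx τ a (Finset.some_mem_insertNone.1 h2)
    · intro σ _ _
      exact mul_nonneg (by positivity) (Finset.prod_nonneg fun i _ => hr _)
  have e1 : ∀ j : ℕ, ∑ σ ∈ Fintype.piFinset (fun _ : Fin j => Finset.insertNone B),
      ∏ i, r (σ i) = (∑ o ∈ Finset.insertNone B, r o) ^ j := by
    intro j
    rw [← Finset.prod_univ_sum (fun _ : Fin j => Finset.insertNone B) (fun _ o => r o),
      Finset.prod_const, Finset.card_univ, Fintype.card_fin]
  rw [e1] at h1 ⊢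
  have h0 : 0 ≤ ∑ o ∈ Finset.insertNone B, r o := Finset.sum_nonneg fun o _ => hr o
  calc WW B c x ^ 4 = |WW B c x| ^ 4 := by
        rw [← abs_pow, abs_of_nonneg (by positivity)]
    _ ≤ (D ^ n * (∑ o ∈ Finset.insertNone B, r o) ^ n) ^ 4 :=
        pow_le_pow_left₀ (abs_nonneg _) h1 4
    _ = D ^ (4 * n) * (∑ o ∈ Finset.insertNone B, r o) ^ (4 * n) := by
        rw [mul_pow, ← pow_mul, ← pow_mul, mul_comm n 4]

/-- GE6: the fourth moment -/
theorem fourthW_of (hCM : CountMaps) (hEx : Pool.Agent.H474R2.GE.ExpandW) :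
    Pool.Agent.H474R2.GE.FourthW := by
  intro n κ0 C hC
  obtain ⟨K, hK1, hEx⟩ := hEx (4 * n) κ0
  obtain ⟨K', hK'⟩ : ∃ K' : ℕ, (K : ℝ) + C ^ 2 + (1 + 4 * n + C) + (1 + K * Real.exp K) +
      (8 * n + 1) + 2 * κ0 ≤ K' := exists_nat_ge _
  have hn0 : (0 : ℝ) ≤ n := Nat.cast_nonneg n
  have hK0 : (0 : ℝ) ≤ K := Nat.cast_nonneg K
  have hKe : 0 ≤ (K : ℝ) * Real.exp K := by positivity
  have hC2 : 0 ≤ C ^ 2 := by positivity
  have hk0 : (0 : ℝ) ≤ κ0 := Nat.cast_nonneg κ0
  have hKK : K ≤ K' := by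
    have : (K : ℝ) ≤ K' := by linarith
    exact_mod_cast this
  have h8 : 8 * n + 1 ≤ K' := by
    have : ((8 * n + 1 : ℕ) : ℝ) ≤ K' := by push_cast; linarith
    exact_mod_cast this
  have h2κ : 2 * κ0 ≤ K' := by
    have : ((2 * κ0 : ℕ) : ℝ) ≤ K' := by push_cast; linarith
    exact_mod_cast this
  refine ⟨K', hK1.trans hKK, ?_⟩
  intro b J z0 D0 k0 P1 P2 B Hs q κ e w M A err S g V hSet hD0 hV0 hV1 hPi hBV hg hS hdl hk c hc
  obtain ⟨hb, hz, hP1, hP2, hDens, hw, hA, hq, hEq, hH⟩ := hSet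
  have hq1 : ∀ p ∈ P1, 2 ≤ q p := fun p hp =>
    two_le_q (by have := (hP1 p hp).2.1; omega) (hq p (Finset.mem_union_left _ hp))
  have hq2 : ∀ p ∈ P2, 2 ≤ q p := fun p hp =>
    two_le_q (by have := (hP2 p hp).2.1; omega) (hq p (Finset.mem_union_right _ hp))
  -- the errors are nonnegative
  have herr : ∀ T ⊆ P1 ∪ P2, ∏ p ∈ T, p ≤ D0 → 0 ≤ err T := by
    intro T hT hTD
    refine (abs_nonneg _).trans (hEq T hT hTD (fun _ => 0) ?_)
    intro p hp
    rcases Finset.mem_union.1 (hT hp) with h | h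
    · exact (hP1 p h).1.pos
    · exact (hP2 p h).1.pos
  have hD0' : (2 ^ 2 ^ J) ^ (K * b) ≤ D0 :=
    le_trans (Nat.pow_le_pow_right (by positivity) (Nat.mul_le_mul_right _ hKK)) hD0
  set E : ℝ := ET K' (P1 ∪ P2) D0 err with hE
  have hE0 : 0 ≤ E := by
    rw [hE, ET]
    refine Finset.sum_nonneg fun T hT => ?_
    rw [Finset.mem_filter, Finset.mem_powerset] at hT
    exact mul_nonneg (by positivity) (herr T hT.1 hT.2)
  set v : ℝ := V1 q P1 with hv
  have hv0 : 0 ≤ v := by
    rw [hv, V1]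
    refine Finset.prod_nonneg fun p hp => ?_
    have h2 := hq1 p hp
    have : 1 / q p ≤ 1 := by
      rw [div_le_one (by linarith)]; linarith
    linarith
  -- mass of the rough positions of one map
  have hmass : ∀ h ∈ Fintype.piFinset (fun _ : Fin (4 * n) => Finset.insertNone B),
      ∑ m ∈ range M, w m * ∏ a ∈ pos h, rg Hs P1 a m ≤
        A * (1 + K * Real.exp K) * v ^ (pos h).card + ((J : ℝ) + 2) * E := by
    intro h hh
    have hU : pos h ⊆ B := pos_subset hh
    have hUc : (pos h).card ≤ 4 * n := pos_card h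
    have h1 := hEx b J z0 D0 1 P1 P2 Hs q κ e w M A err (pos h) ∅ (fun _ _ => 1) (fun _ => ∅) 1
      hUc (hKK.trans hb) (hKK.trans hz) hP1 hP2 hDens hw hA hEq (Finset.empty_subset _)
      (by simp) (by rw [mul_one]; exact hD0')
      (fun p hp a ha => hH p (Finset.mem_union_left _ hp) a (hU ha))
      (fun p hp => hq p (Finset.mem_union_left _ hp)) (by simp) ?_ le_rfl
    · simp only [Finset.prod_empty, mul_one, Finset.powerset_empty, Finset.sum_singleton,
        one_mul, Finset.union_empty, sub_self, add_zero] at h1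
      have h2 := (abs_le.1 h1).2
      have h3 := ET_mono hKK P1 P2 _ D0 err hD0' herr
      rw [← hE] at h3
      have hb1 : (1 / 2 : ℝ) ^ b ≤ 1 := pow_le_one₀ (by norm_num) (by norm_num)
      have h4 : A * v ^ (pos h).card * (K * (Real.exp K - 1 + (1 / 2 : ℝ) ^ b)) ≤
          A * v ^ (pos h).card * (K * Real.exp K) := by
        refine mul_le_mul_of_nonneg_left ?_ (by positivity)
        refine mul_le_mul_of_nonneg_left ?_ hK0
        linarith
      have h5 : ((J : ℝ) + 2) * ∑ T1 ∈ P1.powerset.filter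
            (fun T : Finset ℕ => ∏ p ∈ T, p ≤ (2 ^ 2 ^ J) ^ (K * b)), (K : ℝ) ^ T1.card * err T1 ≤
          ((J : ℝ) + 2) * E := mul_le_mul_of_nonneg_left h3 (by positivity)
      have h6 : A * (1 + K * Real.exp K) * v ^ (pos h).card =
          A * v ^ (pos h).card + A * v ^ (pos h).card * (K * Real.exp K) := by ring
      rw [h6]
      linarith
    · refine le_trans ?_ (hdl (pos h) hU hUc)
      unfold dl
      have hnn : ∀ p ∈ P1 ∪ P2, (0 : ℝ) ≤ (p : ℝ) - 1 := by
        intro p hp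
        have hpp : p.Prime := by
          rcases Finset.mem_union.1 hp with h | h
          · exact (hP1 p h).1
          · exact (hP2 p h).1
        have : (1 : ℝ) ≤ p := by exact_mod_cast hpp.one_le
        linarith
      refine add_le_add ?_ ?_
      · refine Finset.sum_le_sum_of_subset_of_nonneg Finset.subset_union_left ?_
        intro p _ _
        positivity
      · refine Finset.sum_le_sum_of_subset_of_nonneg
          (Finset.filter_subset_filter _ Finset.subset_union_left) ?_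
        intro p hp _
        have := hnn p (Finset.mem_filter.1 hp).1
        positivity
  -- pointwise bound
  set D : ℝ := C ^ 2 * 2 ^ k0 / V with hD
  have hD1 : 1 ≤ D := by
    rw [hD, le_div_iff₀ hV0]
    have h1 : (1 : ℝ) ≤ 2 ^ k0 := one_le_pow₀ (by norm_num)
    have h2 : (1 : ℝ) ≤ C ^ 2 := one_le_pow₀ hC
    nlinarith
  have hpt : ∀ m ∈ range M, w m * WW B c (xx Hs q P1 S g m) ^ 4 ≤
      w m * (D ^ (4 * n) * ∑ h ∈ Fintype.piFinset (fun _ : Fin (4 * n) => Finset.insertNone B),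
        ∏ a ∈ pos h, rg Hs P1 a m) := by
    intro m hm
    by_cases hwm : w m = 0
    · rw [hwm, zero_mul, zero_mul]
    refine mul_le_mul_of_nonneg_left ?_ (hw m)
    have h1 := WW_le B c hc (xx Hs q P1 S g m) D hD1 (ro Hs P1 m) (ro_nonneg Hs P1 m) rfl ?_
    · refine h1.trans (le_of_eq ?_)
      congr 1
      exact Finset.sum_congr rfl fun h _ => prod_ro Hs P1 m _ h
    · intro τ a ha
      rcases rg_cases Hs P1 a m with h0 | h0
      · simp only [xx, ro, h0, zero_mul, mul_zero, abs_zero, le_refl]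
      · have h2 := FF_le Hs q P2 (S τ) a m k0 hq2 (hS τ)
          (hk m (Finset.mem_range.1 hm) hwm a ha (by rw [h0]; exact one_ne_zero))
        simp only [xx, ro, h0, one_mul, mul_one]
        rw [abs_mul, abs_neg, abs_of_nonneg (hg τ).1]
        calc g τ * |FF Hs q (S τ) (some a) m| ≤ C * (2 ^ k0 * (C / V)) := by
              refine mul_le_mul (hg τ).2 (h2.trans ?_) (abs_nonneg _) (by linarith)
              exact mul_le_mul_of_nonneg_left hPi (by positivity)
          _ = D := by rw [hD]; ring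
  -- summation
  have hcount := hCM (4 * n) B v hv0
  have hsum : ∑ m ∈ range M, w m * WW B c (xx Hs q P1 S g m) ^ 4 ≤
      D ^ (4 * n) * (A * (1 + K * Real.exp K) * (1 + (4 * n : ℕ) + B.card * v) ^ (4 * n) +
        (B.card + 1 : ℝ) ^ (4 * n) * (((J : ℝ) + 2) * E)) := by
    calc ∑ m ∈ range M, w m * WW B c (xx Hs q P1 S g m) ^ 4
        ≤ ∑ m ∈ range M, w m * (D ^ (4 * n) *
          ∑ h ∈ Fintype.piFinset (fun _ : Fin (4 * n) => Finset.insertNone B),
            ∏ a ∈ pos h, rg Hs P1 a m) := Finset.sum_le_sum hpt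
      _ = D ^ (4 * n) * ∑ h ∈ Fintype.piFinset (fun _ : Fin (4 * n) => Finset.insertNone B),
            ∑ m ∈ range M, w m * ∏ a ∈ pos h, rg Hs P1 a m := by
          rw [Finset.sum_comm, Finset.mul_sum]
          refine Finset.sum_congr rfl fun m _ => ?_
          rw [Finset.mul_sum, Finset.mul_sum, Finset.mul_sum]
          refine Finset.sum_congr rfl fun h _ => ?_
          ring
      _ ≤ D ^ (4 * n) * ∑ h ∈ Fintype.piFinset (fun _ : Fin (4 * n) => Finset.insertNone B),
            (A * (1 + K * Real.exp K) * v ^ (pos h).card + ((J : ℝ) + 2) * E) :=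
          mul_le_mul_of_nonneg_left (Finset.sum_le_sum hmass) (by positivity)
      _ = D ^ (4 * n) * (A * (1 + K * Real.exp K) *
            ∑ h ∈ Fintype.piFinset (fun _ : Fin (4 * n) => Finset.insertNone B),
              v ^ (pos h).card + (B.card + 1 : ℝ) ^ (4 * n) * (((J : ℝ) + 2) * E)) := by
          rw [Finset.sum_add_distrib, ← Finset.mul_sum, Finset.sum_const, Fintype.card_piFinset,
            Finset.prod_const, Finset.card_univ, Fintype.card_fin, Finset.card_insertNone,
            nsmul_eq_mul]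
          push_cast
          ring
      _ ≤ _ := by
          refine mul_le_mul_of_nonneg_left ?_ (by positivity)
          refine add_le_add ?_ le_rfl
          exact mul_le_mul_of_nonneg_left hcount (by positivity)
  refine hsum.trans ?_
  -- final numerical comparison
  have hK'1 : (1 : ℝ) ≤ K' := by exact_mod_cast hK1.trans hKK
  have hKV : (K' : ℝ) ≤ K' / V := by
    rw [le_div_iff₀ hV0]
    nlinarith
  have hKV1 : (1 : ℝ) ≤ K' / V := hK'1.trans hKV
  have hb1 : (1 + (4 * n : ℕ) + B.card * v : ℝ) ≤ K' / V := by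
    have h1 : (1 + (4 * n : ℕ) + B.card * v : ℝ) ≤ (1 + 4 * n + C) / V := by
      have h2 : (1 + 4 * n : ℝ) ≤ (1 + 4 * n) / V := by
        rw [le_div_iff₀ hV0]; nlinarith
      have h3 : (1 + 4 * n + C) / V = (1 + 4 * n) / V + C / V := by ring
      rw [h3]
      push_cast
      linarith
    refine h1.trans (div_le_div_of_nonneg_right ?_ hV0.le)
    linarith
  have hb0 : (0 : ℝ) ≤ 1 + (4 * n : ℕ) + B.card * v := by positivity
  have hfac : (C ^ 2 / V) ^ (4 * n) * ((1 + K * Real.exp K) *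
      (1 + (4 * n : ℕ) + B.card * v) ^ (4 * n)) ≤ (K' / V : ℝ) ^ K' := by
    calc (C ^ 2 / V) ^ (4 * n) * ((1 + K * Real.exp K) *
          (1 + (4 * n : ℕ) + B.card * v) ^ (4 * n))
        ≤ (K' / V) ^ (4 * n) * ((K' / V) * (K' / V) ^ (4 * n)) := by
          refine mul_le_mul ?_ ?_ (by positivity) (by positivity)
          · refine pow_le_pow_left₀ (by positivity) ?_ _
            refine div_le_div_of_nonneg_right ?_ hV0.le
            linarith
          · refine mul_le_mul ?_ (pow_le_pow_left₀ hb0 hb1 _) (by positivity) (by positivity)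
            refine le_trans ?_ hKV
            linarith
      _ = (K' / V) ^ (8 * n + 1) := by ring
      _ ≤ (K' / V) ^ K' := pow_le_pow_right₀ hKV1 h8
  have hfac2 : (C ^ 2 / V) ^ (4 * n) ≤ (K' / V : ℝ) ^ K' := by
    calc (C ^ 2 / V) ^ (4 * n) ≤ (K' / V) ^ (4 * n) := by
          refine pow_le_pow_left₀ (by positivity) ?_ _
          refine div_le_div_of_nonneg_right ?_ hV0.le
          linarith
      _ ≤ (K' / V) ^ K' := pow_le_pow_right₀ hKV1 (by omega)
  have hDe : D ^ (4 * n) = 2 ^ (4 * n * k0) * (C ^ 2 / V) ^ (4 * n) := by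
    rw [hD, mul_div_right_comm, mul_pow, ← pow_mul, mul_comm k0 (4 * n), mul_comm]
  rw [hDe]
  have hX : 0 ≤ (B.card + 1 : ℝ) ^ (4 * n) * (((J : ℝ) + 2) * E) := by positivity
  calc 2 ^ (4 * n * k0) * (C ^ 2 / V) ^ (4 * n) *
        (A * (1 + K * Real.exp K) * (1 + (4 * n : ℕ) + B.card * v) ^ (4 * n) +
          (B.card + 1 : ℝ) ^ (4 * n) * (((J : ℝ) + 2) * E))
      = 2 ^ (4 * n * k0) * (A * ((C ^ 2 / V) ^ (4 * n) * ((1 + K * Real.exp K) *
          (1 + (4 * n : ℕ) + B.card * v) ^ (4 * n))) +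
          (B.card + 1 : ℝ) ^ (4 * n) * (((J : ℝ) + 2) * E) * (C ^ 2 / V) ^ (4 * n)) := by ring
    _ ≤ 2 ^ (4 * n * k0) * (A * (K' / V : ℝ) ^ K' +
          (B.card + 1 : ℝ) ^ (4 * n) * (((J : ℝ) + 2) * E) * (K' / V : ℝ) ^ K') := by
        refine mul_le_mul_of_nonneg_left ?_ (by positivity)
        refine add_le_add (mul_le_mul_of_nonneg_left hfac hA) (mul_le_mul_of_nonneg_left hfac2 hX)
    _ = _ := by ring

end Pool.Agent.H474R2.GE
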