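import Mathlib
import Pool.Agent.H474R2.GE.Iface
import Pool.Agent.H415R2.ACLocal

/-!
GE1: the local sum for several residue classes per prime (generalisation of
Pool/Agent/H415R2/ACLocal.lean).
-/

set_option autoImplicit false

open Finset

namespace Pool.Agent.H474R2.GE

namespace LSAux

open Pool.Agent.H410R2.AC (pos Inj Defect)
open Pool.Agent.H415R2.ACLocal (exp_prod inj_bound lc AA GD JJ mem_pos fib_two AA_eq AA_card
  pair_mem lc_pos cc mem_cc_inl mem_cc_inr c1 G1)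

/-! ### local values -/

/-- the contribution of a position used by m copies -/
noncomputable def gm (q : ℝ) (m : ℕ) : ℝ := ((1 - q) ^ m - 1) / q

lemma gm_abs (q : ℝ) (k : ℕ) (hq : 2 ≤ q) : |gm q (k + 1)| ≤ (q - 1) ^ k := by
  unfold gm
  rw [abs_div, abs_of_pos (by linarith : (0 : ℝ) < q), div_le_iff₀ (by linarith)]
  have h1 : |(1 - q) ^ (k + 1)| = (q - 1) ^ (k + 1) := by
    rw [abs_pow, abs_sub_comm, abs_of_pos (by linarith)]
  have h2 : (1 : ℝ) ≤ (q - 1) ^ k := one_le_pow₀ (by linarith)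
  calc |(1 - q) ^ (k + 1) - 1| ≤ |(1 - q) ^ (k + 1)| + |(1 : ℝ)| := abs_sub _ _
    _ = (q - 1) ^ k * (q - 1) + 1 := by rw [h1, abs_one, pow_succ]
    _ ≤ (q - 1) ^ k * q := by nlinarith

lemma gm_one (q : ℝ) (hq : 2 ≤ q) : gm q 1 = -1 := by
  unfold gm
  rw [pow_one]
  field_simp
  ring

lemma gm_two (q : ℝ) (hq : 2 ≤ q) : gm q 2 = q - 2 := by
  unfold gm
  field_simp
  ring

/-- the hit set of a position has density 1/q -/
def HP (Hs : ℕ → ℕ → Finset ℕ) (q : ℕ → ℝ) (p a : ℕ) : Prop :=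
  Hs p a ⊆ range p ∧ ((Hs p a).card : ℝ) * q p = p

lemma HP.sum {Hs : ℕ → ℕ → Finset ℕ} {q : ℕ → ℝ} {p a : ℕ} (h : HP Hs q p a) (hp : 0 < p)
    (hq : 2 ≤ q p) (C : ℝ) :
    (∑ x ∈ range p, (if x ∈ Hs p a then C else 0)) / p = C / q p := by
  have hp' : (0 : ℝ) < p := by exact_mod_cast hp
  have hq' : (0 : ℝ) < q p := by linarith
  rw [← Finset.sum_filter, Finset.sum_const, nsmul_eq_mul, Finset.filter_mem_eq_inter,
    Finset.inter_eq_right.2 h.1, div_eq_div_iff hp'.ne' hq'.ne']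
  rw [← h.2]
  ring

section Local

variable {ι : Type} [DecidableEq ι]

/-- the local expectation for a set of copies -/
noncomputable def El (Hs : ℕ → ℕ → Finset ℕ) (q : ℕ → ℝ) (loc : ι → Option ℕ) (p : ℕ)
    (c : Finset ι) : ℝ :=
  (∑ x ∈ range p, ∏ i ∈ c, psi Hs q p (loc i) x) / p

/-- the local weight of a set of copies -/
noncomputable def el (Hs : ℕ → ℕ → Finset ℕ) (q : ℕ → ℝ) (loc : ι → Option ℕ) (p : ℕ)
    (c : Finset ι) : ℝ :=
  (1 / (q p - 1)) ^ c.card * El Hs q loc p c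

/-- position of a copy -/
def pp (loc : ι → Option ℕ) (i : ι) : ℕ := (loc i).getD 0

omit [DecidableEq ι] in
lemma psi_pp (Hs : ℕ → ℕ → Finset ℕ) (q : ℕ → ℝ) (loc : ι → Option ℕ) (p x : ℕ) (hx : x < p)
    (i : ι) (hi : loc i ≠ none) :
    psi Hs q p (loc i) x = if x ∈ Hs p (pp loc i) then 1 - q p else 1 := by
  obtain ⟨a, ha⟩ := Option.ne_none_iff_exists'.1 hi
  unfold pp psi
  rw [ha]
  simp only [Option.getD_some, Nat.mod_eq_of_lt hx]

lemma El_eq (Hs : ℕ → ℕ → Finset ℕ) (q : ℕ → ℝ) (loc : ι → Option ℕ) (p : ℕ) (hp : 0 < p)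
    (hq : 2 ≤ q p) (c : Finset ι)
    (hc : ∀ i ∈ c, loc i ≠ none) (hr : ∀ i ∈ c, HP Hs q p (pp loc i))
    (hd : ∀ i ∈ c, ∀ j ∈ c, pp loc i ≠ pp loc j → Disjoint (Hs p (pp loc i)) (Hs p (pp loc j))) :
    El Hs q loc p c = 1 + ∑ a ∈ c.image (pp loc),
      gm (q p) ((c.filter (fun i => pp loc i = a)).card) := by
  have hp' : (0 : ℝ) < p := by exact_mod_cast hp
  have h1 : ∀ x ∈ range p, ∏ i ∈ c, psi Hs q p (loc i) x =
      1 + ∑ a ∈ c.image (pp loc), (if x ∈ Hs p a then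
        ((1 - q p) ^ (c.filter (fun i => pp loc i = a)).card - 1) else 0) := by
    intro x hx
    rw [Finset.mem_range] at hx
    have h2 : ∏ i ∈ c, psi Hs q p (loc i) x =
        ∏ i ∈ c, (if x ∈ Hs p (pp loc i) then 1 - q p else 1) :=
      Finset.prod_congr rfl (fun i hi => psi_pp Hs q loc p x hx i (hc i hi))
    rw [h2]
    by_cases h3 : ∃ i ∈ c, x ∈ Hs p (pp loc i)
    · obtain ⟨i₀, hi₀, hx₀⟩ := h3
      rw [Finset.sum_eq_single (pp loc i₀)]
      · rw [if_pos hx₀, Finset.prod_ite, Finset.prod_const, Finset.prod_const_one, mul_one]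
        have h4 : c.filter (fun i => x ∈ Hs p (pp loc i)) =
            c.filter (fun i => pp loc i = pp loc i₀) := by
          apply Finset.filter_congr
          intro i hi
          constructor
          · intro h
            by_contra hne
            exact Finset.disjoint_left.1 (hd i hi i₀ hi₀ hne) h hx₀
          · intro h
            rw [h]
            exact hx₀
        rw [h4]
        ring
      · intro a ha hne
        rw [Finset.mem_image] at ha
        obtain ⟨i, hi, rfl⟩ := ha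
        rw [if_neg]
        intro h
        exact Finset.disjoint_left.1 (hd i hi i₀ hi₀ hne) h hx₀
      · intro h
        exact absurd (Finset.mem_image_of_mem _ hi₀) h
    · push Not at h3
      rw [Finset.prod_congr rfl (fun i hi => if_neg (h3 i hi)), Finset.prod_const_one,
        Finset.sum_eq_zero, add_zero]
      intro a ha
      rw [Finset.mem_image] at ha
      obtain ⟨i, hi, rfl⟩ := ha
      rw [if_neg (h3 i hi)]
  unfold El
  rw [Finset.sum_congr rfl h1, Finset.sum_add_distrib, Finset.sum_const, Finset.card_range,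
    nsmul_eq_mul, mul_one, add_div, div_self hp'.ne', Finset.sum_comm, Finset.sum_div]
  congr 1
  apply Finset.sum_congr rfl
  intro a ha
  rw [Finset.mem_image] at ha
  obtain ⟨i, hi, rfl⟩ := ha
  exact (hr i hi).sum hp hq _

lemma el_empty (Hs : ℕ → ℕ → Finset ℕ) (q : ℕ → ℝ) (loc : ι → Option ℕ) (p : ℕ) (hp : 0 < p) :
    el Hs q loc p ∅ = 1 := by
  have hp' : (0 : ℝ) < p := by exact_mod_cast hp
  unfold el El
  simp
  omega

lemma card_fib_pos (loc : ι → Option ℕ) (c : Finset ι) (x : ℕ)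
    (hx : x ∈ c.image (pp loc)) : 1 ≤ (c.filter (fun i => pp loc i = x)).card := by
  rw [Finset.mem_image] at hx
  obtain ⟨i, hi, h⟩ := hx
  exact Finset.card_pos.2 ⟨i, Finset.mem_filter.2 ⟨hi, h⟩⟩

/-- bound for arbitrary (colliding) primes -/
lemma el_coll (Hs : ℕ → ℕ → Finset ℕ) (q : ℕ → ℝ) (loc : ι → Option ℕ) (p : ℕ) (hp : 0 < p)
    (hq2 : 2 ≤ q p) (c : Finset ι)
    (hc : ∀ i ∈ c, loc i ≠ none) (hr : ∀ i ∈ c, HP Hs q p (pp loc i)) (hne : c.Nonempty) :
    |el Hs q loc p c| ≤ (1 + c.card) / (q p - 1) := by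
  have hp' : (0 : ℝ) < p := by exact_mod_cast hp
  have hq : (1 : ℝ) ≤ q p - 1 := by linarith
  have hq0 : (0 : ℝ) < q p - 1 := by linarith
  have hqq : (0 : ℝ) < q p := by linarith
  obtain ⟨k, hk⟩ : ∃ k, c.card = k + 1 := ⟨c.card - 1, by have := Finset.card_pos.2 hne; omega⟩
  have hkpos : (0 : ℝ) ≤ (q p - 1) ^ (k + 1) := by positivity
  have hpt : ∀ x ∈ range p, |∏ i ∈ c, psi Hs q p (loc i) x| ≤
      1 + ∑ i ∈ c, (if x ∈ Hs p (pp loc i) then (q p - 1) ^ (k + 1) else 0) := by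
    intro x hx
    rw [Finset.mem_range] at hx
    have h2 : ∏ i ∈ c, psi Hs q p (loc i) x =
        ∏ i ∈ c, (if x ∈ Hs p (pp loc i) then 1 - q p else 1) :=
      Finset.prod_congr rfl (fun i hi => psi_pp Hs q loc p x hx i (hc i hi))
    rw [h2]
    by_cases h3 : ∃ i ∈ c, x ∈ Hs p (pp loc i)
    · obtain ⟨i₀, hi₀, hx₀⟩ := h3
      have h4 : (q p - 1) ^ (k + 1) ≤
          ∑ i ∈ c, (if x ∈ Hs p (pp loc i) then (q p - 1) ^ (k + 1) else 0) := by
        refine le_trans (le_of_eq ?_) (Finset.single_le_sum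
          (f := fun i => if x ∈ Hs p (pp loc i) then (q p - 1) ^ (k + 1) else 0) ?_ hi₀)
        · simp only [if_pos hx₀]
        · intro i _
          show (0 : ℝ) ≤ if x ∈ Hs p (pp loc i) then (q p - 1) ^ (k + 1) else 0
          split_ifs
          · exact hkpos
          · exact le_rfl
      have h5 : |∏ i ∈ c, (if x ∈ Hs p (pp loc i) then 1 - q p else 1)| ≤ (q p - 1) ^ (k + 1) := by
        rw [Finset.abs_prod, ← hk]
        calc ∏ i ∈ c, |if x ∈ Hs p (pp loc i) then 1 - q p else 1| ≤ ∏ _i ∈ c, (q p - 1) := by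
              apply Finset.prod_le_prod
              · intro i _
                exact abs_nonneg _
              · intro i _
                split_ifs
                · rw [abs_sub_comm, abs_of_pos hq0]
                · rw [abs_one]; exact hq
          _ = (q p - 1) ^ c.card := by rw [Finset.prod_const]
      linarith
    · push Not at h3
      rw [Finset.prod_congr rfl (fun i hi => if_neg (h3 i hi)), Finset.prod_const_one,
        Finset.sum_eq_zero, add_zero, abs_one]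
      intro i hi
      rw [if_neg (h3 i hi)]
  have h1 : |El Hs q loc p c| ≤ (1 + c.card) * (q p - 1) ^ k := by
    unfold El
    rw [abs_div, abs_of_pos hp']
    calc |∑ x ∈ range p, ∏ i ∈ c, psi Hs q p (loc i) x| / p
        ≤ (∑ x ∈ range p, (1 + ∑ i ∈ c,
            (if x ∈ Hs p (pp loc i) then (q p - 1) ^ (k + 1) else 0))) / p := by
          apply div_le_div_of_nonneg_right _ hp'.le
          exact (Finset.abs_sum_le_sum_abs _ _).trans (Finset.sum_le_sum hpt)
      _ = 1 + ∑ i ∈ c, (q p - 1) ^ (k + 1) / q p := by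
          rw [Finset.sum_add_distrib, Finset.sum_const, Finset.card_range,
            nsmul_eq_mul, mul_one, add_div, div_self hp'.ne', Finset.sum_comm, Finset.sum_div]
          congr 1
          apply Finset.sum_congr rfl
          intro i hi
          exact (hr i hi).sum hp hq2 _
      _ ≤ 1 + ∑ i ∈ c, (q p - 1) ^ k := by
          gcongr with i hi
          rw [div_le_iff₀ hqq, pow_succ]
          have : (0 : ℝ) ≤ (q p - 1) ^ k := by positivity
          nlinarith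
      _ ≤ (1 + c.card) * (q p - 1) ^ k := by
          rw [Finset.sum_const, nsmul_eq_mul]
          have h5 : (1 : ℝ) ≤ (q p - 1) ^ k := one_le_pow₀ hq
          linarith
  unfold el
  rw [abs_mul, abs_of_nonneg (by positivity), one_div, inv_pow, hk]
  rw [hk] at h1
  calc ((q p - 1) ^ (k + 1))⁻¹ * |El Hs q loc p c| ≤
      ((q p - 1) ^ (k + 1))⁻¹ * ((1 + ((k + 1 : ℕ) : ℝ)) * (q p - 1) ^ k) := by gcongr
    _ = (1 + ((k + 1 : ℕ) : ℝ)) / (q p - 1) := by
      rw [pow_succ]; field_simp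

/-- bound for different positions -/
lemma el_inj (Hs : ℕ → ℕ → Finset ℕ) (q : ℕ → ℝ) (loc : ι → Option ℕ) (p : ℕ) (hp : 0 < p)
    (hq2 : 2 ≤ q p) (c : Finset ι)
    (hc : ∀ i ∈ c, loc i ≠ none) (hr : ∀ i ∈ c, HP Hs q p (pp loc i))
    (hd : ∀ i ∈ c, ∀ j ∈ c, pp loc i ≠ pp loc j → Disjoint (Hs p (pp loc i)) (Hs p (pp loc j)))
    (hne : c.Nonempty)
    (hinj : ∀ i ∈ c, ∀ j ∈ c, pp loc i = pp loc j → i = j) :
    |el Hs q loc p c| ≤ (1 + c.card) / (q p - 1) ^ 2 := by
  have hq : (1 : ℝ) ≤ q p - 1 := by linarith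
  have hq0 : (0 : ℝ) < q p - 1 := by linarith
  have h1 : El Hs q loc p c = 1 - c.card := by
    rw [El_eq Hs q loc p hp hq2 c hc hr hd]
    have h2 : ∀ x ∈ c.image (pp loc), gm (q p) ((c.filter (fun i => pp loc i = x)).card) = -1 := by
      intro x hx
      have : (c.filter (fun i => pp loc i = x)).card = 1 := by
        rw [Finset.mem_image] at hx
        obtain ⟨i, hi, h⟩ := hx
        rw [Finset.card_eq_one]
        refine ⟨i, ?_⟩
        ext j
        rw [Finset.mem_filter, Finset.mem_singleton]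
        constructor
        · rintro ⟨hj, hj2⟩
          exact hinj j hj i hi (by rw [hj2, h])
        · rintro rfl
          exact ⟨hi, h⟩
      rw [this, gm_one _ hq2]
    rw [Finset.sum_congr rfl h2, Finset.sum_const, Finset.card_image_of_injOn hinj, nsmul_eq_mul]
    ring
  unfold el
  rw [h1]
  have hcard := Finset.card_pos.2 hne
  obtain h | h : c.card = 1 ∨ 2 ≤ c.card := by omega
  · rw [h]
    simp
    positivity
  · have h3 : (q p - 1) ^ 2 ≤ (q p - 1) ^ c.card := pow_le_pow_right₀ hq h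
    have h4 : (0 : ℝ) ≤ c.card := by positivity
    have h5 : |(1 : ℝ) - c.card| ≤ 1 + c.card := by
      rw [abs_le]; constructor <;> linarith
    rw [abs_mul, abs_of_nonneg (by positivity), one_div, inv_pow]
    calc ((q p - 1) ^ c.card)⁻¹ * |(1 : ℝ) - c.card| ≤ ((q p - 1) ^ 2)⁻¹ * (1 + c.card) := by
          gcongr
      _ = (1 + c.card) / (q p - 1) ^ 2 := by rw [div_eq_inv_mul]

/-- bound when all fibres have at most two elements -/
lemma el_two (Hs : ℕ → ℕ → Finset ℕ) (q : ℕ → ℝ) (loc : ι → Option ℕ) (p : ℕ) (hp : 0 < p)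
    (hq2 : 2 ≤ q p) (c : Finset ι)
    (hc : ∀ i ∈ c, loc i ≠ none) (hr : ∀ i ∈ c, HP Hs q p (pp loc i))
    (hd : ∀ i ∈ c, ∀ j ∈ c, pp loc i ≠ pp loc j → Disjoint (Hs p (pp loc i)) (Hs p (pp loc j)))
    (h3 : 3 ≤ c.card)
    (hfib : ∀ x, (c.filter (fun i => pp loc i = x)).card ≤ 2) :
    |el Hs q loc p c| ≤ (1 + c.card) / (q p - 1) ^ 2 := by
  have hq : (1 : ℝ) ≤ q p - 1 := by linarith
  have hq0 : (0 : ℝ) < q p - 1 := by linarith
  have h1 : |El Hs q loc p c| ≤ (1 + c.card) * (q p - 1) := by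
    rw [El_eq Hs q loc p hp hq2 c hc hr hd]
    have h2 : |∑ x ∈ c.image (pp loc), gm (q p) ((c.filter (fun i => pp loc i = x)).card)| ≤
        c.card * (q p - 1) := by
      calc _ ≤ ∑ x ∈ c.image (pp loc), |gm (q p) ((c.filter (fun i => pp loc i = x)).card)| :=
            Finset.abs_sum_le_sum_abs _ _
        _ ≤ ∑ x ∈ c.image (pp loc), (q p - 1) := by
            apply Finset.sum_le_sum
            intro x hx
            have h3 := card_fib_pos loc c x hx
            have h4 := hfib x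
            obtain ⟨j, hj⟩ : ∃ j, (c.filter (fun i => pp loc i = x)).card = j + 1 :=
              ⟨(c.filter (fun i => pp loc i = x)).card - 1, by omega⟩
            rw [hj] at h4 ⊢
            refine (gm_abs _ j hq2).trans ?_
            calc (q p - 1) ^ j ≤ (q p - 1) ^ 1 := pow_le_pow_right₀ hq (by omega)
              _ = q p - 1 := pow_one _
        _ = ((c.image (pp loc)).card : ℝ) * (q p - 1) := by
            rw [Finset.sum_const, nsmul_eq_mul]
        _ ≤ c.card * (q p - 1) := by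
            have : ((c.image (pp loc)).card : ℝ) ≤ c.card := by
              exact_mod_cast Finset.card_image_le
            gcongr
    calc _ ≤ |(1 : ℝ)| + |∑ x ∈ c.image (pp loc),
          gm (q p) ((c.filter (fun i => pp loc i = x)).card)| := abs_add_le _ _
      _ ≤ (1 + c.card) * (q p - 1) := by rw [abs_one]; linarith
  unfold el
  have h5 : (q p - 1) ^ 3 ≤ (q p - 1) ^ c.card := pow_le_pow_right₀ hq h3
  rw [abs_mul, abs_of_nonneg (by positivity), one_div, inv_pow]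
  calc ((q p - 1) ^ c.card)⁻¹ * |El Hs q loc p c| ≤
      ((q p - 1) ^ 3)⁻¹ * ((1 + c.card) * (q p - 1)) := by gcongr
    _ = (1 + c.card) / (q p - 1) ^ 2 := by
      field_simp

/-- value for a pair of copies of the same position -/
lemma el_pair (Hs : ℕ → ℕ → Finset ℕ) (q : ℕ → ℝ) (loc : ι → Option ℕ) (p : ℕ) (hp : 0 < p)
    (hq2 : 2 ≤ q p) (c : Finset ι) (a : ℕ)
    (hc : ∀ i ∈ c, loc i = some a) (hr : HP Hs q p a) (h2 : c.card = 2) :
    el Hs q loc p c = 1 / (q p - 1) := by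
  have hq0 : (0 : ℝ) < q p - 1 := by linarith
  have hqq : (0 : ℝ) < q p := by linarith
  have hrs : ∀ i ∈ c, pp loc i = a := by
    intro i hi
    unfold pp
    rw [hc i hi, Option.getD_some]
  have hne : c.Nonempty := Finset.card_pos.1 (by omega)
  have him : c.image (pp loc) = {a} := by
    ext x
    rw [Finset.mem_image, Finset.mem_singleton]
    constructor
    · rintro ⟨i, hi, rfl⟩
      exact hrs i hi
    · rintro rfl
      obtain ⟨i, hi⟩ := hne
      exact ⟨i, hi, hrs i hi⟩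
  have hfil : c.filter (fun i => pp loc i = a) = c := Finset.filter_true_of_mem hrs
  unfold el
  rw [El_eq Hs q loc p hp hq2 c (fun i hi => by rw [hc i hi]; simp)
    (fun i hi => by rw [hrs i hi]; exact hr)
    (fun i hi j hj h => absurd ((hrs i hi).trans (hrs j hj).symm) h),
    him, Finset.sum_singleton, hfil, h2, gm_two _ hq2]
  field_simp
  ring

end Local

/-- product of the weights -/
lemma prod_wt {ι : Type} [Fintype ι] (q : ℕ → ℝ) (P : Finset ℕ) (RR : ι → Finset ℕ)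
    (h : ∀ i, RR i ⊆ P) :
    ∏ i, wt q (RR i) = ∏ p ∈ P, (1 / (q p - 1)) ^ (univ.filter (fun i => p ∈ RR i)).card := by
  have h1 : ∀ i, wt q (RR i) = ∏ p ∈ P, (if p ∈ RR i then 1 / (q p - 1) else 1) := by
    intro i
    unfold wt
    rw [← Finset.prod_filter]
    congr 1
    ext p
    rw [Finset.mem_filter]
    exact ⟨fun hp => ⟨h i hp, hp⟩, fun hp => hp.2⟩
  rw [Finset.prod_congr rfl (fun i _ => h1 i), Finset.prod_comm]
  apply Finset.prod_congr rfl
  intro p _
  rw [Finset.prod_ite, Finset.prod_const, Finset.prod_const_one, mul_one]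

/-! ### two configurations -/

section Pair

variable {T : Type} [Fintype T] [DecidableEq T]

omit [DecidableEq T] in
lemma pp_pos {σ σ' : T → Option ℕ} {i : T ⊕ T} (h : lc σ σ' i ≠ none) :
    pp (lc σ σ') i ∈ pos σ ∪ pos σ' := by
  obtain ⟨a, ha⟩ := Option.ne_none_iff_exists'.1 h
  unfold pp
  rw [ha, Option.getD_some]
  exact lc_pos ha

omit [Fintype T] [DecidableEq T] in
lemma pp_some {σ σ' : T → Option ℕ} {i : T ⊕ T} (h : lc σ σ' i ≠ none) :
    lc σ σ' i = some (pp (lc σ σ') i) := by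
  obtain ⟨a, ha⟩ := Option.ne_none_iff_exists'.1 h
  unfold pp
  rw [ha, Option.getD_some]

lemma el_nc {Hs : ℕ → ℕ → Finset ℕ} {q : ℕ → ℝ} {σ σ' : T → Option ℕ} (hσ : Inj σ)
    (hσ' : Inj σ') {p : ℕ} (hp : 0 < p) (hq2 : 2 ≤ q p)
    (hr : ∀ a ∈ pos σ ∪ pos σ', HP Hs q p a)
    (hnc : ∀ a ∈ pos σ ∪ pos σ', ∀ b ∈ pos σ ∪ pos σ', a ≠ b → Disjoint (Hs p a) (Hs p b))
    (c : Finset (T ⊕ T)) (hc : ∀ i ∈ c, lc σ σ' i ≠ none) (hG : c ∉ GD σ σ') :
    |el Hs q (lc σ σ') p c| ≤ (1 + c.card) / (q p - 1) ^ 2 := by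
  have hne : c.Nonempty := by
    rw [Finset.nonempty_iff_ne_empty]
    rintro rfl
    exact hG (Finset.mem_insert_self _ _)
  have hrc : ∀ i ∈ c, HP Hs q p (pp (lc σ σ') i) := fun i hi => hr _ (pp_pos (hc i hi))
  have hd : ∀ i ∈ c, ∀ j ∈ c, pp (lc σ σ') i ≠ pp (lc σ σ') j →
      Disjoint (Hs p (pp (lc σ σ') i)) (Hs p (pp (lc σ σ') j)) :=
    fun i hi j hj h => hnc _ (pp_pos (hc i hi)) _ (pp_pos (hc j hj)) h
  -- equal numbers give equal positions
  have hpos : ∀ i ∈ c, ∀ j ∈ c, pp (lc σ σ') i = pp (lc σ σ') j → lc σ σ' i = lc σ σ' j := by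
    intro i hi j hj h
    rw [pp_some (hc i hi), pp_some (hc j hj), h]
  have hcard := Finset.card_pos.2 hne
  obtain h | h | h : c.card = 1 ∨ c.card = 2 ∨ 3 ≤ c.card := by omega
  · apply el_inj Hs q _ p hp hq2 c hc hrc hd hne
    intro i hi j hj _
    obtain ⟨k, hk⟩ := Finset.card_eq_one.1 h
    rw [hk, Finset.mem_singleton] at hi hj
    rw [hi, hj]
  · apply el_inj Hs q _ p hp hq2 c hc hrc hd hne
    intro i hi j hj hij
    by_contra hne2
    apply hG
    have h3 := hpos i hi j hj hij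
    obtain ⟨a, ha⟩ := Option.ne_none_iff_exists'.1 (hc i hi)
    have hcij : c = {i, j} := by
      symm
      apply Finset.eq_of_subset_of_card_le
      · intro k hk
        rw [Finset.mem_insert, Finset.mem_singleton] at hk
        rcases hk with rfl | rfl
        · exact hi
        · exact hj
      · rw [h, Finset.card_pair hne2]
    apply pair_mem hσ hσ' (a := a) c h
    intro k hk
    rw [hcij, Finset.mem_insert, Finset.mem_singleton] at hk
    rcases hk with rfl | rfl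
    · exact ha
    · rw [← h3]; exact ha
  · apply el_two Hs q _ p hp hq2 c hc hrc hd h
    intro x
    by_cases hx : (c.filter (fun i => pp (lc σ σ') i = x)).Nonempty
    · obtain ⟨i, hi⟩ := hx
      rw [Finset.mem_filter] at hi
      obtain ⟨a, ha⟩ := Option.ne_none_iff_exists'.1 (hc i hi.1)
      apply fib_two hσ hσ' _ a
      intro j hj
      rw [Finset.mem_filter] at hj
      rw [← ha]
      exact hpos j hj.1 i hi.1 (by rw [hj.2, hi.2])
    · rw [Finset.not_nonempty_iff_eq_empty] at hx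
      rw [hx, Finset.card_empty]
      omega

/-- diagonal sum at a prime -/
lemma diag_sum {Hs : ℕ → ℕ → Finset ℕ} {q : ℕ → ℝ} {σ σ' : T → Option ℕ} (hσ : Inj σ)
    (hσ' : Inj σ') {p : ℕ} (hp : 0 < p) (hq2 : 2 ≤ q p)
    (hr : ∀ a ∈ pos σ ∪ pos σ', HP Hs q p a) :
    ∑ s ∈ (JJ σ σ').filter (· ∈ GD σ σ'), |el Hs q (lc σ σ') p s| ≤
      (1 + 1 / (q p - 1)) ^ (pos σ ∩ pos σ').card := by
  have hq0 : (0 : ℝ) < q p - 1 := by linarith
  have hnot : ∅ ∉ (pos σ ∩ pos σ').image (AA σ σ') := by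
    rw [Finset.mem_image]
    rintro ⟨a, ha, h⟩
    have := AA_card hσ hσ' ha
    rw [h] at this
    simp at this
  calc ∑ s ∈ (JJ σ σ').filter (· ∈ GD σ σ'), |el Hs q (lc σ σ') p s|
      ≤ ∑ s ∈ GD σ σ', |el Hs q (lc σ σ') p s| := by
        apply Finset.sum_le_sum_of_subset_of_nonneg
        · intro s hs
          exact (Finset.mem_filter.1 hs).2
        · intro s _ _
          exact abs_nonneg _
    _ = 1 + ∑ s ∈ (pos σ ∩ pos σ').image (AA σ σ'), |el Hs q (lc σ σ') p s| := by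
        unfold GD
        rw [Finset.sum_insert hnot, el_empty Hs q _ p hp, abs_one]
    _ = 1 + ∑ s ∈ (pos σ ∩ pos σ').image (AA σ σ'), 1 / (q p - 1) := by
        congr 1
        apply Finset.sum_congr rfl
        intro s hs
        rw [Finset.mem_image] at hs
        obtain ⟨a, ha, rfl⟩ := hs
        rw [el_pair Hs q _ p hp hq2 (AA σ σ' a) a (fun i hi => (Finset.mem_filter.1 hi).2)
          (hr a (Finset.mem_union_left _ (Finset.mem_inter.1 ha).1)) (AA_card hσ hσ' ha)]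
        rw [abs_of_pos (by positivity)]
    _ = 1 + (((pos σ ∩ pos σ').image (AA σ σ')).card : ℝ) * (1 / (q p - 1)) := by
        rw [Finset.sum_const, nsmul_eq_mul]
    _ ≤ 1 + ((pos σ ∩ pos σ').card : ℝ) * (1 / (q p - 1)) := by
        have : (((pos σ ∩ pos σ').image (AA σ σ')).card : ℝ) ≤ ((pos σ ∩ pos σ').card : ℝ) := by
          exact_mod_cast Finset.card_image_le
        gcongr
    _ ≤ (1 + 1 / (q p - 1)) ^ (pos σ ∩ pos σ').card := by
        have h0 : (0 : ℝ) ≤ 1 / (q p - 1) := by positivity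
        exact one_add_mul_le_pow (by linarith) _

lemma diag_one {Hs : ℕ → ℕ → Finset ℕ} {q : ℕ → ℝ} {σ σ' : T → Option ℕ} {p : ℕ} (hp : 0 < p) :
    1 ≤ ∑ s ∈ (JJ σ σ').filter (· ∈ GD σ σ'), |el Hs q (lc σ σ') p s| := by
  have h1 : (∅ : Finset (T ⊕ T)) ∈ (JJ σ σ').filter (· ∈ GD σ σ') := by
    rw [Finset.mem_filter]
    exact ⟨Finset.empty_mem_powerset _, Finset.mem_insert_self _ _⟩
  calc (1 : ℝ) = |el Hs q (lc σ σ') p ∅| := by rw [el_empty Hs q _ p hp, abs_one]
    _ ≤ _ := Finset.single_le_sum (f := fun s => |el Hs q (lc σ σ') p s|)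
      (fun s _ => abs_nonneg _) h1

/-- collision predicate -/
def Coll (Hs : ℕ → ℕ → Finset ℕ) (U : Finset ℕ) (p : ℕ) : Prop :=
  ∃ a ∈ U, ∃ b ∈ U, a ≠ b ∧ ¬ Disjoint (Hs p a) (Hs p b)

/-- comparison of q with p -/
lemma inv_q {κ0 p : ℕ} {qp : ℝ} {h : ℕ} (hκ : 2 * κ0 ≤ p) (h1 : 1 ≤ h) (h2 : h ≤ κ0)
    (h3 : (h : ℝ) * qp = p) :
    2 ≤ qp ∧ 1 / (qp - 1) ≤ (2 * κ0) * (1 / ((p : ℝ) - 1)) := by
  have h1' : (1 : ℝ) ≤ h := by exact_mod_cast h1
  have h2' : (h : ℝ) ≤ κ0 := by exact_mod_cast h2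
  have hκ' : 2 * (κ0 : ℝ) ≤ p := by exact_mod_cast hκ
  have h4 : 2 ≤ qp := by
    by_contra hlt
    push Not at hlt
    nlinarith
  refine ⟨h4, ?_⟩
  have h5 : (p : ℝ) ≤ κ0 * qp := by
    rw [← h3]
    gcongr
  have hp1 : (0 : ℝ) < (p : ℝ) - 1 := by linarith
  rw [mul_one_div, div_le_div_iff₀ (by linarith) hp1]
  nlinarith

open Classical in
/-- nondiagonal sum at a prime -/
lemma off_sum {n κ0 : ℕ} (hn : Fintype.card T ≤ n) {Hs : ℕ → ℕ → Finset ℕ} {q : ℕ → ℝ}
    {σ σ' : T → Option ℕ}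
    (hσ : Inj σ) (hσ' : Inj σ') {p : ℕ} (hp : 2 ≤ p) (hq2 : 2 ≤ q p)
    (hqp : 1 / (q p - 1) ≤ (2 * κ0) * (1 / ((p : ℝ) - 1)))
    (hr : ∀ a ∈ pos σ ∪ pos σ', HP Hs q p a) :
    ∑ s ∈ (JJ σ σ').filter (· ∉ GD σ σ'), |el Hs q (lc σ σ') p s| ≤
      (4 ^ n * (1 + 2 * n) * (1 + 2 * κ0) ^ 2) * (1 / ((p : ℝ) - 1) ^ 2 +
        (if Coll Hs (pos σ ∪ pos σ') p then 1 / ((p : ℝ) - 1) else 0)) := by
  have hp' : (2 : ℝ) ≤ p := by exact_mod_cast hp
  have hp1 : (0 : ℝ) < (p : ℝ) - 1 := by linarith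
  have hp0 : 0 < p := by omega
  have hq0 : (0 : ℝ) < q p - 1 := by linarith
  have hκ0 : (0 : ℝ) ≤ κ0 := by positivity
  have hcT : Fintype.card (T ⊕ T) ≤ 2 * n := by
    rw [Fintype.card_sum]; omega
  have hL1 : 1 / (q p - 1) ≤ (1 + 2 * κ0) ^ 2 * (1 / ((p : ℝ) - 1)) := by
    refine hqp.trans ?_
    have : (0 : ℝ) < 1 / ((p : ℝ) - 1) := by positivity
    apply mul_le_mul_of_nonneg_right _ this.le
    nlinarith
  have hL2 : 1 / (q p - 1) ^ 2 ≤ (1 + 2 * κ0) ^ 2 * (1 / ((p : ℝ) - 1) ^ 2) := by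
    rw [← one_div_pow, ← one_div_pow, ← mul_pow]
    apply pow_le_pow_left₀ (by positivity)
    refine hqp.trans ?_
    have : (0 : ℝ) < 1 / ((p : ℝ) - 1) := by positivity
    apply mul_le_mul_of_nonneg_right _ this.le
    linarith
  have hone : ∀ s ∈ (JJ σ σ').filter (· ∉ GD σ σ'), |el Hs q (lc σ σ') p s| ≤
      ((1 + 2 * n) * (1 + 2 * κ0) ^ 2) * (1 / ((p : ℝ) - 1) ^ 2 +
        (if Coll Hs (pos σ ∪ pos σ') p then 1 / ((p : ℝ) - 1) else 0)) := by
    intro s hs
    rw [Finset.mem_filter] at hs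
    obtain ⟨hsJ, hsG⟩ := hs
    have hc : ∀ i ∈ s, lc σ σ' i ≠ none := by
      intro i hi
      unfold JJ at hsJ
      rw [Finset.mem_powerset] at hsJ
      exact (Finset.mem_filter.1 (hsJ hi)).2
    have hcard : (s.card : ℝ) ≤ 2 * n := by
      have : s.card ≤ 2 * n := (Finset.card_le_univ s).trans hcT
      exact_mod_cast this
    by_cases hcoll : Coll Hs (pos σ ∪ pos σ') p
    · rw [if_pos hcoll]
      have hne : s.Nonempty := by
        rw [Finset.nonempty_iff_ne_empty]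
        rintro rfl
        exact hsG (Finset.mem_insert_self _ _)
      calc |el Hs q (lc σ σ') p s| ≤ (1 + s.card) / (q p - 1) :=
            el_coll Hs q _ p hp0 hq2 s hc (fun i hi => hr _ (pp_pos (hc i hi))) hne
        _ ≤ (1 + 2 * n) / (q p - 1) := by gcongr
        _ = (1 + 2 * n) * (1 / (q p - 1)) := by ring
        _ ≤ (1 + 2 * n) * ((1 + 2 * κ0) ^ 2 * (1 / ((p : ℝ) - 1))) := by gcongr
        _ = ((1 + 2 * n) * (1 + 2 * κ0) ^ 2) * (0 + 1 / ((p : ℝ) - 1)) := by ring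
        _ ≤ _ := by
          gcongr
          positivity
    · rw [if_neg hcoll, add_zero]
      have hnc : ∀ a ∈ pos σ ∪ pos σ', ∀ b ∈ pos σ ∪ pos σ', a ≠ b →
          Disjoint (Hs p a) (Hs p b) := by
        intro a ha b hb hab
        by_contra h
        exact hcoll ⟨a, ha, b, hb, hab, h⟩
      calc |el Hs q (lc σ σ') p s| ≤ (1 + s.card) / (q p - 1) ^ 2 :=
            el_nc hσ hσ' hp0 hq2 hr hnc s hc hsG
        _ ≤ (1 + 2 * n) / (q p - 1) ^ 2 := by gcongr
        _ = (1 + 2 * n) * (1 / (q p - 1) ^ 2) := by ring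
        _ ≤ (1 + 2 * n) * ((1 + 2 * κ0) ^ 2 * (1 / ((p : ℝ) - 1) ^ 2)) := by gcongr
        _ = ((1 + 2 * n) * (1 + 2 * κ0) ^ 2) * (1 / ((p : ℝ) - 1) ^ 2) := by ring
  have hcnt : (((JJ σ σ').filter (· ∉ GD σ σ')).card : ℝ) ≤ 4 ^ n := by
    have h1 : ((JJ σ σ').filter (· ∉ GD σ σ')).card ≤ 4 ^ n := by
      calc ((JJ σ σ').filter (· ∉ GD σ σ')).card ≤ Fintype.card (Finset (T ⊕ T)) :=
            Finset.card_le_univ _
        _ = 2 ^ Fintype.card (T ⊕ T) := Fintype.card_finset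
        _ ≤ 2 ^ (2 * n) := Nat.pow_le_pow_right (by norm_num) hcT
        _ = 4 ^ n := by rw [pow_mul]; norm_num
    exact_mod_cast h1
  have h0 : (0 : ℝ) ≤ ((1 + 2 * n) * (1 + 2 * κ0) ^ 2) * (1 / ((p : ℝ) - 1) ^ 2 +
        (if Coll Hs (pos σ ∪ pos σ') p then 1 / ((p : ℝ) - 1) else 0)) := by
    have : (0 : ℝ) ≤ (if Coll Hs (pos σ ∪ pos σ') p then 1 / ((p : ℝ) - 1) else 0) := by
      split_ifs
      · positivity
      · exact le_rfl
    positivity
  calc _ ≤ (((JJ σ σ').filter (· ∉ GD σ σ')).card : ℝ) *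
        (((1 + 2 * n) * (1 + 2 * κ0) ^ 2) * (1 / ((p : ℝ) - 1) ^ 2 +
        (if Coll Hs (pos σ ∪ pos σ') p then 1 / ((p : ℝ) - 1) else 0))) := by
        rw [← nsmul_eq_mul]
        exact Finset.sum_le_card_nsmul _ _ _ hone
    _ ≤ 4 ^ n * (((1 + 2 * n) * (1 + 2 * κ0) ^ 2) * (1 / ((p : ℝ) - 1) ^ 2 +
        (if Coll Hs (pos σ ∪ pos σ') p then 1 / ((p : ℝ) - 1) else 0))) := by gcongr
    _ = _ := by ring

omit [DecidableEq T] in
/-- the term of a choice of divisors -/
lemma term_eq (Hs : ℕ → ℕ → Finset ℕ) (q : ℕ → ℝ) (P : Finset ℕ) (σ σ' : T → Option ℕ)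
    (x : (T → Finset ℕ) × (T → Finset ℕ)) (h1 : ∀ τ, x.1 τ ⊆ P) (h2 : ∀ τ, x.2 τ ⊆ P) :
    (∏ τ, wt q (x.1 τ)) * (∏ τ, wt q (x.2 τ)) * ∏ p ∈ P, Ep Hs q σ σ' x.1 x.2 p =
      ∏ p ∈ P, el Hs q (lc σ σ') p (cc x p) := by
  have e1 : (∏ τ, wt q (x.1 τ)) * (∏ τ, wt q (x.2 τ)) =
      ∏ i : T ⊕ T, wt q (Sum.elim x.1 x.2 i) := by
    rw [Fintype.prod_sum_type]
    rfl
  rw [e1, prod_wt q P (Sum.elim x.1 x.2) (by
    intro i
    cases i with
    | inl τ => exact h1 τ
    | inr τ => exact h2 τ), ← Finset.prod_mul_distrib]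
  apply Finset.prod_congr rfl
  intro p _
  unfold el
  congr 1
  unfold Ep El
  congr 1
  apply Finset.sum_congr rfl
  intro y _
  unfold cc
  rw [Finset.prod_filter, Finset.prod_filter, Finset.prod_filter, Fintype.prod_sum_type]
  rfl

lemma LS_eq (Hs : ℕ → ℕ → Finset ℕ) (q : ℕ → ℝ) (P : Finset ℕ) (S S' : T → Finset (Finset ℕ))
    (σ σ' : T → Option ℕ)
    (h1 : ∀ τ, ∀ R ∈ S τ, R ⊆ P) (h2 : ∀ τ, ∀ R ∈ S' τ, R ⊆ P) :
    LS Hs q P S S' σ σ' = ∑ x ∈ Fintype.piFinset S ×ˢ Fintype.piFinset S',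
      ∏ p ∈ P, el Hs q (lc σ σ') p (cc x p) := by
  unfold LS
  rw [Finset.sum_product]
  apply Finset.sum_congr rfl
  intro R hR
  apply Finset.sum_congr rfl
  intro R' hR'
  rw [Fintype.mem_piFinset] at hR hR'
  exact term_eq Hs q P σ σ' (R, R') (fun τ => h1 τ _ (hR τ)) (fun τ => h2 τ _ (hR' τ))

lemma del_eq (Hs : ℕ → ℕ → Finset ℕ) (P U : Finset ℕ) [DecidablePred (Coll Hs U)] :
    del Hs P U = ∑ p ∈ P, (1 / ((p : ℝ) - 1) ^ 2 +
      (if Coll Hs U p then 1 / ((p : ℝ) - 1) else 0)) := by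
  unfold del
  rw [Finset.sum_add_distrib, Finset.sum_filter]
  congr 1
  apply Finset.sum_congr rfl
  intro p _
  unfold Coll
  congr 1

/-- the bad part -/
lemma bad_bound {n κ0 : ℕ} (hn : Fintype.card T ≤ n) (Hs : ℕ → ℕ → Finset ℕ) (q : ℕ → ℝ)
    (P : Finset ℕ)
    (S S' : T → Finset (Finset ℕ)) (σ σ' : T → Option ℕ) (hP : ∀ p ∈ P, p.Prime)
    (hs : Std κ0 Hs q P S σ) (hs' : Std κ0 Hs q P S' σ')
    (hq2 : ∀ p ∈ P, 2 ≤ q p) (hqp : ∀ p ∈ P, 1 / (q p - 1) ≤ (2 * κ0) * (1 / ((p : ℝ) - 1))) :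
    ∑ x ∈ (Fintype.piFinset S ×ˢ Fintype.piFinset S').filter (fun x => ¬ ∀ p ∈ P, cc x p ∈ GD σ σ'),
      ∏ p ∈ P, |el Hs q (lc σ σ') p (cc x p)| ≤
      Pi1 q P ^ (pos σ ∩ pos σ').card *
        (Real.exp ((4 ^ n * (1 + 2 * n) * (1 + 2 * κ0) ^ 2) * del Hs P (pos σ ∪ pos σ')) - 1) := by
  classical
  obtain ⟨hσ, hnone, hSP, hρ⟩ := hs
  obtain ⟨hσ', hnone', hSP', hρ'⟩ := hs'
  have hr : ∀ p ∈ P, ∀ a ∈ pos σ ∪ pos σ', HP Hs q p a := by
    intro p hp a ha
    rw [Finset.mem_union] at ha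
    rcases ha with ha | ha
    · exact ⟨(hρ p hp a ha).1, (hρ p hp a ha).2.2.2⟩
    · exact ⟨(hρ' p hp a ha).1, (hρ' p hp a ha).2.2.2⟩
  have key := inj_bound P (Fintype.piFinset S ×ˢ Fintype.piFinset S') cc (JJ σ σ') (GD σ σ') (by
      intro x hx y hy h
      rw [Finset.mem_product, Fintype.mem_piFinset, Fintype.mem_piFinset] at hx hy
      apply Prod.ext
      · funext τ
        ext p
        constructor
        · intro hp
          have hpP : p ∈ P := hSP τ _ (hx.1 τ) hp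
          rw [← mem_cc_inl, ← h p hpP, mem_cc_inl]
          exact hp
        · intro hp
          have hpP : p ∈ P := hSP τ _ (hy.1 τ) hp
          rw [← mem_cc_inl, h p hpP, mem_cc_inl]
          exact hp
      · funext τ
        ext p
        constructor
        · intro hp
          have hpP : p ∈ P := hSP' τ _ (hx.2 τ) hp
          rw [← mem_cc_inr, ← h p hpP, mem_cc_inr]
          exact hp
        · intro hp
          have hpP : p ∈ P := hSP' τ _ (hy.2 τ) hp
          rw [← mem_cc_inr, h p hpP, mem_cc_inr]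
          exact hp)
    (by
      intro x hx p _
      rw [Finset.mem_product, Fintype.mem_piFinset, Fintype.mem_piFinset] at hx
      unfold JJ
      rw [Finset.mem_powerset]
      intro i hi
      rw [Finset.mem_filter]
      refine ⟨Finset.mem_univ _, ?_⟩
      intro hl
      cases i with
      | inl τ =>
        rw [mem_cc_inl] at hi
        have h3 := hx.1 τ
        rw [hnone τ hl, Finset.mem_singleton] at h3
        rw [h3] at hi
        simp at hi
      | inr τ =>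
        rw [mem_cc_inr] at hi
        have h3 := hx.2 τ
        rw [hnone' τ hl, Finset.mem_singleton] at h3
        rw [h3] at hi
        simp at hi)
    (fun p s => |el Hs q (lc σ σ') p s|) (fun p _ s => abs_nonneg _)
    (fun p hp => diag_one (hP p hp).pos)
  refine key.trans ?_
  have hPi : ∏ p ∈ P, ∑ s ∈ (JJ σ σ').filter (· ∈ GD σ σ'), |el Hs q (lc σ σ') p s| ≤
      Pi1 q P ^ (pos σ ∩ pos σ').card := by
    unfold Pi1
    rw [← Finset.prod_pow]
    apply Finset.prod_le_prod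
    · intro p _
      exact Finset.sum_nonneg (fun s _ => abs_nonneg _)
    · intro p hp
      exact diag_sum hσ hσ' (hP p hp).pos (hq2 p hp) (hr p hp)
  have hO : ∑ p ∈ P, ∑ s ∈ (JJ σ σ').filter (· ∉ GD σ σ'), |el Hs q (lc σ σ') p s| ≤
      (4 ^ n * (1 + 2 * n) * (1 + 2 * κ0) ^ 2) * del Hs P (pos σ ∪ pos σ') := by
    rw [del_eq, Finset.mul_sum]
    apply Finset.sum_le_sum
    intro p hp
    exact off_sum hn hσ hσ' (hP p hp).two_le (hq2 p hp) (hqp p hp) (hr p hp)
  have hO0 : 0 ≤ ∑ p ∈ P, ∑ s ∈ (JJ σ σ').filter (· ∉ GD σ σ'), |el Hs q (lc σ σ') p s| :=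
    Finset.sum_nonneg (fun p _ => Finset.sum_nonneg (fun s _ => abs_nonneg _))
  have hD0 : 0 ≤ ∏ p ∈ P, ∑ s ∈ (JJ σ σ').filter (· ∈ GD σ σ'), |el Hs q (lc σ σ') p s| :=
    Finset.prod_nonneg (fun p _ => Finset.sum_nonneg (fun s _ => abs_nonneg _))
  have hexp := Real.exp_le_exp.2 hO
  have hexp0 := Real.one_le_exp hO0
  gcongr
  · linarith

end Pair

/-! ### the disjoint families -/

section One

variable {T : Type} [Fintype T] [DecidableEq T]

lemma bad_bound2 {n κ0 : ℕ} (hn : Fintype.card T ≤ n) (Hs : ℕ → ℕ → Finset ℕ) (q : ℕ → ℝ)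
    (P : Finset ℕ)
    (S : T → Finset (Finset ℕ)) (σ : T → Option ℕ) (hP : ∀ p ∈ P, p.Prime)
    (hs : Std κ0 Hs q P S σ)
    (hq2 : ∀ p ∈ P, 2 ≤ q p) (hqp : ∀ p ∈ P, 1 / (q p - 1) ≤ (2 * κ0) * (1 / ((p : ℝ) - 1))) :
    ∑ R ∈ (Fintype.piFinset S).filter (fun R => ¬ ∀ p ∈ P, c1 R p ∈ G1 T),
      ∏ p ∈ P, (1 / (q p - 1)) ^ (c1 R p).card ≤
      Pi1 q P ^ (pos σ ∩ pos σ).card *
        (Real.exp ((2 ^ n * (1 + 2 * κ0) ^ 2) * ∑ p ∈ P, 1 / ((p : ℝ) - 1) ^ 2) - 1) := by
  classical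
  obtain ⟨hσ, hnone, hSP, hρ⟩ := hs
  have hq : ∀ p ∈ P, (1 : ℝ) ≤ q p - 1 := by
    intro p hp
    have := hq2 p hp
    linarith
  set pr : Finset T := univ.filter (fun τ => σ τ ≠ none) with hpr
  have hprcard : pr.card ≤ (pos σ ∩ pos σ).card := by
    rw [Finset.inter_self]
    apply Finset.card_le_card_of_injOn (fun τ => (σ τ).getD 0)
    · intro τ hτ
      rw [Finset.mem_coe, hpr, Finset.mem_filter] at hτ
      obtain ⟨a, ha⟩ := Option.ne_none_iff_exists'.1 hτ.2
      rw [Finset.mem_coe, mem_pos]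
      refine ⟨τ, ?_⟩
      simp [ha]
    · intro τ hτ τ' hτ' h
      rw [Finset.mem_coe, hpr, Finset.mem_filter] at hτ hτ'
      obtain ⟨a, ha⟩ := Option.ne_none_iff_exists'.1 hτ.2
      obtain ⟨b, hb⟩ := Option.ne_none_iff_exists'.1 hτ'.2
      simp only [ha, hb, Option.getD_some] at h
      exact hσ τ τ' a ha (by rw [hb, h])
  have key := inj_bound P (Fintype.piFinset S) c1 pr.powerset (G1 T) (by
      intro R hR R' hR' h
      rw [Fintype.mem_piFinset] at hR hR'
      funext τ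
      ext p
      have hmem : ∀ Q : T → Finset ℕ, τ ∈ c1 Q p ↔ p ∈ Q τ := by
        intro Q; unfold c1; simp
      constructor
      · intro hp
        have hpP : p ∈ P := hSP τ _ (hR τ) hp
        rw [← hmem, ← h p hpP, hmem]
        exact hp
      · intro hp
        have hpP : p ∈ P := hSP τ _ (hR' τ) hp
        rw [← hmem, h p hpP, hmem]
        exact hp)
    (by
      intro R hR p _
      rw [Fintype.mem_piFinset] at hR
      rw [Finset.mem_powerset]
      intro τ hτ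
      unfold c1 at hτ
      rw [Finset.mem_filter] at hτ
      rw [hpr, Finset.mem_filter]
      refine ⟨Finset.mem_univ _, fun h => ?_⟩
      have h3 := hR τ
      rw [hnone τ h, Finset.mem_singleton] at h3
      rw [h3] at hτ
      simp at hτ)
    (fun p s => (1 / (q p - 1)) ^ s.card)
    (fun p hp s => by
      have := hq p hp
      positivity)
    (fun p hp => by
      have hqp := hq p hp
      have h1 : (∅ : Finset T) ∈ pr.powerset.filter (· ∈ G1 T) := by
        rw [Finset.mem_filter]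
        refine ⟨Finset.empty_mem_powerset _, ?_⟩
        unfold G1
        simp
      calc (1 : ℝ) = (1 / (q p - 1)) ^ (∅ : Finset T).card := by simp
        _ ≤ _ := Finset.single_le_sum (f := fun s : Finset T => (1 / (q p - 1)) ^ s.card)
          (fun s _ => by positivity) h1)
  refine key.trans ?_
  have hPi : ∏ p ∈ P, ∑ s ∈ pr.powerset.filter (· ∈ G1 T), (1 / (q p - 1)) ^ s.card ≤
      Pi1 q P ^ (pos σ ∩ pos σ).card := by
    unfold Pi1
    rw [← Finset.prod_pow]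
    apply Finset.prod_le_prod
    · intro p hp
      have hqp := hq p hp
      exact Finset.sum_nonneg (fun s _ => by positivity)
    · intro p hp
      have hqp := hq p hp
      have h0 : (0 : ℝ) ≤ 1 / (q p - 1) := by positivity
      calc ∑ s ∈ pr.powerset.filter (· ∈ G1 T), (1 / (q p - 1)) ^ s.card
          ≤ ∑ s ∈ pr.powerset, (1 / (q p - 1)) ^ s.card := by
            apply Finset.sum_le_sum_of_subset_of_nonneg (Finset.filter_subset _ _)
            intro s _ _
            positivity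
        _ = (1 / (q p - 1) + 1) ^ pr.card := by
            rw [← Finset.sum_pow_mul_eq_add_pow]
            apply Finset.sum_congr rfl
            intro s _
            rw [one_pow, mul_one]
        _ ≤ (1 / (q p - 1) + 1) ^ (pos σ ∩ pos σ).card :=
            pow_le_pow_right₀ (by linarith) hprcard
        _ = (1 + 1 / (q p - 1)) ^ (pos σ ∩ pos σ).card := by rw [add_comm]
  have hO : ∑ p ∈ P, ∑ s ∈ pr.powerset.filter (· ∉ G1 T), (1 / (q p - 1)) ^ s.card ≤
      (2 ^ n * (1 + 2 * κ0) ^ 2) * ∑ p ∈ P, 1 / ((p : ℝ) - 1) ^ 2 := by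
    rw [Finset.mul_sum]
    apply Finset.sum_le_sum
    intro p hp
    have hqp1 := hq p hp
    have hp2 : (2 : ℝ) ≤ p := by exact_mod_cast (hP p hp).two_le
    have hp1 : (0 : ℝ) < (p : ℝ) - 1 := by linarith
    have hL2 : 1 / (q p - 1) ^ 2 ≤ (1 + 2 * κ0) ^ 2 * (1 / ((p : ℝ) - 1) ^ 2) := by
      rw [← one_div_pow, ← one_div_pow, ← mul_pow]
      apply pow_le_pow_left₀ (by positivity)
      refine (hqp p hp).trans ?_
      have : (0 : ℝ) < 1 / ((p : ℝ) - 1) := by positivity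
      apply mul_le_mul_of_nonneg_right _ this.le
      linarith
    have hone : ∀ s ∈ pr.powerset.filter (· ∉ G1 T), (1 / (q p - 1)) ^ s.card ≤
        (1 + 2 * κ0) ^ 2 * (1 / ((p : ℝ) - 1) ^ 2) := by
      intro s hs
      rw [Finset.mem_filter] at hs
      have h2 : 2 ≤ s.card := by
        have := hs.2
        unfold G1 at this
        rw [Finset.mem_filter] at this
        by_contra h
        exact this ⟨Finset.mem_univ _, by omega⟩
      refine le_trans ?_ hL2
      rw [one_div_pow]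
      apply one_div_le_one_div_of_le (by positivity)
      exact pow_le_pow_right₀ hqp1 h2
    have hcnt : ((pr.powerset.filter (· ∉ G1 T)).card : ℝ) ≤ 2 ^ n := by
      have h1 : (pr.powerset.filter (· ∉ G1 T)).card ≤ 2 ^ n := by
        calc (pr.powerset.filter (· ∉ G1 T)).card ≤ Fintype.card (Finset T) :=
              Finset.card_le_univ _
          _ = 2 ^ Fintype.card T := Fintype.card_finset
          _ ≤ 2 ^ n := Nat.pow_le_pow_right (by norm_num) hn
      exact_mod_cast h1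
    calc _ ≤ ((pr.powerset.filter (· ∉ G1 T)).card : ℝ) *
          ((1 + 2 * κ0) ^ 2 * (1 / ((p : ℝ) - 1) ^ 2)) := by
          rw [← nsmul_eq_mul]
          exact Finset.sum_le_card_nsmul _ _ _ hone
      _ ≤ 2 ^ n * ((1 + 2 * κ0) ^ 2 * (1 / ((p : ℝ) - 1) ^ 2)) := by gcongr
      _ = _ := by ring
  have hO0 : 0 ≤ ∑ p ∈ P, ∑ s ∈ pr.powerset.filter (· ∉ G1 T), (1 / (q p - 1)) ^ s.card := by
    apply Finset.sum_nonneg
    intro p hp
    have hqp := hq p hp
    exact Finset.sum_nonneg (fun s _ => by positivity)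
  have hD0 : 0 ≤ ∏ p ∈ P, ∑ s ∈ pr.powerset.filter (· ∈ G1 T), (1 / (q p - 1)) ^ s.card := by
    apply Finset.prod_nonneg
    intro p hp
    have hqp := hq p hp
    exact Finset.sum_nonneg (fun s _ => by positivity)
  have hexp := Real.exp_le_exp.2 hO
  have hexp0 := Real.one_le_exp hO0
  gcongr
  · linarith

end One

/-! ### the theorem -/

/-- no good choice in the presence of a defect -/
lemma no_good {T : Type} [Fintype T] [DecidableEq T] {κ0 : ℕ} (Hs : ℕ → ℕ → Finset ℕ)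
    (q : ℕ → ℝ) (P : Finset ℕ)
    (S S' : T → Finset (Finset ℕ)) (σ σ' : T → Option ℕ)
    (hs : Std κ0 Hs q P S σ) (hs' : Std κ0 Hs q P S' σ') (hdef : Defect S S' σ σ') :
    ∀ x ∈ Fintype.piFinset S ×ˢ Fintype.piFinset S', ¬ ∀ p ∈ P, cc x p ∈ GD σ σ' := by
  intro x hx hgood
  rw [Finset.mem_product, Fintype.mem_piFinset, Fintype.mem_piFinset] at hx
  obtain ⟨hσ, hnone, hSP, hρ⟩ := hs
  obtain ⟨hσ', hnone', hSP', hρ'⟩ := hs'
  -- structure of the copies of a prime
  have hst : ∀ p ∈ P, ∀ i ∈ cc x p, ∃ a ∈ pos σ ∩ pos σ', cc x p = AA σ σ' a ∧ lc σ σ' i = some a := by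
    intro p hp i hi
    have h1 := hgood p hp
    unfold GD at h1
    rw [Finset.mem_insert, Finset.mem_image] at h1
    rcases h1 with h1 | ⟨a, ha, h1⟩
    · rw [h1] at hi; simp at hi
    · refine ⟨a, ha, h1.symm, ?_⟩
      rw [← h1] at hi
      exact (Finset.mem_filter.1 hi).2
  rcases hdef with ⟨τ, a, h1, h2, h3⟩ | ⟨τ, a, h1, h2, h3⟩ | ⟨τ, τ', a, h1, h2, h3⟩
  · have hne : (x.1 τ).Nonempty := by
      rw [Finset.nonempty_iff_ne_empty]
      intro h
      apply h3
      rw [← h]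
      exact hx.1 τ
    obtain ⟨p, hp⟩ := hne
    obtain ⟨b, hb, -, h4⟩ := hst p (hSP τ _ (hx.1 τ) hp) (Sum.inl τ) (mem_cc_inl.2 hp)
    have h5 : σ τ = some b := h4
    rw [h1, Option.some_inj] at h5
    subst h5
    exact h2 (Finset.mem_inter.1 hb).2
  · have hne : (x.2 τ).Nonempty := by
      rw [Finset.nonempty_iff_ne_empty]
      intro h
      apply h3
      rw [← h]
      exact hx.2 τ
    obtain ⟨p, hp⟩ := hne
    obtain ⟨b, hb, -, h4⟩ := hst p (hSP' τ _ (hx.2 τ) hp) (Sum.inr τ) (mem_cc_inr.2 hp)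
    have h5 : σ' τ = some b := h4
    rw [h1, Option.some_inj] at h5
    subst h5
    exact h2 (Finset.mem_inter.1 hb).1
  · have heq : x.1 τ = x.2 τ' := by
      ext p
      constructor
      · intro hp
        obtain ⟨b, hb, h5, h4⟩ := hst p (hSP τ _ (hx.1 τ) hp) (Sum.inl τ) (mem_cc_inl.2 hp)
        have h6 : σ τ = some b := h4
        rw [h1, Option.some_inj] at h6
        subst h6
        rw [← mem_cc_inr, h5]
        unfold AA
        rw [Finset.mem_filter]
        exact ⟨Finset.mem_univ _, h2⟩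
      · intro hp
        obtain ⟨b, hb, h5, h4⟩ := hst p (hSP' τ' _ (hx.2 τ') hp) (Sum.inr τ') (mem_cc_inr.2 hp)
        have h6 : σ' τ' = some b := h4
        rw [h2, Option.some_inj] at h6
        subst h6
        rw [← mem_cc_inl, h5]
        unfold AA
        rw [Finset.mem_filter]
        exact ⟨Finset.mem_univ _, h1⟩
    have h6 := hx.1 τ
    have h7 := hx.2 τ'
    rw [← heq] at h7
    exact Finset.disjoint_left.1 h3 h6 h7

/-- the good choices when the two configurations agree -/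
lemma good_eq {T : Type} [Fintype T] [DecidableEq T] {κ0 : ℕ} (Hs : ℕ → ℕ → Finset ℕ)
    (q : ℕ → ℝ) (P : Finset ℕ)
    (S : T → Finset (Finset ℕ)) (σ : T → Option ℕ) (hP : ∀ p ∈ P, p.Prime)
    (hs : Std κ0 Hs q P S σ) (hq2 : ∀ p ∈ P, 2 ≤ q p) :
    ∑ x ∈ (Fintype.piFinset S ×ˢ Fintype.piFinset S).filter (fun x => ∀ p ∈ P, cc x p ∈ GD σ σ),
      ∏ p ∈ P, el Hs q (lc σ σ) p (cc x p) =
    ∑ R ∈ (Fintype.piFinset S).filter (fun R => ∀ p ∈ P, c1 R p ∈ G1 T),
      ∏ p ∈ P, (1 / (q p - 1)) ^ (c1 R p).card := by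
  obtain ⟨hσ, hnone, hSP, hρ⟩ := hs
  have hpres : ∀ R ∈ Fintype.piFinset S, ∀ τ p, p ∈ R τ → ∃ a, σ τ = some a := by
    intro R hR τ p hp
    rw [Fintype.mem_piFinset] at hR
    by_contra h
    push Not at h
    have h1 : σ τ = none := by
      cases hh : σ τ with
      | none => rfl
      | some a => exact absurd hh (h a)
    have h3 := hR τ
    rw [hnone τ h1, Finset.mem_singleton] at h3
    rw [h3] at hp
    simp at hp
  -- good implies equal
  have hgood : ∀ x ∈ (Fintype.piFinset S ×ˢ Fintype.piFinset S).filter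
      (fun x => ∀ p ∈ P, cc x p ∈ GD σ σ), x.2 = x.1 ∧ ∀ p ∈ P, c1 x.1 p ∈ G1 T := by
    intro x hx
    rw [Finset.mem_filter, Finset.mem_product] at hx
    obtain ⟨⟨hx1, hx2⟩, hg⟩ := hx
    have hx1' := Fintype.mem_piFinset.1 hx1
    have hx2' := Fintype.mem_piFinset.1 hx2
    have hst : ∀ p ∈ P, ∀ i ∈ cc x p, ∃ a ∈ pos σ ∩ pos σ, cc x p = AA σ σ a ∧ lc σ σ i = some a := by
      intro p hp i hi
      have h1 := hg p hp
      unfold GD at h1
      rw [Finset.mem_insert, Finset.mem_image] at h1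
      rcases h1 with h1 | ⟨a, ha, h1⟩
      · rw [h1] at hi; simp at hi
      · refine ⟨a, ha, h1.symm, ?_⟩
        rw [← h1] at hi
        exact (Finset.mem_filter.1 hi).2
    constructor
    · funext τ
      ext p
      constructor
      · intro hp
        obtain ⟨a, ha⟩ := hpres x.2 hx2 τ p hp
        obtain ⟨b, hb, h5, h4⟩ := hst p (hSP τ _ (hx2' τ) hp) (Sum.inr τ) (mem_cc_inr.2 hp)
        rw [← mem_cc_inl, h5]
        unfold AA
        rw [Finset.mem_filter]
        exact ⟨Finset.mem_univ _, h4⟩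
      · intro hp
        obtain ⟨a, ha⟩ := hpres x.1 hx1 τ p hp
        obtain ⟨b, hb, h5, h4⟩ := hst p (hSP τ _ (hx1' τ) hp) (Sum.inl τ) (mem_cc_inl.2 hp)
        rw [← mem_cc_inr, h5]
        unfold AA
        rw [Finset.mem_filter]
        exact ⟨Finset.mem_univ _, h4⟩
    · intro p hp
      unfold G1
      rw [Finset.mem_filter]
      refine ⟨Finset.mem_univ _, ?_⟩
      rw [Finset.card_le_one]
      intro τ hτ τ' hτ'
      unfold c1 at hτ hτ'
      rw [Finset.mem_filter] at hτ hτ'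
      obtain ⟨b, hb, h5, h4⟩ := hst p hp (Sum.inl τ) (mem_cc_inl.2 hτ.2)
      have h6 : Sum.inl τ' ∈ cc x p := mem_cc_inl.2 hτ'.2
      rw [h5] at h6
      have h7 : lc σ σ (Sum.inl τ') = some b := (Finset.mem_filter.1 h6).2
      exact hσ τ τ' b h4 h7
  -- copies of a doubled choice
  have hcc : ∀ R ∈ Fintype.piFinset S, (∀ p ∈ P, c1 R p ∈ G1 T) → ∀ p ∈ P,
      cc (R, R) p ∈ GD σ σ ∧ el Hs q (lc σ σ) p (cc (R, R) p) =
        (1 / (q p - 1)) ^ (c1 R p).card := by
    intro R hR hPD p hp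
    have h1 : (c1 R p).card ≤ 1 := by
      have := hPD p hp
      unfold G1 at this
      exact (Finset.mem_filter.1 this).2
    obtain h2 | h2 : (c1 R p).card = 0 ∨ (c1 R p).card = 1 := by omega
    · have h3 : cc (R, R) p = ∅ := by
        rw [Finset.card_eq_zero] at h2
        rw [Finset.eq_empty_iff_forall_notMem]
        intro i hi
        cases i with
        | inl τ =>
          rw [mem_cc_inl] at hi
          have : τ ∈ c1 R p := by unfold c1; simpa using hi
          rw [h2] at this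
          simp at this
        | inr τ =>
          rw [mem_cc_inr] at hi
          have : τ ∈ c1 R p := by unfold c1; simpa using hi
          rw [h2] at this
          simp at this
      rw [h3, h2, pow_zero, el_empty Hs q _ p (hP p hp).pos]
      exact ⟨Finset.mem_insert_self _ _, rfl⟩
    · obtain ⟨τ, hτ⟩ := Finset.card_eq_one.1 h2
      have hτp : p ∈ R τ := by
        have : τ ∈ c1 R p := by rw [hτ]; simp
        unfold c1 at this
        exact (Finset.mem_filter.1 this).2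
      obtain ⟨a, ha⟩ := hpres R hR τ p hτp
      have hapos : a ∈ pos σ ∩ pos σ := by
        rw [Finset.inter_self, mem_pos]
        exact ⟨τ, ha⟩
      have h3 : cc (R, R) p = AA σ σ a := by
        rw [AA_eq hσ hσ ha ha]
        ext i
        rw [Finset.mem_insert, Finset.mem_singleton]
        have hmem : ∀ τ', p ∈ R τ' ↔ τ' = τ := by
          intro τ'
          have : τ' ∈ c1 R p ↔ τ' = τ := by rw [hτ]; simp
          rw [← this]
          unfold c1
          simp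
        cases i with
        | inl τ' =>
          rw [mem_cc_inl]
          show p ∈ R τ' ↔ _
          rw [hmem]
          simp
        | inr τ' =>
          rw [mem_cc_inr]
          show p ∈ R τ' ↔ _
          rw [hmem]
          simp
      have hap : HP Hs q p a :=
        ⟨(hρ p hp a (Finset.mem_inter.1 hapos).1).1, (hρ p hp a (Finset.mem_inter.1 hapos).1).2.2.2⟩
      rw [h3, h2, pow_one, el_pair Hs q _ p (hP p hp).pos (hq2 p hp) (AA σ σ a) a
        (fun i hi => (Finset.mem_filter.1 hi).2) hap (AA_card hσ hσ hapos)]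
      refine ⟨?_, rfl⟩
      unfold GD
      rw [Finset.mem_insert, Finset.mem_image]
      exact Or.inr ⟨a, hapos, rfl⟩
  symm
  apply Finset.sum_nbij' (fun R => (R, R)) (fun x => x.1)
  · intro R hR
    rw [Finset.mem_filter] at hR
    rw [Finset.mem_filter, Finset.mem_product]
    exact ⟨⟨hR.1, hR.1⟩, fun p hp => (hcc R hR.1 hR.2 p hp).1⟩
  · intro x hx
    have h1 := hgood x hx
    rw [Finset.mem_filter, Finset.mem_product] at hx
    rw [Finset.mem_filter]
    exact ⟨hx.1.1, h1.2⟩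
  · intro R _
    rfl
  · intro x hx
    have h1 := hgood x hx
    exact Prod.ext rfl h1.1.symm
  · intro R hR
    rw [Finset.mem_filter] at hR
    apply Finset.prod_congr rfl
    intro p hp
    exact (hcc R hR.1 hR.2 p hp).2.symm

lemma GG_prod {T : Type} [Fintype T] [DecidableEq T] (q : ℕ → ℝ) (P : Finset ℕ)
    (S : T → Finset (Finset ℕ)) (hSP : ∀ τ, ∀ R ∈ S τ, R ⊆ P) :
    ∏ τ, GG q (S τ) = ∑ R ∈ Fintype.piFinset S, ∏ p ∈ P, (1 / (q p - 1)) ^ (c1 R p).card := by
  unfold GG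
  rw [Finset.prod_univ_sum]
  apply Finset.sum_congr rfl
  intro R hR
  rw [Fintype.mem_piFinset] at hR
  rw [prod_wt q P R (fun τ => hSP τ _ (hR τ))]
  rfl

lemma del_nonneg (Hs : ℕ → ℕ → Finset ℕ) (P U : Finset ℕ) (hP : ∀ p ∈ P, p.Prime) :
    ∑ p ∈ P, 1 / ((p : ℝ) - 1) ^ 2 ≤ del Hs P U := by
  unfold del
  have : 0 ≤ ∑ p ∈ P.filter (fun p => ∃ a ∈ U, ∃ b ∈ U, a ≠ b ∧ ¬ Disjoint (Hs p a) (Hs p b)),
      1 / ((p : ℝ) - 1) := by
    apply Finset.sum_nonneg
    intro p hp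
    have h2 : (2 : ℝ) ≤ p := by exact_mod_cast (hP p (Finset.mem_filter.1 hp).1).two_le
    have : (0 : ℝ) < (p : ℝ) - 1 := by linarith
    positivity
  linarith

/-- the case without positions -/
lemma LS_empty {T : Type} [Fintype T] [DecidableEq T] (Hs : ℕ → ℕ → Finset ℕ) (q : ℕ → ℝ)
    (P : Finset ℕ) (S S' : T → Finset (Finset ℕ)) (σ σ' : T → Option ℕ)
    (hP : ∀ p ∈ P, p.Prime) (hS : S = fun _ => {∅}) (hS' : S' = fun _ => {∅}) :
    LS Hs q P S S' σ σ' = 1 := by
  subst hS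
  subst hS'
  have h1 : Fintype.piFinset (fun _ : T => ({∅} : Finset (Finset ℕ))) = {fun _ => ∅} := by
    rw [Fintype.piFinset_singleton]
  unfold LS
  rw [h1, Finset.sum_singleton, Finset.sum_singleton]
  have h2 : ∀ p ∈ P, Ep Hs q σ σ' (fun _ => ∅) (fun _ => ∅) p = 1 := by
    intro p hp
    have hp' : (p : ℝ) ≠ 0 := by exact_mod_cast (hP p hp).ne_zero
    unfold Ep
    simp [hp']
  rw [Finset.prod_congr rfl h2]
  simp [wt]

end LSAux

open LSAux Pool.Agent.H410R2.AC Pool.Agent.H415R2.ACLocal in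
theorem localSum : Pool.Agent.H474R2.GE.LocalSum := by
  intro n κ0
  refine ⟨2 * (4 ^ n * (1 + 2 * n) * (1 + 2 * κ0) ^ 2), by positivity, ?_⟩
  intro T _ _ hn P Hs q S S' σ σ' hPκ hs hs'
  have hP : ∀ p ∈ P, p.Prime := fun p hp => (hPκ p hp).1
  set K0 : ℝ := 4 ^ n * (1 + 2 * n) * (1 + 2 * κ0) ^ 2 with hK0
  have h4n : (1 : ℝ) ≤ 4 ^ n := one_le_pow₀ (by norm_num)
  have hn0 : (0 : ℝ) ≤ n := by positivity
  have hκ0 : (0 : ℝ) ≤ κ0 := by positivity
  have hκ1 : (1 : ℝ) ≤ (1 + 2 * κ0) ^ 2 := one_le_pow₀ (by linarith)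
  have h4n2 : (1 : ℝ) ≤ 4 ^ n * (1 + 2 * n) := by nlinarith
  have hK1 : 1 ≤ K0 := by
    rw [hK0]
    nlinarith
  have hdel0 : 0 ≤ ∑ p ∈ P, 1 / ((p : ℝ) - 1) ^ 2 := Finset.sum_nonneg (fun p _ => by positivity)
  have hdel1 := LSAux.del_nonneg Hs P (pos σ ∪ pos σ') hP
  have hdel : 0 ≤ del Hs P (pos σ ∪ pos σ') := hdel0.trans hdel1
  by_cases hemp : pos σ ∪ pos σ' = ∅
  · -- no positions
    rw [Finset.union_eq_empty] at hemp
    have hnone : ∀ τ, σ τ = none := by
      intro τ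
      cases hh : σ τ with
      | none => rfl
      | some a =>
        have h1 : a ∈ pos σ := mem_pos.2 ⟨τ, hh⟩
        rw [hemp.1] at h1
        simp at h1
    have hnone' : ∀ τ, σ' τ = none := by
      intro τ
      cases hh : σ' τ with
      | none => rfl
      | some a =>
        have h1 : a ∈ pos σ' := mem_pos.2 ⟨τ, hh⟩
        rw [hemp.2] at h1
        simp at h1
    have hS : S = fun _ => {∅} := funext fun τ => hs.2.1 τ (hnone τ)
    have hS' : S' = fun _ => {∅} := funext fun τ => hs'.2.1 τ (hnone' τ)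
    constructor
    · rintro (⟨τ, a, h1, -⟩ | ⟨τ, a, h1, -⟩ | ⟨τ, τ', a, h1, -⟩)
      · rw [hnone τ] at h1; simp at h1
      · rw [hnone' τ] at h1; simp at h1
      · rw [hnone τ] at h1; simp at h1
    · intro _ _
      rw [LS_empty Hs q P S S' σ σ' hP hS hS']
      have hGG : ∏ τ, GG q (S τ) = 1 := by
        rw [hS]
        simp [GG, wt]
      rw [hGG, sub_self, abs_zero, hemp.1]
      simp only [Finset.empty_inter, Finset.card_empty, pow_zero, mul_one]
      have : 1 ≤ Real.exp (2 * K0 * del Hs P (∅ ∪ pos σ')) := by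
        rw [hemp.1] at hdel
        exact Real.one_le_exp (by positivity)
      apply mul_nonneg (by positivity)
      linarith
  have hqall : ∀ p ∈ P, 2 ≤ q p ∧ 1 / (q p - 1) ≤ (2 * κ0) * (1 / ((p : ℝ) - 1)) := by
    intro p hp
    obtain ⟨a, ha⟩ := Finset.nonempty_iff_ne_empty.2 hemp
    have hh : Hs p a ⊆ range p ∧ 1 ≤ (Hs p a).card ∧ (Hs p a).card ≤ κ0 ∧
        ((Hs p a).card : ℝ) * q p = p := by
      rw [Finset.mem_union] at ha
      rcases ha with ha | ha
      · exact hs.2.2.2 p hp a ha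
      · exact hs'.2.2.2 p hp a ha
    exact inv_q (hPκ p hp).2 hh.2.1 hh.2.2.1 hh.2.2.2
  have hq2 : ∀ p ∈ P, 2 ≤ q p := fun p hp => (hqall p hp).1
  have hqp : ∀ p ∈ P, 1 / (q p - 1) ≤ (2 * κ0) * (1 / ((p : ℝ) - 1)) := fun p hp => (hqall p hp).2
  have hPi1 : 1 ≤ Pi1 q P := by
    unfold Pi1
    apply Finset.one_le_prod
    intro p hp
    have h2 := hq2 p hp
    have : (0 : ℝ) < q p - 1 := by linarith
    have : (0 : ℝ) ≤ 1 / (q p - 1) := by positivity
    linarith
  have hPd : 0 ≤ Pi1 q P ^ (pos σ ∩ pos σ').card := by positivity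
  have hb := bad_bound hn Hs q P S S' σ σ' hP hs hs' hq2 hqp
  have hexp : Real.exp (K0 * del Hs P (pos σ ∪ pos σ')) ≤
      Real.exp ((2 * K0) * del Hs P (pos σ ∪ pos σ')) := by
    apply Real.exp_le_exp.2
    nlinarith
  have hexp1 : 1 ≤ Real.exp (K0 * del Hs P (pos σ ∪ pos σ')) := Real.one_le_exp (by positivity)
  have hLS := LSAux.LS_eq Hs q P S S' σ σ' hs.2.2.1 hs'.2.2.1
  have hsplit := Finset.sum_filter_add_sum_filter_not
    (Fintype.piFinset S ×ˢ Fintype.piFinset S') (fun x => ∀ p ∈ P, cc x p ∈ GD σ σ')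
    (fun x => ∏ p ∈ P, LSAux.el Hs q (lc σ σ') p (cc x p))
  have hbad : |∑ x ∈ (Fintype.piFinset S ×ˢ Fintype.piFinset S').filter
      (fun x => ¬ ∀ p ∈ P, cc x p ∈ GD σ σ'), ∏ p ∈ P, LSAux.el Hs q (lc σ σ') p (cc x p)| ≤
      Pi1 q P ^ (pos σ ∩ pos σ').card * (Real.exp (K0 * del Hs P (pos σ ∪ pos σ')) - 1) := by
    refine (Finset.abs_sum_le_sum_abs _ _).trans (le_trans (le_of_eq ?_) hb)
    apply Finset.sum_congr rfl
    intro x _
    rw [Finset.abs_prod]
  have hfinal : 2 * (Pi1 q P ^ (pos σ ∩ pos σ').card *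
        (Real.exp (K0 * del Hs P (pos σ ∪ pos σ')) - 1)) ≤
      2 * K0 * Pi1 q P ^ (pos σ ∩ pos σ').card *
        (Real.exp (2 * K0 * del Hs P (pos σ ∪ pos σ')) - 1) := by
    have h1 : Pi1 q P ^ (pos σ ∩ pos σ').card *
        (Real.exp (K0 * del Hs P (pos σ ∪ pos σ')) - 1) ≤
        Pi1 q P ^ (pos σ ∩ pos σ').card *
        (Real.exp (2 * K0 * del Hs P (pos σ ∪ pos σ')) - 1) := by
      gcongr
    have h2 : 0 ≤ Pi1 q P ^ (pos σ ∩ pos σ').card *
        (Real.exp (2 * K0 * del Hs P (pos σ ∪ pos σ')) - 1) := by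
      apply mul_nonneg hPd
      linarith
    nlinarith
  have hnn : 0 ≤ Pi1 q P ^ (pos σ ∩ pos σ').card *
      (Real.exp (K0 * del Hs P (pos σ ∪ pos σ')) - 1) := by
    apply mul_nonneg hPd
    linarith
  constructor
  · intro hdef
    have hempty : (Fintype.piFinset S ×ˢ Fintype.piFinset S').filter
        (fun x => ∀ p ∈ P, cc x p ∈ GD σ σ') = ∅ := by
      rw [Finset.filter_eq_empty_iff]
      exact LSAux.no_good Hs q P S S' σ σ' hs hs' hdef
    rw [hempty, Finset.sum_empty, zero_add] at hsplit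
    rw [hLS, ← hsplit]
    linarith
  · intro h1 h2
    subst h1
    subst h2
    rw [hLS, ← hsplit, LSAux.good_eq Hs q P S σ hP hs hq2, LSAux.GG_prod q P S hs.2.2.1,
      ← Finset.sum_filter_add_sum_filter_not (Fintype.piFinset S)
        (fun R => ∀ p ∈ P, c1 R p ∈ G1 T)
        (fun R => ∏ p ∈ P, (1 / (q p - 1)) ^ (c1 R p).card)]
    have hb2 := LSAux.bad_bound2 hn Hs q P S σ hP hs hq2 hqp
    have hb20 : 0 ≤ ∑ R ∈ (Fintype.piFinset S).filter (fun R => ¬ ∀ p ∈ P, c1 R p ∈ G1 T),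
        ∏ p ∈ P, (1 / (q p - 1)) ^ (c1 R p).card := by
      apply Finset.sum_nonneg
      intro R _
      apply Finset.prod_nonneg
      intro p hp
      have h2 := hq2 p hp
      have : (0 : ℝ) < q p - 1 := by linarith
      positivity
    have hexp2 : Real.exp ((2 ^ n * (1 + 2 * κ0) ^ 2) * ∑ p ∈ P, 1 / ((p : ℝ) - 1) ^ 2) ≤
        Real.exp (K0 * del Hs P (pos σ ∪ pos σ)) := by
      apply Real.exp_le_exp.2
      have h24 : (2 : ℝ) ^ n * (1 + 2 * κ0) ^ 2 ≤ K0 := by
        have h5 : (2 : ℝ) ^ n ≤ 4 ^ n := pow_le_pow_left₀ (by norm_num) (by norm_num) n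
        have h6 : (2 : ℝ) ^ n ≤ 4 ^ n * (1 + 2 * n) := by nlinarith
        rw [hK0]
        gcongr
      gcongr
    have hb3 : ∑ R ∈ (Fintype.piFinset S).filter (fun R => ¬ ∀ p ∈ P, c1 R p ∈ G1 T),
        ∏ p ∈ P, (1 / (q p - 1)) ^ (c1 R p).card ≤
        Pi1 q P ^ (pos σ ∩ pos σ).card * (Real.exp (K0 * del Hs P (pos σ ∪ pos σ)) - 1) := by
      refine hb2.trans ?_
      gcongr
    rw [abs_le] at hbad ⊢
    constructor
    · linarith [hbad.1, hbad.2]
    · linarith [hbad.1, hbad.2]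

end Pool.Agent.H474R2.GE
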