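import Mathlib
import Pool.Agent.H474R2.GE.Iface
import Pool.Agent.H602R2.MomW

/-! h474_tasks GE4: MomW from ExpandW, SumW, LocalSum, several residue classes per prime
(helper880 for helper474; generalisation of helper602's Pool/Agent/H602R2/MomW.lean). -/

set_option autoImplicit false

open Finset

namespace Pool.Agent.H474R2.GE

open Pool.Agent.H410R2.AC Pool.Agent.H410R2.EN

namespace GE4

open Pool.Agent.H602R2 (mem_pos' card_pos_le prod_swap sub_QQ_left sub_QQ_right mem_QQ prod_QQ_le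
  err_nonneg glue)

theorem psi_mod (Hs : ℕ → ℕ → Finset ℕ) (q : ℕ → ℝ) (p : ℕ) (o : Option ℕ) (m : ℕ) :
    psi Hs q p o (m % p) = psi Hs q p o m := by
  cases o with
  | none => rfl
  | some a => simp [psi]

theorem ZZ_expand {T : Type} [Fintype T] [DecidableEq T] (Hs : ℕ → ℕ → Finset ℕ) (q : ℕ → ℝ)
    (S : T → Finset (Finset ℕ)) (σ : T → Option ℕ) (m : ℕ) :
    ZZ Hs q S σ m =
      ∑ R ∈ Fintype.piFinset S, (∏ τ, wt q (R τ)) * ∏ τ, ∏ p ∈ R τ, psi Hs q p (σ τ) m := by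
  unfold ZZ FF
  rw [Finset.prod_univ_sum]
  refine Finset.sum_congr rfl fun R _ => ?_
  rw [Finset.prod_mul_distrib]

/-- product of the two configurations -/
theorem ZZ_mul {T : Type} [Fintype T] [DecidableEq T] (Hs : ℕ → ℕ → Finset ℕ) (q : ℕ → ℝ)
    (S S' : T → Finset (Finset ℕ)) (σ σ' : T → Option ℕ) (m : ℕ) :
    ZZ Hs q S σ m * ZZ Hs q S' σ' m =
      ∑ R ∈ Fintype.piFinset S, ∑ R' ∈ Fintype.piFinset S',
        ((∏ τ, wt q (R τ)) * (∏ τ, wt q (R' τ))) *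
          ∏ p ∈ QQ R R', hh Hs q σ σ' R R' p (m % p) := by
  rw [ZZ_expand, ZZ_expand, Finset.sum_mul_sum]
  refine Finset.sum_congr rfl fun R _ => Finset.sum_congr rfl fun R' _ => ?_
  have h1 : ∏ τ, ∏ p ∈ R τ, psi Hs q p (σ τ) m =
      ∏ p ∈ QQ R R', ∏ τ ∈ univ.filter (fun τ => p ∈ R τ), psi Hs q p (σ τ) (m % p) := by
    rw [prod_swap R (QQ R R') (sub_QQ_left R R')]
    simp only [psi_mod]
  have h2 : ∏ τ, ∏ p ∈ R' τ, psi Hs q p (σ' τ) m =
      ∏ p ∈ QQ R R', ∏ τ ∈ univ.filter (fun τ => p ∈ R' τ), psi Hs q p (σ' τ) (m % p) := by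
    rw [prod_swap R' (QQ R R') (sub_QQ_right R R')]
    simp only [psi_mod]
  have h3 : ∏ p ∈ QQ R R', hh Hs q σ σ' R R' p (m % p) =
      (∏ τ, ∏ p ∈ R τ, psi Hs q p (σ τ) m) * ∏ τ, ∏ p ∈ R' τ, psi Hs q p (σ' τ) m := by
    rw [h1, h2, ← Finset.prod_mul_distrib]
    rfl
  rw [h3]
  ring

/-- the mass as a sum over divisors -/
theorem MM_expand {T : Type} [Fintype T] [DecidableEq T] (Hs : ℕ → ℕ → Finset ℕ) (q : ℕ → ℝ) (P1 : Finset ℕ)
    (w : ℕ → ℝ) (M : ℕ) (S S' : T → Finset (Finset ℕ)) (σ σ' : T → Option ℕ) :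
    MM Hs q P1 w M S S' σ σ' =
      ∑ R ∈ Fintype.piFinset S, ∑ R' ∈ Fintype.piFinset S',
        ((∏ τ, wt q (R τ)) * (∏ τ, wt q (R' τ))) *
          ∑ m ∈ range M, w m * ((∏ a ∈ pos σ ∪ pos σ', rg Hs P1 a m) *
            ∏ p ∈ QQ R R', hh Hs q σ σ' R R' p (m % p)) := by
  unfold MM
  simp only [ZZ_mul, Finset.mul_sum]
  rw [Finset.sum_comm]
  refine Finset.sum_congr rfl fun R _ => ?_
  rw [Finset.sum_comm]
  refine Finset.sum_congr rfl fun R' _ => Finset.sum_congr rfl fun m _ => ?_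
  ring

/-- the local model -/
theorem LS_eq {T : Type} [Fintype T] [DecidableEq T] (Hs : ℕ → ℕ → Finset ℕ) (q : ℕ → ℝ) (P2 : Finset ℕ)
    (hP2 : ∀ p ∈ P2, p.Prime) (S S' : T → Finset (Finset ℕ)) (σ σ' : T → Option ℕ)
    (hS : ∀ τ, ∀ R ∈ S τ, R ⊆ P2) (hS' : ∀ τ, ∀ R ∈ S' τ, R ⊆ P2) :
    LS Hs q P2 S S' σ σ' =
      ∑ R ∈ Fintype.piFinset S, ∑ R' ∈ Fintype.piFinset S',
        ((∏ τ, wt q (R τ)) * (∏ τ, wt q (R' τ))) *
          ∏ p ∈ QQ R R', ((∑ c ∈ range p, hh Hs q σ σ' R R' p c) / (p : ℝ)) := by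
  unfold LS
  refine Finset.sum_congr rfl fun R hR => Finset.sum_congr rfl fun R' hR' => ?_
  congr 1
  rw [Fintype.mem_piFinset] at hR hR'
  have hsub : QQ R R' ⊆ P2 := by
    intro p hp
    rw [mem_QQ] at hp
    rcases hp with ⟨τ, h⟩ | ⟨τ, h⟩
    · exact hS τ _ (hR τ) h
    · exact hS' τ _ (hR' τ) h
  symm
  apply Finset.prod_subset hsub
  intro p hp hpn
  rw [mem_QQ] at hpn
  push Not at hpn
  have e1 : (Finset.univ.filter (fun τ => p ∈ R τ)) = ∅ :=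
    Finset.filter_eq_empty_iff.2 fun τ _ => hpn.1 τ
  have e2 : (Finset.univ.filter (fun τ => p ∈ R' τ)) = ∅ :=
    Finset.filter_eq_empty_iff.2 fun τ _ => hpn.2 τ
  have : ∀ c, hh Hs q σ σ' R R' p c = 1 := by
    intro c
    unfold hh
    rw [e1, e2]; simp
  simp only [this]
  have hp0 : (p : ℝ) ≠ 0 := by exact_mod_cast (hP2 p hp).ne_zero
  simp [hp0]

theorem wt_nonneg (q : ℕ → ℝ) (P : Finset ℕ) (hP : ∀ p ∈ P, 2 ≤ q p) (R : Finset ℕ)
    (h : R ⊆ P) : 0 ≤ wt q R := by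
  unfold wt
  refine Finset.prod_nonneg fun p hp => ?_
  have := hP p (h hp)
  have : (0 : ℝ) ≤ q p - 1 := by linarith
  positivity

theorem dl_mono (e : ℕ → ℕ) (Hs : ℕ → ℕ → Finset ℕ) (P Q U : Finset ℕ) (h : P ⊆ Q)
    (hQ : ∀ p ∈ Q, p.Prime) : dl e Hs P U ≤ dl e Hs Q U := by
  unfold dl
  have hpos : ∀ p ∈ Q, (0 : ℝ) ≤ (p : ℝ) - 1 := by
    intro p hp
    have : (1 : ℝ) ≤ p := by exact_mod_cast (hQ p hp).one_le
    linarith
  refine add_le_add ?_ ?_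
  · refine Finset.sum_le_sum_of_subset_of_nonneg h fun p hp _ => ?_
    positivity
  · refine Finset.sum_le_sum_of_subset_of_nonneg (Finset.filter_subset_filter _ h)
      fun p hp _ => ?_
    have := hpos p (Finset.mem_filter.1 hp).1
    positivity

theorem del_le_dl (e : ℕ → ℕ) (Hs : ℕ → ℕ → Finset ℕ) (P U : Finset ℕ)
    (hQ : ∀ p ∈ P, p.Prime) : del Hs P U ≤ dl e Hs P U := by
  unfold dl del
  have hpos : ∀ p ∈ P, (0 : ℝ) ≤ (p : ℝ) - 1 := by
    intro p hp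
    have : (1 : ℝ) ≤ p := by exact_mod_cast (hQ p hp).one_le
    linarith
  refine add_le_add le_rfl ?_
  refine Finset.sum_le_sum_of_subset_of_nonneg ?_ fun p hp _ => ?_
  · intro p hp
    rw [Finset.mem_filter] at hp ⊢
    exact ⟨hp.1, Or.inl hp.2⟩
  · have := hpos p (Finset.mem_filter.1 hp).1
    positivity

theorem dl_nonneg (e : ℕ → ℕ) (Hs : ℕ → ℕ → Finset ℕ) (P U : Finset ℕ)
    (hQ : ∀ p ∈ P, p.Prime) : 0 ≤ dl e Hs P U := by
  unfold dl
  have hpos : ∀ p ∈ P, (0 : ℝ) ≤ (p : ℝ) - 1 := by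
    intro p hp
    have : (1 : ℝ) ≤ p := by exact_mod_cast (hQ p hp).one_le
    linarith
  refine add_nonneg (Finset.sum_nonneg fun p hp => by positivity) ?_
  refine Finset.sum_nonneg fun p hp => ?_
  have := hpos p (Finset.mem_filter.1 hp).1
  positivity

theorem one_le_Pi1 (q : ℕ → ℝ) (P : Finset ℕ) (hQ : ∀ p ∈ P, 2 ≤ q p) : 1 ≤ Pi1 q P := by
  unfold Pi1
  refine Finset.prod_induction _ (fun x : ℝ => 1 ≤ x)
    (fun a b ha hb => one_le_mul_of_one_le_of_one_le ha hb) le_rfl fun p hp => ?_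
  have := hQ p hp
  have : (0 : ℝ) ≤ q p - 1 := by linarith
  have : (0 : ℝ) ≤ 1 / (q p - 1) := by positivity
  linarith

theorem V1_nonneg (q : ℕ → ℝ) (P : Finset ℕ) (hQ : ∀ p ∈ P, 2 ≤ q p) : 0 ≤ V1 q P := by
  unfold V1
  refine Finset.prod_nonneg fun p hp => ?_
  have h1 := hQ p hp
  have : 1 / q p ≤ 1 := by
    rw [div_le_one (by linarith)]; linarith
  linarith

/-- lower bound for `q p` -/
theorem two_le_q (κ0 : ℕ) (q : ℕ → ℝ) (p : ℕ) (hp : 0 < p) (h2 : 2 * κ0 ≤ p)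
    (h : 1 / (p : ℝ) ≤ 1 / q p ∧ 1 / q p ≤ κ0 / (p : ℝ)) : 2 ≤ q p := by
  have hp' : (0 : ℝ) < p := by exact_mod_cast hp
  have h1 : 0 < 1 / q p := lt_of_lt_of_le (by positivity) h.1
  have hq : 0 < q p := by
    by_contra hcon
    push Not at hcon
    have : 1 / q p ≤ 0 := one_div_nonpos.mpr hcon
    linarith
  have h3 := h.2
  rw [div_le_div_iff₀ hq hp', one_mul] at h3
  have h4 : 2 * (κ0 : ℝ) ≤ p := by exact_mod_cast h2
  have hκ : 0 < (κ0 : ℝ) := by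
    by_contra hcon
    push Not at hcon
    nlinarith
  by_contra hcon
  push Not at hcon
  nlinarith

theorem momW_aux (hE : Pool.Agent.H474R2.GE.ExpandW) (hS : Pool.Agent.H474R2.GE.SumW)
    (hL : Pool.Agent.H474R2.GE.LocalSum) : Pool.Agent.H474R2.GE.MomW := by
  intro n κ0
  obtain ⟨KL, hKL, hL⟩ := hL n κ0
  obtain ⟨KE, hKE, hE⟩ := hE (2 * n) κ0
  obtain ⟨KS, hKS, hS⟩ := hS n κ0
  obtain ⟨KN, hKN⟩ := exists_nat_ge KL
  obtain ⟨K, hK⟩ : ∃ K : ℕ, K = KE + KS + KN + n + 1 + 2 * κ0 := ⟨_, rfl⟩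
  refine ⟨K, by omega, ?_⟩
  intro T _ _ hT b J z0 D0 D2 P1 P2 Hs q κ e w M A err S S' σ σ' δ hb hz hP1 hP2 hDens hw hA hqq
    hEq hD0 hD2 hstd hstd' hρ1 hdl hδ
  have hp1 : ∀ p ∈ P1, p.Prime := fun p hp => (hP1 p hp).1
  have hp2 : ∀ p ∈ P2, p.Prime := fun p hp => (hP2 p hp).1
  have hp12 : ∀ p ∈ P1 ∪ P2, p.Prime := fun p hp => by
    rcases Finset.mem_union.1 hp with h | h
    · exact hp1 p h
    · exact hp2 p h
  have hbig : ∀ p ∈ P1 ∪ P2, 2 * κ0 ≤ p := fun p hp => by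
    rcases Finset.mem_union.1 hp with h | h
    · have := (hP1 p h).2.1
      omega
    · have := (hP2 p h).2.1
      omega
  have hq12 : ∀ p ∈ P1 ∪ P2, 2 ≤ q p := fun p hp =>
    two_le_q κ0 q p (hp12 p hp).pos (hbig p hp) (hqq p hp)
  have hq1 : ∀ p ∈ P1, 2 ≤ q p := fun p hp => hq12 p (Finset.mem_union_left _ hp)
  have hq2 : ∀ p ∈ P2, 2 ≤ q p := fun p hp => hq12 p (Finset.mem_union_right _ hp)
  have hb2 : ∀ p ∈ P2, 2 * κ0 ≤ p := fun p hp => hbig p (Finset.mem_union_right _ hp)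
  have hdis : Disjoint P1 P2 := by
    rw [Finset.disjoint_left]
    intro p h1 h2
    exact absurd (hP1 p h1).2.2 (not_le.2 (hP2 p h2).2.2)
  have hRS : ∀ R ∈ Fintype.piFinset S, ∀ τ, R τ ⊆ P2 := fun R hR τ =>
    hstd.2.2.1 τ _ (Fintype.mem_piFinset.1 hR τ)
  have hRS' : ∀ R ∈ Fintype.piFinset S', ∀ τ, R τ ⊆ P2 := fun R hR τ =>
    hstd'.2.2.1 τ _ (Fintype.mem_piFinset.1 hR τ)
  have hUcard : (pos σ ∪ pos σ').card ≤ 2 * n := by
    refine (Finset.card_union_le _ _).trans ?_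
    have := card_pos_le σ
    have := card_pos_le σ'
    omega
  have herr := err_nonneg κ w M A (P1 ∪ P2) D0 err hp12 hEq
  have hKE' : KE ≤ K := by omega
  have hKS' : KS ≤ K := by omega
  have hL1 : (2 ^ 2 ^ J) ^ (KE * b) * D2 ≤ D0 := by
    refine le_trans ?_ hD0
    refine Nat.mul_le_mul_right _ ?_
    exact Nat.pow_le_pow_right (by positivity) (Nat.mul_le_mul_right _ hKE')
  have hW : ∀ R ∈ Fintype.piFinset S, ∀ R' ∈ Fintype.piFinset S',
      0 ≤ (∏ τ, wt q (R τ)) * (∏ τ, wt q (R' τ)) := by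
    intro R hR R' hR'
    exact mul_nonneg (Finset.prod_nonneg fun τ _ => wt_nonneg q P2 hq2 _ (hRS R hR τ))
      (Finset.prod_nonneg fun τ _ => wt_nonneg q P2 hq2 _ (hRS' R' hR' τ))

  have hδ0 : 0 ≤ δ := (dl_nonneg e Hs (P1 ∪ P2) _ hp12).trans hdl
  have hdl1 : dl e Hs P1 (pos σ ∪ pos σ') ≤ δ :=
    (dl_mono e Hs P1 (P1 ∪ P2) _ Finset.subset_union_left hp12).trans hdl
  have hdl2 : dl e Hs P2 (pos σ ∪ pos σ') ≤ δ :=
    (dl_mono e Hs P2 (P1 ∪ P2) _ Finset.subset_union_right hp12).trans hdl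
  have hv : 0 ≤ V1 q P1 ^ (pos σ ∪ pos σ').card := pow_nonneg (V1_nonneg q P1 hq1) _
  have hPi := one_le_Pi1 q P2 hq2
  -- nonnegative truncated errors
  obtain ⟨F0, hF0⟩ : ∃ F0 : Finset ℕ → ℝ, F0 = fun T2 =>
      ∑ T1 ∈ P1.powerset.filter (fun T : Finset ℕ => ∏ p ∈ T, p ≤ (2 ^ 2 ^ J) ^ (KE * b)),
        (KE : ℝ) ^ T1.card * err (T1 ∪ T2) := ⟨_, rfl⟩
  have hF0n : ∀ T2 ⊆ P2, ∏ p ∈ T2, p ≤ D2 → 0 ≤ F0 T2 := by
    intro T2 hT2 hD
    rw [hF0]
    refine Finset.sum_nonneg fun T1 hT1 => ?_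
    rw [Finset.mem_filter, Finset.mem_powerset] at hT1
    have hd : Disjoint T1 T2 := Finset.disjoint_of_subset_left hT1.1
      (Finset.disjoint_of_subset_right hT2 hdis)
    have : 0 ≤ err (T1 ∪ T2) := by
      refine herr _ (Finset.union_subset_union hT1.1 hT2) ?_
      rw [Finset.prod_union hd]
      exact (Nat.mul_le_mul hT1.2 hD).trans hL1
    positivity
  obtain ⟨F, hF⟩ : ∃ F : Finset ℕ → ℝ, F = fun T2 =>
      if T2 ⊆ P2 ∧ ∏ p ∈ T2, p ≤ D2 then F0 T2 else 0 := ⟨_, rfl⟩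
  have hFn : ∀ T2, 0 ≤ F T2 := by
    intro T2
    rw [hF]
    simp only
    split_ifs with h
    · exact hF0n T2 h.1 h.2
    · exact le_rfl
  obtain ⟨s1, s2, s3⟩ := hS T hT P2 Hs q e S S' σ σ'
    (fun p hp => ⟨hp2 p hp, hb2 p hp, hq2 p hp⟩) hstd hstd'
  have s3' := s3 F D2 hFn hD2
  -- the error sum
  have hET : ∑ T2 ∈ P2.powerset.filter (fun T : Finset ℕ => ∏ p ∈ T, p ≤ D2),
      (KS : ℝ) ^ T2.card * F T2 ≤ ET K (P1 ∪ P2) D0 err := by
    refine le_trans (le_of_eq ?_) (glue K KE KS ((2 ^ 2 ^ J) ^ (KE * b)) D2 D0 P1 P2 err hdis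
      hp1 hp2 hKE' hKS' hL1 herr)
    refine Finset.sum_congr rfl fun T2 hT2 => ?_
    rw [Finset.mem_filter, Finset.mem_powerset] at hT2
    rw [hF]
    simp only
    rw [if_pos hT2, hF0]
  have hETn : 0 ≤ ET K (P1 ∪ P2) D0 err := by
    unfold ET
    refine Finset.sum_nonneg fun T2 hT2 => ?_
    rw [Finset.mem_filter, Finset.mem_powerset] at hT2
    have := herr T2 hT2.1 hT2.2
    positivity
  -- the key estimate
  have key : ∀ R ∈ Fintype.piFinset S, ∀ R' ∈ Fintype.piFinset S',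
      |∑ m ∈ range M, w m * ((∏ a ∈ pos σ ∪ pos σ', rg Hs P1 a m) *
            ∏ p ∈ QQ R R', hh Hs q σ σ' R R' p (m % p)) -
        A * V1 q P1 ^ (pos σ ∪ pos σ').card *
          ∏ p ∈ QQ R R', ((∑ c ∈ range p, hh Hs q σ σ' R R' p c) / (p : ℝ))| ≤
      A * V1 q P1 ^ (pos σ ∪ pos σ').card *
        (KE * (Real.exp (KE * δ) - 1 + (1 / 2 : ℝ) ^ b) *
            ∏ p ∈ QQ R R', (1 + aL (CL Hs σ σ' p) (hh Hs q σ σ' R R' p) p) +
          (∏ p ∈ QQ R R', (1 + aL (CL Hs σ σ' p) (hh Hs q σ σ' R R' p) p +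
              dL (CL Hs σ σ' p) (hh Hs q σ σ' R R' p) (e p) p) -
            ∏ p ∈ QQ R R', (1 + aL (CL Hs σ σ' p) (hh Hs q σ σ' R R' p) p))) +
      ((J : ℝ) + 2) * ∑ T2 ∈ (QQ R R').powerset,
        (∏ p ∈ T2, sL (CL Hs σ σ' p) (hh Hs q σ σ' R R' p)) * F T2 := by
    intro R hR R' hR'
    have hsub : QQ R R' ⊆ P2 := by
      intro p hp
      rw [mem_QQ] at hp
      rcases hp with ⟨τ, h⟩ | ⟨τ, h⟩
      · exact hRS R hR τ h
      · exact hRS' R' hR' τ h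
    have hprod : ∏ p ∈ QQ R R', p ≤ D2 :=
      (prod_QQ_le P2 hp2 R R' (hRS R hR) (hRS' R' hR')).trans (hD2 R hR R' hR')
    have hcl : ∀ p ∈ QQ R R', CL Hs σ σ' p ⊆ range p ∧
        ∀ c < p, c ∉ CL Hs σ σ' p → hh Hs q σ σ' R R' p c = 1 := by
      intro p hp
      have hpP := hsub hp
      refine ⟨?_, ?_⟩
      · intro c hc
        unfold CL at hc
        rw [Finset.mem_biUnion] at hc
        obtain ⟨a, ha, hc⟩ := hc
        rcases Finset.mem_union.1 ha with h | h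
        · exact (hstd.2.2.2 p hpP a h).1 hc
        · exact (hstd'.2.2.2 p hpP a h).1 hc
      · intro c hc hcn
        have hone : ∀ o : Option ℕ, (∀ a, o = some a → a ∈ pos σ ∪ pos σ') →
            psi Hs q p o c = 1 := by
          intro o ho
          cases o with
          | none => rfl
          | some a =>
            have ha := ho a rfl
            unfold psi
            simp only
            rw [if_neg]
            rw [Nat.mod_eq_of_lt hc]
            intro hca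
            apply hcn
            unfold CL
            exact Finset.mem_biUnion.2 ⟨a, ha, hca⟩
        unfold hh
        rw [Finset.prod_eq_one, Finset.prod_eq_one, one_mul]
        · intro τ _
          exact hone _ fun a ha => Finset.mem_union_right _ ((mem_pos' σ' a).2 ⟨τ, ha⟩)
        · intro τ _
          exact hone _ fun a ha => Finset.mem_union_left _ ((mem_pos' σ a).2 ⟨τ, ha⟩)
    have := hE b J z0 D0 D2 P1 P2 Hs q κ e w M A err (pos σ ∪ pos σ') (QQ R R')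
      (hh Hs q σ σ' R R') (CL Hs σ σ') δ hUcard (hKE'.trans hb) (hKE'.trans hz) hP1 hP2 hDens hw hA
      hEq hsub hprod hL1 hρ1 (fun p hp => hqq p (Finset.mem_union_left _ hp)) hcl hdl1 hδ
    refine this.trans (le_of_eq ?_)
    congr 2
    refine Finset.sum_congr rfl fun T2 hT2 => ?_
    rw [Finset.mem_powerset] at hT2
    have hc : T2 ⊆ P2 ∧ ∏ p ∈ T2, p ≤ D2 := by
      refine ⟨hT2.trans hsub, le_trans ?_ hprod⟩
      exact Finset.prod_le_prod_of_subset_of_one_le' hT2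
        (fun p hp _ => (hp2 p (hsub hp)).one_le)
    rw [hF]
    simp only
    rw [if_pos hc, hF0]
  have main : |MM Hs q P1 w M S S' σ σ' -
      A * V1 q P1 ^ (pos σ ∪ pos σ').card * LS Hs q P2 S S' σ σ'| ≤
      A * V1 q P1 ^ (pos σ ∪ pos σ').card *
        (KE * (Real.exp (KE * δ) - 1 + (1 / 2 : ℝ) ^ b) * Pi1 q P2 ^ KS +
          Pi1 q P2 ^ KS * (Real.exp (KS * δ) - 1)) +
      ((J : ℝ) + 2) * (Pi1 q P2 ^ KS * ET K (P1 ∪ P2) D0 err) := by
    rw [MM_expand, LS_eq Hs q P2 hp2 S S' σ σ' hstd.2.2.1 hstd'.2.2.1, Finset.mul_sum,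
      ← Finset.sum_sub_distrib]
    have e1 : ∑ R ∈ Fintype.piFinset S, (∑ R' ∈ Fintype.piFinset S',
          ((∏ τ, wt q (R τ)) * (∏ τ, wt q (R' τ))) *
            ∑ m ∈ range M, w m * ((∏ a ∈ pos σ ∪ pos σ', rg Hs P1 a m) *
              ∏ p ∈ QQ R R', hh Hs q σ σ' R R' p (m % p)) -
        A * V1 q P1 ^ (pos σ ∪ pos σ').card * ∑ R' ∈ Fintype.piFinset S',
          ((∏ τ, wt q (R τ)) * (∏ τ, wt q (R' τ))) *
            ∏ p ∈ QQ R R', ((∑ c ∈ range p, hh Hs q σ σ' R R' p c) / (p : ℝ))) =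
      ∑ R ∈ Fintype.piFinset S, ∑ R' ∈ Fintype.piFinset S',
          ((∏ τ, wt q (R τ)) * (∏ τ, wt q (R' τ))) *
            (∑ m ∈ range M, w m * ((∏ a ∈ pos σ ∪ pos σ', rg Hs P1 a m) *
              ∏ p ∈ QQ R R', hh Hs q σ σ' R R' p (m % p)) -
            A * V1 q P1 ^ (pos σ ∪ pos σ').card *
              ∏ p ∈ QQ R R', ((∑ c ∈ range p, hh Hs q σ σ' R R' p c) / (p : ℝ))) := by
      refine Finset.sum_congr rfl fun R _ => ?_
      rw [Finset.mul_sum, ← Finset.sum_sub_distrib]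
      refine Finset.sum_congr rfl fun R' _ => ?_
      ring
    rw [e1]
    refine (Finset.abs_sum_le_sum_abs _ _).trans ?_
    have e2 : ∀ R ∈ Fintype.piFinset S, |∑ R' ∈ Fintype.piFinset S',
          ((∏ τ, wt q (R τ)) * (∏ τ, wt q (R' τ))) *
            (∑ m ∈ range M, w m * ((∏ a ∈ pos σ ∪ pos σ', rg Hs P1 a m) *
              ∏ p ∈ QQ R R', hh Hs q σ σ' R R' p (m % p)) -
            A * V1 q P1 ^ (pos σ ∪ pos σ').card *
              ∏ p ∈ QQ R R', ((∑ c ∈ range p, hh Hs q σ σ' R R' p c) / (p : ℝ)))| ≤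
        ∑ R' ∈ Fintype.piFinset S', ((∏ τ, wt q (R τ)) * (∏ τ, wt q (R' τ))) *
          (A * V1 q P1 ^ (pos σ ∪ pos σ').card *
            (KE * (Real.exp (KE * δ) - 1 + (1 / 2 : ℝ) ^ b) *
                ∏ p ∈ QQ R R', (1 + aL (CL Hs σ σ' p) (hh Hs q σ σ' R R' p) p) +
              (∏ p ∈ QQ R R', (1 + aL (CL Hs σ σ' p) (hh Hs q σ σ' R R' p) p +
                  dL (CL Hs σ σ' p) (hh Hs q σ σ' R R' p) (e p) p) -
                ∏ p ∈ QQ R R', (1 + aL (CL Hs σ σ' p) (hh Hs q σ σ' R R' p) p))) +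
          ((J : ℝ) + 2) * ∑ T2 ∈ (QQ R R').powerset,
            (∏ p ∈ T2, sL (CL Hs σ σ' p) (hh Hs q σ σ' R R' p)) * F T2) := by
      intro R hR
      refine (Finset.abs_sum_le_sum_abs _ _).trans ?_
      refine Finset.sum_le_sum fun R' hR' => ?_
      rw [abs_mul, abs_of_nonneg (hW R hR R' hR')]
      exact mul_le_mul_of_nonneg_left (key R hR R' hR') (hW R hR R' hR')
    refine (Finset.sum_le_sum e2).trans ?_
    have e3 : ∑ R ∈ Fintype.piFinset S, ∑ R' ∈ Fintype.piFinset S',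
          ((∏ τ, wt q (R τ)) * (∏ τ, wt q (R' τ))) *
          (A * V1 q P1 ^ (pos σ ∪ pos σ').card *
            (KE * (Real.exp (KE * δ) - 1 + (1 / 2 : ℝ) ^ b) *
                ∏ p ∈ QQ R R', (1 + aL (CL Hs σ σ' p) (hh Hs q σ σ' R R' p) p) +
              (∏ p ∈ QQ R R', (1 + aL (CL Hs σ σ' p) (hh Hs q σ σ' R R' p) p +
                  dL (CL Hs σ σ' p) (hh Hs q σ σ' R R' p) (e p) p) -
                ∏ p ∈ QQ R R', (1 + aL (CL Hs σ σ' p) (hh Hs q σ σ' R R' p) p))) +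
          ((J : ℝ) + 2) * ∑ T2 ∈ (QQ R R').powerset,
            (∏ p ∈ T2, sL (CL Hs σ σ' p) (hh Hs q σ σ' R R' p)) * F T2) =
        A * V1 q P1 ^ (pos σ ∪ pos σ').card *
          (KE * (Real.exp (KE * δ) - 1 + (1 / 2 : ℝ) ^ b) *
            (∑ R ∈ Fintype.piFinset S, ∑ R' ∈ Fintype.piFinset S',
              (∏ τ, wt q (R τ)) * (∏ τ, wt q (R' τ)) *
              ∏ p ∈ QQ R R', (1 + aL (CL Hs σ σ' p) (hh Hs q σ σ' R R' p) p)) +
            (∑ R ∈ Fintype.piFinset S, ∑ R' ∈ Fintype.piFinset S',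
              (∏ τ, wt q (R τ)) * (∏ τ, wt q (R' τ)) *
              (∏ p ∈ QQ R R', (1 + aL (CL Hs σ σ' p) (hh Hs q σ σ' R R' p) p +
                  dL (CL Hs σ σ' p) (hh Hs q σ σ' R R' p) (e p) p) -
                ∏ p ∈ QQ R R', (1 + aL (CL Hs σ σ' p) (hh Hs q σ σ' R R' p) p)))) +
          ((J : ℝ) + 2) * (∑ R ∈ Fintype.piFinset S, ∑ R' ∈ Fintype.piFinset S',
            (∏ τ, wt q (R τ)) * (∏ τ, wt q (R' τ)) * ∑ T2 ∈ (QQ R R').powerset,
            (∏ p ∈ T2, sL (CL Hs σ σ' p) (hh Hs q σ σ' R R' p)) * F T2) := by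
      simp only [Finset.mul_sum (s := Fintype.piFinset S), Finset.mul_sum (s := Fintype.piFinset S'),
        ← Finset.sum_add_distrib]
      refine Finset.sum_congr rfl fun R _ => Finset.sum_congr rfl fun R' _ => ?_
      ring
    rw [e3]
    have hexp1 : 0 ≤ Real.exp (KE * δ) - 1 + (1 / 2 : ℝ) ^ b := by
      have : 1 ≤ Real.exp (KE * δ) := Real.one_le_exp (by positivity)
      have : (0 : ℝ) ≤ (1 / 2 : ℝ) ^ b := by positivity
      linarith
    have hPiS : 0 ≤ Pi1 q P2 ^ KS := by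
      have : 0 ≤ Pi1 q P2 := by linarith
      positivity
    have hs2 : Pi1 q P2 ^ KS * (Real.exp (KS * dl e Hs P2 (pos σ ∪ pos σ')) - 1) ≤
        Pi1 q P2 ^ KS * (Real.exp (KS * δ) - 1) := by
      refine mul_le_mul_of_nonneg_left ?_ hPiS
      have : Real.exp (KS * dl e Hs P2 (pos σ ∪ pos σ')) ≤ Real.exp (KS * δ) :=
        Real.exp_le_exp.2 (mul_le_mul_of_nonneg_left hdl2 (Nat.cast_nonneg _))
      linarith
    refine add_le_add (mul_le_mul_of_nonneg_left (add_le_add ?_ ?_) (mul_nonneg hA hv)) ?_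
    · refine mul_le_mul_of_nonneg_left s1 (mul_nonneg (Nat.cast_nonneg _) hexp1)
    · exact s2.trans hs2
    · refine mul_le_mul_of_nonneg_left ?_ (by positivity)
      exact s3'.trans (mul_le_mul_of_nonneg_left hET hPiS)
  -- combination with the local sum
  have comb : ∀ L : ℝ, |LS Hs q P2 S S' σ σ' - L| ≤
      KL * Pi1 q P2 ^ (pos σ ∩ pos σ').card *
        (Real.exp (KL * del Hs P2 (pos σ ∪ pos σ')) - 1) →
      |MM Hs q P1 w M S S' σ σ' - A * V1 q P1 ^ (pos σ ∪ pos σ').card * L| ≤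
      EE q K b J P2 A (V1 q P1 ^ (pos σ ∪ pos σ').card) δ (ET K (P1 ∪ P2) D0 err) := by
    intro L hLS
    have hPi0 : 0 ≤ Pi1 q P2 := by linarith
    have f1 : Pi1 q P2 ^ (pos σ ∩ pos σ').card ≤ Pi1 q P2 ^ K := by
      refine pow_le_pow_right₀ hPi ?_
      have h1 := Finset.card_le_card (Finset.inter_subset_left (s₁ := pos σ) (s₂ := pos σ'))
      have h2 := card_pos_le σ
      omega
    have f2 : Pi1 q P2 ^ KS ≤ Pi1 q P2 ^ K := pow_le_pow_right₀ hPi hKS'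
    have g1 : Real.exp (KE * δ) ≤ Real.exp (K * δ) := by
      refine Real.exp_le_exp.2 (mul_le_mul_of_nonneg_right ?_ hδ0)
      exact_mod_cast hKE'
    have g2 : Real.exp (KS * δ) ≤ Real.exp (K * δ) := by
      refine Real.exp_le_exp.2 (mul_le_mul_of_nonneg_right ?_ hδ0)
      exact_mod_cast hKS'
    have hKLK : KL ≤ K := by
      refine hKN.trans ?_
      exact_mod_cast (by omega : KN ≤ K)
    have g3 : Real.exp (KL * del Hs P2 (pos σ ∪ pos σ')) ≤ Real.exp (K * δ) := by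
      refine Real.exp_le_exp.2 ?_
      refine (mul_le_mul_of_nonneg_left
        ((del_le_dl e Hs P2 _ hp2).trans hdl2) hKL).trans ?_
      exact mul_le_mul_of_nonneg_right hKLK hδ0
    have h1K : 1 ≤ Real.exp (K * δ) := Real.one_le_exp (by positivity)
    have hhalf : (0 : ℝ) ≤ (1 / 2 : ℝ) ^ b := by positivity
    obtain ⟨x, hx⟩ : ∃ x, x = Real.exp (K * δ) - 1 := ⟨_, rfl⟩
    have hx0 : 0 ≤ x := by rw [hx]; linarith
    obtain ⟨Q, hQ⟩ : ∃ Q, Q = Pi1 q P2 ^ K := ⟨_, rfl⟩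
    have hQ0 : 0 ≤ Q := by rw [hQ]; positivity
    have hPS0 : 0 ≤ Pi1 q P2 ^ KS := by positivity
    have t1 : |LS Hs q P2 S S' σ σ' - L| ≤ KL * Q * x := by
      refine hLS.trans ?_
      rw [hQ, hx]
      have y1 : Real.exp (KL * del Hs P2 (pos σ ∪ pos σ')) - 1 ≤ Real.exp (K * δ) - 1 := by
        linarith
      have y2 : KL * Pi1 q P2 ^ (pos σ ∩ pos σ').card ≤ KL * Pi1 q P2 ^ K :=
        mul_le_mul_of_nonneg_left f1 hKL
      have y3 : 0 ≤ KL * Pi1 q P2 ^ (pos σ ∩ pos σ').card := by positivity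
      refine (mul_le_mul_of_nonneg_left y1 y3).trans (mul_le_mul_of_nonneg_right y2 ?_)
      linarith
    have t2 : KE * (Real.exp (KE * δ) - 1 + (1 / 2 : ℝ) ^ b) * Pi1 q P2 ^ KS ≤
        KE * (x + (1 / 2 : ℝ) ^ b) * Q := by
      have y1 : Real.exp (KE * δ) - 1 + (1 / 2 : ℝ) ^ b ≤ x + (1 / 2 : ℝ) ^ b := by
        rw [hx]; linarith
      have y2 : KE * (Real.exp (KE * δ) - 1 + (1 / 2 : ℝ) ^ b) ≤
          KE * (x + (1 / 2 : ℝ) ^ b) := mul_le_mul_of_nonneg_left y1 (Nat.cast_nonneg _)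
      refine (mul_le_mul_of_nonneg_right y2 hPS0).trans ?_
      rw [hQ]
      refine mul_le_mul_of_nonneg_left f2 ?_
      positivity
    have t3 : Pi1 q P2 ^ KS * (Real.exp (KS * δ) - 1) ≤ Q * x := by
      have y1 : Real.exp (KS * δ) - 1 ≤ x := by rw [hx]; linarith
      refine (mul_le_mul_of_nonneg_left y1 hPS0).trans ?_
      rw [hQ]
      exact mul_le_mul_of_nonneg_right f2 hx0
    have t4 : Pi1 q P2 ^ KS * ET K (P1 ∪ P2) D0 err ≤ Q * ET K (P1 ∪ P2) D0 err := by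
      rw [hQ]
      exact mul_le_mul_of_nonneg_right f2 hETn
    have hsplit : MM Hs q P1 w M S S' σ σ' - A * V1 q P1 ^ (pos σ ∪ pos σ').card * L =
        (MM Hs q P1 w M S S' σ σ' -
          A * V1 q P1 ^ (pos σ ∪ pos σ').card * LS Hs q P2 S S' σ σ') +
        A * V1 q P1 ^ (pos σ ∪ pos σ').card * (LS Hs q P2 S S' σ σ' - L) := by ring
    have hAv : 0 ≤ A * V1 q P1 ^ (pos σ ∪ pos σ').card := mul_nonneg hA hv
    have hJ : (0 : ℝ) ≤ (J : ℝ) + 2 := by positivity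
    rw [hsplit]
    refine (abs_add_le _ _).trans ?_
    rw [abs_mul (A * V1 q P1 ^ (pos σ ∪ pos σ').card), abs_of_nonneg hAv]
    unfold EE
    rw [← hQ, ← hx]
    have hKr : (KE : ℝ) + 1 + KL ≤ K := by
      have : (K : ℝ) = KE + KS + KN + n + 1 + 2 * κ0 := by rw [hK]; push_cast; ring
      have h1 : (0 : ℝ) ≤ KS := Nat.cast_nonneg _
      have h2 : (0 : ℝ) ≤ n := Nat.cast_nonneg _
      have h3 : (0 : ℝ) ≤ κ0 := Nat.cast_nonneg _
      linarith
    have hK1 : (1 : ℝ) ≤ K := by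
      have h1 : (0 : ℝ) ≤ KE := Nat.cast_nonneg _
      linarith
    calc |MM Hs q P1 w M S S' σ σ' -
            A * V1 q P1 ^ (pos σ ∪ pos σ').card * LS Hs q P2 S S' σ σ'| +
          A * V1 q P1 ^ (pos σ ∪ pos σ').card * |LS Hs q P2 S S' σ σ' - L|
        ≤ (A * V1 q P1 ^ (pos σ ∪ pos σ').card *
            (KE * (x + (1 / 2 : ℝ) ^ b) * Q + Q * x) +
            ((J : ℝ) + 2) * (Q * ET K (P1 ∪ P2) D0 err)) +
          A * V1 q P1 ^ (pos σ ∪ pos σ').card * (KL * Q * x) := by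
          refine add_le_add (main.trans (add_le_add ?_ ?_)) ?_
          · exact mul_le_mul_of_nonneg_left (add_le_add t2 t3) hAv
          · exact mul_le_mul_of_nonneg_left t4 hJ
          · exact mul_le_mul_of_nonneg_left t1 hAv
      _ = A * V1 q P1 ^ (pos σ ∪ pos σ').card *
            (KE * (x + (1 / 2 : ℝ) ^ b) * Q + Q * x + KL * Q * x) +
            ((J : ℝ) + 2) * (Q * ET K (P1 ∪ P2) D0 err) := by ring
      _ ≤ A * V1 q P1 ^ (pos σ ∪ pos σ').card * (K * Q * (x + (1 / 2 : ℝ) ^ b)) +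
            K * Q * (((J : ℝ) + 2) * ET K (P1 ∪ P2) D0 err) := by
          refine add_le_add (mul_le_mul_of_nonneg_left ?_ hAv) ?_
          · have z1 : KE * (x + (1 / 2 : ℝ) ^ b) * Q + Q * x + KL * Q * x ≤
                (KE + 1 + KL) * (Q * (x + (1 / 2 : ℝ) ^ b)) := by
              have : 0 ≤ Q * (1 / 2 : ℝ) ^ b := by positivity
              have : 0 ≤ KL * (Q * (1 / 2 : ℝ) ^ b) := by positivity
              nlinarith
            refine z1.trans ?_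
            rw [mul_assoc (K : ℝ)]
            refine mul_le_mul_of_nonneg_right hKr ?_
            positivity
          · have z2 : 0 ≤ Q * (((J : ℝ) + 2) * ET K (P1 ∪ P2) D0 err) := by positivity
            have z3 : ((J : ℝ) + 2) * (Q * ET K (P1 ∪ P2) D0 err) =
              1 * (Q * (((J : ℝ) + 2) * ET K (P1 ∪ P2) D0 err)) := by ring
            rw [z3, mul_assoc (K : ℝ)]
            exact mul_le_mul_of_nonneg_right hK1 z2
  obtain ⟨l1, l2⟩ := hL T hT P2 Hs q S S' σ σ'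
    (fun p hp => ⟨hp2 p hp, hb2 p hp⟩) hstd hstd'
  refine ⟨fun hdef => ?_, fun h1 h2 => ?_⟩
  · have := comb 0 (by simpa using l1 hdef)
    simpa using this
  · exact comb _ (l2 h1 h2)

end GE4

/-- GE4 -/
theorem momW_of (h1 : Pool.Agent.H474R2.GE.ExpandW) (h2 : Pool.Agent.H474R2.GE.SumW)
    (h3 : Pool.Agent.H474R2.GE.LocalSum) : Pool.Agent.H474R2.GE.MomW := GE4.momW_aux h1 h2 h3

end Pool.Agent.H474R2.GE
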