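import Pool.Agent.H474R2.GE.Iface
import Pool.Agent.H474R2.PG.Rough

/-! # GE8: number theoretic estimates (Rankin's trick) for the general engine -/

set_option autoImplicit false

namespace Pool.Agent.H474R2.GE

open Finset
open Pool.Agent.H410R2.AC Pool.Agent.H410R2.EN

namespace NTqAux

theorem facts {κ0 : ℕ} {q : ℕ → ℝ} {p : ℕ} (hk : 1 ≤ κ0) (hp : 2 * κ0 ≤ p)
    (h1 : 1 / (p : ℝ) ≤ 1 / q p) (h2 : 1 / q p ≤ κ0 / (p : ℝ)) :
    2 ≤ q p ∧ 0 ≤ 1 / (q p - 1) ∧ 1 / (q p - 1) ≤ 2 * κ0 / p ∧
      1 / (q p - 1) ≤ 1 / q p + 2 * (κ0 : ℝ) ^ 2 * ((p : ℝ) ^ 2)⁻¹ ∧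
      Real.exp (1 / q p) ≤ 1 + 1 / (q p - 1) := by
  have hk' : (1 : ℝ) ≤ κ0 := by exact_mod_cast hk
  have hp' : 2 * (κ0 : ℝ) ≤ p := by exact_mod_cast hp
  have hp0 : (0 : ℝ) < p := by linarith
  have hq0 : 0 < q p := by
    have : 0 < 1 / q p := lt_of_lt_of_le (by positivity) h1
    exact one_div_pos.1 this
  have hle : (p : ℝ) ≤ κ0 * q p := by
    rw [div_le_div_iff₀ hq0 hp0] at h2
    linarith
  have hq2 : 2 ≤ q p := by
    by_contra hcon
    push Not at hcon
    nlinarith
  have hq1 : 0 < q p - 1 := by linarith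
  have hinv : 1 / (q p - 1) ≤ 2 / q p := by
    rw [div_le_div_iff₀ hq1 hq0]
    linarith
  have hsmall : 2 / q p ≤ 2 * κ0 / p := by
    have : 2 / q p = 2 * (1 / q p) := by ring
    rw [this]
    calc 2 * (1 / q p) ≤ 2 * (κ0 / (p : ℝ)) := by gcongr
      _ = 2 * κ0 / p := by ring
  refine ⟨hq2, by positivity, hinv.trans hsmall, ?_, ?_⟩
  · have e : 1 / (q p - 1) = 1 / q p + (1 / q p) * (1 / (q p - 1)) := by
      field_simp
      ring
    rw [e]
    have h3 : (1 / q p) * (1 / (q p - 1)) ≤ (κ0 / (p : ℝ)) * (2 * κ0 / p) :=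
      mul_le_mul h2 (hinv.trans hsmall) (by positivity) (by positivity)
    have e2 : (κ0 / (p : ℝ)) * (2 * κ0 / p) = 2 * (κ0 : ℝ) ^ 2 * ((p : ℝ) ^ 2)⁻¹ := by
      field_simp
    linarith
  · have e : 1 + 1 / (q p - 1) = (1 - 1 / q p)⁻¹ := by
      have : q p - 1 ≠ 0 := hq1.ne'
      have h4 : 1 - 1 / q p = (q p - 1) / q p := by field_simp
      rw [h4, inv_div]
      field_simp
      ring
    rw [e]
    have h5 : 0 < 1 - 1 / q p := by
      have : 1 / q p ≤ 1 / 2 := by
        apply one_div_le_one_div_of_le (by norm_num) hq2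
      linarith
    rw [le_inv_comm₀ (Real.exp_pos _) h5, ← Real.exp_neg]
    linarith [Real.add_one_le_exp (-(1 / q p))]

end NTqAux

open NTqAux Pool.Agent.H474R2.PG.RoughAux in
/-- GE8 -/
theorem nTq : NTq := by
  classical
  intro κ0 C hk hC
  obtain ⟨C', hC'0, hC'⟩ := log_sum_le
  obtain ⟨s, hs⟩ : ∃ s : ℝ, s = 4 * κ0 * (1 + C') + 2 := ⟨_, rfl⟩
  have hk' : (1 : ℝ) ≤ κ0 := by exact_mod_cast hk
  have hs2 : 2 ≤ s := by
    rw [hs]
    have : 0 ≤ 4 * (κ0 : ℝ) * (1 + C') := by positivity
    linarith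
  have hs0 : 0 < s := by linarith
  obtain ⟨D, hD⟩ : ∃ D : ℝ, D = Real.exp (C + 2 * (κ0 : ℝ) ^ 2) := ⟨_, rfl⟩
  have hD1 : 1 ≤ D := by
    rw [hD]
    exact Real.one_le_exp (by positivity)
  refine ⟨4 * s * D, by nlinarith, 2 * κ0 + 3, by omega, ?_⟩
  intro z0 z2 P q hK hz hP hM hq
  have hPf : ∀ p ∈ P, 2 * κ0 ≤ p ∧ p.Prime ∧ z0 < p := by
    intro p hp
    have h1 := hP hp
    unfold PP at h1
    rw [mem_filter] at h1
    exact ⟨by omega, h1.2.1, h1.2.2⟩
  have hF : ∀ p ∈ P, 2 ≤ q p ∧ 0 ≤ 1 / (q p - 1) ∧ 1 / (q p - 1) ≤ 2 * κ0 / p ∧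
      1 / (q p - 1) ≤ 1 / q p + 2 * (κ0 : ℝ) ^ 2 * ((p : ℝ) ^ 2)⁻¹ ∧
      Real.exp (1 / q p) ≤ 1 + 1 / (q p - 1) := fun p hp =>
    facts hk (hPf p hp).1 (hq p hp).1 (hq p hp).2
  have hlog1 : ∀ a : ℕ, z0 ≤ a → 1 ≤ Real.log a := by
    intro a ha
    have ha3 : (3 : ℝ) ≤ a := by
      have : 3 ≤ a := by omega
      exact_mod_cast this
    rw [Real.le_log_iff_exp_le (by linarith)]
    have := Real.exp_one_lt_d9
    linarith
  -- part (i)
  have hup : ∀ a b : ℕ, z0 ≤ a → a ≤ b → b ≤ z2 →
      Pi1 q (P.filter (fun p => a < p ∧ p ≤ b)) ≤ D * (Real.log b / Real.log a) := by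
    intro a b ha hab hb
    have hla := hlog1 a ha
    have hlb := hlog1 b (ha.trans hab)
    have h1 := (abs_le.1 (hM a b ha hab hb)).2
    set F := P.filter (fun p => a < p ∧ p ≤ b) with hFdef
    have hFP : F ⊆ P := filter_subset _ _
    have h2 : Pi1 q F ≤ Real.exp (∑ p ∈ F, 1 / (q p - 1)) := by
      unfold Pi1
      rw [Real.exp_sum]
      refine prod_le_prod (fun p hp => ?_) fun p hp => ?_
      · have := (hF p (hFP hp)).2.1
        linarith
      · linarith [Real.add_one_le_exp (1 / (q p - 1))]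
    have h3 : ∑ p ∈ F, 1 / (q p - 1) ≤
        ∑ p ∈ F, 1 / q p + 2 * (κ0 : ℝ) ^ 2 * ∑ p ∈ F, ((p : ℝ) ^ 2)⁻¹ := by
      rw [mul_sum, ← sum_add_distrib]
      exact sum_le_sum fun p hp => (hF p (hFP hp)).2.2.2.1
    have h4 : ∑ p ∈ F, ((p : ℝ) ^ 2)⁻¹ ≤ 1 :=
      sum_inv_sq_le fun p hp => (hPf p (hFP hp)).2.1.two_le
    have h5 : ∑ p ∈ F, 1 / (q p - 1) ≤
        (Real.log (Real.log b) - Real.log (Real.log a)) + (C + 2 * (κ0 : ℝ) ^ 2) := by
      have : 2 * (κ0 : ℝ) ^ 2 * ∑ p ∈ F, ((p : ℝ) ^ 2)⁻¹ ≤ 2 * (κ0 : ℝ) ^ 2 * 1 := by gcongr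
      linarith
    refine h2.trans ((Real.exp_le_exp.2 h5).trans (le_of_eq ?_))
    rw [Real.exp_add, Real.exp_sub, Real.exp_log (by linarith), Real.exp_log (by linarith), hD]
    ring
  have hlow : ∀ a b : ℕ, z0 ≤ a → a ≤ b → b ≤ z2 →
      Real.log b / Real.log a ≤ D * Pi1 q (P.filter (fun p => a < p ∧ p ≤ b)) := by
    intro a b ha hab hb
    have hla := hlog1 a ha
    have hlb := hlog1 b (ha.trans hab)
    have h1 := (abs_le.1 (hM a b ha hab hb)).1
    set F := P.filter (fun p => a < p ∧ p ≤ b) with hFdef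
    have hFP : F ⊆ P := filter_subset _ _
    have h2 : Real.exp (∑ p ∈ F, 1 / q p) ≤ Pi1 q F := by
      unfold Pi1
      rw [Real.exp_sum]
      exact prod_le_prod (fun p hp => (Real.exp_pos _).le) fun p hp => (hF p (hFP hp)).2.2.2.2
    have h3 : Real.log b / Real.log a ≤
        Real.exp (C + 2 * (κ0 : ℝ) ^ 2) * Real.exp (∑ p ∈ F, 1 / q p) := by
      have e : Real.log b / Real.log a =
          Real.exp (Real.log (Real.log b) - Real.log (Real.log a)) := by
        rw [Real.exp_sub, Real.exp_log (by linarith), Real.exp_log (by linarith)]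
      rw [e, ← Real.exp_add, Real.exp_le_exp]
      have : 0 ≤ 2 * (κ0 : ℝ) ^ 2 := by positivity
      linarith
    rw [hD]
    refine h3.trans ?_
    gcongr
  have hratio : ∀ a b : ℕ, z0 ≤ a → a ≤ b → 0 ≤ Real.log b / Real.log a := by
    intro a b ha hab
    have hla := hlog1 a ha
    have hlb := hlog1 b (ha.trans hab)
    positivity
  have hsD : D ≤ 4 * s * D := by nlinarith
  have hPi0 : ∀ F ⊆ P, 0 ≤ Pi1 q F := by
    intro F hFP
    unfold Pi1
    refine prod_nonneg fun p hp => ?_
    have := (hF p (hFP hp)).2.1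
    linarith
  have hwt0 : ∀ R ⊆ P, 0 ≤ wt q R := by
    intro R hR
    unfold wt
    exact prod_nonneg fun p hp => (hF p (hR hp)).2.1
  refine ⟨?_, ?_⟩
  · intro a b ha hab hb
    refine ⟨(hup a b ha hab hb).trans ?_, (hlow a b ha hab hb).trans ?_⟩
    · exact mul_le_mul_of_nonneg_right hsD (hratio a b ha hab)
    · exact mul_le_mul_of_nonneg_right hsD (hPi0 _ (filter_subset _ _))
  · intro a Y ha haY hY
    have hla := hlog1 a ha
    have hlY := hlog1 Y (ha.trans haY)
    have ha3 : 3 ≤ a := by omega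
    have hY3 : 3 ≤ Y := by omega
    have hY0 : (0 : ℝ) < Y := by
      have : (3 : ℝ) ≤ Y := by exact_mod_cast hY3
      linarith
    set G := (P.filter (fun p => a < p)).powerset.filter
        (fun R : Finset ℕ => ∏ p ∈ R, p ≤ Y) with hG
    have hGP : ∀ R ∈ G, R ⊆ P := by
      intro R hR
      rw [hG, mem_filter, mem_powerset] at hR
      exact hR.1.trans (filter_subset _ _)
    constructor
    · -- lower bound
      set w : ℕ := ⌊(Y : ℝ) ^ (s⁻¹)⌋₊ with hw
      have hx0 : 0 < (Y : ℝ) ^ (s⁻¹) := by positivity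
      have hlx : Real.log ((Y : ℝ) ^ (s⁻¹)) = Real.log Y / s := by
        rw [Real.log_rpow hY0]
        field_simp
      have hmemE : (∅ : Finset ℕ) ∈ G := by
        rw [hG, mem_filter, prod_empty]
        exact ⟨empty_mem_powerset _, by omega⟩
      have hup1 : Real.log Y / s ≤ Real.log ((w : ℝ) + 1) := by
        rw [← hlx]
        exact Real.log_le_log hx0 (Nat.lt_floor_add_one _).le
      by_cases hwa : w < a
      · have h1 : 1 ≤ ∑ R ∈ G, wt q R := by
          have h2 := single_le_sum (fun R hR => hwt0 R (hGP R hR)) hmemE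
          have h3 : wt q ∅ = 1 := by simp [wt]
          rw [h3] at h2
          exact h2
        have h2 : Real.log ((w : ℝ) + 1) ≤ Real.log a := by
          apply Real.log_le_log (by positivity)
          exact_mod_cast hwa
        have h3 : Real.log Y / Real.log a ≤ s := by
          rw [div_le_iff₀ (by linarith)]
          have h4 : Real.log Y / s ≤ Real.log a := hup1.trans h2
          rw [div_le_iff₀ hs0] at h4
          linarith
        have h4 : s ≤ 4 * s * D := by nlinarith
        calc Real.log Y / Real.log a ≤ 4 * s * D := h3.trans h4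
          _ = 4 * s * D * 1 := (mul_one _).symm
          _ ≤ 4 * s * D * ∑ R ∈ G, wt q R := by gcongr
      · push Not at hwa
        have hw3 : 3 ≤ w := by omega
        have hw3' : (3 : ℝ) ≤ w := by exact_mod_cast hw3
        have hlw := hlog1 w (ha.trans hwa)
        have hwle : (w : ℝ) ≤ (Y : ℝ) ^ (s⁻¹) := Nat.floor_le hx0.le
        have hwY : w ≤ Y := by
          have h1 : (w : ℝ) ≤ Y := by
            refine hwle.trans ?_
            calc (Y : ℝ) ^ (s⁻¹) ≤ (Y : ℝ) ^ (1 : ℝ) :=
                  Real.rpow_le_rpow_of_exponent_le (by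
                    have : (3 : ℝ) ≤ Y := by exact_mod_cast hY3
                    linarith) (inv_le_one_of_one_le₀ (by linarith))
              _ = Y := Real.rpow_one _
          exact_mod_cast h1
        have hlwY : s * Real.log w ≤ Real.log Y := by
          have h1 := Real.log_le_log (by linarith) hwle
          rw [hlx, le_div_iff₀ hs0] at h1
          linarith
        have h2w : Real.log Y ≤ 2 * s * Real.log w := by
          have h1 : Real.log ((w : ℝ) + 1) ≤ 2 * Real.log w := by
            have h2 : 2 * Real.log w = Real.log ((w : ℝ) ^ 2) := by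
              rw [Real.log_pow]
              norm_num
            rw [h2]
            apply Real.log_le_log (by positivity)
            nlinarith
          have h3 := hup1.trans h1
          rw [div_le_iff₀ hs0] at h3
          linarith
        set F := P.filter (fun p => a < p ∧ p ≤ w) with hFd
        have hFP : F ⊆ P := filter_subset _ _
        have hη : 0 ≤ (Real.log w)⁻¹ := by positivity
        have ha0 : ∀ p ∈ F, 0 ≤ (fun p => 1 / (q p - 1)) p := fun p hp => (hF p (hFP hp)).2.1
        have hR := rankin F (fun p => 1 / (q p - 1)) ha0 hY0 hη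
        have hp1 : ∀ p ∈ F, 1 ≤ (p : ℝ) := fun p hp => by
          exact_mod_cast (hPf p (hFP hp)).2.1.one_lt.le
        have hpw : ∀ p ∈ F, (p : ℝ) ≤ w := fun p hp => by
          rw [hFd, mem_filter] at hp
          exact_mod_cast hp.2.2
        have hR2 := prod_le' F (fun p => 1 / (q p - 1)) ha0 hp1 hlw hpw
        have hE : ∑ p ∈ F, 2 * (1 / (q p - 1)) * ((Real.log w)⁻¹ * Real.log p) ≤
            4 * κ0 * (1 + C') := by
          have h1 : ∑ p ∈ F, 2 * (1 / (q p - 1)) * ((Real.log w)⁻¹ * Real.log p) ≤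
              ∑ p ∈ F, 4 * κ0 * (Real.log w)⁻¹ * (Real.log p / p) := by
            refine sum_le_sum fun p hp => ?_
            have h2 : 0 ≤ Real.log p := Real.log_nonneg (hp1 p hp)
            have h3 := (hF p (hFP hp)).2.2.1
            calc 2 * (1 / (q p - 1)) * ((Real.log w)⁻¹ * Real.log p) ≤
                  2 * (2 * κ0 / p) * ((Real.log w)⁻¹ * Real.log p) := by gcongr
              _ = _ := by ring
          have h4 : ∑ p ∈ F, Real.log p / p ≤ ∑ p ∈ Pool.Agent.H474R2.PG.PR w,
              Real.log p / p := by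
            refine sum_le_sum_of_subset_of_nonneg (fun p hp => ?_) fun p hp _ => ?_
            · rw [mem_PR (by linarith)]
              exact ⟨(hPf p (hFP hp)).2.1, hpw p hp⟩
            · have := Real.log_natCast_nonneg p
              positivity
          have h5 := hC' w (by linarith)
          rw [← mul_sum] at h1
          refine h1.trans ?_
          calc 4 * κ0 * (Real.log w)⁻¹ * ∑ p ∈ F, Real.log p / p ≤
                4 * κ0 * (Real.log w)⁻¹ * (Real.log w + C') := by
                  gcongr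
                  exact h4.trans h5
            _ = 4 * κ0 * (1 + (Real.log w)⁻¹ * C') := by
                  have : Real.log (w : ℝ) ≠ 0 := by linarith
                  field_simp
            _ ≤ 4 * κ0 * (1 + 1 * C') := by
                  gcongr
                  exact inv_le_one_of_one_le₀ hlw
            _ = _ := by ring
        have hPiF : ∏ p ∈ F, (1 + (fun p => 1 / (q p - 1)) p) = Pi1 q F := rfl
        have hxη : (Y : ℝ) ^ (-(Real.log w)⁻¹) ≤ Real.exp (-s) := by
          rw [Real.rpow_def_of_pos hY0, Real.exp_le_exp]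
          have h1 : s ≤ Real.log Y * (Real.log w)⁻¹ := by
            rw [← div_eq_mul_inv, le_div_iff₀ (by linarith)]
            exact hlwY
          linarith
        have hprod0 : 0 ≤ ∏ p ∈ F, (1 + (1 / (q p - 1)) * (p : ℝ) ^ (Real.log w)⁻¹) := by
          refine prod_nonneg fun p hp => ?_
          have h1 := (hF p (hFP hp)).2.1
          have h2 : 0 ≤ (p : ℝ) ^ (Real.log (w : ℝ))⁻¹ := by positivity
          have := mul_nonneg h1 h2
          linarith
        have hbad : ∑ t ∈ F.powerset.filter (fun t : Finset ℕ => ¬ ∏ p ∈ t, (p : ℝ) ≤ Y),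
            ∏ p ∈ t, (1 / (q p - 1)) ≤ Pi1 q F * (1 / 4) := by
          refine hR.trans ?_
          calc (Y : ℝ) ^ (-(Real.log w)⁻¹) *
                ∏ p ∈ F, (1 + (1 / (q p - 1)) * (p : ℝ) ^ (Real.log w)⁻¹) ≤
                Real.exp (-s) * (Pi1 q F * Real.exp (4 * κ0 * (1 + C'))) := by
                  refine mul_le_mul hxη ?_ hprod0 (Real.exp_pos _).le
                  refine hR2.trans ?_
                  rw [hPiF]
                  exact mul_le_mul_of_nonneg_left (Real.exp_le_exp.2 hE) (hPi0 F hFP)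
            _ = Pi1 q F * Real.exp (-2) := by
                  have : Real.exp (-2) = Real.exp (-s) * Real.exp (4 * κ0 * (1 + C')) := by
                    rw [← Real.exp_add, hs]
                    congr 1
                    ring
                  rw [this]
                  ring
            _ ≤ _ := by
                  exact mul_le_mul_of_nonneg_left exp_neg_two (hPi0 F hFP)
        have hall : ∑ t ∈ F.powerset.filter (fun t : Finset ℕ => ∏ p ∈ t, (p : ℝ) ≤ Y),
            ∏ p ∈ t, (1 / (q p - 1)) + ∑ t ∈ F.powerset.filter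
              (fun t : Finset ℕ => ¬ ∏ p ∈ t, (p : ℝ) ≤ Y), ∏ p ∈ t, (1 / (q p - 1)) =
            Pi1 q F := by
          rw [sum_filter_add_sum_filter_not]
          unfold Pi1
          rw [prod_one_add]
        have hge : ∑ t ∈ F.powerset.filter (fun t : Finset ℕ => ∏ p ∈ t, (p : ℝ) ≤ Y),
            ∏ p ∈ t, (1 / (q p - 1)) ≤ ∑ R ∈ G, wt q R := by
          refine sum_le_sum_of_subset_of_nonneg (fun t ht => ?_) fun t ht _ => hwt0 t (hGP t ht)
          rw [mem_filter, mem_powerset] at ht
          rw [hG, mem_filter, mem_powerset]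
          refine ⟨fun p hp => ?_, ?_⟩
          · have h1 := ht.1 hp
            rw [hFd, mem_filter] at h1
            exact mem_filter.2 ⟨h1.1, h1.2.1⟩
          · have h1 := ht.2
            rw [← Nat.cast_prod] at h1
            exact_mod_cast h1
        have hPiw := hlow a w ha hwa (hwY.trans hY)
        have h3 : Pi1 q F ≤ (4 / 3) * ∑ R ∈ G, wt q R := by linarith
        have hS0 : 0 ≤ ∑ R ∈ G, wt q R := sum_nonneg fun R hR => hwt0 R (hGP R hR)
        calc Real.log Y / Real.log a ≤ (2 * s * Real.log w) / Real.log a := by gcongr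
          _ = 2 * s * (Real.log w / Real.log a) := by ring
          _ ≤ 2 * s * (D * Pi1 q F) := by gcongr
          _ ≤ 2 * s * (D * ((4 / 3) * ∑ R ∈ G, wt q R)) := by gcongr
          _ = (8 / 3) * (s * D * ∑ R ∈ G, wt q R) := by ring
          _ ≤ 4 * (s * D * ∑ R ∈ G, wt q R) := by
              apply mul_le_mul_of_nonneg_right (by norm_num)
              positivity
          _ = 4 * s * D * ∑ R ∈ G, wt q R := by ring
    · -- upper bound
      set F := P.filter (fun p => a < p ∧ p ≤ Y) with hFd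
      have hFP : F ⊆ P := filter_subset _ _
      have h1 : ∑ R ∈ G, wt q R ≤ Pi1 q F := by
        unfold Pi1
        rw [prod_one_add]
        refine sum_le_sum_of_subset_of_nonneg (fun R hR => ?_) fun R hR _ => ?_
        · rw [hG, mem_filter, mem_powerset] at hR
          rw [mem_powerset]
          intro p hp
          have h2 := mem_filter.1 (hR.1 hp)
          rw [hFd, mem_filter]
          refine ⟨h2.1, h2.2, ?_⟩
          refine le_trans (Nat.le_of_dvd ?_ (dvd_prod_of_mem (fun p => p) hp)) hR.2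
          exact prod_pos fun p' hp' => (hPf p' (mem_filter.1 (hR.1 hp')).1).2.1.pos
        · exact hwt0 R ((mem_powerset.1 hR).trans hFP)
      refine h1.trans ((hup a Y ha haY hY).trans ?_)
      exact mul_le_mul_of_nonneg_right hsD (hratio a Y ha haY)

end Pool.Agent.H474R2.GE
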