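import Mathlib
import Pool.Agent.H474R2.GE.Iface
import Pool.Agent.H911R2.EN.SumW

/-!
GE3: sums over all divisors of the absolute local sizes, several classes per prime
(generalisation of helper911's Pool/Agent/H911R2/EN/SumW.lean).
-/

set_option autoImplicit false
set_option linter.unusedSectionVars false

open Finset

namespace Pool.Agent.H474R2.GE.SW

open Pool.Agent.H410R2.AC (pos Inj)
open Pool.Agent.H410R2.EN (aL dL sL QQ)
open Pool.Agent.H415R2.ACLocal (cc lc mem_cc_inl mem_cc_inr mem_pos exp_prod)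
open Pool.Agent.H911R2.EN (inj_sum sum_prod_eq card_le sum_bound aL_nonneg dL_nonneg sL_nonneg
  aL_one dL_one sL_one card_pos_le mem_QQ QQ_sub prod_QQ cc_inj)

/-! ### local functions -/

section Local

variable {ι : Type} [DecidableEq ι]

/-- product of the local factors of a set of copies -/
noncomputable def Hc (Hs : ℕ → ℕ → Finset ℕ) (q : ℕ → ℝ) (loc : ι → Option ℕ) (p : ℕ)
    (s : Finset ι) (x : ℕ) : ℝ := ∏ i ∈ s, psi Hs q p (loc i) x

/-- weight of a set of copies -/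
noncomputable def ws (q : ℕ → ℝ) (p : ℕ) (s : Finset ι) : ℝ := (1 / (q p - 1)) ^ s.card

omit [DecidableEq ι] in
lemma ws_nonneg {q : ℕ → ℝ} {p : ℕ} (hq : 2 ≤ q p) (s : Finset ι) : 0 ≤ ws q p s := by
  unfold ws
  have : (0 : ℝ) < q p - 1 := by linarith
  positivity

omit [DecidableEq ι] in
lemma ws_le {q : ℕ → ℝ} {p : ℕ} (hq : 2 ≤ q p) (s : Finset ι) (hs : s.Nonempty) :
    ws q p s ≤ 1 / (q p - 1) := by
  have h0 : (0 : ℝ) < q p - 1 := by linarith
  have h1 : (1 : ℝ) / (q p - 1) ≤ 1 := by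
    rw [div_le_one h0]; linarith
  unfold ws
  calc (1 / (q p - 1)) ^ s.card ≤ (1 / (q p - 1)) ^ 1 :=
        pow_le_pow_of_le_one (by positivity) h1 (Finset.card_pos.2 hs)
    _ = _ := pow_one _

omit [DecidableEq ι] in
lemma Hc_empty (Hs : ℕ → ℕ → Finset ℕ) (q : ℕ → ℝ) (loc : ι → Option ℕ) (p : ℕ) (x : ℕ) :
    Hc Hs q loc p ∅ x = 1 := by
  unfold Hc
  rw [Finset.prod_empty]

omit [DecidableEq ι] in
lemma ws_empty (q : ℕ → ℝ) (p : ℕ) : ws q p (∅ : Finset ι) = 1 := by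
  unfold ws
  rw [Finset.card_empty, pow_zero]

lemma psi_abs (Hs : ℕ → ℕ → Finset ℕ) {q : ℕ → ℝ} {p : ℕ} (hq : 2 ≤ q p) (o : Option ℕ) (x : ℕ) :
    |psi Hs q p o x| ≤ q p - 1 := by
  unfold psi
  cases o with
  | none => simp; linarith
  | some a =>
    simp only
    split_ifs
    · rw [abs_sub_comm, abs_of_pos (by linarith)]
    · rw [abs_one]; linarith

omit [DecidableEq ι] in
lemma ws_Hc (Hs : ℕ → ℕ → Finset ℕ) {q : ℕ → ℝ} (loc : ι → Option ℕ) {p : ℕ} (hq : 2 ≤ q p)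
    (s : Finset ι) (x : ℕ) : ws q p s * |Hc Hs q loc p s x - 1| ≤ 2 := by
  have h0 : (0 : ℝ) < q p - 1 := by linarith
  have h1 : |Hc Hs q loc p s x| ≤ (q p - 1) ^ s.card := by
    unfold Hc
    rw [Finset.abs_prod, ← Finset.prod_const]
    exact Finset.prod_le_prod (fun i _ => abs_nonneg _) (fun i _ => psi_abs Hs hq (loc i) x)
  have h2 : (1 : ℝ) ≤ (q p - 1) ^ s.card := one_le_pow₀ (by linarith)
  have h3 : |Hc Hs q loc p s x - 1| ≤ 2 * (q p - 1) ^ s.card := by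
    calc |Hc Hs q loc p s x - 1| ≤ |Hc Hs q loc p s x| + |(1 : ℝ)| := abs_sub _ _
      _ ≤ 2 * (q p - 1) ^ s.card := by rw [abs_one]; linarith
  calc ws q p s * |Hc Hs q loc p s x - 1| ≤ ws q p s * (2 * (q p - 1) ^ s.card) := by
        have := ws_nonneg hq s
        gcongr
    _ = 2 := by
        unfold ws
        rw [one_div, inv_pow]
        field_simp

end Local

/-! ### bounds at one prime -/

section OnePrime

variable {ι : Type} [DecidableEq ι] [Fintype ι]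

omit [DecidableEq ι] [Fintype ι] in
lemma ws_sL {m : ℕ} (Hs : ℕ → ℕ → Finset ℕ) {q : ℕ → ℝ} (loc : ι → Option ℕ) {p : ℕ}
    (hq : 2 ≤ q p) (s : Finset ι) (Cl : Finset ℕ) (hCl : (Cl.card : ℝ) ≤ 2 * m) :
    ws q p s * sL Cl (Hc Hs q loc p s) ≤ 4 * m := by
  unfold sL
  rw [Finset.mul_sum]
  calc ∑ c ∈ Cl, ws q p s * |Hc Hs q loc p s c - 1| ≤ ∑ c ∈ Cl, (2 : ℝ) :=
        Finset.sum_le_sum (fun c _ => ws_Hc Hs loc hq s c)
    _ = Cl.card * 2 := by rw [Finset.sum_const, nsmul_eq_mul]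
    _ ≤ 4 * m := by linarith

omit [DecidableEq ι] [Fintype ι] in
lemma ws_aL {m : ℕ} (Hs : ℕ → ℕ → Finset ℕ) {q : ℕ → ℝ} (loc : ι → Option ℕ) {p : ℕ}
    (hq : 2 ≤ q p) (s : Finset ι) (Cl : Finset ℕ) (hCl : (Cl.card : ℝ) ≤ 2 * m)
    (hqp : Cl.Nonempty → q p ≤ p) :
    ws q p s * aL Cl (Hc Hs q loc p s) p ≤ 4 * m * (1 / (q p - 1)) := by
  have h0 : (0 : ℝ) < q p - 1 := by linarith
  have hm : (0 : ℝ) ≤ m := Nat.cast_nonneg m
  rcases Cl.eq_empty_or_nonempty with hE | hE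
  · rw [hE]
    unfold aL
    rw [Finset.sum_empty, mul_zero]
    positivity
  have hp := hqp hE
  have h0' : (0 : ℝ) < (p : ℝ) - 1 := by linarith
  have h1 := ws_sL Hs loc hq s Cl hCl
  have h2 : aL Cl (Hc Hs q loc p s) p = sL Cl (Hc Hs q loc p s) * (1 / ((p : ℝ) - 1)) := by
    unfold aL sL
    rw [Finset.sum_mul]
    apply Finset.sum_congr rfl
    intro c _
    ring
  rw [h2, ← mul_assoc]
  have h3 : 1 / ((p : ℝ) - 1) ≤ 1 / (q p - 1) := one_div_le_one_div_of_le h0 (by linarith)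
  exact mul_le_mul h1 h3 (by positivity) (by positivity)

omit [DecidableEq ι] [Fintype ι] in
lemma ws_dL {m : ℕ} (Hs : ℕ → ℕ → Finset ℕ) {q : ℕ → ℝ} (loc : ι → Option ℕ) {p : ℕ} (hp : 2 ≤ p)
    (hq : 2 ≤ q p) (s : Finset ι) (Cl : Finset ℕ) (hCl : (Cl.card : ℝ) ≤ 2 * m) (e : ℕ) :
    ws q p s * dL Cl (Hc Hs q loc p s) e p ≤
      (4 * m + 2) * (1 / ((p : ℝ) - 1) ^ 2 + (if e ∈ Cl then 1 / ((p : ℝ) - 1) else 0)) := by
  have hp' : (2 : ℝ) ≤ p := by exact_mod_cast hp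
  have h0 : (0 : ℝ) < (p : ℝ) - 1 := by linarith
  unfold dL
  rw [Finset.mul_sum]
  calc ∑ c ∈ Cl, ws q p s * (|Hc Hs q loc p s c - 1| *
          (if c = e then 1 / ((p : ℝ) - 1) else 1 / ((p : ℝ) - 1) ^ 2))
      ≤ ∑ c ∈ Cl, (2 * (1 / ((p : ℝ) - 1) ^ 2) + (if c = e then 2 * (1 / ((p : ℝ) - 1)) else 0)) := by
        apply Finset.sum_le_sum
        intro c _
        have h1 := ws_Hc Hs loc hq s c
        have h2 : (0 : ℝ) ≤ 1 / ((p : ℝ) - 1) ^ 2 := by positivity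
        have h3 : (0 : ℝ) ≤ 1 / ((p : ℝ) - 1) := by positivity
        rw [← mul_assoc]
        split_ifs
        · calc ws q p s * |Hc Hs q loc p s c - 1| * (1 / ((p : ℝ) - 1)) ≤
                2 * (1 / ((p : ℝ) - 1)) := by gcongr
            _ ≤ _ := by linarith
        · rw [add_zero]
          gcongr
    _ = Cl.card * (2 * (1 / ((p : ℝ) - 1) ^ 2)) + (if e ∈ Cl then 2 * (1 / ((p : ℝ) - 1)) else 0) := by
        rw [Finset.sum_add_distrib, Finset.sum_const, nsmul_eq_mul, Finset.sum_ite_eq' Cl e]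
    _ ≤ (4 * m + 2) * (1 / ((p : ℝ) - 1) ^ 2) +
          (4 * m + 2) * (if e ∈ Cl then 1 / ((p : ℝ) - 1) else 0) := by
        have h2 : (0 : ℝ) ≤ 1 / ((p : ℝ) - 1) ^ 2 := by positivity
        have h3 : (0 : ℝ) ≤ 1 / ((p : ℝ) - 1) := by positivity
        have hn : (0 : ℝ) ≤ m := by positivity
        apply add_le_add
        · calc (Cl.card : ℝ) * (2 * (1 / ((p : ℝ) - 1) ^ 2)) ≤
                (2 * m) * (2 * (1 / ((p : ℝ) - 1) ^ 2)) := by gcongr
            _ = 4 * m * (1 / ((p : ℝ) - 1) ^ 2) := by ring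
            _ ≤ (4 * m + 2) * (1 / ((p : ℝ) - 1) ^ 2) := by
                gcongr
                linarith
        · split_ifs
          · gcongr
            linarith
          · simp
    _ = _ := by ring

end OnePrime

/-! ### the pair of configurations -/

section Pair

variable {T : Type} [Fintype T] [DecidableEq T]

omit [DecidableEq T] in
lemma hh_eq (Hs : ℕ → ℕ → Finset ℕ) (q : ℕ → ℝ) (σ σ' : T → Option ℕ)
    (x : (T → Finset ℕ) × (T → Finset ℕ)) (p : ℕ) :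
    hh Hs q σ σ' x.1 x.2 p = Hc Hs q (lc σ σ') p (cc x p) := by
  funext c
  unfold hh Hc cc
  rw [Finset.prod_filter, Finset.prod_filter, Finset.prod_filter, Fintype.prod_sum_type]
  rfl

lemma hit_or {κ0 : ℕ} {Hs : ℕ → ℕ → Finset ℕ} {q : ℕ → ℝ} {P : Finset ℕ} {σ σ' : T → Option ℕ}
    (h : Hit κ0 Hs q P (pos σ)) (h' : Hit κ0 Hs q P (pos σ')) {p : ℕ} (hp : p ∈ P) {a : ℕ}
    (ha : a ∈ pos σ ∪ pos σ') : Hs p a ⊆ range p ∧ 1 ≤ (Hs p a).card ∧ (Hs p a).card ≤ κ0 ∧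
    ((Hs p a).card : ℝ) * q p = p := by
  rcases Finset.mem_union.1 ha with ha | ha
  · exact h p hp a ha
  · exact h' p hp a ha

lemma card_CL {n κ0 : ℕ} (hn : Fintype.card T ≤ n) {Hs : ℕ → ℕ → Finset ℕ} {q : ℕ → ℝ}
    {P : Finset ℕ} {σ σ' : T → Option ℕ}
    (h : Hit κ0 Hs q P (pos σ)) (h' : Hit κ0 Hs q P (pos σ')) {p : ℕ} (hp : p ∈ P) :
    ((CL Hs σ σ' p).card : ℝ) ≤ 2 * ((n * κ0 : ℕ) : ℝ) := by
  have h1 : (CL Hs σ σ' p).card ≤ 2 * (n * κ0) := by
    unfold CL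
    calc ((pos σ ∪ pos σ').biUnion (Hs p)).card ≤ ∑ a ∈ pos σ ∪ pos σ', (Hs p a).card :=
          Finset.card_biUnion_le
      _ ≤ ∑ a ∈ pos σ ∪ pos σ', κ0 := Finset.sum_le_sum fun a ha => (hit_or h h' hp ha).2.2.1
      _ = (pos σ ∪ pos σ').card * κ0 := by rw [Finset.sum_const, smul_eq_mul]
      _ ≤ (2 * n) * κ0 := by
          refine Nat.mul_le_mul_right _ ((Finset.card_union_le _ _).trans ?_)
          have := card_pos_le σ
          have := card_pos_le σ'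
          omega
      _ = 2 * (n * κ0) := by ring
  exact_mod_cast h1

lemma q_le {κ0 : ℕ} {Hs : ℕ → ℕ → Finset ℕ} {q : ℕ → ℝ} {P : Finset ℕ} {σ σ' : T → Option ℕ}
    (h : Hit κ0 Hs q P (pos σ)) (h' : Hit κ0 Hs q P (pos σ')) {p : ℕ} (hp : p ∈ P)
    (hq : 2 ≤ q p) (hne : (CL Hs σ σ' p).Nonempty) : q p ≤ p := by
  obtain ⟨c, hc⟩ := hne
  unfold CL at hc
  rw [Finset.mem_biUnion] at hc
  obtain ⟨a, ha, -⟩ := hc
  obtain ⟨-, h1, -, h2⟩ := hit_or h h' hp ha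
  have h3 : (1 : ℝ) ≤ ((Hs p a).card : ℝ) := by exact_mod_cast h1
  rw [← h2]
  nlinarith

lemma prod_wt {ι : Type} [Fintype ι] (q : ℕ → ℝ) (P : Finset ℕ) (RR : ι → Finset ℕ)
    (h : ∀ i, RR i ⊆ P) :
    ∏ i, wt q (RR i) = ∏ p ∈ P, (1 / (q p - 1)) ^ (univ.filter (fun i => p ∈ RR i)).card := by
  have h1 : ∀ i, wt q (RR i) = ∏ p ∈ P, (if p ∈ RR i then 1 / (q p - 1) else 1) := by
    intro i
    unfold wt
    rw [← Finset.prod_filter]
    congr 1
    ext p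
    rw [Finset.mem_filter]
    exact ⟨fun hp => ⟨h i hp, hp⟩, fun hp => hp.2⟩
  rw [Finset.prod_congr rfl (fun i _ => h1 i), Finset.prod_comm]
  apply Finset.prod_congr rfl
  intro p _
  rw [Finset.prod_ite, Finset.prod_const, Finset.prod_const_one, mul_one]

lemma wt_eq (q : ℕ → ℝ) (P : Finset ℕ) (x : (T → Finset ℕ) × (T → Finset ℕ)) (h1 : ∀ τ, x.1 τ ⊆ P)
    (h2 : ∀ τ, x.2 τ ⊆ P) :
    (∏ τ, wt q (x.1 τ)) * (∏ τ, wt q (x.2 τ)) = ∏ p ∈ P, ws q p (cc x p) := by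
  have e1 : (∏ τ, wt q (x.1 τ)) * (∏ τ, wt q (x.2 τ)) =
      ∏ i : T ⊕ T, wt q (Sum.elim x.1 x.2 i) := by
    rw [Fintype.prod_sum_type]
    rfl
  rw [e1, prod_wt q P (Sum.elim x.1 x.2) (by
    intro i
    cases i with
    | inl τ => exact h1 τ
    | inr τ => exact h2 τ)]
  rfl

lemma dl_eq (e : ℕ → ℕ) (Hs : ℕ → ℕ → Finset ℕ) (P : Finset ℕ) (σ σ' : T → Option ℕ)
    (hP : ∀ p ∈ P, p.Prime) :
    ∑ p ∈ P, (1 / ((p : ℝ) - 1) ^ 2 + (if e p ∈ CL Hs σ σ' p then 1 / ((p : ℝ) - 1) else 0)) ≤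
      dl e Hs P (pos σ ∪ pos σ') := by
  unfold dl
  rw [Finset.sum_add_distrib, ← Finset.sum_filter]
  refine add_le_add le_rfl ?_
  apply Finset.sum_le_sum_of_subset_of_nonneg
  · intro p hp
    rw [Finset.mem_filter] at hp ⊢
    refine ⟨hp.1, Or.inr ?_⟩
    have h := hp.2
    unfold CL at h
    rw [Finset.mem_biUnion] at h
    exact h
  · intro p hp _
    have h2 := (hP p (Finset.mem_filter.1 hp).1).two_le
    have hp' : (2 : ℝ) ≤ p := by exact_mod_cast h2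
    have h0 : (0 : ℝ) < (p : ℝ) - 1 := by linarith
    positivity

lemma sum_ws {n : ℕ} (hn : Fintype.card T ≤ n) {q : ℕ → ℝ} {p : ℕ} (hq : 2 ≤ q p) :
    ∑ s : Finset (T ⊕ T), ws q p s ≤ 1 + 4 ^ n * (1 / (q p - 1)) := by
  have h0 : (0 : ℝ) < q p - 1 := by linarith
  have h := sum_bound (ι := T ⊕ T) (n := n) (by rw [Fintype.card_sum]; omega) (fun s => ws q p s)
    (1 / (q p - 1)) (by positivity) (fun s hs => ws_le hq s hs)
  simp only [ws_empty] at h
  exact h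

lemma sum_main {n m : ℕ} (hn : Fintype.card T ≤ n) (Hs : ℕ → ℕ → Finset ℕ) (q : ℕ → ℝ)
    (σ σ' : T → Option ℕ) {p : ℕ} (hp : 2 ≤ p) (hq : 2 ≤ q p)
    (hc : ((CL Hs σ σ' p).card : ℝ) ≤ 2 * m) (hqp : (CL Hs σ σ' p).Nonempty → q p ≤ p) :
    ∑ s : Finset (T ⊕ T), ws q p s * (1 + aL (CL Hs σ σ' p) (Hc Hs q (lc σ σ') p s) p) ≤
      1 + (4 ^ n * (4 * m + 2)) * (1 / (q p - 1)) := by
  have h0 : (0 : ℝ) < q p - 1 := by linarith
  have h := sum_bound (ι := T ⊕ T) (n := n) (by rw [Fintype.card_sum]; omega)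
    (fun s => ws q p s * (1 + aL (CL Hs σ σ' p) (Hc Hs q (lc σ σ') p s) p))
    ((4 * m + 2) * (1 / (q p - 1))) (by positivity) (fun s hs => by
      have h1 := ws_le hq s hs
      have h2 := ws_aL (m := m) Hs (lc σ σ') hq s (CL Hs σ σ' p) hc hqp
      have h3 : (0 : ℝ) ≤ 1 / (q p - 1) := by positivity
      rw [mul_add, mul_one]
      linarith)
  have h4 : ws q p (∅ : Finset (T ⊕ T)) *
      (1 + aL (CL Hs σ σ' p) (Hc Hs q (lc σ σ') p ∅) p) = 1 := by
    have : Hc Hs q (lc σ σ') p ∅ = fun _ => 1 := funext (fun x => Hc_empty Hs q _ p x)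
    rw [ws_empty, this, aL_one]
    ring
  rw [h4] at h
  linarith

lemma one_le_main (Hs : ℕ → ℕ → Finset ℕ) (q : ℕ → ℝ) (σ σ' : T → Option ℕ) {p : ℕ} (hp : 2 ≤ p)
    (hq : 2 ≤ q p) :
    1 ≤ ∑ s : Finset (T ⊕ T), ws q p s *
      (1 + aL (CL Hs σ σ' p) (Hc Hs q (lc σ σ') p s) p) := by
  have h4 : ws q p (∅ : Finset (T ⊕ T)) *
      (1 + aL (CL Hs σ σ' p) (Hc Hs q (lc σ σ') p ∅) p) = 1 := by
    have : Hc Hs q (lc σ σ') p ∅ = fun _ => 1 := funext (fun x => Hc_empty Hs q _ p x)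
    rw [ws_empty, this, aL_one]
    ring
  calc (1 : ℝ) = ws q p (∅ : Finset (T ⊕ T)) *
      (1 + aL (CL Hs σ σ' p) (Hc Hs q (lc σ σ') p ∅) p) := h4.symm
    _ ≤ _ := Finset.single_le_sum
      (f := fun s => ws q p s * (1 + aL (CL Hs σ σ' p) (Hc Hs q (lc σ σ') p s) p))
      (fun s _ => mul_nonneg (ws_nonneg hq s) (by
        have := aL_nonneg (CL Hs σ σ' p) (Hc Hs q (lc σ σ') p s) hp
        linarith)) (Finset.mem_univ _)

lemma sum_dev {n m : ℕ} (hn : Fintype.card T ≤ n) (Hs : ℕ → ℕ → Finset ℕ) (q : ℕ → ℝ)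
    (σ σ' : T → Option ℕ) (e : ℕ) {p : ℕ} (hp : 2 ≤ p) (hq : 2 ≤ q p)
    (hc : ((CL Hs σ σ' p).card : ℝ) ≤ 2 * m) :
    ∑ s : Finset (T ⊕ T), ws q p s * dL (CL Hs σ σ' p) (Hc Hs q (lc σ σ') p s) e p ≤
      (4 ^ n * (4 * m + 2)) *
        (1 / ((p : ℝ) - 1) ^ 2 + (if e ∈ CL Hs σ σ' p then 1 / ((p : ℝ) - 1) else 0)) := by
  have hp' : (2 : ℝ) ≤ p := by exact_mod_cast hp
  have h0 : (0 : ℝ) < (p : ℝ) - 1 := by linarith
  have h5 : (0 : ℝ) ≤ (if e ∈ CL Hs σ σ' p then 1 / ((p : ℝ) - 1) else 0) := by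
    split_ifs <;> positivity
  have h := sum_bound (ι := T ⊕ T) (n := n) (by rw [Fintype.card_sum]; omega)
    (fun s => ws q p s * dL (CL Hs σ σ' p) (Hc Hs q (lc σ σ') p s) e p)
    ((4 * m + 2) * (1 / ((p : ℝ) - 1) ^ 2 + (if e ∈ CL Hs σ σ' p then 1 / ((p : ℝ) - 1) else 0)))
    (by positivity) (fun s hs =>
      ws_dL (m := m) Hs (lc σ σ') hp hq s (CL Hs σ σ' p) hc e)
  have h4 : ws q p (∅ : Finset (T ⊕ T)) *
      dL (CL Hs σ σ' p) (Hc Hs q (lc σ σ') p ∅) e p = 0 := by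
    have : Hc Hs q (lc σ σ') p ∅ = fun _ => 1 := funext (fun x => Hc_empty Hs q _ p x)
    rw [this, dL_one]
    ring
  rw [h4] at h
  linarith

lemma sum_size {n m : ℕ} (hn : Fintype.card T ≤ n) (Hs : ℕ → ℕ → Finset ℕ) (q : ℕ → ℝ)
    (σ σ' : T → Option ℕ) {p : ℕ} (hq : 2 ≤ q p) (hc : ((CL Hs σ σ' p).card : ℝ) ≤ 2 * m) :
    ∑ s : Finset (T ⊕ T), ws q p s * sL (CL Hs σ σ' p) (Hc Hs q (lc σ σ') p s) ≤
      4 ^ n * (4 * m + 2) := by
  have h := sum_bound (ι := T ⊕ T) (n := n) (by rw [Fintype.card_sum]; omega)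
    (fun s => ws q p s * sL (CL Hs σ σ' p) (Hc Hs q (lc σ σ') p s))
    (4 * m + 2) (by positivity) (fun s hs => by
      have := ws_sL (m := m) Hs (lc σ σ') hq s (CL Hs σ σ' p) hc
      linarith)
  have h4 : ws q p (∅ : Finset (T ⊕ T)) *
      sL (CL Hs σ σ' p) (Hc Hs q (lc σ σ') p ∅) = 0 := by
    have : Hc Hs q (lc σ σ') p ∅ = fun _ => 1 := funext (fun x => Hc_empty Hs q _ p x)
    rw [this, sL_one]
    ring
  rw [h4] at h
  linarith

end Pair

lemma Pi1_pow (q : ℕ → ℝ) (P : Finset ℕ) (hq : ∀ p ∈ P, 2 ≤ q p) (K : ℕ) (f : ℕ → ℝ)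
    (hf : ∀ p ∈ P, 0 ≤ f p) (h : ∀ p ∈ P, f p ≤ 1 + K * (1 / (q p - 1))) :
    ∏ p ∈ P, f p ≤ Pi1 q P ^ K := by
  unfold Pi1
  rw [← Finset.prod_pow]
  apply Finset.prod_le_prod hf
  intro p hp
  have hp' := hq p hp
  have h0 : (0 : ℝ) < q p - 1 := by linarith
  have h1 : (0 : ℝ) ≤ 1 / (q p - 1) := by positivity
  exact (h p hp).trans (one_add_mul_le_pow (by linarith) K)

theorem sumW_aux : Pool.Agent.H474R2.GE.SumW := by
  classical
  intro n κ0
  obtain ⟨m, hm⟩ : ∃ m, m = n * κ0 := ⟨_, rfl⟩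
  refine ⟨4 ^ n * (4 * m + 2), Nat.one_le_iff_ne_zero.2 (by positivity), ?_⟩
  intro T _ _ hn P Hs q e S S' σ σ' hP hs hs'
  obtain ⟨-, -, hS, hit⟩ := hs
  obtain ⟨-, -, hS', hit'⟩ := hs'
  have hcard : ∀ p ∈ P, ((CL Hs σ σ' p).card : ℝ) ≤ 2 * (m : ℝ) :=
    fun p hp => by rw [hm]; exact card_CL hn hit hit' hp
  have hK : ((4 ^ n * (4 * m + 2) : ℕ) : ℝ) = 4 ^ n * (4 * m + 2) := by push_cast; ring
  have hp2 : ∀ p ∈ P, 2 ≤ p := fun p hp => (hP p hp).1.two_le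
  have hq2 : ∀ p ∈ P, 2 ≤ q p := fun p hp => (hP p hp).2.2
  have hqp : ∀ p ∈ P, (CL Hs σ σ' p).Nonempty → q p ≤ p := fun p hp =>
    q_le hit hit' hp (hq2 p hp)
  have hsub1 : ∀ x ∈ Fintype.piFinset S ×ˢ Fintype.piFinset S', ∀ τ, x.1 τ ⊆ P := by
    intro x hx τ
    rw [Finset.mem_product, Fintype.mem_piFinset] at hx
    exact hS τ _ (hx.1 τ)
  have hsub2 : ∀ x ∈ Fintype.piFinset S ×ˢ Fintype.piFinset S', ∀ τ, x.2 τ ⊆ P := by
    intro x hx τ
    rw [Finset.mem_product, Fintype.mem_piFinset, Fintype.mem_piFinset] at hx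
    exact hS' τ _ (hx.2 τ)
  have hinj := cc_inj P S S' hS hS'
  have hHe : ∀ p, Hc Hs q (lc σ σ') p ∅ = fun _ => 1 := fun p => funext (fun x => Hc_empty Hs q _ p x)
  refine ⟨?_, ?_, ?_⟩
  · -- (i)
    rw [← Finset.sum_product' (f := fun R R' => (∏ τ, wt q (R τ)) * (∏ τ, wt q (R' τ)) *
      ∏ p ∈ QQ R R', (1 + aL (CL Hs σ σ' p) (hh Hs q σ σ' R R' p) p))]
    have e1 : ∀ x ∈ Fintype.piFinset S ×ˢ Fintype.piFinset S',
        (∏ τ, wt q (x.1 τ)) * (∏ τ, wt q (x.2 τ)) *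
          ∏ p ∈ QQ x.1 x.2, (1 + aL (CL Hs σ σ' p) (hh Hs q σ σ' x.1 x.2 p) p) =
        ∏ p : P, (ws q p.1 (cc x p.1) *
          (1 + aL (CL Hs σ σ' p.1) (Hc Hs q (lc σ σ') p.1 (cc x p.1)) p.1)) := by
      intro x hx
      rw [wt_eq q P x (hsub1 x hx) (hsub2 x hx)]
      rw [Finset.prod_coe_sort P (fun p => ws q p (cc x p) *
          (1 + aL (CL Hs σ σ' p) (Hc Hs q (lc σ σ') p (cc x p)) p)), Finset.prod_mul_distrib]
      congr 1
      rw [← prod_QQ P x (hsub1 x hx) (hsub2 x hx)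
        (fun p s => 1 + aL (CL Hs σ σ' p) (Hc Hs q (lc σ σ') p s) p) (fun p => by
          rw [hHe, aL_one, add_zero])]
      apply Finset.prod_congr rfl
      intro p _
      rw [hh_eq]
    rw [Finset.sum_congr rfl e1]
    have h1 := inj_sum P (Fintype.piFinset S ×ˢ Fintype.piFinset S') cc hinj
      (fun y => ∏ p : P, (ws q p.1 (y p) *
          (1 + aL (CL Hs σ σ' p.1) (Hc Hs q (lc σ σ') p.1 (y p)) p.1))) (fun y =>
        Finset.prod_nonneg (fun p _ => mul_nonneg (ws_nonneg (hq2 p.1 p.2) _) (by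
          have := aL_nonneg (CL Hs σ σ' p.1) (Hc Hs q (lc σ σ') p.1 (y p)) (hp2 p.1 p.2)
          linarith)))
    refine h1.trans ?_
    rw [sum_prod_eq P (fun p s => ws q p s * (1 + aL (CL Hs σ σ' p) (Hc Hs q (lc σ σ') p s) p))]
    apply Pi1_pow q P hq2
    · intro p hp
      have := one_le_main Hs q σ σ' (hp2 p hp) (hq2 p hp)
      linarith
    · intro p hp
      rw [hK]
      exact sum_main hn Hs q σ σ' (hp2 p hp) (hq2 p hp) (hcard p hp) (hqp p hp)
  · -- (ii)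
    rw [← Finset.sum_product' (f := fun R R' => (∏ τ, wt q (R τ)) * (∏ τ, wt q (R' τ)) *
      (∏ p ∈ QQ R R', (1 + aL (CL Hs σ σ' p) (hh Hs q σ σ' R R' p) p +
          dL (CL Hs σ σ' p) (hh Hs q σ σ' R R' p) (e p) p) -
        ∏ p ∈ QQ R R', (1 + aL (CL Hs σ σ' p) (hh Hs q σ σ' R R' p) p)))]
    have e1 : ∀ x ∈ Fintype.piFinset S ×ˢ Fintype.piFinset S',
        (∏ τ, wt q (x.1 τ)) * (∏ τ, wt q (x.2 τ)) *
          (∏ p ∈ QQ x.1 x.2, (1 + aL (CL Hs σ σ' p) (hh Hs q σ σ' x.1 x.2 p) p +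
            dL (CL Hs σ σ' p) (hh Hs q σ σ' x.1 x.2 p) (e p) p) -
          ∏ p ∈ QQ x.1 x.2, (1 + aL (CL Hs σ σ' p) (hh Hs q σ σ' x.1 x.2 p) p)) =
        ∏ p : P, (ws q p.1 (cc x p.1) *
          (1 + aL (CL Hs σ σ' p.1) (Hc Hs q (lc σ σ') p.1 (cc x p.1)) p.1) +
          ws q p.1 (cc x p.1) * dL (CL Hs σ σ' p.1) (Hc Hs q (lc σ σ') p.1 (cc x p.1)) (e p.1) p.1) -
        ∏ p : P, (ws q p.1 (cc x p.1) *
          (1 + aL (CL Hs σ σ' p.1) (Hc Hs q (lc σ σ') p.1 (cc x p.1)) p.1)) := by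
      intro x hx
      rw [wt_eq q P x (hsub1 x hx) (hsub2 x hx)]
      rw [Finset.prod_coe_sort P (fun p => ws q p (cc x p) *
          (1 + aL (CL Hs σ σ' p) (Hc Hs q (lc σ σ') p (cc x p)) p)),
        Finset.prod_coe_sort P (fun p => ws q p (cc x p) *
          (1 + aL (CL Hs σ σ' p) (Hc Hs q (lc σ σ') p (cc x p)) p) +
          ws q p (cc x p) * dL (CL Hs σ σ' p) (Hc Hs q (lc σ σ') p (cc x p)) (e p) p)]
      have e2 : ∏ p ∈ P, (ws q p (cc x p) * (1 + aL (CL Hs σ σ' p) (Hc Hs q (lc σ σ') p (cc x p)) p) +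
          ws q p (cc x p) * dL (CL Hs σ σ' p) (Hc Hs q (lc σ σ') p (cc x p)) (e p) p) =
          (∏ p ∈ P, ws q p (cc x p)) * ∏ p ∈ P, (1 + aL (CL Hs σ σ' p) (Hc Hs q (lc σ σ') p (cc x p)) p +
            dL (CL Hs σ σ' p) (Hc Hs q (lc σ σ') p (cc x p)) (e p) p) := by
        rw [← Finset.prod_mul_distrib]
        apply Finset.prod_congr rfl
        intro p _
        ring
      rw [e2, Finset.prod_mul_distrib (f := fun p => ws q p (cc x p)), ← mul_sub]
      congr 2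
      · rw [← prod_QQ P x (hsub1 x hx) (hsub2 x hx)
          (fun p s => 1 + aL (CL Hs σ σ' p) (Hc Hs q (lc σ σ') p s) p +
            dL (CL Hs σ σ' p) (Hc Hs q (lc σ σ') p s) (e p) p) (fun p => by
            rw [hHe, aL_one, dL_one, add_zero, add_zero])]
        apply Finset.prod_congr rfl
        intro p _
        rw [hh_eq]
      · rw [← prod_QQ P x (hsub1 x hx) (hsub2 x hx)
          (fun p s => 1 + aL (CL Hs σ σ' p) (Hc Hs q (lc σ σ') p s) p) (fun p => by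
            rw [hHe, aL_one, add_zero])]
        apply Finset.prod_congr rfl
        intro p _
        rw [hh_eq]
    rw [Finset.sum_congr rfl e1]
    have h1 := inj_sum P (Fintype.piFinset S ×ˢ Fintype.piFinset S') cc hinj
      (fun y => ∏ p : P, (ws q p.1 (y p) *
          (1 + aL (CL Hs σ σ' p.1) (Hc Hs q (lc σ σ') p.1 (y p)) p.1) +
          ws q p.1 (y p) * dL (CL Hs σ σ' p.1) (Hc Hs q (lc σ σ') p.1 (y p)) (e p.1) p.1) -
        ∏ p : P, (ws q p.1 (y p) *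
          (1 + aL (CL Hs σ σ' p.1) (Hc Hs q (lc σ σ') p.1 (y p)) p.1))) (fun y => by
        rw [sub_nonneg]
        apply Finset.prod_le_prod
        · intro p _
          exact mul_nonneg (ws_nonneg (hq2 p.1 p.2) _) (by
            have := aL_nonneg (CL Hs σ σ' p.1) (Hc Hs q (lc σ σ') p.1 (y p)) (hp2 p.1 p.2)
            linarith)
        · intro p _
          have := mul_nonneg (ws_nonneg (hq2 p.1 p.2) (y p))
            (dL_nonneg (CL Hs σ σ' p.1) (Hc Hs q (lc σ σ') p.1 (y p)) (e p.1) (hp2 p.1 p.2))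
          linarith)
    refine h1.trans ?_
    rw [Finset.sum_sub_distrib, sum_prod_eq P (fun p s => ws q p s *
        (1 + aL (CL Hs σ σ' p) (Hc Hs q (lc σ σ') p s) p)),
      sum_prod_eq P (fun p s => ws q p s * (1 + aL (CL Hs σ σ' p) (Hc Hs q (lc σ σ') p s) p) +
        ws q p s * dL (CL Hs σ σ' p) (Hc Hs q (lc σ σ') p s) (e p) p)]
    have e3 : ∏ p ∈ P, ∑ s : Finset (T ⊕ T),
        (ws q p s * (1 + aL (CL Hs σ σ' p) (Hc Hs q (lc σ σ') p s) p) +
        ws q p s * dL (CL Hs σ σ' p) (Hc Hs q (lc σ σ') p s) (e p) p) =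
      ∏ p ∈ P, (∑ s : Finset (T ⊕ T), ws q p s * (1 + aL (CL Hs σ σ' p) (Hc Hs q (lc σ σ') p s) p) +
        ∑ s : Finset (T ⊕ T), ws q p s * dL (CL Hs σ σ' p) (Hc Hs q (lc σ σ') p s) (e p) p) := by
      apply Finset.prod_congr rfl
      intro p _
      rw [Finset.sum_add_distrib]
    rw [e3]
    have hO0 : ∀ p ∈ P, 0 ≤ ∑ s : Finset (T ⊕ T),
        ws q p s * dL (CL Hs σ σ' p) (Hc Hs q (lc σ σ') p s) (e p) p := fun p hp =>
      Finset.sum_nonneg (fun s _ => mul_nonneg (ws_nonneg (hq2 p hp) s)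
        (dL_nonneg _ _ _ (hp2 p hp)))
    refine (exp_prod P _ _ (fun p hp => one_le_main Hs q σ σ' (hp2 p hp) (hq2 p hp)) hO0).trans ?_
    have hO : ∑ p ∈ P, ∑ s : Finset (T ⊕ T),
        ws q p s * dL (CL Hs σ σ' p) (Hc Hs q (lc σ σ') p s) (e p) p ≤
        ((4 ^ n * (4 * m + 2) : ℕ) : ℝ) * dl e Hs P (pos σ ∪ pos σ') := by
      calc ∑ p ∈ P, ∑ s : Finset (T ⊕ T),
          ws q p s * dL (CL Hs σ σ' p) (Hc Hs q (lc σ σ') p s) (e p) p
          ≤ ∑ p ∈ P, (4 ^ n * (4 * m + 2)) *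
            (1 / ((p : ℝ) - 1) ^ 2 + (if e p ∈ CL Hs σ σ' p then 1 / ((p : ℝ) - 1) else 0)) :=
          Finset.sum_le_sum (fun p hp => sum_dev hn Hs q σ σ' (e p) (hp2 p hp) (hq2 p hp) (hcard p hp))
        _ = (4 ^ n * (4 * m + 2)) * ∑ p ∈ P,
            (1 / ((p : ℝ) - 1) ^ 2 + (if e p ∈ CL Hs σ σ' p then 1 / ((p : ℝ) - 1) else 0)) := by
            rw [Finset.mul_sum]
        _ ≤ (4 ^ n * (4 * m + 2)) * dl e Hs P (pos σ ∪ pos σ') := by
            have := dl_eq e Hs P σ σ' (fun p hp => (hP p hp).1)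
            gcongr
        _ = _ := by rw [hK]
    have hexp := Real.exp_le_exp.2 hO
    have hexp0 := Real.one_le_exp (Finset.sum_nonneg hO0)
    have hPi : ∏ p ∈ P, ∑ s : Finset (T ⊕ T),
        ws q p s * (1 + aL (CL Hs σ σ' p) (Hc Hs q (lc σ σ') p s) p) ≤
        Pi1 q P ^ (4 ^ n * (4 * m + 2)) := by
      apply Pi1_pow q P hq2
      · intro p hp
        have := one_le_main Hs q σ σ' (hp2 p hp) (hq2 p hp)
        linarith
      · intro p hp
        rw [hK]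
        exact sum_main hn Hs q σ σ' (hp2 p hp) (hq2 p hp) (hcard p hp) (hqp p hp)
    have hPi0 : 0 ≤ ∏ p ∈ P, ∑ s : Finset (T ⊕ T),
        ws q p s * (1 + aL (CL Hs σ σ' p) (Hc Hs q (lc σ σ') p s) p) := by
      apply Finset.prod_nonneg
      intro p hp
      have := one_le_main Hs q σ σ' (hp2 p hp) (hq2 p hp)
      linarith
    apply mul_le_mul hPi (by linarith) (by linarith) (le_trans hPi0 hPi)
  · -- (iii)
    intro F D2 hF hD
    rw [← Finset.sum_product' (f := fun R R' => (∏ τ, wt q (R τ)) * (∏ τ, wt q (R' τ)) *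
        ∑ T2 ∈ (QQ R R').powerset, (∏ p ∈ T2, sL (CL Hs σ σ' p) (hh Hs q σ σ' R R' p)) * F T2)]
    -- term bound
    have e1 : ∀ x ∈ Fintype.piFinset S ×ˢ Fintype.piFinset S',
        (∏ τ, wt q (x.1 τ)) * (∏ τ, wt q (x.2 τ)) *
        ∑ T2 ∈ (QQ x.1 x.2).powerset,
          (∏ p ∈ T2, sL (CL Hs σ σ' p) (hh Hs q σ σ' x.1 x.2 p)) * F T2 ≤
        ∑ T2 ∈ P.powerset.filter (fun T : Finset ℕ => ∏ p ∈ T, p ≤ D2),
          F T2 * ∏ p : P, (ws q p.1 (cc x p.1) *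
            (if p.1 ∈ T2 then sL (CL Hs σ σ' p.1) (Hc Hs q (lc σ σ') p.1 (cc x p.1)) else 1)) := by
      intro x hx
      have hsubQ : (QQ x.1 x.2).powerset ⊆
          P.powerset.filter (fun T : Finset ℕ => ∏ p ∈ T, p ≤ D2) := by
        intro T2 hT2
        rw [Finset.mem_powerset] at hT2
        rw [Finset.mem_filter, Finset.mem_powerset]
        refine ⟨hT2.trans (QQ_sub P x (hsub1 x hx) (hsub2 x hx)), ?_⟩
        have hxD := hD x.1 (Finset.mem_product.1 hx).1 x.2 (Finset.mem_product.1 hx).2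
        refine le_trans ?_ hxD
        have hpos1 : ∀ p ∈ P, 1 ≤ p := fun p hp => (hP p hp).1.one_le
        have hdvd : ∏ p ∈ T2, p ∣ (∏ τ, ∏ p ∈ x.1 τ, p) * (∏ τ, ∏ p ∈ x.2 τ, p) := by
          apply Finset.prod_primes_dvd
          · intro p hp
            exact (hP p (QQ_sub P x (hsub1 x hx) (hsub2 x hx) (hT2 hp))).1.prime
          · intro p hp
            have hpQ := hT2 hp
            unfold QQ at hpQ
            rw [Finset.mem_union, Finset.mem_biUnion, Finset.mem_biUnion] at hpQ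
            rcases hpQ with ⟨τ, _, h⟩ | ⟨τ, _, h⟩
            · apply Dvd.dvd.mul_right
              exact (Finset.dvd_prod_of_mem (fun q => q) h).trans
                (Finset.dvd_prod_of_mem (fun τ => ∏ p ∈ x.1 τ, p) (Finset.mem_univ τ))
            · apply Dvd.dvd.mul_left
              exact (Finset.dvd_prod_of_mem (fun q => q) h).trans
                (Finset.dvd_prod_of_mem (fun τ => ∏ p ∈ x.2 τ, p) (Finset.mem_univ τ))
        apply Nat.le_of_dvd _ hdvd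
        apply Nat.mul_pos
        · exact Finset.prod_pos (fun τ _ => Finset.prod_pos (fun p hp =>
            hpos1 p (hsub1 x hx τ hp)))
        · exact Finset.prod_pos (fun τ _ => Finset.prod_pos (fun p hp =>
            hpos1 p (hsub2 x hx τ hp)))
      rw [wt_eq q P x (hsub1 x hx) (hsub2 x hx), Finset.mul_sum]
      have hterm0 : ∀ T2, 0 ≤ F T2 * ∏ p : P, (ws q p.1 (cc x p.1) *
            (if p.1 ∈ T2 then sL (CL Hs σ σ' p.1) (Hc Hs q (lc σ σ') p.1 (cc x p.1)) else 1)) := by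
        intro T2
        apply mul_nonneg (hF T2)
        apply Finset.prod_nonneg
        intro p _
        apply mul_nonneg (ws_nonneg (hq2 p.1 p.2) _)
        split_ifs
        · exact sL_nonneg _ _
        · norm_num
      calc _ = ∑ T2 ∈ (QQ x.1 x.2).powerset, F T2 * ∏ p : P, (ws q p.1 (cc x p.1) *
            (if p.1 ∈ T2 then sL (CL Hs σ σ' p.1) (Hc Hs q (lc σ σ') p.1 (cc x p.1)) else 1)) := by
            apply Finset.sum_congr rfl
            intro T2 hT2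
            rw [Finset.mem_powerset] at hT2
            rw [Finset.prod_coe_sort P (fun p => ws q p (cc x p) *
              (if p ∈ T2 then sL (CL Hs σ σ' p) (Hc Hs q (lc σ σ') p (cc x p)) else 1)),
              Finset.prod_mul_distrib]
            have e4 : ∏ p ∈ P, (if p ∈ T2 then sL (CL Hs σ σ' p) (Hc Hs q (lc σ σ') p (cc x p)) else 1) =
                ∏ p ∈ T2, sL (CL Hs σ σ' p) (hh Hs q σ σ' x.1 x.2 p) := by
              rw [← Finset.prod_filter]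
              have e5 : P.filter (fun p => p ∈ T2) = T2 := by
                ext p
                rw [Finset.mem_filter]
                exact ⟨fun h => h.2, fun h =>
                  ⟨QQ_sub P x (hsub1 x hx) (hsub2 x hx) (hT2 h), h⟩⟩
              rw [e5]
              apply Finset.prod_congr rfl
              intro p _
              rw [hh_eq]
            rw [e4]
            ring
        _ ≤ _ := Finset.sum_le_sum_of_subset_of_nonneg hsubQ (fun T2 _ _ => hterm0 T2)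
    refine (Finset.sum_le_sum e1).trans ?_
    rw [Finset.sum_comm, Finset.mul_sum]
    apply Finset.sum_le_sum
    intro T2 hT2
    rw [Finset.mem_filter, Finset.mem_powerset] at hT2
    rw [← Finset.mul_sum]
    have h1 := inj_sum P (Fintype.piFinset S ×ˢ Fintype.piFinset S') cc hinj
      (fun y => ∏ p : P, (ws q p.1 (y p) *
            (if p.1 ∈ T2 then sL (CL Hs σ σ' p.1) (Hc Hs q (lc σ σ') p.1 (y p)) else 1))) (fun y => by
        apply Finset.prod_nonneg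
        intro p _
        apply mul_nonneg (ws_nonneg (hq2 p.1 p.2) _)
        split_ifs
        · exact sL_nonneg _ _
        · norm_num)
    have h2 : ∑ x ∈ Fintype.piFinset S ×ˢ Fintype.piFinset S', ∏ p : P, (ws q p.1 (cc x p.1) *
            (if p.1 ∈ T2 then sL (CL Hs σ σ' p.1) (Hc Hs q (lc σ σ') p.1 (cc x p.1)) else 1)) ≤
        Pi1 q P ^ (4 ^ n * (4 * m + 2)) * ((4 ^ n * (4 * m + 2) : ℕ) : ℝ) ^ T2.card := by
      refine h1.trans ?_
      rw [sum_prod_eq P (fun p s => ws q p s *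
            (if p ∈ T2 then sL (CL Hs σ σ' p) (Hc Hs q (lc σ σ') p s) else 1))]
      have hloc : ∀ p ∈ P, ∑ s : Finset (T ⊕ T), ws q p s *
            (if p ∈ T2 then sL (CL Hs σ σ' p) (Hc Hs q (lc σ σ') p s) else 1) ≤
          (1 + ((4 ^ n * (4 * m + 2) : ℕ) : ℝ) * (1 / (q p - 1))) *
            (if p ∈ T2 then ((4 ^ n * (4 * m + 2) : ℕ) : ℝ) else 1) := by
        intro p hp
        have hp' : (2 : ℝ) ≤ q p := hq2 p hp
        have h0 : (0 : ℝ) < q p - 1 := by linarith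
        rw [hK]
        split_ifs
        · have h3 := sum_size hn Hs q σ σ' (hq2 p hp) (hcard p hp)
          have h4 : (0 : ℝ) ≤ 4 ^ n * (4 * m + 2) * (1 / (q p - 1)) := by positivity
          have h5 : (0 : ℝ) ≤ 4 ^ n * (4 * m + 2) := by positivity
          nlinarith
        · have h3 := sum_ws (T := T) hn (hq2 p hp)
          rw [mul_one]
          simp only [mul_one]
          refine h3.trans ?_
          have h6 : (4 : ℝ) ^ n * (1 / (q p - 1)) ≤
              4 ^ n * (4 * m + 2) * (1 / (q p - 1)) := by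
            have h7 : (1 : ℝ) ≤ 4 * m + 2 := by
              have : (0 : ℝ) ≤ m := by positivity
              linarith
            have h8 : (0 : ℝ) ≤ 4 ^ n := by positivity
            have h9 : (4 : ℝ) ^ n ≤ 4 ^ n * (4 * m + 2) := by nlinarith
            gcongr
          linarith
      have hnn : ∀ p ∈ P, 0 ≤ ∑ s : Finset (T ⊕ T), ws q p s *
            (if p ∈ T2 then sL (CL Hs σ σ' p) (Hc Hs q (lc σ σ') p s) else 1) := by
        intro p hp
        apply Finset.sum_nonneg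
        intro s _
        apply mul_nonneg (ws_nonneg (hq2 p hp) s)
        split_ifs
        · exact sL_nonneg _ _
        · norm_num
      refine (Finset.prod_le_prod hnn hloc).trans ?_
      rw [Finset.prod_mul_distrib]
      have e6 : ∏ p ∈ P, (if p ∈ T2 then ((4 ^ n * (4 * m + 2) : ℕ) : ℝ) else 1) =
          ((4 ^ n * (4 * m + 2) : ℕ) : ℝ) ^ T2.card := by
        rw [← Finset.prod_filter]
        have e5 : P.filter (fun p => p ∈ T2) = T2 := by
          ext p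
          rw [Finset.mem_filter]
          exact ⟨fun h => h.2, fun h => ⟨hT2.1 h, h⟩⟩
        rw [e5, Finset.prod_const]
      rw [e6]
      have h10 : ∏ p ∈ P, (1 + ((4 ^ n * (4 * m + 2) : ℕ) : ℝ) * (1 / (q p - 1))) ≤
          Pi1 q P ^ (4 ^ n * (4 * m + 2)) := by
        apply Pi1_pow q P hq2
        · intro p hp
          have hp' : (2 : ℝ) ≤ q p := hq2 p hp
          have h0 : (0 : ℝ) < q p - 1 := by linarith
          positivity
        · intro p hp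
          exact le_rfl
      gcongr
    calc F T2 * _ ≤ F T2 * (Pi1 q P ^ (4 ^ n * (4 * m + 2)) *
          ((4 ^ n * (4 * m + 2) : ℕ) : ℝ) ^ T2.card) :=
          mul_le_mul_of_nonneg_left h2 (hF T2)
      _ = _ := by ring


end Pool.Agent.H474R2.GE.SW

namespace Pool.Agent.H474R2.GE

theorem sumW : Pool.Agent.H474R2.GE.SumW := SW.sumW_aux

end Pool.Agent.H474R2.GE
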