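import Mathlib
import Pool.Agent.H474R2.GE.Core
import Pool.Agent.H474R2.GE.LocalSum
import Pool.Agent.H474R2.GE.ExpandW
import Pool.Agent.H474R2.GE.SumW
import Pool.Agent.H474R2.GE.MomW
import Pool.Agent.H474R2.GE.SecondW
import Pool.Agent.H474R2.GE.FourthW
import Pool.Agent.H474R2.GE.NTq
import Pool.Agent.H898R2.AC5
import Pool.Agent.H708R2.ACTypes
import Pool.Agent.H212R2.AC4b
import Pool.Agent.H20R2.EN.FLem

set_option autoImplicit false

namespace Pool.Agent.H474R2.GE

/-- the core theorem of the general engine -/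
theorem coreW : CoreW :=
  coreW_of
    (secondW_of Pool.Agent.H212R2.AC4b.countMaps
      (momW_of (expandW_of Pool.Agent.H20R2.fLem) sumW localSum))
    (fourthW_of Pool.Agent.H212R2.AC4b.countMaps (expandW_of Pool.Agent.H20R2.fLem))
    Pool.Agent.H898R2.AC5.collapse Pool.Agent.H898R2.AC5.mainIneq nTq Pool.Agent.H708R2.types

end Pool.Agent.H474R2.GE
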